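import Pool.Agent.H56.HR.DIS

/-!
# Module CTB: countable covering of the exceptional set

PROOF. Let `w0 ∈ Ann r R` (for instance the real number `(r + R) / 2`), `ρ = ‖w0‖`, `C = ψ '' sphere 0 ρ`: compact (`so_cont`), contained in `A`, `A` open (`sr_open`). If `Aᶜ` is empty any `k` works; otherwise the continuous function `chord` (`chord_cont`) on the compact set `C ×ˢ Aᶜ` is positive (`chord_pos`), so
`chord x y ≥ 2 η > 0` for `x ∈ C`, `y ∉ A`. Choose `k` with `1 / (k + 1) < η`. For `x ∈ C` the set of the `q` with `chord q x < 1 / (k+1)` and `η < chord q y` for all `y ∈ Aᶜ` is a neighbourhood of `x` (compactness of `Aᶜ`: generalized tube lemma `generalized_tube_lemma`, or: the function `q ↦ inf` ..; or prove the triangle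
inequality for `chord`, then `2 η - 1/(k+1) > η`), so it contains the image of some `denseSeq ℂ i` (`OnePoint.denseRange_coe`, `denseRange_denseSeq`): `chord q_i x < 1/(k+1)` and the closed disc `{y | chord q_i y ≤ 1/(k+1)}` is contained in `A`. The open sets `{x | chord q_i x < 1/(k+1)}` for these `i` cover `C`: finite
subcover `t`. Then `R0 t k ⊆ A`, `C ⊆ R0 t k`, and the orbit of `z = ψ w0` under `f^[p * n]` is `ψ (l ^ n * w0) ∈ C` (`sr_rot`).
-/

set_option autoImplicit false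

open Filter Topology Polynomial Metric Set MeasureTheory

namespace Pool.Agent.H56.HR

open Pool.Agent.H44.Fatou Pool.Agent.H32.BT Pool.Agent.H79.Eul Pool.Agent.H79.Par
open Pool.Agent.H35.EX Pool.Agent.H44.RR

theorem r0_closed (t : Finset ℕ) (k : ℕ) : IsClosed (R0 t k) := by
  unfold R0
  refine t.finite_toSet.isClosed_biUnion fun i _ => ?_
  exact isClosed_le (chord_cont.comp (continuous_const.prodMk continuous_id)) continuous_const

theorem ctb {f : OnePoint ℂ → OnePoint ℂ} {A : Set (OnePoint ℂ)} {p : ℕ} {l : ℂ}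
    {ψ : ℂ → OnePoint ℂ} {r R : ℝ} (h : SRing f A p l ψ r R) :
    ∃ (t : Finset ℕ) (k : ℕ), R0 t k ⊆ A ∧ ∃ z : OnePoint ℂ, ∀ n : ℕ, f^[p * n] z ∈ R0 t k := by
  have hr := h.hr
  have hrR := h.hrR
  obtain ⟨ρ, hρ⟩ : ∃ ρ : ℝ, ρ = (r + R) / 2 := ⟨_, rfl⟩
  have hρ0 : 0 < ρ := by
    rw [hρ]
    linarith
  have hρr : r < ρ := by
    rw [hρ]
    linarith
  have hρR : ρ < R := by
    rw [hρ]
    linarith
  have hsA : sphere (0 : ℂ) ρ ⊆ Ann r R := by
    intro w hw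
    rw [mem_sphere_zero_iff_norm] at hw
    change r < ‖w‖ ∧ ‖w‖ < R
    rw [hw]
    exact ⟨hρr, hρR⟩
  obtain ⟨C, hC⟩ : ∃ C, C = ψ '' sphere (0 : ℂ) ρ := ⟨_, rfl⟩
  have hCc : IsCompact C := by
    rw [hC]
    exact (isCompact_sphere 0 ρ).image_of_continuousOn fun w hw =>
      (so_cont (h.hol w (hsA hw))).continuousWithinAt
  have hCA : C ⊆ A := by
    rw [hC]
    rintro _ ⟨w, hw, rfl⟩
    exact h.bij.mapsTo (hsA hw)
  have hD : IsCompact Aᶜ := (sr_open h).isClosed_compl.isCompact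
  obtain ⟨η, hη, hηC⟩ : ∃ η : ℝ, 0 < η ∧ ∀ x ∈ C, ∀ y ∈ Aᶜ, η < chord x y := by
    rcases (C ×ˢ Aᶜ).eq_empty_or_nonempty with he | hne
    · refine ⟨1, one_pos, fun x hx y hy => ?_⟩
      have : (x, y) ∈ C ×ˢ Aᶜ := ⟨hx, hy⟩
      rw [he] at this
      exact this.elim
    · obtain ⟨⟨x0, y0⟩, ⟨hx0, hy0⟩, hmin⟩ := (hCc.prod hD).exists_isMinOn hne chord_cont.continuousOn
      have hne0 : x0 ≠ y0 := fun h1 => hy0 (h1 ▸ hCA hx0)
      have hpos : 0 < chord x0 y0 := chord_pos hne0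
      refine ⟨chord x0 y0 / 2, by linarith, fun x hx y hy => ?_⟩
      have h1 : chord x0 y0 ≤ chord x y := hmin (show (x, y) ∈ C ×ˢ Aᶜ from ⟨hx, hy⟩)
      linarith
  obtain ⟨k, hk⟩ := exists_nat_one_div_lt hη
  have hk0 : (0 : ℝ) < 1 / ((k : ℝ) + 1) := by positivity
  obtain ⟨T, hT⟩ : ∃ T : Set ℕ, T = {i | ∀ y ∈ Aᶜ, 1 / ((k : ℝ) + 1) <
    chord ((TopologicalSpace.denseSeq ℂ i : ℂ) : OnePoint ℂ) y} := ⟨_, rfl⟩
  have hcov : C ⊆ ⋃ i ∈ T, {x : OnePoint ℂ |
      chord ((TopologicalSpace.denseSeq ℂ i : ℂ) : OnePoint ℂ) x < 1 / ((k : ℝ) + 1)} := by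
    intro x hx
    have hO : IsOpen {q : OnePoint ℂ × OnePoint ℂ | 1 / ((k : ℝ) + 1) < chord q.1 q.2} :=
      isOpen_lt continuous_const chord_cont
    obtain ⟨u, v, hu, -, hxu, hDv, huv⟩ := generalized_tube_lemma (isCompact_singleton (x := x)) hD hO
      (by
        rintro ⟨a, b⟩ ⟨ha, hb⟩
        have ha' : a = x := ha
        change 1 / ((k : ℝ) + 1) < chord a b
        rw [ha']
        exact hk.trans (hηC x hx b hb))
    have hW : IsOpen (u ∩ {q : OnePoint ℂ | chord q x < 1 / ((k : ℝ) + 1)}) := by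
      refine hu.inter (isOpen_lt ?_ continuous_const)
      exact chord_cont.comp (continuous_id.prodMk continuous_const)
    have hxW : x ∈ u ∩ {q : OnePoint ℂ | chord q x < 1 / ((k : ℝ) + 1)} := by
      refine ⟨hxu (mem_singleton x), ?_⟩
      change chord x x < _
      rw [chord_zero]
      exact hk0
    have hdr : DenseRange (fun i : ℕ => ((TopologicalSpace.denseSeq ℂ i : ℂ) : OnePoint ℂ)) :=
      OnePoint.denseRange_coe.comp (TopologicalSpace.denseRange_denseSeq ℂ) OnePoint.continuous_coe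
    obtain ⟨i, hi1, hi2⟩ := hdr.exists_mem_open hW ⟨x, hxW⟩
    refine mem_iUnion₂.2 ⟨i, ?_, hi2⟩
    rw [hT]
    intro y hy
    exact huv (show (((TopologicalSpace.denseSeq ℂ i : ℂ) : OnePoint ℂ), y) ∈ u ×ˢ v from
      ⟨hi1, hDv hy⟩)
  obtain ⟨T', hT', hfin, hcov'⟩ := hCc.elim_finite_subcover_image (fun i _ =>
    isOpen_lt (chord_cont.comp (continuous_const.prodMk continuous_id)) continuous_const) hcov
  refine ⟨hfin.toFinset, k, ?_, ψ ρ, fun n => ?_⟩
  · intro x hx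
    unfold R0 at hx
    obtain ⟨i, hi, hix⟩ := mem_iUnion₂.1 hx
    rw [Set.Finite.mem_toFinset] at hi
    have h1 := hT' hi
    rw [hT] at h1
    by_contra hxA
    exact absurd (h1 x hxA) (not_lt.2 hix)
  · have hw : ((ρ : ℝ) : ℂ) ∈ sphere (0 : ℂ) ρ := by
      rw [mem_sphere_zero_iff_norm, Complex.norm_real, Real.norm_eq_abs, abs_of_pos hρ0]
    rw [sr_rot h n (hsA hw)]
    have h1 : l ^ n * ((ρ : ℝ) : ℂ) ∈ sphere (0 : ℂ) ρ := by
      rw [mem_sphere_zero_iff_norm] at hw ⊢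
      rw [norm_mul, norm_pow, h.rotl.nor, one_pow, one_mul, hw]
    have h2 : ψ (l ^ n * ((ρ : ℝ) : ℂ)) ∈ C := by
      rw [hC]
      exact ⟨_, h1, rfl⟩
    obtain ⟨i, hi, hix⟩ := mem_iUnion₂.1 (hcov' h2)
    unfold R0
    have hix' : chord ((TopologicalSpace.denseSeq ℂ i : ℂ) : OnePoint ℂ)
        (ψ (l ^ n * ((ρ : ℝ) : ℂ))) ≤ 1 / ((k : ℝ) + 1) := le_of_lt hix
    exact mem_iUnion₂.2 ⟨i, hfin.mem_toFinset.2 hi, hix'⟩

end Pool.Agent.H56.HR
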