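import Pool.Agent.H56.HR.FUN

/-!
# Module JMP: the jump of the potential, and independence of the contour

PROOFS. `jmp`: `x = psi i w0`, `F w = ∑ j ∈ range p, (1 / (x - psi j w)) / (w * deriv (psi j) w)`, so `QQ s x = Real.circleAverage F 0 s`. `F` is differentiable on `Ann r R \ {w0}`: `psi j w ≠ psi i w0` unless `j = i`, `w = w0` (`h.inj`), `psi_hd`,
`psi_an` (derivative analytic), `psi_dn`. At `w0` the terms `j ≠ i` are continuous and `(w - w0) / ((x - psi i w) * (w * deriv (psi i) w)) → - 1 / (deriv (psi i) w0 * (w0 * deriv (psi i) w0)) = c` (slope of `psi i` at `w0`).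
`cav_res` (CAV): `c / w0 = - 1 / (w0 * deriv (psi i) w0) ^ 2`. `hh_jmp`: multiply by `(w0 * deriv (psi i) w0) ^ 2`.
`la_indep`: the integrand is differentiable on `Ann r R` (`xi v0 u` is differentiable where `ev v0.2 ≠ 0`), `cav_indep`.
-/

set_option autoImplicit false

open Filter Topology Polynomial Metric Set MeasureTheory

namespace Pool.Agent.H56.HR

open Pool.Agent.H44.Fatou Pool.Agent.H32.BT Pool.Agent.H79.Eul Pool.Agent.H79.Par Pool.Agent.H61.TT

variable {d : ℕ} {v0 : E d} {p : ℕ} {l : ℂ} {ψ : ℂ → ℂ} {r R : ℝ}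

private theorem lim_i (h : Ring v0 p l ψ r R) {i : ℕ} (hi : i < p) {w0 : ℂ} (hw0 : w0 ∈ Ann r R) :
    Tendsto (fun w => (w - w0) * (1 / (psi v0 ψ i w0 - psi v0 ψ i w) / (w * deriv (psi v0 ψ i) w))) (𝓝[≠] w0)
      (𝓝 (-1 / (deriv (psi v0 ψ i) w0 * (w0 * deriv (psi v0 ψ i) w0)))) := by
  have hwp : w0 ≠ 0 := norm_pos_iff.1 (h.hr.trans hw0.1)
  have hD := psi_dn h hi.le hw0
  have h1 : Tendsto (slope (psi v0 ψ i) w0) (𝓝[≠] w0) (𝓝 (deriv (psi v0 ψ i) w0)) :=
    hasDerivAt_iff_tendsto_slope.1 (psi_hd h i hw0).hasDerivAt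
  have h2 : Tendsto (fun w => w * deriv (psi v0 ψ i) w) (𝓝[≠] w0) (𝓝 (w0 * deriv (psi v0 ψ i) w0)) := by
    have h3 : ContinuousAt (fun w => w * deriv (psi v0 ψ i) w) w0 :=
      continuousAt_id.mul (psi_an h i hw0).deriv.continuousAt
    exact h3.tendsto.mono_left nhdsWithin_le_nhds
  have h4 := ((h1.mul h2).inv₀ (mul_ne_zero hD (mul_ne_zero hwp hD))).neg
  have e : -(deriv (psi v0 ψ i) w0 * (w0 * deriv (psi v0 ψ i) w0))⁻¹ =
      -1 / (deriv (psi v0 ψ i) w0 * (w0 * deriv (psi v0 ψ i) w0)) := by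
    rw [neg_div, one_div]
  rw [e] at h4
  refine h4.congr' ?_
  filter_upwards [self_mem_nhdsWithin] with w hw
  have hw' : w - w0 ≠ 0 := sub_ne_zero.2 hw
  rw [slope_def_field]
  by_cases h5 : psi v0 ψ i w - psi v0 ψ i w0 = 0
  · have h6 : psi v0 ψ i w0 - psi v0 ψ i w = 0 := by rw [← neg_sub, h5, neg_zero]
    rw [h5, h6]
    simp
  · have h6 : psi v0 ψ i w0 - psi v0 ψ i w ≠ 0 := by rw [← neg_sub]; exact neg_ne_zero.2 h5
    rw [mul_inv, inv_div, ← neg_sub (psi v0 ψ i w0) (psi v0 ψ i w), div_neg, neg_mul, neg_neg]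
    field_simp

theorem jmp (h : Ring v0 p l ψ r R) {i : ℕ} (hi : i < p) {w0 : ℂ} {s1 s2 : ℝ} (h1 : r < s1)
    (h2 : s1 < ‖w0‖) (h3 : ‖w0‖ < s2) (h4 : s2 < R) :
    QQ v0 p ψ s2 (psi v0 ψ i w0) - QQ v0 p ψ s1 (psi v0 ψ i w0) =
      -1 / (w0 * deriv (psi v0 ψ i) w0) ^ 2 := by
  have hw0 : w0 ∈ Ann r R := ⟨h1.trans h2, h3.trans h4⟩
  have hwp : w0 ≠ 0 := norm_pos_iff.1 (h.hr.trans hw0.1)
  have hD := psi_dn h hi.le hw0
  have hne : ∀ j < p, ∀ w ∈ Ann r R, (j ≠ i ∨ w ≠ w0) → psi v0 ψ i w0 - psi v0 ψ j w ≠ 0 := by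
    intro j hj w hw hor h0
    obtain ⟨h5, h6⟩ := h.inj i hi j hj w0 hw0 w hw (sub_eq_zero.1 h0)
    rcases hor with h7 | h7
    · exact h7 h5.symm
    · exact h7 h6.symm
  have hterm : ∀ j < p, ∀ w ∈ Ann r R, (j ≠ i ∨ w ≠ w0) →
      DifferentiableAt ℂ (fun w => 1 / (psi v0 ψ i w0 - psi v0 ψ j w) / (w * deriv (psi v0 ψ j) w)) w := by
    intro j hj w hw hor
    have hwne : w ≠ 0 := norm_pos_iff.1 (h.hr.trans hw.1)
    refine DifferentiableAt.div (DifferentiableAt.div (differentiableAt_const _)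
      ((differentiableAt_const _).sub (psi_hd h j hw)) (hne j hj w hw hor))
      (differentiableAt_id.mul (psi_an h j hw).deriv.differentiableAt) (mul_ne_zero hwne (psi_dn h hj.le hw))
  have hF : DifferentiableOn ℂ (fun w => ∑ j ∈ Finset.range p,
      1 / (psi v0 ψ i w0 - psi v0 ψ j w) / (w * deriv (psi v0 ψ j) w)) (Ann r R \ {w0}) := by
    intro w hw
    refine (DifferentiableAt.fun_sum fun j hj => ?_).differentiableWithinAt
    exact hterm j (Finset.mem_range.1 hj) w hw.1 (Or.inr hw.2)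
  have hc : Tendsto (fun w => (w - w0) * ∑ j ∈ Finset.range p,
      1 / (psi v0 ψ i w0 - psi v0 ψ j w) / (w * deriv (psi v0 ψ j) w)) (𝓝[≠] w0)
      (𝓝 (-1 / (deriv (psi v0 ψ i) w0 * (w0 * deriv (psi v0 ψ i) w0)))) := by
    have h5 : ∀ j ∈ Finset.range p, Tendsto (fun w => (w - w0) *
        (1 / (psi v0 ψ i w0 - psi v0 ψ j w) / (w * deriv (psi v0 ψ j) w))) (𝓝[≠] w0)
        (𝓝 (if j = i then -1 / (deriv (psi v0 ψ i) w0 * (w0 * deriv (psi v0 ψ i) w0)) else 0)) := by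
      intro j hj
      by_cases hji : j = i
      · rw [if_pos hji, hji]
        exact lim_i h hi hw0
      · rw [if_neg hji]
        have h6 : ContinuousAt (fun w => (w - w0) *
            (1 / (psi v0 ψ i w0 - psi v0 ψ j w) / (w * deriv (psi v0 ψ j) w))) w0 :=
          (continuousAt_id.sub continuousAt_const).mul
            (hterm j (Finset.mem_range.1 hj) w0 hw0 (Or.inl hji)).continuousAt
        have h7 := h6.tendsto
        rw [sub_self, zero_mul] at h7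
        exact h7.mono_left nhdsWithin_le_nhds
    have h8 := tendsto_finsetSum _ h5
    rw [Finset.sum_ite_eq' (Finset.range p) i, if_pos (Finset.mem_range.2 hi)] at h8
    refine h8.congr fun w => ?_
    rw [Finset.mul_sum]
  have h9 := cav_res h.hr.le hF hc h1 h2 h3 h4
  have h10 : -1 / (deriv (psi v0 ψ i) w0 * (w0 * deriv (psi v0 ψ i) w0)) / w0 =
      -1 / (w0 * deriv (psi v0 ψ i) w0) ^ 2 := by
    rw [div_div]
    congr 1
    ring
  rw [← h10]
  exact h9

theorem hh_jmp (h : Ring v0 p l ψ r R) {i : ℕ} (hi : i < p) {w0 : ℂ} {s1 s2 : ℝ} (h1 : r < s1)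
    (h2 : s1 < ‖w0‖) (h3 : ‖w0‖ < s2) (h4 : s2 < R) :
    hh v0 p ψ s2 i w0 - hh v0 p ψ s1 i w0 = -1 := by
  have hw0 : w0 ∈ Ann r R := ⟨h1.trans h2, h3.trans h4⟩
  have hwp : w0 ≠ 0 := norm_pos_iff.1 (h.hr.trans hw0.1)
  have hD := psi_dn h hi.le hw0
  have hX : (w0 * deriv (psi v0 ψ i) w0) ^ 2 ≠ 0 := pow_ne_zero _ (mul_ne_zero hwp hD)
  unfold hh
  rw [← sub_mul, jmp h hi h1 h2 h3 h4, div_mul_cancel₀ _ hX]

theorem kk_diff (h : Ring v0 p l ψ r R) (u : E d) :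
    DifferentiableOn ℂ (KK v0 p ψ u) (Ann r R) := by
  intro w hw
  have hwne : w ≠ 0 := norm_pos_iff.1 (h.hr.trans hw.1)
  refine DifferentiableAt.differentiableWithinAt ?_
  unfold KK
  refine DifferentiableAt.fun_sum fun j hj => ?_
  have hj' : j + 1 ≤ p := Finset.mem_range.1 hj
  have h1 : DifferentiableAt ℂ (xi v0 u) (psi v0 ψ j w) := by
    have e : xi v0 u = fun z => ((pol u.1).eval z * (pol v0.2).eval z - (pol v0.1).eval z * (pol u.2).eval z) /
        (pol v0.2).eval z ^ 2 := by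
      funext z
      unfold xi
      simp only [ev_pol]
    rw [e]
    refine DifferentiableAt.div ?_ ((pol v0.2).differentiableAt.pow 2) (pow_ne_zero _ (psi_b h j hw))
    exact ((pol u.1).differentiableAt.mul (pol v0.2).differentiableAt).sub
      ((pol v0.1).differentiableAt.mul (pol u.2).differentiableAt)
  refine DifferentiableAt.div (DifferentiableAt.comp w h1 (psi_hd h j hw))
    (differentiableAt_id.mul (psi_an h (j + 1) hw).deriv.differentiableAt) (mul_ne_zero hwne (psi_dn h hj' hw))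

theorem la_indep (h : Ring v0 p l ψ r R) (u : E d) {s t : ℝ} (hs : r < s) (hs' : s < R) (ht : r < t)
    (ht' : t < R) : LA v0 p ψ s (xi v0 u) = LA v0 p ψ t (xi v0 u) :=
  cav_indep h.hr.le (kk_diff h u) hs hs' ht ht'

end Pool.Agent.H56.HR
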