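import Pool.Agent.H56.HR.ANB

/-!
# Module CAV: circle averages of functions on annuli

PROOFS. `ann_conn`: `Ann r R` (`0 < r`) is the image of the convex set `{z : ℂ | log r < z.re < log R}` under `Complex.exp` (convex sets are preconnected, `IsPreconnected.image`); for `r = 0` the strip
is `{z | z.re < log R}`; if `R ≤ 0` the set is empty. `cav_rot`: `l = exp (I a)`, `l * circleMap 0 s t = circleMap 0 s (t + a)` and `Real.circleAverage_eq_integral_add` (or periodicity of
`t ↦ F (circleMap 0 s t)`, `Function.Periodic.intervalIntegral_add_eq`); no continuity needed. `cav_indep`: `Real.circleAverage_eq_circleIntegral` and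
`Complex.circleIntegral_sub_center_inv_smul_eq_of_differentiable_on_annulus_off_countable` (Mathlib/Analysis/Complex/CauchyIntegral) on the closed annulus between `s` and `t`.
`cav_res`: let `G w = F w - c / (w - w0)` for `w ≠ w0`; `(w - w0) * G w → 0`, so `G` extends to a function differentiable on `Ann r R`
(`Complex.differentiableOn_update_limUnder_of_isLittleO` on a small ball around `w0`); by `cav_indep` its averages over the two
circles agree, and the average of `c / (w - w0)` over `|w| = t` is `(2πi)⁻¹ ∮ c / ((w - w0) w) = (c / w0) (2πi)⁻¹ ∮ (1 / (w - w0) - 1 / w)`, equal to `0` for `‖w0‖ < t` and to `-c / w0` for `t < ‖w0‖`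
(`circleIntegral.integral_sub_inv_of_mem_ball`, `Complex.circleIntegral_eq_zero_of_differentiable_on_off_countable`).
-/

set_option autoImplicit false

open Filter Topology Polynomial Metric Set MeasureTheory

namespace Pool.Agent.H56.HR

open Pool.Agent.H44.Fatou Pool.Agent.H32.BT Pool.Agent.H79.Eul Pool.Agent.H79.Par Pool.Agent.H61.TT

theorem ann_conn {r R : ℝ} (hr : 0 ≤ r) : IsPreconnected (Ann r R) := by
  have h1 : Set.OrdConnected {x : ℝ | r < Real.exp x ∧ Real.exp x < R} :=
    ⟨fun x hx y hy z hz => ⟨hx.1.trans_le (Real.exp_le_exp.2 hz.1), (Real.exp_le_exp.2 hz.2).trans_lt hy.2⟩⟩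
  have h2 : Convex ℝ (Complex.reCLM ⁻¹' {x : ℝ | r < Real.exp x ∧ Real.exp x < R}) :=
    h1.convex.linear_preimage Complex.reCLM.toLinearMap
  have h3 : Ann r R = Complex.exp '' (Complex.reCLM ⁻¹' {x : ℝ | r < Real.exp x ∧ Real.exp x < R}) := by
    ext w
    constructor
    · rintro ⟨h4, h5⟩
      have hw : w ≠ 0 := norm_pos_iff.1 (hr.trans_lt h4)
      refine ⟨Complex.log w, ?_, Complex.exp_log hw⟩
      show r < Real.exp (Complex.log w).re ∧ Real.exp (Complex.log w).re < R
      rw [Complex.log_re, Real.exp_log (norm_pos_iff.2 hw)]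
      exact ⟨h4, h5⟩
    · rintro ⟨z, ⟨h4, h5⟩, rfl⟩
      show r < ‖Complex.exp z‖ ∧ ‖Complex.exp z‖ < R
      rw [Complex.norm_exp]
      exact ⟨h4, h5⟩
  rw [h3]
  exact h2.isPreconnected.image _ Complex.continuous_exp.continuousOn

theorem cav_rot {l : ℂ} (hl : ‖l‖ = 1) (F : ℂ → ℂ) (s : ℝ) :
    Real.circleAverage (fun w => F (l * w)) 0 s = Real.circleAverage F 0 s := by
  obtain ⟨a, ha⟩ : ∃ a : ℝ, l = Complex.exp (a * Complex.I) := by
    refine ⟨Complex.arg l, ?_⟩
    have h := Complex.norm_mul_exp_arg_mul_I l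
    rw [hl, Complex.ofReal_one, one_mul] at h
    exact h.symm
  rw [Real.circleAverage_def, Real.circleAverage_eq_integral_add a]
  have h : ∀ t : ℝ, l * circleMap 0 s t = circleMap 0 s (t + a) := by
    intro t
    rw [circleMap, circleMap, ha, Complex.ofReal_add, add_mul, Complex.exp_add]
    ring
  simp only [h]

theorem cav_indep {r R : ℝ} (hr : 0 ≤ r) {F : ℂ → ℂ} (hF : DifferentiableOn ℂ F (Ann r R)) {s t : ℝ}
    (hs : r < s) (hs' : s < R) (ht : r < t) (ht' : t < R) :
    Real.circleAverage F 0 s = Real.circleAverage F 0 t := by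
  have key : ∀ s t : ℝ, r < s → s ≤ t → t < R → Real.circleAverage F 0 s = Real.circleAverage F 0 t := by
    intro s t hs hst ht
    have hs0 : 0 < s := hr.trans_lt hs
    rw [Real.circleAverage_eq_circleIntegral hs0.ne', Real.circleAverage_eq_circleIntegral (hs0.trans_le hst).ne']
    congr 1
    refine (Complex.circleIntegral_sub_center_inv_smul_eq_of_differentiable_on_annulus_off_countable hs0 hst
      Set.countable_empty ?_ ?_).symm
    · refine hF.continuousOn.mono ?_
      rintro z ⟨h1, h2⟩
      rw [mem_closedBall_zero_iff] at h1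
      rw [mem_ball_zero_iff, not_lt] at h2
      exact ⟨hs.trans_le h2, h1.trans_lt ht⟩
    · rintro z ⟨⟨h1, h2⟩, -⟩
      rw [mem_ball_zero_iff] at h1
      rw [mem_closedBall_zero_iff, not_le] at h2
      exact hF.differentiableAt ((isOpen_Ann r R).mem_nhds ⟨hs.trans h2, h1.trans ht⟩)
  rcases le_total s t with h | h
  · exact key s t hs h ht'
  · exact (key t s ht h hs').symm

theorem cav_res {r R : ℝ} (hr : 0 ≤ r) {F : ℂ → ℂ} {w0 c : ℂ}
    (hF : DifferentiableOn ℂ F (Ann r R \ {w0}))
    (hc : Tendsto (fun w => (w - w0) * F w) (𝓝[≠] w0) (𝓝 c)) {s t : ℝ}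
    (hs : r < s) (hsw : s < ‖w0‖) (hwt : ‖w0‖ < t) (ht : t < R) :
    Real.circleAverage F 0 t - Real.circleAverage F 0 s = c / w0 := by
  have hs0 : 0 < s := hr.trans_lt hs
  have hw0p : 0 < ‖w0‖ := hs0.trans hsw
  have hw0 : w0 ≠ 0 := norm_pos_iff.1 hw0p
  have ht0 : 0 < t := hw0p.trans hwt
  have hmem : Ann r R ∈ 𝓝 w0 := (isOpen_Ann r R).mem_nhds ⟨hs.trans hsw, hwt.trans ht⟩
  obtain ⟨H, hH⟩ : ∃ H : ℂ → ℂ, H = Function.update (fun w => (w - w0) * F w) w0 c := ⟨_, rfl⟩
  have hHne : ∀ w, w ≠ w0 → H w = (w - w0) * F w := by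
    intro w hw
    rw [hH, Function.update_of_ne hw]
  have hH0 : H w0 = c := by rw [hH, Function.update_self]
  have hHc : ContinuousAt H w0 := by
    rw [hH, continuousAt_update_same]
    exact hc
  have hHd : DifferentiableOn ℂ H (Ann r R) := by
    refine (Complex.differentiableOn_compl_singleton_and_continuousAt_iff hmem).1 ⟨?_, hHc⟩
    refine DifferentiableOn.congr (f := fun w => (w - w0) * F w) ?_ (fun w hw => hHne w hw.2)
    exact DifferentiableOn.mul (by fun_prop) hF
  have hGd : DifferentiableOn ℂ (dslope H w0) (Ann r R) := (Complex.differentiableOn_dslope hmem).2 hHd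
  have hFe : ∀ w, w ≠ w0 → F w = dslope H w0 w + c * (w - w0)⁻¹ := by
    intro w hw
    have h1 : w - w0 ≠ 0 := sub_ne_zero.2 hw
    rw [dslope_of_ne _ hw, slope_def_field, hHne w hw, hH0]
    field_simp
    ring
  have hGi : ∀ u : ℝ, r < u → u < R → CircleIntegrable (dslope H w0) 0 u := by
    intro u hu hu'
    refine ContinuousOn.circleIntegrable (hr.trans hu.le) (hGd.continuousOn.mono ?_)
    intro z hz
    rw [mem_sphere_zero_iff_norm] at hz
    exact ⟨by rw [hz]; exact hu, by rw [hz]; exact hu'⟩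
  have hIi : ∀ u : ℝ, r < u → u ≠ ‖w0‖ → CircleIntegrable (fun w => c * (w - w0)⁻¹) 0 u := by
    intro u hu hu'
    refine ContinuousOn.circleIntegrable (hr.trans hu.le) ?_
    refine ContinuousOn.mul continuousOn_const (ContinuousOn.inv₀ (by fun_prop) ?_)
    intro z hz
    rw [mem_sphere_zero_iff_norm] at hz
    rw [sub_ne_zero]
    rintro rfl
    exact hu' hz.symm
  have hav : ∀ u : ℝ, r < u → u < R → u ≠ ‖w0‖ → Real.circleAverage F 0 u =
      Real.circleAverage (dslope H w0) 0 u + c * Real.circleAverage (fun w => (w - w0)⁻¹) 0 u := by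
    intro u hu hu' hne
    have h1 : Real.circleAverage F 0 u = Real.circleAverage (fun w => dslope H w0 w + c * (w - w0)⁻¹) 0 u := by
      refine Real.circleAverage_congr_sphere ?_
      intro w hw
      rw [mem_sphere_zero_iff_norm, abs_of_pos (hr.trans_lt hu)] at hw
      refine hFe w ?_
      rintro rfl
      exact hne hw.symm
    rw [h1, Real.circleAverage_fun_add (hGi u hu hu') (hIi u hu hne)]
    congr 1
    have h2 := Real.circleAverage_fun_smul (a := c) (f := fun w : ℂ => (w - w0)⁻¹) (c := 0) (R := u)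
    simpa only [smul_eq_mul] using h2
  have hsR : s < R := hsw.trans (hwt.trans ht)
  have hrt : r < t := hs.trans (hsw.trans hwt)
  rw [hav t hrt ht hwt.ne', hav s hs hsR hsw.ne, cav_indep hr hGd hs hsR hrt ht, add_sub_add_left_eq_sub]
  have hA : Real.circleAverage (fun w => (w - w0)⁻¹) 0 t = 0 := by
    have h1 : ∀ w ∈ sphere (0 : ℂ) |t|, (w - w0)⁻¹ = w0⁻¹ * (((w - 0) / (w - w0)) • (1 : ℂ)) + -w0⁻¹ := by
      intro w hw
      rw [mem_sphere_zero_iff_norm, abs_of_pos ht0] at hw
      have h2 : w - w0 ≠ 0 := by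
        rw [sub_ne_zero]
        rintro rfl
        exact hwt.ne hw
      rw [sub_zero, smul_eq_mul, mul_one]
      field_simp
      ring
    rw [Real.circleAverage_congr_sphere h1]
    have h3 : DiffContOnCl ℂ (fun _ : ℂ => (1 : ℂ)) (ball 0 |t|) := diffContOnCl_const
    have h4 := h3.circleAverage_smul_div (w := w0) (by rw [mem_ball_zero_iff, abs_of_pos ht0]; exact hwt)
    have hi : CircleIntegrable (fun w : ℂ => w0⁻¹ * (((w - 0) / (w - w0)) • (1 : ℂ))) 0 t := by
      have hco : ContinuousOn (fun w : ℂ => (w - 0) / (w - w0)) (sphere 0 t) := by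
        refine ContinuousOn.div (by fun_prop) (by fun_prop) ?_
        intro z hz
        rw [mem_sphere_zero_iff_norm] at hz
        rw [sub_ne_zero]
        rintro rfl
        exact hwt.ne hz
      exact ContinuousOn.circleIntegrable ht0.le (continuousOn_const.mul (hco.smul continuousOn_const))
    rw [Real.circleAverage_fun_add hi (by exact continuousOn_const.circleIntegrable ht0.le),
      Real.circleAverage_const]
    have h5 := Real.circleAverage_fun_smul (a := w0⁻¹) (f := fun w : ℂ => ((w - 0) / (w - w0)) • (1 : ℂ)) (c := 0) (R := t)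
    simp only [smul_eq_mul] at h5 h4 ⊢
    rw [h5, h4]
    ring
  have hB : Real.circleAverage (fun w => (w - w0)⁻¹) 0 s = -w0⁻¹ := by
    have h1 : DiffContOnCl ℂ (fun w : ℂ => (w - w0)⁻¹) (ball 0 |s|) := by
      refine DifferentiableOn.diffContOnCl ?_
      intro z hz
      have hz' := closure_ball_subset_closedBall hz
      rw [mem_closedBall_zero_iff, abs_of_pos hs0] at hz'
      refine (DifferentiableAt.inv (by fun_prop) ?_).differentiableWithinAt
      rw [sub_ne_zero]
      rintro rfl
      exact absurd hz' (not_le.2 hsw)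
    rw [h1.circleAverage, zero_sub, inv_neg]
  rw [hA, hB]
  ring

end Pool.Agent.H56.HR
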