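import Pool.Agent.H56.HR.DNS
import Pool.Agent.H56.HR.CAV

/-!
# Module KAP: an increasing family of functions along an irrational rotation is constant

PROOF. `‖h i w‖ ≤ ‖h (i+1) w‖`, so `‖h 0 w‖ ≤ ‖h p w‖ = ‖h 0 (l w)‖` for all `w`, hence `‖h 0 w‖ ≤ ‖h 0 (l w)‖ ≤ ‖h 0 (l ^ n w)‖` for `n ≥ 1`. By `dns` (`z = 1`) `l ^ n w` is arbitrarily close to `w` for some `n ≥ 1`, `h 0` is continuous: `‖h 0 (l w)‖ ≤ ‖h 0 w‖`.
So `‖h i w‖ = ‖h (i+1) w‖` for all `i < p`, and with `h i w = ρ h (i+1) w`, `ρ ≥ 0`, it follows that `h i w = h (i+1) w` (`ρ = 1` or both are zero). So all `h i w` are equal and `h 0 (l w) = h 0 w`. Then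
`h 0 (l ^ n w) = h 0 w`, and by `dns` and continuity `h 0 (z w) = h 0 w` for `‖z‖ = 1`. So `h 0` is constant on circles, its derivative vanishes: `t ↦ h 0 (e^(it) w)` has derivative `h 0' (w) * I w = 0` at `t = 0`. `Ann r' R'` is
open and (pre)connected (`ann_conn` in CAV), so `h 0` is constant (`IsOpen.is_const_of_deriv_eq_zero` or `IsPreconnected.constant...`; or: constant on circles and along radii).
-/

set_option autoImplicit false

open Filter Topology Polynomial Metric Set MeasureTheory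

namespace Pool.Agent.H56.HR

theorem kap {l : ℂ} (hl : Rot l) {r' R' : ℝ} (hr : 0 ≤ r') {p : ℕ} (hp : 0 < p) {g : ℕ → ℂ → ℂ}
    (hd : ∀ i ≤ p, DifferentiableOn ℂ (g i) (Ann r' R'))
    (hal : ∀ i < p, ∀ w ∈ Ann r' R', ∃ ρ : ℝ, 0 ≤ ρ ∧ ρ ≤ 1 ∧ g i w = (ρ : ℂ) * g (i + 1) w)
    (hgp : ∀ w ∈ Ann r' R', g p w = g 0 (l * w)) :
    ∃ κ : ℂ, ∀ i ≤ p, ∀ w ∈ Ann r' R', g i w = κ := by
  have hcont : ∀ w ∈ Ann r' R', ContinuousAt (g 0) w := fun w hw =>
    ((hd 0 (Nat.zero_le p)).differentiableAt ((isOpen_Ann r' R').mem_nhds hw)).continuousAt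
  have hn1 : ∀ i < p, ∀ w ∈ Ann r' R', ‖g i w‖ ≤ ‖g (i + 1) w‖ := by
    intro i hi w hw
    obtain ⟨ρ, h0, h1, h2⟩ := hal i hi w hw
    rw [h2, norm_mul, Complex.norm_real, Real.norm_of_nonneg h0]
    exact mul_le_of_le_one_left (norm_nonneg _) h1
  have hn2 : ∀ w ∈ Ann r' R', ∀ i j : ℕ, i + j ≤ p → ‖g i w‖ ≤ ‖g (i + j) w‖ := by
    intro w hw i j
    induction j with
    | zero => intro _; exact le_rfl
    | succ j ih =>
      intro h
      exact (ih (by omega)).trans (hn1 (i + j) (by omega) w hw)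
  have hn3 : ∀ w ∈ Ann r' R', ‖g 0 w‖ ≤ ‖g 0 (l * w)‖ := by
    intro w hw
    have h := hn2 w hw 0 p (by omega)
    rwa [zero_add, hgp w hw] at h
  have hn4 : ∀ w ∈ Ann r' R', ∀ n : ℕ, 1 ≤ n → ‖g 0 (l * w)‖ ≤ ‖g 0 (l ^ n * w)‖ := by
    intro w hw n hn
    induction n, hn using Nat.le_induction with
    | base => rw [pow_one]
    | succ n hn ih =>
      refine ih.trans ?_
      rw [pow_succ', mul_assoc]
      exact hn3 _ (pow_ann hl hw n)
  -- the orbit comes back near any point of the circle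
  have hret : ∀ w ∈ Ann r' R', ∀ z : ℂ, ‖z‖ = 1 → ∀ η : ℝ, 0 < η → ∃ n : ℕ, 1 ≤ n ∧ ‖g 0 (l ^ n * w) - g 0 (z * w)‖ < η := by
    intro w hw z hz η hη
    have hwp : 0 < ‖w‖ := hr.trans_lt hw.1
    have hzw : z * w ∈ Ann r' R' := by
      show r' < ‖_‖ ∧ ‖_‖ < R'
      rw [norm_mul, hz, one_mul]
      exact hw
    obtain ⟨δ, hδ, hc⟩ := Metric.continuousAt_iff.1 (hcont _ hzw) η hη
    obtain ⟨n, hn, hnz⟩ := dns hl hz (show 0 < δ / ‖w‖ by positivity) 1
    refine ⟨n, hn, ?_⟩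
    rw [← dist_eq_norm]
    refine hc ?_
    rw [dist_eq_norm, ← sub_mul, norm_mul]
    rwa [lt_div_iff₀ hwp] at hnz
  have hn5 : ∀ w ∈ Ann r' R', ‖g 0 (l * w)‖ = ‖g 0 w‖ := by
    intro w hw
    refine le_antisymm ?_ (hn3 w hw)
    refine le_of_forall_pos_le_add fun η hη => ?_
    obtain ⟨n, hn, h⟩ := hret w hw 1 norm_one η hη
    rw [one_mul] at h
    have h1 := hn4 w hw n hn
    have h2 := norm_sub_norm_le (g 0 (l ^ n * w)) (g 0 w)
    linarith
  have hn6 : ∀ w ∈ Ann r' R', ∀ i ≤ p, ‖g i w‖ = ‖g 0 w‖ := by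
    intro w hw i hi
    have h1 := hn2 w hw 0 i (by omega)
    have h2 := hn2 w hw i (p - i) (by omega)
    rw [zero_add] at h1
    rw [show i + (p - i) = p by omega, hgp w hw, hn5 w hw] at h2
    exact le_antisymm h2 h1
  have hst : ∀ w ∈ Ann r' R', ∀ i < p, g i w = g (i + 1) w := by
    intro w hw i hi
    obtain ⟨ρ, h0, h1, h2⟩ := hal i hi w hw
    have h3 : ‖g i w‖ = ‖g (i + 1) w‖ := by
      rw [hn6 w hw i hi.le, hn6 w hw (i + 1) hi]
    by_cases h4 : g (i + 1) w = 0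
    · rw [h2, h4, mul_zero]
    · have h5 : 0 < ‖g (i + 1) w‖ := norm_pos_iff.2 h4
      rw [h2, norm_mul, Complex.norm_real, Real.norm_of_nonneg h0] at h3
      have h6 : ρ = 1 := by
        have : (ρ - 1) * ‖g (i + 1) w‖ = 0 := by linarith
        rcases mul_eq_zero.1 this with h7 | h7
        · linarith
        · exact absurd h7 h5.ne'
      rw [h2, h6, Complex.ofReal_one, one_mul]
  have hall : ∀ w ∈ Ann r' R', ∀ i ≤ p, g i w = g 0 w := by
    intro w hw i
    induction i with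
    | zero => intro _; rfl
    | succ i ih =>
      intro hi
      rw [← hst w hw i (by omega)]
      exact ih (by omega)
  have hinv : ∀ w ∈ Ann r' R', g 0 (l * w) = g 0 w := by
    intro w hw
    rw [← hgp w hw]
    exact hall w hw p le_rfl
  have hinvn : ∀ w ∈ Ann r' R', ∀ n : ℕ, g 0 (l ^ n * w) = g 0 w := by
    intro w hw n
    induction n with
    | zero => rw [pow_zero, one_mul]
    | succ n ih => rw [pow_succ', mul_assoc, hinv _ (pow_ann hl hw n), ih]
  have hcirc : ∀ w ∈ Ann r' R', ∀ z : ℂ, ‖z‖ = 1 → g 0 (z * w) = g 0 w := by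
    intro w hw z hz
    by_contra hne
    have h1 : 0 < ‖g 0 w - g 0 (z * w)‖ := norm_pos_iff.2 (sub_ne_zero.2 (Ne.symm hne))
    obtain ⟨n, -, h2⟩ := hret w hw z hz _ h1
    rw [hinvn w hw n] at h2
    exact lt_irrefl _ h2
  have hder : (Ann r' R').EqOn (deriv (g 0)) 0 := by
    intro w hw
    have hw0 : w ≠ 0 := norm_pos_iff.1 (hr.trans_lt hw.1)
    have h1 : HasDerivAt (g 0) (deriv (g 0) w) w :=
      ((hd 0 (Nat.zero_le p)).differentiableAt ((isOpen_Ann r' R').mem_nhds hw)).hasDerivAt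
    have h2 : HasDerivAt (fun t : ℝ => Complex.exp ((t : ℂ) * Complex.I) * w) (Complex.I * w) 0 := by
      have h3 : HasDerivAt (fun t : ℝ => (t : ℂ) * Complex.I) Complex.I 0 := by
        have h4 := (Complex.ofRealCLM.hasDerivAt (x := (0 : ℝ))).mul_const Complex.I
        simpa using h4
      have h5 := (h3.cexp).mul_const w
      simpa using h5
    have h6 : HasDerivAt (fun t : ℝ => g 0 (Complex.exp ((t : ℂ) * Complex.I) * w)) (deriv (g 0) w * (Complex.I * w)) 0 := by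
      have h7 : HasDerivAt (g 0) (deriv (g 0) w) (Complex.exp (((0 : ℝ) : ℂ) * Complex.I) * w) := by
        rw [Complex.ofReal_zero, zero_mul, Complex.exp_zero, one_mul]
        exact h1
      exact HasDerivAt.comp (0 : ℝ) h7 h2
    have h8 : (fun t : ℝ => g 0 (Complex.exp ((t : ℂ) * Complex.I) * w)) = fun _ => g 0 w := by
      funext t
      exact hcirc w hw _ (Complex.norm_exp_ofReal_mul_I t)
    rw [h8] at h6
    have h9 := h6.unique (hasDerivAt_const (0 : ℝ) (g 0 w))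
    have h10 : Complex.I * w ≠ 0 := mul_ne_zero Complex.I_ne_zero hw0
    exact (mul_eq_zero.1 h9).resolve_right h10
  rcases (Ann r' R').eq_empty_or_nonempty with hemp | ⟨w1, hw1⟩
  · exact ⟨0, fun i _ w hw => by rw [hemp] at hw; exact hw.elim⟩
  · refine ⟨g 0 w1, fun i hi w hw => ?_⟩
    rw [hall w hw i hi]
    exact (isOpen_Ann r' R').is_const_of_deriv_eq_zero (ann_conn hr) (hd 0 (Nat.zero_le p)) hder hw hw1

end Pool.Agent.H56.HR
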