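import Pool.Agent.H56.HR.PSI

/-!
# Module LIM: limit points at both ends of the ring

PROOFS. `lim_in`: let `u n = r + (min s R - r) / (n + 2)` (real); `ψ (u n)` is bounded (`h.bdd`), so a subsequence converges (`tendsto_subseq_of_bounded`) to `z0`; `h.jin`; if `z0 = psi j w`, `w ∈ Ann r R`, then by `psi_loc` the subsequence of `u` converges to `w`, so `‖w‖ = r`:
contradiction. `lim_out`: the same with `h.jout`.
-/

set_option autoImplicit false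

open Filter Topology Polynomial Metric Set MeasureTheory

namespace Pool.Agent.H56.HR

open Pool.Agent.H44.Fatou Pool.Agent.H32.BT Pool.Agent.H79.Eul Pool.Agent.H79.Par Pool.Agent.H61.TT

variable {d : ℕ} {v0 : E d} {p : ℕ} {l : ℂ} {ψ : ℂ → ℂ} {r R : ℝ}

private theorem lim_sub (h : Ring v0 p l ψ r R) {u : ℕ → ℂ} (hu : ∀ n, u n ∈ Ann r R) {q : ℝ}
    (hq : Tendsto (fun n => ‖u n‖) atTop (𝓝 q)) (hq' : q ≤ r ∨ R ≤ q)
    (hJ : ∀ (u : ℕ → ℂ) (z0 : ℂ), (∀ n, u n ∈ Ann r R) → Tendsto (fun n => ‖u n‖) atTop (𝓝 q) →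
      Tendsto (fun n => ψ (u n)) atTop (𝓝 z0) → JP v0 z0) :
    ∃ (φ : ℕ → ℕ) (z0 : ℂ), Tendsto (fun n => ψ (u (φ n))) atTop (𝓝 z0) ∧
      (∀ j < p, ∀ w ∈ Ann r R, psi v0 ψ j w ≠ z0) ∧ JP v0 z0 := by
  obtain ⟨M, hM⟩ := h.bdd
  obtain ⟨z0, -, φ, hφ, hz⟩ := tendsto_subseq_of_bounded
    (Metric.isBounded_closedBall (x := (0 : ℂ)) (r := M))
    (fun n => by
      rw [mem_closedBall_zero_iff]
      exact hM _ (hu n) : ∀ n, ψ (u n) ∈ closedBall (0 : ℂ) M)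
  have hz' : Tendsto (fun n => ψ (u (φ n))) atTop (𝓝 z0) := hz
  have hqs : Tendsto (fun n => ‖u (φ n)‖) atTop (𝓝 q) := hq.comp hφ.tendsto_atTop
  refine ⟨φ, z0, hz', ?_, hJ _ z0 (fun n => hu (φ n)) hqs hz'⟩
  intro j hj w hw hjw
  have h1 := psi_loc h hj (u := fun n => u (φ n)) (fun n => hu (φ n)) hw (by rw [hjw]; exact hz')
  have h2 : Tendsto (fun n => ‖u (φ n)‖) atTop (𝓝 ‖w‖) := h1.norm
  have h3 := tendsto_nhds_unique h2 hqs
  obtain ⟨hw1, hw2⟩ := hw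
  rcases hq' with hq' | hq' <;> linarith

private theorem lim_seq : Tendsto (fun n : ℕ => (1 : ℝ) / ((n : ℝ) + 2)) atTop (𝓝 0) := by
  have h := tendsto_one_div_add_atTop_nhds_zero_nat (𝕜 := ℝ)
  have h2 := (tendsto_add_atTop_iff_nat 1).2 h
  refine h2.congr fun n => ?_
  push_cast
  ring_nf

theorem lim_in (h : Ring v0 p l ψ r R) {s : ℝ} (hs : r < s) :
    ∃ (u : ℕ → ℂ) (z0 : ℂ), (∀ n, u n ∈ Ann r s) ∧ (∀ n, u n ∈ Ann r R) ∧
      Tendsto (fun n => ψ (u n)) atTop (𝓝 z0) ∧ (∀ j < p, ∀ w ∈ Ann r R, psi v0 ψ j w ≠ z0) ∧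
      JP v0 z0 := by
  have hr := h.hr
  have hrR := h.hrR
  have hm : 0 < min s R - r := by
    rcases min_choice s R with h1 | h1 <;> rw [h1] <;> linarith
  have key : ∀ n : ℕ, 0 < (min s R - r) * (1 / ((n : ℝ) + 2)) ∧
      (min s R - r) * (1 / ((n : ℝ) + 2)) < min s R - r := by
    intro n
    have h2 : (0 : ℝ) < 1 / ((n : ℝ) + 2) := by positivity
    have h3 : 1 / ((n : ℝ) + 2) < 1 := by
      rw [div_lt_one (by positivity)]
      have : (0 : ℝ) ≤ n := Nat.cast_nonneg n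
      linarith
    exact ⟨mul_pos hm h2, by nlinarith⟩
  have hn : ∀ n : ℕ, ‖((r + (min s R - r) * (1 / ((n : ℝ) + 2)) : ℝ) : ℂ)‖ =
      r + (min s R - r) * (1 / ((n : ℝ) + 2)) := by
    intro n
    rw [Complex.norm_real, Real.norm_of_nonneg]
    linarith [(key n).1]
  have hA : ∀ n : ℕ, ((r + (min s R - r) * (1 / ((n : ℝ) + 2)) : ℝ) : ℂ) ∈ Ann r R := by
    intro n
    refine ⟨?_, ?_⟩
    · rw [hn]
      linarith [(key n).1]
    · rw [hn]
      linarith [(key n).2, min_le_right s R]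
  have hA' : ∀ n : ℕ, ((r + (min s R - r) * (1 / ((n : ℝ) + 2)) : ℝ) : ℂ) ∈ Ann r s := by
    intro n
    refine ⟨(hA n).1, ?_⟩
    rw [hn]
    linarith [(key n).2, min_le_left s R]
  have hq : Tendsto (fun n : ℕ => ‖((r + (min s R - r) * (1 / ((n : ℝ) + 2)) : ℝ) : ℂ)‖) atTop
      (𝓝 r) := by
    simp only [hn]
    have := (lim_seq.const_mul (min s R - r)).const_add r
    simpa using this
  obtain ⟨φ, z0, h1, h2, h3⟩ := lim_sub h hA hq (Or.inl le_rfl) h.jin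
  exact ⟨_, z0, fun n => hA' (φ n), fun n => hA (φ n), h1, h2, h3⟩

theorem lim_out (h : Ring v0 p l ψ r R) {s : ℝ} (hs : s < R) :
    ∃ (u : ℕ → ℂ) (z0 : ℂ), (∀ n, u n ∈ Ann s R) ∧ (∀ n, u n ∈ Ann r R) ∧
      Tendsto (fun n => ψ (u n)) atTop (𝓝 z0) ∧ (∀ j < p, ∀ w ∈ Ann r R, psi v0 ψ j w ≠ z0) ∧
      JP v0 z0 := by
  have hr := h.hr
  have hrR := h.hrR
  have hm : 0 < R - max s r := by
    rcases max_choice s r with h1 | h1 <;> rw [h1] <;> linarith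
  have key : ∀ n : ℕ, 0 < (R - max s r) * (1 / ((n : ℝ) + 2)) ∧
      (R - max s r) * (1 / ((n : ℝ) + 2)) < R - max s r := by
    intro n
    have h2 : (0 : ℝ) < 1 / ((n : ℝ) + 2) := by positivity
    have h3 : 1 / ((n : ℝ) + 2) < 1 := by
      rw [div_lt_one (by positivity)]
      have : (0 : ℝ) ≤ n := Nat.cast_nonneg n
      linarith
    exact ⟨mul_pos hm h2, by nlinarith⟩
  have hn : ∀ n : ℕ, ‖((R - (R - max s r) * (1 / ((n : ℝ) + 2)) : ℝ) : ℂ)‖ =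
      R - (R - max s r) * (1 / ((n : ℝ) + 2)) := by
    intro n
    rw [Complex.norm_real, Real.norm_of_nonneg]
    linarith [(key n).2, le_max_right s r]
  have hA : ∀ n : ℕ, ((R - (R - max s r) * (1 / ((n : ℝ) + 2)) : ℝ) : ℂ) ∈ Ann r R := by
    intro n
    refine ⟨?_, ?_⟩
    · rw [hn]
      linarith [(key n).2, le_max_right s r]
    · rw [hn]
      linarith [(key n).1]
  have hA' : ∀ n : ℕ, ((R - (R - max s r) * (1 / ((n : ℝ) + 2)) : ℝ) : ℂ) ∈ Ann s R := by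
    intro n
    refine ⟨?_, (hA n).2⟩
    rw [hn]
    linarith [(key n).2, le_max_left s r]
  have hq : Tendsto (fun n : ℕ => ‖((R - (R - max s r) * (1 / ((n : ℝ) + 2)) : ℝ) : ℂ)‖) atTop
      (𝓝 R) := by
    simp only [hn]
    have := (lim_seq.const_mul (R - max s r)).const_sub R
    simpa using this
  obtain ⟨φ, z0, h1, h2, h3⟩ := lim_sub h hA hq (Or.inr le_rfl) h.jout
  exact ⟨_, z0, fun n => hA' (φ n), fun n => hA (φ n), h1, h2, h3⟩

end Pool.Agent.H56.HR
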