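import Pool.Agent.H56.HR.ZER
import Pool.Agent.H56.HR.LIM
import Pool.Agent.H56.HR.KAP
import Pool.Agent.H56.HR.JMP

/-!
# Module TRV: transversality: the mean drift is not identically zero

PROOF. Suppose `LA v0 p ψ s (xi v0 u) = 0` for all `u` (one `s`, hence all `s` in `(r, R)` by `la_indep`). For every `s` in `(r, R)`: `hh` is differentiable on `Ann r s` and on `Ann s R` (`hh_an`, `‖w‖ ≠ s`), `hh_al`, `hh_p`, so `kap` gives constants on both annuli, which vanish by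
`zer` with `lim_in`, `lim_out`. Take `s1 < t < s2` in `(r, R)` and `w0 = t`: `hh s2 0 w0 = 0` (`w0 ∈ Ann r s2`) and `hh s1 0 w0 = 0` (`w0 ∈ Ann s1 R`), against `hh_jmp` (`0 - 0 = -1`).
-/

set_option autoImplicit false

open Filter Topology Polynomial Metric Set MeasureTheory

namespace Pool.Agent.H56.HR

open Pool.Agent.H44.Fatou Pool.Agent.H32.BT Pool.Agent.H79.Eul Pool.Agent.H79.Par Pool.Agent.H61.TT

variable {d : ℕ} {v0 : E d} {p : ℕ} {l : ℂ} {ψ : ℂ → ℂ} {r R : ℝ}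

theorem trv_in (h : Ring v0 p l ψ r R) {s : ℝ} (hs : r < s) (hs' : s < R)
    (hv : ∀ u : E d, LA v0 p ψ s (xi v0 u) = 0) {w : ℂ} (hw : w ∈ Ann r s) :
    hh v0 p ψ s 0 w = 0 := by
  obtain ⟨κ, hκ⟩ := kap h.rotl h.hr.le h.hp (g := hh v0 p ψ s) (r' := r) (R' := s)
    (fun i hi w hw => (hh_an h hs hs' hi ⟨hw.1, hw.2.trans hs'⟩ hw.2.ne).differentiableAt.differentiableWithinAt)
    (fun i hi w hw => hh_al h hs hs' hv hi ⟨hw.1, hw.2.trans hs'⟩ hw.2.ne)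
    (fun w hw => hh_p h ⟨hw.1, hw.2.trans hs'⟩)
  obtain ⟨u, z0, hu1, -, hz0, hnot, hJ⟩ := lim_in h hs
  rw [hκ 0 (Nat.zero_le _) w hw]
  exact zer h hs hs' hv le_rfl hs'.le hs hκ hu1 hz0 hnot hJ

theorem trv_out (h : Ring v0 p l ψ r R) {s : ℝ} (hs : r < s) (hs' : s < R)
    (hv : ∀ u : E d, LA v0 p ψ s (xi v0 u) = 0) {w : ℂ} (hw : w ∈ Ann s R) :
    hh v0 p ψ s 0 w = 0 := by
  obtain ⟨κ, hκ⟩ := kap h.rotl (h.hr.le.trans hs.le) h.hp (g := hh v0 p ψ s) (r' := s) (R' := R)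
    (fun i hi w hw => (hh_an h hs hs' hi ⟨hs.trans hw.1, hw.2⟩ hw.1.ne').differentiableAt.differentiableWithinAt)
    (fun i hi w hw => hh_al h hs hs' hv hi ⟨hs.trans hw.1, hw.2⟩ hw.1.ne')
    (fun w hw => hh_p h ⟨hs.trans hw.1, hw.2⟩)
  obtain ⟨u, z0, hu1, -, hz0, hnot, hJ⟩ := lim_out h hs'
  rw [hκ 0 (Nat.zero_le _) w hw]
  exact zer h hs hs' hv hs.le le_rfl hs' hκ hu1 hz0 hnot hJ

theorem trv (h : Ring v0 p l ψ r R) {s : ℝ} (hs : r < s) (hs' : s < R) :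
    ∃ u : E d, LA v0 p ψ s (xi v0 u) ≠ 0 := by
  by_contra hcon
  push Not at hcon
  obtain ⟨s1, h1, h1'⟩ := exists_between h.hrR
  obtain ⟨t, h2, h2'⟩ := exists_between h1'
  obtain ⟨s2, h3, h3'⟩ := exists_between h2'
  have hr := h.hr
  have ht0 : 0 < t := by linarith
  have hn : ‖((t : ℝ) : ℂ)‖ = t := by rw [Complex.norm_real, Real.norm_of_nonneg ht0.le]
  have e1 : hh v0 p ψ s2 0 ((t : ℝ) : ℂ) = 0 := by
    refine trv_in h (by linarith) h3' (fun u => ?_) ⟨by rw [hn]; linarith, by rw [hn]; exact h3⟩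
    rw [la_indep h u (by linarith) h3' hs hs']
    exact hcon u
  have e2 : hh v0 p ψ s1 0 ((t : ℝ) : ℂ) = 0 := by
    refine trv_out h h1 h1' (fun u => ?_) ⟨by rw [hn]; exact h2, by rw [hn]; exact h2'⟩
    rw [la_indep h u h1 h1' hs hs']
    exact hcon u
  have e3 := hh_jmp h h.hp (w0 := ((t : ℝ) : ℂ)) (s1 := s1) (s2 := s2) h1 (by rw [hn]; exact h2)
    (by rw [hn]; exact h3) h3'
  rw [e1, e2, sub_zero] at e3
  have : (0 : ℂ) ≠ -1 := by norm_num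
  exact this e3

end Pool.Agent.H56.HR
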