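import Pool.Agent.H56.HR.DRF
import Pool.Agent.H56.HR.TRV
import Pool.Agent.H44.RG.NHO

/-!
# Module HOL: many nearby maps have no orbit which stays in a given compact part of the ring

PROOFS. `hol_cpt`: `K0 = {w ∈ Ann r R | ψ w ∈ K}` is compact: `ψ` is a homeomorphism of `Ann r R` onto its open image (`psi_open`, injectivity); or by sequences: `u n ∈ K0`, `ψ (u n)` has a subsequence converging to a point of `K`, which is `ψ w`, `w ∈ Ann r R`, so by `psi_loc` (with `j = 0`) the subsequence of `u`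
converges to `w`. So `‖w‖` has a minimum and a maximum on `K0` (if `K0` is empty any `s1 < s2` do): `K0 ⊆ CAn s1 s2`, `r < s1 ≤ s2 < R`.
`hol_pos`: `m u = LA v0 p ψ s (xi v0 u)` is additive and complex homogeneous (`la_xi_add`, `la_xi_smul`), continuous (finite dimension: `LinearMap.continuous_of_finiteDimensional`); `m u0 ≠ 0` for some `u0` (`trv`), replace `u0` by `c • u0`: `(m u0).re > 0`, `‖u0‖ < 1`. With
`c = (m u0).re / 2` the set `H = {w ∈ ball 0 1 | c < (m w).re}` is open and contains `u0`, so it has positive measure.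
`hol`: `ρ` small: for `w ∈ H`, `u = ρ • w`, `pv v0 (w, ρ) = v0 + ρ • w`, `‖u‖ < ρ < δ` (`drf` with `ε = c / 2`; `m u = ρ m w`). If the orbit of `z` under `(Rf v)^[p]` stays in `K`: `z_n = ψ (w_n)`, `w_n ∈ CAn s1 s2`, and `it v p (ψ (w_n)) = ψ (w_(n+1))` (`rat_it` in H79/Par/It; no poles by `exp1` on the compact
set `K`, or on `ψ '' CAn s1 s2`; `Function.iterate_add_apply` for `p * (n+1) = p * n + p`). Then `ρ c < ρ (m w).re = (m u).re ≤ (c/2) ‖u‖ ≤ (c/2) ρ`: contradiction.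
-/

set_option autoImplicit false

open Filter Topology Polynomial Metric Set MeasureTheory

namespace Pool.Agent.H56.HR

open Pool.Agent.H44.Fatou Pool.Agent.H32.BT Pool.Agent.H79.Eul Pool.Agent.H79.Par Pool.Agent.H61.TT

variable {d : ℕ} {v0 : E d} {p : ℕ} {l : ℂ} {ψ : ℂ → ℂ} {r R : ℝ}

theorem hol_cpt (h : Ring v0 p l ψ r R) {K : Set ℂ} (hK : IsCompact K) (hKs : K ⊆ ψ '' Ann r R) :
    ∃ s1 s2 : ℝ, r < s1 ∧ s1 ≤ s2 ∧ s2 < R ∧ K ⊆ ψ '' CAn s1 s2 := by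
  have hrR := h.hrR
  obtain ⟨δ, hδ⟩ : ∃ δ : ℕ → ℝ, ∀ n, δ n = (R - r) / ((n : ℝ) + 3) := ⟨_, fun _ => rfl⟩
  have hδ0 : ∀ n, 0 < δ n := fun n => by
    rw [hδ]
    exact div_pos (by linarith) (by positivity)
  have hδ3 : ∀ n, δ n ≤ (R - r) / 3 := fun n => by
    rw [hδ]
    apply div_le_div_of_nonneg_left (by linarith) (by norm_num)
    have : (0 : ℝ) ≤ n := Nat.cast_nonneg n
    linarith
  have hanti : ∀ m n : ℕ, m ≤ n → δ n ≤ δ m := fun m n hmn => by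
    rw [hδ, hδ]
    apply div_le_div_of_nonneg_left (by linarith) (by positivity)
    have : (m : ℝ) ≤ n := by exact_mod_cast hmn
    linarith
  have hsub : ∀ n, Ann (r + δ n) (R - δ n) ⊆ Ann r R := fun n w hw =>
    ⟨by linarith [hw.1, hδ0 n], by linarith [hw.2, hδ0 n]⟩
  have hcov : K ⊆ ⋃ n : ℕ, ψ '' Ann (r + δ n) (R - δ n) := by
    intro x hx
    obtain ⟨w, hw, rfl⟩ := hKs hx
    have hlim : Tendsto δ atTop (𝓝 0) := by
      have h1 : Tendsto (fun n : ℕ => (R - r) / ((n : ℝ) + 3)) atTop (𝓝 0) :=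
        tendsto_const_nhds.div_atTop
          (tendsto_atTop_add_const_right _ _ tendsto_natCast_atTop_atTop)
      exact h1.congr fun n => (hδ n).symm
    have e1 : ∀ᶠ n in atTop, δ n < ‖w‖ - r := hlim.eventually (gt_mem_nhds (by linarith [hw.1]))
    have e2 : ∀ᶠ n in atTop, δ n < R - ‖w‖ := hlim.eventually (gt_mem_nhds (by linarith [hw.2]))
    obtain ⟨n, hn1, hn2⟩ := (e1.and e2).exists
    exact mem_iUnion.2 ⟨n, w, ⟨by linarith, by linarith⟩, rfl⟩
  obtain ⟨n, hn⟩ := hK.elim_directed_cover (fun n : ℕ => ψ '' Ann (r + δ n) (R - δ n))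
    (fun n => psi_open h (j := 0) (Nat.zero_le _) (isOpen_Ann _ _) (hsub n)) hcov (by
      intro m n
      refine ⟨max m n, ?_, ?_⟩
      · apply image_mono
        intro w hw
        have := hanti m (max m n) (le_max_left _ _)
        exact ⟨by linarith [hw.1], by linarith [hw.2]⟩
      · apply image_mono
        intro w hw
        have := hanti n (max m n) (le_max_right _ _)
        exact ⟨by linarith [hw.1], by linarith [hw.2]⟩)
  refine ⟨r + δ n, R - δ n, by linarith [hδ0 n], by linarith [hδ3 n], by linarith [hδ0 n], ?_⟩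
  refine hn.trans (image_mono ?_)
  intro w hw
  exact ⟨hw.1.le, hw.2.le⟩

theorem hol_pos (h : Ring v0 p l ψ r R) {s : ℝ} (hs : r < s) (hs' : s < R) :
    ∃ (c : ℝ) (H : Set (E d)), 0 < c ∧ MeasurableSet H ∧ H ⊆ ball (0 : E d) 1 ∧ 0 < volume H ∧
      ∀ w ∈ H, c < (LA v0 p ψ s (xi v0 w)).re := by
  let m : E d →ₗ[ℂ] ℂ :=
    { toFun := fun u => LA v0 p ψ s (xi v0 u)
      map_add' := fun u v => la_xi_add h hs hs' u v
      map_smul' := fun c u => by
        rw [la_xi_smul h hs hs', RingHom.id_apply, smul_eq_mul] }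
  have hm : ∀ u, m u = LA v0 p ψ s (xi v0 u) := fun u => rfl
  have hmc : Continuous m := LinearMap.continuous_of_finiteDimensional m
  obtain ⟨u0, hu0⟩ := trv h hs hs'
  rw [← hm] at hu0
  -- a vector of norm less than one with positive real part
  obtain ⟨t, ht⟩ : ∃ t : ℝ, t = 1 / (2 * (‖u0‖ + 1) * ‖m u0‖) := ⟨_, rfl⟩
  have hmu : 0 < ‖m u0‖ := norm_pos_iff.2 hu0
  have ht0 : 0 < t := by
    rw [ht]
    have := norm_nonneg u0
    positivity
  obtain ⟨u1, hu1⟩ : ∃ u1 : E d, u1 = ((t : ℂ) * (starRingEnd ℂ) (m u0)) • u0 := ⟨_, rfl⟩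
  have e1 : m u1 = ((t * ‖m u0‖ ^ 2 : ℝ) : ℂ) := by
    rw [hu1, map_smul, smul_eq_mul, mul_assoc, mul_comm ((starRingEnd ℂ) (m u0)), Complex.mul_conj,
      Complex.normSq_eq_norm_sq]
    push_cast
    ring
  have e2 : ‖u1‖ < 1 := by
    rw [hu1, norm_smul, norm_mul, Complex.norm_real, RCLike.norm_conj, Real.norm_of_nonneg ht0.le]
    have h3 : t * ‖m u0‖ = 1 / (2 * (‖u0‖ + 1)) := by
      rw [ht]
      have := norm_nonneg u0
      field_simp
    rw [h3, div_mul_eq_mul_div, one_mul, div_lt_one (by have := norm_nonneg u0; positivity)]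
    have := norm_nonneg u0
    linarith
  have e3 : 0 < (m u1).re := by
    rw [e1, Complex.ofReal_re]
    positivity
  obtain ⟨H, hH⟩ : ∃ H : Set (E d), H = ball (0 : E d) 1 ∩ {w | (m u1).re / 2 < (m w).re} := ⟨_, rfl⟩
  have hHo : IsOpen H := by
    rw [hH]
    exact isOpen_ball.inter (isOpen_lt continuous_const (Complex.continuous_re.comp hmc))
  refine ⟨(m u1).re / 2, H, by linarith, hHo.measurableSet, ?_, ?_, ?_⟩
  · rw [hH]
    exact inter_subset_left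
  · refine hHo.measure_pos volume ⟨u1, ?_⟩
    rw [hH]
    refine ⟨mem_ball_zero_iff.2 e2, ?_⟩
    show (m u1).re / 2 < (m u1).re
    linarith
  · intro w hw
    rw [hH] at hw
    exact hw.2

theorem hol (h : Ring v0 p l ψ r R) {K : Set ℂ} (hK : IsCompact K) (hKs : K ⊆ ψ '' Ann r R) :
    ∃ c0 : ENNReal, 0 < c0 ∧ ∀ᶠ ρ in 𝓝[>] (0 : ℝ), ∃ H : Set (E d), MeasurableSet H ∧
      H ⊆ ball (0 : E d) 1 ∧ c0 ≤ volume H ∧ ∀ w ∈ H, ¬ ∃ z : OnePoint ℂ, ∀ n : ℕ,
        (Rf (pv v0 (w, ρ)))^[p * n] z ∈ ((↑) : ℂ → OnePoint ℂ) '' K := by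
  obtain ⟨s1, s2, h1, -, h2, hK12⟩ := hol_cpt h hK hKs
  obtain ⟨s, hs, hs'⟩ := exists_between h.hrR
  obtain ⟨c, H, hc, hHm, hHb, hHv, hHc⟩ := hol_pos h hs hs'
  obtain ⟨δ, hδ, hdrf⟩ := drf h hs hs' h1 h2 (ε := c / 2) (by linarith)
  have hsub : CAn s1 s2 ⊆ Ann r R := can_sub h1 h2
  have hKc : IsCompact (ψ '' CAn s1 s2) := (isCompact_CAn s1 s2).image_of_continuousOn
    fun w hw => (psi_hd h 0 (hsub hw)).continuousAt.continuousWithinAt
  obtain ⟨C0, η0, hC0, hη0, hexp⟩ := exp1 (v0 := v0) hKc p (by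
    rintro j - _ ⟨w, hw, rfl⟩
    exact h.fin j w (hsub hw))
  refine ⟨volume H, hHv, ?_⟩
  filter_upwards [Ioo_mem_nhdsGT (lt_min hδ hη0)] with ρ hρ
  obtain ⟨hρ0, hρ1⟩ := hρ
  refine ⟨H, hHm, hHb, le_rfl, ?_⟩
  rintro w hw ⟨z, hz⟩
  have hwn : ‖w‖ < 1 := mem_ball_zero_iff.1 (hHb hw)
  obtain ⟨u, hu⟩ : ∃ u : E d, u = ρ • w := ⟨_, rfl⟩
  have hpv : pv v0 (w, ρ) = v0 + u := by
    rw [hu]
    rfl
  have hun : ‖u‖ < ρ := by
    rw [hu, norm_smul, Real.norm_of_nonneg hρ0.le]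
    nlinarith
  have hu1 : ‖u‖ < δ := hun.trans (hρ1.trans_le (min_le_left _ _))
  have hu2 : ‖u‖ ≤ η0 := (hun.trans (hρ1.trans_le (min_le_right _ _))).le
  have hch : ∀ n : ℕ, ∃ x ∈ CAn s1 s2, (Rf (v0 + u))^[p * n] z = ((ψ x : ℂ) : OnePoint ℂ) := by
    intro n
    have h3 := hz n
    rw [hpv] at h3
    obtain ⟨y, hy, hye⟩ := h3
    obtain ⟨x, hx, rfl⟩ := hK12 hy
    exact ⟨x, hx, hye.symm⟩
  choose x hx hxe using hch
  have hstep : ∀ n, it (v0 + u) p (ψ (x n)) = ψ (x (n + 1)) := by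
    intro n
    obtain ⟨hpole, -, -⟩ := hexp u hu2 (ψ (x n)) ⟨x n, hx n, rfl⟩
    have h3 := hxe (n + 1)
    have e : p * (n + 1) = p + p * n := by ring
    rw [e, Function.iterate_add_apply, hxe n, rat_it hpole] at h3
    exact OnePoint.coe_injective h3
  have h4 := hdrf u hu1 ⟨x, hx, hstep⟩
  have h5 : LA v0 p ψ s (xi v0 u) = (ρ : ℂ) * LA v0 p ψ s (xi v0 w) := by
    rw [← la_xi_smul h hs hs', hu, RCLike.real_smul_eq_coe_smul (K := ℂ)]
    rfl
  have h6 : (LA v0 p ψ s (xi v0 u)).re = ρ * (LA v0 p ψ s (xi v0 w)).re := by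
    rw [h5, Complex.re_ofReal_mul]
  have h7 := hHc w hw
  have h8 : ρ * c < (LA v0 p ψ s (xi v0 u)).re := by
    rw [h6]
    exact mul_lt_mul_of_pos_left h7 hρ0
  have h9 := le_abs_self (LA v0 p ψ s (xi v0 u)).re
  have h10 : c / 2 * ‖u‖ ≤ c / 2 * ρ := by gcongr
  nlinarith

end Pool.Agent.H56.HR
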