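import Pool.Agent.H56.HR.CHR
import Pool.Agent.H56.HR.CTB
import Pool.Agent.H56.HR.HOL
import Pool.Agent.H44.RG.CHH

/-!
# Module MAI: THEOREM H: almost no rational map has a Herman ring
-/

set_option autoImplicit false

open Filter Topology Polynomial Metric Set MeasureTheory

namespace Pool.Agent.H56.HR

open Pool.Agent.H44.Fatou Pool.Agent.H32.BT Pool.Agent.H79.Eul Pool.Agent.H79.Par
open Pool.Agent.H35.EX Pool.Agent.H44.RR Pool.Agent.H44.RG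

theorem ss_null {d : ℕ} (hd : 2 ≤ d) (p : ℕ) (t : Finset ℕ) (k : ℕ) :
    volume (SS d p t k) = 0 := by
  apply null_of_holes
  rintro v0 ⟨hcop, hdeg, A, l, ψ, r, R, hR, hRA, -⟩
  obtain ⟨s, φ, ψ1, hφs, hφ, hconj, hring, hψ⟩ := chr hd hcop hdeg hR
  obtain ⟨K, hK⟩ : ∃ K : Set ℂ, K = ((↑) : ℂ → OnePoint ℂ) ⁻¹' (φ '' R0 t k) := ⟨_, rfl⟩
  have hsub : φ '' R0 t k ⊆ ((↑) : ℂ → OnePoint ℂ) '' (ψ1 '' Ann r R) := by
    rintro _ ⟨x, hx, rfl⟩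
    have hxA := hRA hx
    rw [← hR.bij.image_eq] at hxA
    obtain ⟨w, hw, rfl⟩ := hxA
    exact ⟨ψ1 w, ⟨w, hw, rfl⟩, (hψ w hw).symm⟩
  have himg : ((↑) : ℂ → OnePoint ℂ) '' K = φ '' R0 t k := by
    rw [hK, Set.image_preimage_eq_inter_range, Set.inter_eq_left]
    intro x hx
    obtain ⟨y, -, hy⟩ := hsub hx
    exact ⟨y, hy⟩
  have hKc : IsCompact K := by
    rw [OnePoint.isOpenEmbedding_coe.isEmbedding.isCompact_iff, himg]
    exact ((r0_closed t k).isCompact).image φ.continuous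
  have hKs : K ⊆ ψ1 '' Ann r R := by
    intro x hx
    rw [hK] at hx
    obtain ⟨y, hy, hxy⟩ := hsub hx
    rw [← OnePoint.coe_injective hxy]
    exact hy
  obtain ⟨c0, hc0, hev⟩ := hol hring hKc hKs
  refine chart_holes s hc0 (hev.frequently.mono ?_)
  rintro ρ ⟨H, hHm, hHb, hHv, hHz⟩
  refine ⟨H, hHm, hHb, hHv, ?_⟩
  rintro w hw v hv ⟨hvc, hvd, -, -, -, -, -, -, -, z, hz⟩
  apply hHz w hw
  refine ⟨φ z, fun n => ?_⟩
  rw [← hv, iter_conj φ (hconj v hvc hvd), himg]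
  exact ⟨_, hz n, rfl⟩

/-- THEOREM H -/
theorem h_main {d : ℕ} (hd : 2 ≤ d) :
    volume {v : E d | IsCoprime (pol v.1) (pol v.2) ∧
      max (pol v.1).natDegree (pol v.2).natDegree = d ∧
      ∃ (A : Set (OnePoint ℂ)) (p : ℕ) (l : ℂ) (ψ : ℂ → OnePoint ℂ) (r R : ℝ),
        SRing (Rf v) A p l ψ r R} = 0 := by
  refine measure_mono_null (t := ⋃ p : ℕ, ⋃ t : Finset ℕ, ⋃ k : ℕ, SS d p t k) ?_
    (measure_iUnion_null fun p => measure_iUnion_null fun t => measure_iUnion_null fun k =>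
      ss_null hd p t k)
  rintro v ⟨hcop, hdeg, A, p, l, ψ, r, R, hR⟩
  obtain ⟨t, k, h1, h2⟩ := ctb hR
  exact mem_iUnion.2 ⟨p, mem_iUnion.2 ⟨t, mem_iUnion.2 ⟨k, hcop, hdeg, A, l, ψ, r, R, hR, h1, h2⟩⟩⟩

end Pool.Agent.H56.HR
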