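import Pool.Agent.H56.HR.Defs
import Pool.Agent.H44.RR.CHC
import Pool.Agent.H79.Par.PerFin
import Pool.Agent.H32.BT.Crit

/-!
# THEOREM H: definitions on the sphere

`EqAt f x`: the iterates of `f` are equicontinuous at `x` (chordal metric). `FS f`: the Fatou set. `recip`: the inverse of the chart `1 / z` at infinity. `HoloAt ψ w`: `ψ` is holomorphic at `w` as a map
into the sphere. `SRing f A p l ψ r R`: `A` is a component of the Fatou set of exact period `p`, and `ψ` conjugates the rotation `w ↦ l w` of the annulus `Ann r R` to `f^p` on `A`.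
`R0 t k`: a finite union of closed chordal discs of radius `1 / (k + 1)`. `SS`: the pieces of the exceptional set.
-/

set_option autoImplicit false

open Filter Topology Polynomial Metric Set MeasureTheory

namespace Pool.Agent.H56.HR

open Pool.Agent.H44.Fatou Pool.Agent.H32.BT Pool.Agent.H79.Eul Pool.Agent.H79.Par
open Pool.Agent.H35.EX Pool.Agent.H44.RR

/-- the iterates are equicontinuous at `x` -/
def EqAt (f : OnePoint ℂ → OnePoint ℂ) (x : OnePoint ℂ) : Prop :=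
  ∀ ε : ℝ, 0 < ε → ∀ᶠ y in 𝓝 x, ∀ n : ℕ, chord (f^[n] x) (f^[n] y) < ε

/-- the Fatou set -/
def FS (f : OnePoint ℂ → OnePoint ℂ) : Set (OnePoint ℂ) := interior {x | EqAt f x}

/-- the inverse of the chart `1 / z` at infinity -/
noncomputable def recip (w : ℂ) : OnePoint ℂ := if w = 0 then OnePoint.infty else OnePoint.some w⁻¹

/-- `ψ` is holomorphic at `w` -/
def HoloAt (ψ : ℂ → OnePoint ℂ) (w : ℂ) : Prop :=
  ∃ g : ℂ → ℂ, AnalyticAt ℂ g w ∧
    ((∀ᶠ z in 𝓝 w, ψ z = OnePoint.some (g z)) ∨ ∀ᶠ z in 𝓝 w, ψ z = recip (g z))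

/-- `A` is a Herman ring of period `p` with uniformization `ψ` -/
structure SRing (f : OnePoint ℂ → OnePoint ℂ) (A : Set (OnePoint ℂ)) (p : ℕ) (l : ℂ)
    (ψ : ℂ → OnePoint ℂ) (r R : ℝ) : Prop where
  comp : ∃ x ∈ FS f, A = connectedComponentIn (FS f) x
  hp : 0 < p
  per : f^[p] '' A = A
  min : ∀ j, 0 < j → j < p → f^[j] '' A ≠ A
  rotl : Rot l
  hr : 0 < r
  hrR : r < R
  bij : BijOn ψ (Ann r R) A
  hol : ∀ w ∈ Ann r R, HoloAt ψ w
  rot : ∀ w ∈ Ann r R, f^[p] (ψ w) = ψ (l * w)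

/-- the topological property of the points of the Julia set -/
def JPS (f : OnePoint ℂ → OnePoint ℂ) (z0 : OnePoint ℂ) : Prop :=
  ∀ U : Set (OnePoint ℂ), IsOpen U → z0 ∈ U → ∀ V : Set (OnePoint ℂ), IsOpen V → V.Nonempty →
    ∃ y ∈ U, ∃ n : ℕ, f^[n] y ∈ V

/-- a finite union of closed chordal discs -/
def R0 (t : Finset ℕ) (k : ℕ) : Set (OnePoint ℂ) :=
  ⋃ i ∈ t, {x | chord ((TopologicalSpace.denseSeq ℂ i : ℂ) : OnePoint ℂ) x ≤ 1 / ((k : ℝ) + 1)}

/-- the pieces of the exceptional set -/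
def SS (d p : ℕ) (t : Finset ℕ) (k : ℕ) : Set (E d) :=
  {v | IsCoprime (pol v.1) (pol v.2) ∧ max (pol v.1).natDegree (pol v.2).natDegree = d ∧
    ∃ (A : Set (OnePoint ℂ)) (l : ℂ) (ψ : ℂ → OnePoint ℂ) (r R : ℝ),
      SRing (Rf v) A p l ψ r R ∧ R0 t k ⊆ A ∧ ∃ z : OnePoint ℂ, ∀ n : ℕ, (Rf v)^[p * n] z ∈ R0 t k}

end Pool.Agent.H56.HR
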