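import Pool.Agent.H56.HR.FBS
import Pool.Agent.H44.RR.CHT
import Pool.Agent.H44.RG.BLP

/-!
# Module EMN: easy Montel theorem: near a point outside the Fatou set the iterates come near every point

PROOFS. `emn_ch`: for `z ∈ ball x ρ` all iterates are finite, so by `orb_all` (H79/Par/PerDec) `(Rf v1)^[n] z = it v1 n z`, no poles, `‖it v1 n z‖ ≤ M`, `it v1 n` is differentiable on the ball (`tr_hasDerivAt`, H32/BT/Trap). Cauchy estimate: `‖it v1 n z - it v1 n x‖ ≤ (4 M / ρ) ‖z - x‖` for `z ∈ ball x (ρ/2)`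
(`Complex.norm_deriv_le_of_forall_mem_sphere_norm_le` and the mean value inequality, or the Schwarz lemma `Complex.dist_le_div_mul_dist_of_mapsTo_ball`). `chord (some a) (some b) ≤ ‖a - b‖` (definition). So `EqAt` (coe is an open embedding: `OnePoint.isOpenEmbedding_coe`, `nhds` of a finite point).
`eq_conj`: `iter_conj` (H32/BT/Top) and `chord_bilip` (H44/RG/BLP).
`emn`: suppose `U, V` are a counterexample. `chart_ex` (H44/RR/CHT) with the open set `V`: `s ∈ V`, `φ`, `g = Rf (Lin s v0)`, `g (φ x) = φ (f x)`. `φ '' V` is an open neighbourhood of `∞`, so there is `M` with: every finite point outside `φ '' V` has norm `≤ M`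
(the complement is compact; `OnePoint.isOpen_compl_image_coe` or `isCompact` of the preimage). For `x ∈ U` and all `n`: `f^[n] x ∉ V`, so `g^[n] (φ x) = φ (f^[n] x)` is finite, of norm `≤ M`. `φ '' U` is open: `emn_ch` at every point of `φ '' U`, `eq_conj` backwards (for `φ.symm`, or direct): `EqAt f x` for all
`x ∈ U`, so `U ⊆ FS f` (`interior_maximal`), contradiction.
-/

set_option autoImplicit false

open Filter Topology Polynomial Metric Set MeasureTheory

namespace Pool.Agent.H56.HR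

open Pool.Agent.H44.Fatou Pool.Agent.H32.BT Pool.Agent.H79.Eul Pool.Agent.H79.Par
open Pool.Agent.H35.EX Pool.Agent.H44.RR

private theorem chord_le (a b : ℂ) : chord (a : OnePoint ℂ) (b : OnePoint ℂ) ≤ ‖a - b‖ := by
  show ‖a - b‖ / (√(1 + ‖a‖ ^ 2) * √(1 + ‖b‖ ^ 2)) ≤ ‖a - b‖
  have h1 : ∀ c : ℂ, 1 ≤ √(1 + ‖c‖ ^ 2) := fun c => by
    rw [Real.one_le_sqrt]
    nlinarith [sq_nonneg ‖c‖]
  have h2 : 1 ≤ √(1 + ‖a‖ ^ 2) * √(1 + ‖b‖ ^ 2) := by nlinarith [h1 a, h1 b]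
  exact div_le_self (norm_nonneg _) h2

private theorem chord_nn (x y : OnePoint ℂ) : 0 ≤ chord x y := by
  induction x using OnePoint.rec with
  | infty =>
    induction y using OnePoint.rec with
    | infty => exact le_rfl
    | coe w => show 0 ≤ 1 / √(1 + ‖w‖ ^ 2); positivity
  | coe z =>
    induction y using OnePoint.rec with
    | infty => show 0 ≤ 1 / √(1 + ‖z‖ ^ 2); positivity
    | coe w => show 0 ≤ ‖z - w‖ / (√(1 + ‖z‖ ^ 2) * √(1 + ‖w‖ ^ 2)); positivity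

theorem emn_ch {d : ℕ} {v1 : E d} {x : ℂ} {ρ M : ℝ} (hρ : 0 < ρ)
    (h : ∀ n : ℕ, ∀ z ∈ ball x ρ, ∃ y : ℂ, ‖y‖ ≤ M ∧ (Rf v1)^[n] (z : OnePoint ℂ) = (y : OnePoint ℂ)) :
    EqAt (Rf v1) (x : OnePoint ℂ) := by
  have hfin : ∀ z ∈ ball x ρ, (∀ n, Orb v1 (fun j => it v1 j z) n) ∧
      ∀ j, (Rf v1)^[j] (z : OnePoint ℂ) = ((it v1 j z : ℂ) : OnePoint ℂ) := by
    intro z hz
    refine orb_all fun j hj => ?_
    obtain ⟨y, -, hy⟩ := h j z hz
    rw [hy] at hj
    exact OnePoint.coe_ne_infty _ hj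
  have hb : ∀ n, ∀ z ∈ ball x ρ, ‖it v1 n z‖ ≤ M := by
    intro n z hz
    obtain ⟨y, hyM, hy⟩ := h n z hz
    rw [(hfin z hz).2 n] at hy
    rw [OnePoint.coe_injective hy]
    exact hyM
  have hd : ∀ n, ∀ z ∈ ball x ρ, DifferentiableAt ℂ (fun z => it v1 n z) z := by
    intro n z hz
    exact (tr_hasDerivAt v1 z n fun i hi => ((hfin z hz).1 n i hi).1).differentiableAt
  have hx : x ∈ ball x ρ := mem_ball_self hρ
  have hM : 0 ≤ M := (norm_nonneg _).trans (hb 0 x hx)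
  have hder : ∀ n, ∀ z ∈ ball x (ρ / 2), ‖deriv (fun z => it v1 n z) z‖ ≤ M / (ρ / 4) := by
    intro n z hz
    have hcl : closedBall z (ρ / 4) ⊆ ball x ρ := by
      intro w hw
      rw [mem_closedBall] at hw
      rw [mem_ball] at hz ⊢
      calc dist w x ≤ dist w z + dist z x := dist_triangle _ _ _
        _ < ρ := by linarith
    refine Complex.norm_deriv_le_of_forall_mem_sphere_norm_le (by positivity) ?_ ?_
    · refine DifferentiableOn.diffContOnCl ?_
      intro w hw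
      exact (hd n w (hcl (closure_ball_subset_closedBall hw))).differentiableWithinAt
    · intro w hw
      exact hb n w (hcl (sphere_subset_closedBall hw))
  have hlip : ∀ n, ∀ z ∈ ball x (ρ / 2), ‖it v1 n x - it v1 n z‖ ≤ M / (ρ / 4) * ‖x - z‖ := by
    intro n z hz
    have hx2 : x ∈ ball x (ρ / 2) := mem_ball_self (by positivity)
    exact (convex_ball x (ρ / 2)).norm_image_sub_le_of_norm_deriv_le (f := fun z => it v1 n z)
      (fun w hw => hd n w (ball_subset_ball (by linarith) hw)) (hder n) hz hx2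
  intro ε hε
  rw [OnePoint.nhds_coe_eq, Filter.eventually_map]
  have hr : 0 < min (ρ / 2) (ε / (M / (ρ / 4) + 1)) := by positivity
  filter_upwards [ball_mem_nhds x hr] with z hz n
  have hz1 : z ∈ ball x (ρ / 2) := ball_subset_ball (min_le_left _ _) hz
  have hz2 : ‖x - z‖ < ε / (M / (ρ / 4) + 1) := by
    have h1 : z ∈ ball x (ε / (M / (ρ / 4) + 1)) := ball_subset_ball (min_le_right _ _) hz
    rw [mem_ball, dist_comm, dist_eq_norm] at h1
    exact h1
  have hzρ : z ∈ ball x ρ := ball_subset_ball (by linarith) hz1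
  rw [(hfin x hx).2 n, (hfin z hzρ).2 n]
  refine (chord_le _ _).trans_lt ((hlip n z hz1).trans_lt ?_)
  have hK : 0 ≤ M / (ρ / 4) := by positivity
  rw [lt_div_iff₀ (by positivity)] at hz2
  nlinarith [norm_nonneg (x - z)]

theorem eq_conj {φ : OnePoint ℂ ≃ₜ OnePoint ℂ} {L : ℝ}
    (hL : ∀ x y, chord (φ x) (φ y) ≤ L * chord x y ∧ chord x y ≤ L * chord (φ x) (φ y))
    {f g : OnePoint ℂ → OnePoint ℂ} (hfg : ∀ x, g (φ x) = φ (f x)) {x : OnePoint ℂ}
    (hx : EqAt g (φ x)) : EqAt f x := by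
  intro ε hε
  have h1 := φ.continuous.continuousAt.eventually (hx (ε / (|L| + 1)) (by positivity))
  filter_upwards [h1] with y hy n
  have h2 := hy n
  rw [iter_conj φ hfg, iter_conj φ hfg] at h2
  have h3 := (hL (f^[n] x) (f^[n] y)).2
  have h4 := chord_nn (φ (f^[n] x)) (φ (f^[n] y))
  rw [lt_div_iff₀ (by positivity)] at h2
  have h5 : L * chord (φ (f^[n] x)) (φ (f^[n] y)) ≤ |L| * chord (φ (f^[n] x)) (φ (f^[n] y)) :=
    mul_le_mul_of_nonneg_right (le_abs_self L) h4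
  linarith

theorem emn {d : ℕ} (hd : 2 ≤ d) {v0 : E d} (hcop : IsCoprime (pol v0.1) (pol v0.2))
    (hdeg : max (pol v0.1).natDegree (pol v0.2).natDegree = d) {z0 : OnePoint ℂ}
    (hz : z0 ∉ FS (Rf v0)) : JPS (Rf v0) z0 := by
  intro U hU hz0 V hV hVn
  by_contra hcon
  push Not at hcon
  obtain ⟨s, φ, hsV, hφs, hφ, hφi, hconj, -⟩ := chart_ex hd hcop hdeg hV hVn
  obtain ⟨-, -, hfg⟩ := hconj v0 hcop hdeg
  obtain ⟨L, -, hL⟩ := Pool.Agent.H44.RG.chord_bilip hφs hφ hφi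
  have hVo : IsOpen (φ '' V) := φ.isOpenMap V hV
  have hUo : IsOpen (φ '' U) := φ.isOpenMap U hU
  have hinf : OnePoint.infty ∈ φ '' V := ⟨s, hsV, hφs⟩
  obtain ⟨M, hM⟩ : ∃ M : ℝ, ∀ z : ℂ, (z : OnePoint ℂ) ∉ φ '' V → ‖z‖ ≤ M := by
    have h1 := ((OnePoint.isOpen_iff_of_mem hinf).1 hVo).2
    obtain ⟨M, hM⟩ := h1.isBounded.exists_norm_le
    exact ⟨M, fun z hz => hM z hz⟩
  have hfinM : ∀ n : ℕ, ∀ y ∈ U, ∃ w : ℂ, ‖w‖ ≤ M ∧ (Rf (Lin s v0))^[n] (φ y) = (w : OnePoint ℂ) := by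
    intro n y hy
    have h1 : φ ((Rf v0)^[n] y) ∉ φ '' V := by
      rintro ⟨v, hv, hvy⟩
      rw [φ.injective hvy] at hv
      exact hcon y hy n hv
    rw [iter_conj φ hfg]
    induction hw : φ ((Rf v0)^[n] y) using OnePoint.rec with
    | infty =>
      rw [hw] at h1
      exact absurd hinf h1
    | coe w =>
      rw [hw] at h1
      exact ⟨w, hM w h1, rfl⟩
  apply hz
  refine interior_maximal (fun x hx => ?_) hU hz0
  obtain ⟨x', -, hx'⟩ := hfinM 0 x hx
  rw [Function.iterate_zero, id] at hx'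
  have hpre : IsOpen {z : ℂ | (z : OnePoint ℂ) ∈ φ '' U} := hUo.preimage OnePoint.continuous_coe
  obtain ⟨ρ, hρ, hball⟩ := Metric.isOpen_iff.1 hpre x' (by
    show (x' : OnePoint ℂ) ∈ φ '' U
    rw [← hx']
    exact ⟨x, hx, rfl⟩)
  refine eq_conj hL hfg ?_
  rw [hx']
  refine emn_ch (M := M) hρ fun n z hz => ?_
  obtain ⟨y, hy, hyz⟩ := hball hz
  obtain ⟨w, hw, hwe⟩ := hfinM n y hy
  exact ⟨w, hw, by rw [← hyz]; exact hwe⟩

end Pool.Agent.H56.HR
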