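import Pool.Agent.H35.EX.SerI
import Pool.Agent.H35.EX.SerP
import Pool.Agent.H61.TT.Lagr

/-!
# Module ALF: the phases of the branches are aligned (general invariant quadratic differential)

PROOF. Copy of `al_fib` (H44/RR/AL1) with a general `q` instead of `qq p B`: `inv_mass` (H35/EX/SerI) gives `∫⁻ x in pre a b T, ‖q x‖ₑ = ∫⁻ x in T, ‖q x‖ₑ`, `area` and `fs_aem` (H35/EX/SerP), so
`∑ y ∈ fs a b x, ‖q y‖ₑ / ofReal (‖dg a b y‖ ^ 2) = ‖q x‖ₑ` for almost every `x`; for regular `x` this is `∑ ‖q y / dg y ^ 2‖ = ‖q x‖`, and equality in the triangle inequality gives the numbers `ρ` (`al_alg`, private in AL1: copy it).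
-/

set_option autoImplicit false

open MeasureTheory Metric Set Polynomial Filter Topology

namespace Pool.Agent.H56.HR

open Pool.Agent.H61.TT Pool.Agent.H35.EX

variable {d : ℕ} {a b : Polynomial ℂ}

private theorem al_alg (s : Finset ℂ) (z : ℂ → ℂ) (w : ℂ) (hw : w = ∑ y ∈ s, z y)
    (hn : ∑ y ∈ s, ‖z y‖ = ‖w‖) : ∀ y ∈ s, ∃ ρ : ℝ, 0 ≤ ρ ∧ ρ ≤ 1 ∧ z y = (ρ : ℂ) * w := by
  intro y hy
  have hle : ‖z y‖ ≤ ‖w‖ := by
    rw [← hn]
    exact Finset.single_le_sum (f := fun y => ‖z y‖) (fun i _ => norm_nonneg _) hy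
  by_cases h0 : w = 0
  · refine ⟨0, le_rfl, by norm_num, ?_⟩
    rw [h0, norm_zero] at hle
    have h1 : z y = 0 := norm_le_zero_iff.mp hle
    rw [h1, h0]
    simp
  · have hpos : 0 < ‖w‖ := norm_pos_iff.mpr h0
    have hposC : ((‖w‖ : ℝ) : ℂ) ≠ 0 := by
      exact_mod_cast hpos.ne'
    obtain ⟨u, hu⟩ : ∃ u : ℂ, u = (starRingEnd ℂ) w / ((‖w‖ : ℝ) : ℂ) := ⟨_, rfl⟩
    have hconj : (starRingEnd ℂ) w * w = ((‖w‖ : ℝ) : ℂ) ^ 2 := by
      rw [mul_comm, Complex.mul_conj, Complex.normSq_eq_norm_sq]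
      push_cast
      rfl
    have huw : u * w = ((‖w‖ : ℝ) : ℂ) := by
      rw [hu, div_mul_eq_mul_div, hconj, pow_two, mul_div_assoc, div_self hposC, mul_one]
    have hun : ‖u‖ = 1 := by
      have h1 : ‖u‖ * ‖w‖ = ‖w‖ := by
        rw [← norm_mul, huw, Complex.norm_real, norm_norm]
      have h2 : ‖u‖ * ‖w‖ = 1 * ‖w‖ := by rw [h1, one_mul]
      exact mul_right_cancel₀ hpos.ne' h2
    have hre : ∀ i ∈ s, (u * z i).re ≤ ‖z i‖ := by
      intro i _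
      have h1 := Complex.re_le_norm (u * z i)
      rw [norm_mul, hun, one_mul] at h1
      exact h1
    have hsum : ∑ i ∈ s, (u * z i).re = ∑ i ∈ s, ‖z i‖ := by
      rw [hn, ← Complex.re_sum, ← Finset.mul_sum, ← hw, huw, Complex.ofReal_re]
    have heq := (Finset.sum_eq_sum_iff_of_le hre).mp hsum y hy
    have him : (u * z y).im = 0 := by
      have h1 : ‖u * z y‖ = ‖z y‖ := by rw [norm_mul, hun, one_mul]
      have h2 := Complex.sq_norm (u * z y)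
      rw [h1, Complex.normSq_apply, heq] at h2
      have h3 : (u * z y).im * (u * z y).im = 0 := by nlinarith
      exact mul_self_eq_zero.mp h3
    have hreal : u * z y = ((‖z y‖ : ℝ) : ℂ) := by
      apply Complex.ext
      · rw [heq, Complex.ofReal_re]
      · rw [him, Complex.ofReal_im]
    refine ⟨‖z y‖ / ‖w‖, by positivity, ?_, ?_⟩
    · rw [div_le_one hpos]
      exact hle
    · have h1 : z y * ((‖w‖ : ℝ) : ℂ) = ((‖z y‖ : ℝ) : ℂ) * w := by
        rw [← hreal, ← huw]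
        ring
      push_cast
      rw [div_mul_eq_mul_div, eq_div_iff hposC]
      exact h1

theorem alf (h : RatD d a b) {q : ℂ → ℂ} (hq : Measurable q) (hfin : ∫⁻ x, ‖q x‖ₑ ≠ ⊤)
    (hpush : ∀ᵐ x : ℂ, q x = ∑ y ∈ fs a b x, q y / dg a b y ^ 2) :
    ∀ᵐ x : ℂ, (∑ y ∈ fs a b x, ‖q y / dg a b y ^ 2‖ = ‖q x‖) ∧
      ∀ y ∈ fs a b x, ∃ ρ : ℝ, 0 ≤ ρ ∧ ρ ≤ 1 ∧ q y / dg a b y ^ 2 = (ρ : ℂ) * q x := by
  obtain ⟨F, hF⟩ : ∃ F : ℂ → ENNReal,
      ∀ y, F y = ‖q y‖ₑ / ENNReal.ofReal (‖dg a b y‖ ^ 2) := ⟨_, fun _ => rfl⟩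
  have hFm : Measurable F := by
    have : F = fun y => ‖q y‖ₑ / ENNReal.ofReal (‖dg a b y‖ ^ 2) := funext hF
    rw [this]
    exact hq.enorm.div (ENNReal.measurable_ofReal.comp ((measurable_dg.norm).pow_const 2))
  have hsum : ∀ T : Set ℂ, MeasurableSet T → volume T < ⊤ →
      ∫⁻ x in T, ∑ y ∈ fs a b x, F y = ∫⁻ x in T, ‖q x‖ₑ := by
    intro T hT _
    rw [area h hT hFm, ← inv_mass h hq hfin hpush hT]
    apply lintegral_congr_ae
    filter_upwards [ae_restrict_of_ae (ae_ww h), ae_restrict_mem (measurableSet_pre hT)] with y hy1 hy2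
    have hdg : dg a b y ≠ 0 := (dg_ne hy2.1).2 hy1
    have hpos : 0 < ‖dg a b y‖ ^ 2 := by positivity
    rw [hF, ENNReal.div_mul_cancel (ENNReal.ofReal_pos.mpr hpos).ne' ENNReal.ofReal_ne_top]
  have hae : (fun x => ∑ y ∈ fs a b x, F y) =ᵐ[volume] fun x => ‖q x‖ₑ :=
    ae_eq_of_forall_setLIntegral_eq_of_sigmaFinite₀ (fs_aem h hFm) hq.enorm.aemeasurable hsum
  have hreg : ∀ᵐ x : ℂ, RegV d a b x := by
    rw [ae_iff]
    exact (reg_finite h).measure_zero volume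
  filter_upwards [hae, hpush, hreg] with x h1 h2 h3
  have hkey : ∑ y ∈ fs a b x, ‖q y / dg a b y ^ 2‖ = ‖q x‖ := by
    have h4 : ∀ y ∈ fs a b x, F y = ENNReal.ofReal ‖q y / dg a b y ^ 2‖ := by
      intro y hy
      have hdg : dg a b y ≠ 0 := (dg_ne (h3.hb y hy)).2 (h3.hw y hy)
      have hpos : 0 < ‖dg a b y‖ ^ 2 := by positivity
      rw [hF, norm_div, norm_pow, ENNReal.ofReal_div_of_pos hpos, ofReal_norm_eq_enorm]
    have h5 : ENNReal.ofReal (∑ y ∈ fs a b x, ‖q y / dg a b y ^ 2‖) =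
        ENNReal.ofReal ‖q x‖ := by
      rw [ENNReal.ofReal_sum_of_nonneg (fun y _ => norm_nonneg _), ofReal_norm_eq_enorm, ← h1]
      exact Finset.sum_congr rfl fun y hy => (h4 y hy).symm
    exact (ENNReal.ofReal_eq_ofReal_iff (Finset.sum_nonneg fun y _ => norm_nonneg _)
      (norm_nonneg _)).mp h5
  exact ⟨hkey, al_alg (fs a b x) (fun y => q y / dg a b y ^ 2) (q x) h2 hkey⟩

end Pool.Agent.H56.HR
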