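import Pool.Agent.H56.HR.Defs

/-!
# Module ANB: annuli
-/

set_option autoImplicit false

open Filter Topology Polynomial Metric Set MeasureTheory

namespace Pool.Agent.H56.HR

open Pool.Agent.H44.Fatou Pool.Agent.H32.BT Pool.Agent.H79.Eul Pool.Agent.H79.Par Pool.Agent.H61.TT

theorem isOpen_Ann (r R : ℝ) : IsOpen (Ann r R) :=
  (isOpen_lt continuous_const continuous_norm).inter (isOpen_lt continuous_norm continuous_const)

theorem isCompact_CAn (s t : ℝ) : IsCompact (CAn s t) := by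
  have h : IsClosed (CAn s t) :=
    (isClosed_le continuous_const continuous_norm).inter (isClosed_le continuous_norm continuous_const)
  refine Metric.isCompact_of_isClosed_isBounded h ((isBounded_closedBall (x := (0 : ℂ)) (r := t)).subset ?_)
  intro w hw
  rw [mem_closedBall_zero_iff]
  exact hw.2

theorem can_sub {r s t R : ℝ} (h1 : r < s) (h2 : t < R) : CAn s t ⊆ Ann r R :=
  fun _ hw => ⟨h1.trans_le hw.1, hw.2.trans_lt h2⟩

theorem rot_norm {l : ℂ} (hl : Rot l) (w : ℂ) : ‖l * w‖ = ‖w‖ := by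
  rw [norm_mul, hl.nor, one_mul]

theorem rot_ann {l : ℂ} (hl : Rot l) {r R : ℝ} {w : ℂ} (hw : w ∈ Ann r R) : l * w ∈ Ann r R := by
  unfold Ann at hw ⊢
  rw [mem_ofPred_eq, rot_norm hl]
  exact hw

theorem pow_ann {l : ℂ} (hl : Rot l) {r R : ℝ} {w : ℂ} (hw : w ∈ Ann r R) (n : ℕ) :
    l ^ n * w ∈ Ann r R := by
  induction n with
  | zero => rw [pow_zero, one_mul]; exact hw
  | succ n ih => rw [pow_succ', mul_assoc]; exact rot_ann hl ih

theorem rot_ne {l : ℂ} (hl : Rot l) : l ≠ 0 := by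
  intro h
  have := hl.nor
  rw [h, norm_zero] at this
  exact zero_ne_one this

theorem circ_norm {s : ℝ} (hs : 0 ≤ s) (t : ℝ) : ‖circleMap 0 s t‖ = s := by
  have h := circleMap_mem_sphere (0 : ℂ) hs t
  rwa [mem_sphere_zero_iff_norm] at h

theorem circ_ann {r s R : ℝ} (hs : 0 ≤ s) (h1 : r < s) (h2 : s < R) (t : ℝ) :
    circleMap 0 s t ∈ Ann r R := by
  unfold Ann
  rw [mem_ofPred_eq, circ_norm hs]
  exact ⟨h1, h2⟩

end Pool.Agent.H56.HR
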