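import Pool.Agent.H56.HR.ANB
import Pool.Agent.H91.Fatou.Crit

/-!
# Module ANL: Lipschitz, Taylor and inverse Lipschitz estimates on closed annuli

PROOFS. Let `K = CAn s1 s2`, compact, contained in the open set `Ann r R`; there is `δ > 0` such that the closed `2 δ`-neighbourhood of `K` is in `Ann r R` (`IsCompact.exists_cthickening_subset_open`), let `K2` be the closed `δ`-neighbourhood. `F` and its derivatives are bounded on `K2`.
`anl_lip`: if `‖w - w'‖ < δ` the segment is in `K2`: mean value inequality (`Convex.norm_image_sub_le_of_norm_deriv_le` on the ball `ball w δ`); otherwise `‖F w - F w'‖ ≤ 2 M ≤ (2 M / δ) ‖w - w'‖`.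
`anl_tay`: the same, second order: on `ball w δ` (use `anl_lip` for `deriv F`, which is differentiable on `Ann r R`, and integrate; or Cauchy estimates), and for `‖w - w'‖ ≥ δ` bound trivially by `(..) / δ ^ 2 * ‖w' - w‖ ^ 2`.
`anl_inv`: `deriv F ≠ 0` on `K` (`not_injOn_of_deriv`, H91/Fatou/Crit), so `‖deriv F‖ ≥ c` on `K`; by `anl_tay` `‖F w - F w'‖ ≥ c ‖w - w'‖ - C ‖w - w'‖^2 ≥ (c/2) ‖w - w'‖` if `‖w - w'‖ ≤ c / (2 C)`; on the compact set of the pairs in `K × K` with `‖w - w'‖ ≥ c / (2 C)` the continuous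
function `‖F w - F w'‖` is positive (injectivity), so bounded below.
-/

set_option autoImplicit false

open Filter Topology Polynomial Metric Set MeasureTheory

namespace Pool.Agent.H56.HR

private theorem anl_bd {K U : Set ℂ} (hK : IsCompact K) (hU : IsOpen U) (hKU : K ⊆ U) {F : ℂ → ℂ}
    (hF : DifferentiableOn ℂ F U) : ∃ δ M : ℝ, 0 < δ ∧ 0 ≤ M ∧ IsCompact (cthickening δ K) ∧
    cthickening δ K ⊆ U ∧ ∀ z ∈ cthickening δ K, ‖F z‖ ≤ M ∧ ‖deriv F z‖ ≤ M := by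
  obtain ⟨δ, hδ, hsub⟩ := hK.exists_cthickening_subset_open hU hKU
  have hc : IsCompact (cthickening δ K) := hK.cthickening
  obtain ⟨M1, h1⟩ := hc.exists_bound_of_continuousOn (hF.continuousOn.mono hsub)
  obtain ⟨M2, h2⟩ := hc.exists_bound_of_continuousOn ((hF.deriv hU).continuousOn.mono hsub)
  refine ⟨δ, max (max M1 M2) 0, hδ, le_max_right _ _, hc, hsub, fun z hz => ⟨?_, ?_⟩⟩
  · exact (h1 z hz).trans ((le_max_left _ _).trans (le_max_left _ _))
  · exact (h2 z hz).trans ((le_max_right _ _).trans (le_max_left _ _))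

private theorem anl_gl {K U : Set ℂ} (hK : IsCompact K) (hU : IsOpen U) (hKU : K ⊆ U) {F : ℂ → ℂ}
    (hF : DifferentiableOn ℂ F U) :
    ∃ L : ℝ, 0 ≤ L ∧ ∀ w ∈ K, ‖F w‖ ≤ L ∧ ∀ w' ∈ K, ‖F w - F w'‖ ≤ L * ‖w - w'‖ := by
  obtain ⟨δ, M, hδ, hM, hc, hsub, hb⟩ := anl_bd hK hU hKU hF
  have hKc : ∀ w ∈ K, ball w δ ⊆ cthickening δ K := fun w hw =>
    (ball_subset_thickening hw δ).trans (thickening_subset_cthickening δ K)
  have hself : ∀ w ∈ K, w ∈ cthickening δ K := fun w hw => hKc w hw (mem_ball_self hδ)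
  have h0 : 0 ≤ 2 * M / δ := by positivity
  refine ⟨M + 2 * M / δ, by positivity, fun w hw => ⟨?_, fun w' hw' => ?_⟩⟩
  · exact (hb w (hself w hw)).1.trans (by linarith)
  · by_cases h : ‖w - w'‖ < δ
    · have h1 : w ∈ ball w' δ := by rwa [mem_ball, dist_eq_norm]
      have h2 := (convex_ball w' δ).norm_image_sub_le_of_norm_deriv_le (f := F) (C := M)
        (fun x hx => hF.differentiableAt (hU.mem_nhds (hsub (hKc w' hw' hx))))
        (fun x hx => (hb x (hKc w' hw' hx)).2) (mem_ball_self hδ) h1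
      refine h2.trans ?_
      exact mul_le_mul_of_nonneg_right (by linarith) (norm_nonneg _)
    · have h1 : δ ≤ ‖w - w'‖ := not_lt.1 h
      have h2 : ‖F w - F w'‖ ≤ 2 * M := by
        refine (norm_sub_le _ _).trans ?_
        have := (hb w (hself w hw)).1
        have := (hb w' (hself w' hw')).1
        linarith
      have h3 : 2 * M ≤ 2 * M / δ * ‖w - w'‖ := by
        rw [div_mul_eq_mul_div, le_div_iff₀ hδ]
        exact mul_le_mul_of_nonneg_left h1 (by positivity)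
      have h4 : 0 ≤ M * ‖w - w'‖ := by positivity
      rw [add_mul]
      linarith

theorem anl_lip {r R s1 s2 : ℝ} (h1 : r < s1) (h2 : s2 < R) {F : ℂ → ℂ}
    (hF : DifferentiableOn ℂ F (Ann r R)) :
    ∃ L : ℝ, 0 ≤ L ∧ ∀ w ∈ CAn s1 s2, ‖F w‖ ≤ L ∧ ∀ w' ∈ CAn s1 s2, ‖F w - F w'‖ ≤ L * ‖w - w'‖ :=
  anl_gl (isCompact_CAn s1 s2) (isOpen_Ann r R) (can_sub h1 h2) hF

theorem anl_tay {r R s1 s2 : ℝ} (h1 : r < s1) (h2 : s2 < R) {F : ℂ → ℂ}
    (hF : DifferentiableOn ℂ F (Ann r R)) :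
    ∃ C : ℝ, 0 ≤ C ∧ ∀ w ∈ CAn s1 s2, ∀ w' ∈ CAn s1 s2,
      ‖F w' - F w - deriv F w * (w' - w)‖ ≤ C * ‖w' - w‖ ^ 2 := by
  have hU := isOpen_Ann r R
  obtain ⟨δ, M, hδ, hM, hc, hsub, hb⟩ := anl_bd (isCompact_CAn s1 s2) hU (can_sub h1 h2) hF
  obtain ⟨L, hL, hLip⟩ := anl_gl hc hU hsub (hF.deriv hU)
  have hKc : ∀ w ∈ CAn s1 s2, closedBall w δ ⊆ cthickening δ (CAn s1 s2) := fun w hw =>
    closedBall_subset_cthickening hw δ
  have hself : ∀ w ∈ CAn s1 s2, w ∈ cthickening δ (CAn s1 s2) := fun w hw =>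
    hKc w hw (mem_closedBall_self hδ.le)
  refine ⟨L + 2 * M / δ ^ 2 + M / δ, by positivity, fun w hw w' hw' => ?_⟩
  have e0 : 0 ≤ ‖w' - w‖ := norm_nonneg _
  by_cases h : ‖w' - w‖ ≤ δ
  · obtain ⟨ρ, hρ⟩ : ∃ ρ, ρ = ‖w' - w‖ := ⟨_, rfl⟩
    have hsub2 : closedBall w ρ ⊆ cthickening δ (CAn s1 s2) :=
      (closedBall_subset_closedBall (by rw [hρ]; exact h)).trans (hKc w hw)
    have hd : ∀ x ∈ closedBall w ρ, DifferentiableAt ℂ F x := fun x hx =>
      hF.differentiableAt (hU.mem_nhds (hsub (hsub2 hx)))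
    have hG : ∀ x ∈ closedBall w ρ, HasDerivAt (fun z => F z - deriv F w * z) (deriv F x - deriv F w) x := by
      intro x hx
      have e1 := (hd x hx).hasDerivAt
      have e2 : HasDerivAt (fun z => deriv F w * z) (deriv F w * 1) x := (hasDerivAt_id x).const_mul _
      rw [mul_one] at e2
      exact e1.sub e2
    have e3 := (convex_closedBall w ρ).norm_image_sub_le_of_norm_deriv_le
      (f := fun z => F z - deriv F w * z) (C := L * ρ)
      (fun x hx => (hG x hx).differentiableAt)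
      (fun x hx => by
        rw [(hG x hx).deriv]
        refine ((hLip x (hsub2 hx)).2 w (hself w hw)).trans ?_
        rw [mem_closedBall, dist_eq_norm] at hx
        exact mul_le_mul_of_nonneg_left hx hL)
      (mem_closedBall_self (by rw [hρ]; exact e0)) (y := w') (by
        rw [mem_closedBall, dist_eq_norm, hρ])
    have e4 : F w' - F w - deriv F w * (w' - w) =
        (fun z => F z - deriv F w * z) w' - (fun z => F z - deriv F w * z) w := by
      simp only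
      ring
    rw [e4]
    refine e3.trans ?_
    rw [hρ]
    have e5 : 0 ≤ (2 * M / δ ^ 2 + M / δ) * ‖w' - w‖ ^ 2 := by positivity
    nlinarith
  · have h3 : δ ≤ ‖w' - w‖ := (not_le.1 h).le
    have e1 : ‖F w' - F w - deriv F w * (w' - w)‖ ≤ 2 * M + M * ‖w' - w‖ := by
      refine (norm_sub_le _ _).trans ?_
      have e2 : ‖F w' - F w‖ ≤ 2 * M := by
        refine (norm_sub_le _ _).trans ?_
        have := (hb w (hself w hw)).1
        have := (hb w' (hself w' hw')).1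
        linarith
      have e3 : ‖deriv F w * (w' - w)‖ ≤ M * ‖w' - w‖ := by
        rw [norm_mul]
        exact mul_le_mul_of_nonneg_right (hb w (hself w hw)).2 e0
      linarith
    have e2 : 2 * M ≤ 2 * M / δ ^ 2 * ‖w' - w‖ ^ 2 := by
      rw [div_mul_eq_mul_div, le_div_iff₀ (by positivity)]
      exact mul_le_mul_of_nonneg_left (pow_le_pow_left₀ hδ.le h3 2) (by positivity)
    have e3 : M * ‖w' - w‖ ≤ M / δ * ‖w' - w‖ ^ 2 := by
      rw [div_mul_eq_mul_div, le_div_iff₀ hδ, sq, ← mul_assoc]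
      exact mul_le_mul_of_nonneg_left h3 (by positivity)
    have e4 : 0 ≤ L * ‖w' - w‖ ^ 2 := by positivity
    rw [add_mul, add_mul]
    linarith

theorem anl_inv {r R s1 s2 : ℝ} (h1 : r < s1) (h2 : s2 < R) {F : ℂ → ℂ}
    (hF : DifferentiableOn ℂ F (Ann r R)) (hinj : InjOn F (Ann r R)) :
    ∃ c : ℝ, 0 < c ∧ ∀ w ∈ CAn s1 s2, ∀ w' ∈ CAn s1 s2, c * ‖w - w'‖ ≤ ‖F w - F w'‖ := by
  have hU := isOpen_Ann r R
  have hKU := can_sub h1 h2
  have hK := isCompact_CAn s1 s2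
  by_cases hne : (CAn s1 s2).Nonempty
  swap
  · refine ⟨1, one_pos, fun w hw => ?_⟩
    exact absurd ⟨w, hw⟩ hne
  obtain ⟨C, hC, htay⟩ := anl_tay h1 h2 hF
  have hd0 : ∀ w ∈ CAn s1 s2, deriv F w ≠ 0 := by
    intro w hw h0
    have hV : Ann r R ∈ 𝓝 w := hU.mem_nhds (hKU hw)
    exact Pool.Agent.H91.Fatou.not_injOn_of_deriv (hF.analyticAt hV) h0 hV hinj
  obtain ⟨w0, hw0, hmin⟩ := hK.exists_isMinOn hne (((hF.deriv hU).continuousOn.mono hKU).norm)
  obtain ⟨c0, hc0⟩ : ∃ c0, c0 = ‖deriv F w0‖ := ⟨_, rfl⟩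
  have hc0p : 0 < c0 := by
    rw [hc0]
    exact norm_pos_iff.2 (hd0 w0 hw0)
  have hc0m : ∀ w ∈ CAn s1 s2, c0 ≤ ‖deriv F w‖ := by
    intro w hw
    rw [hc0]
    exact hmin hw
  obtain ⟨ε, hε⟩ : ∃ ε, ε = c0 / (2 * (C + 1)) := ⟨_, rfl⟩
  have hεp : 0 < ε := by
    rw [hε]
    positivity
  have hCε : C * ε ≤ c0 / 2 := by
    have e1 : (C + 1) * ε = c0 / 2 := by
      rw [hε]
      field_simp
    nlinarith
  have hnear : ∀ w ∈ CAn s1 s2, ∀ w' ∈ CAn s1 s2, ‖w - w'‖ ≤ ε → c0 / 2 * ‖w - w'‖ ≤ ‖F w - F w'‖ := by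
    intro w hw w' hw' hww
    have e1 := htay w hw w' hw'
    have e2 : ‖w' - w‖ = ‖w - w'‖ := norm_sub_rev _ _
    have e3 : ‖F w' - F w‖ = ‖F w - F w'‖ := norm_sub_rev _ _
    have e4 : ‖deriv F w * (w' - w)‖ ≤ ‖F w' - F w‖ + ‖F w' - F w - deriv F w * (w' - w)‖ := by
      have e5 : deriv F w * (w' - w) = (F w' - F w) - (F w' - F w - deriv F w * (w' - w)) := by ring
      calc ‖deriv F w * (w' - w)‖ = ‖(F w' - F w) - (F w' - F w - deriv F w * (w' - w))‖ := by rw [← e5]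
        _ ≤ _ := norm_sub_le _ _
    rw [norm_mul, e2, e3] at e4
    rw [e2] at e1
    have e6 := mul_le_mul_of_nonneg_right (hc0m w hw) (norm_nonneg (w - w'))
    have e7 : C * ‖w - w'‖ ^ 2 ≤ c0 / 2 * ‖w - w'‖ := by
      rw [sq, ← mul_assoc]
      refine mul_le_mul_of_nonneg_right ?_ (norm_nonneg _)
      exact (mul_le_mul_of_nonneg_left hww hC).trans hCε
    linarith
  obtain ⟨S, hS⟩ : ∃ S : Set (ℂ × ℂ), S = (CAn s1 s2 ×ˢ CAn s1 s2) ∩ {p | ε ≤ ‖p.1 - p.2‖} := ⟨_, rfl⟩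
  have hSc : IsCompact S := by
    rw [hS]
    refine (hK.prod hK).inter_right ?_
    exact isClosed_le continuous_const ((continuous_fst.sub continuous_snd).norm)
  by_cases hSne : S.Nonempty
  swap
  · refine ⟨c0 / 2, by positivity, fun w hw w' hw' => hnear w hw w' hw' ?_⟩
    by_contra hcon
    apply hSne
    refine ⟨(w, w'), ?_⟩
    rw [hS]
    exact ⟨⟨hw, hw'⟩, (not_le.1 hcon).le⟩
  have hcont : ContinuousOn (fun p : ℂ × ℂ => ‖F p.1 - F p.2‖) S := by
    have hFc : ContinuousOn F (CAn s1 s2) := hF.continuousOn.mono hKU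
    refine ContinuousOn.norm (ContinuousOn.sub ?_ ?_)
    · refine hFc.comp continuous_fst.continuousOn ?_
      intro p hp
      rw [hS] at hp
      exact hp.1.1
    · refine hFc.comp continuous_snd.continuousOn ?_
      intro p hp
      rw [hS] at hp
      exact hp.1.2
  obtain ⟨p0, hp0, hpmin⟩ := hSc.exists_isMinOn hSne hcont
  obtain ⟨m, hm⟩ : ∃ m, m = ‖F p0.1 - F p0.2‖ := ⟨_, rfl⟩
  have hp0' := hp0
  rw [hS] at hp0'
  have hmp : 0 < m := by
    rw [hm, norm_pos_iff, sub_ne_zero]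
    intro h
    have h3 := hinj (hKU hp0'.1.1) (hKU hp0'.1.2) h
    have h4 : ε ≤ ‖p0.1 - p0.2‖ := hp0'.2
    rw [h3, sub_self, norm_zero] at h4
    linarith
  have hD : ∀ w ∈ CAn s1 s2, ∀ w' ∈ CAn s1 s2, ‖w - w'‖ ≤ 2 * s2 := by
    intro w hw w' hw'
    have e1 := hw.2
    have e2 := hw'.2
    have e3 := norm_sub_le w w'
    linarith
  have hDp : 0 < 2 * s2 := by
    have e1 : ε ≤ ‖p0.1 - p0.2‖ := hp0'.2
    have e2 := hD _ hp0'.1.1 _ hp0'.1.2
    linarith
  refine ⟨min (c0 / 2) (m / (2 * s2)), lt_min (by positivity) (by positivity), fun w hw w' hw' => ?_⟩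
  by_cases hww : ‖w - w'‖ ≤ ε
  · exact (mul_le_mul_of_nonneg_right (min_le_left _ _) (norm_nonneg _)).trans (hnear w hw w' hw' hww)
  · have e1 : (w, w') ∈ S := by
      rw [hS]
      exact ⟨⟨hw, hw'⟩, (not_le.1 hww).le⟩
    have e2 : m ≤ ‖F w - F w'‖ := by
      rw [hm]
      exact hpmin e1
    refine le_trans ?_ e2
    refine (mul_le_mul_of_nonneg_right (min_le_right _ _) (norm_nonneg _)).trans ?_
    rw [div_mul_eq_mul_div, div_le_iff₀ hDp]
    exact mul_le_mul_of_nonneg_left (hD w hw w' hw') hmp.le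

end Pool.Agent.H56.HR
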