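import Pool.Agent.H56.HR.CAV

/-!
# Module AVG: the uniform ergodic theorem for an irrational rotation of an annulus

PROOFS. `avg_mono`: geometric sum: for `k : ℤ`, `k ≠ 0`: `l ^ k ≠ 1`, `‖∑ n < N, (l ^ k) ^ n‖ ≤ 2 / ‖l ^ k - 1‖`.
`avg`: let `m = Real.circleAverage F 0 s` (independent of the radius, `cav_indep`). Step 1: for fixed `w ∈ Ann r R` the averages `(1/N) ∑ F (l ^ n w)` tend to
`Real.circleAverage F 0 ‖w‖`: the function `t ↦ F (w e^(it))` is continuous and periodic, so for every `η` there is a trigonometric polynomial `P` (finite sum `∑ a_k z^k`, `k : ℤ`) with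
`‖F (w z) - P z‖ ≤ η` for `‖z‖ = 1` (`span_fourier_closure_eq_top`, Mathlib/Analysis/Fourier/AddCircle; or Stone-Weierstrass on `Circle`); for `P` use `avg_mono`; the average of `P` over the
circle is `a_0`. (The average over the circle of radius `‖w‖` of `F` equals the average over the unit circle of `z ↦ F (w z)`.) Step 2: uniformity on `CAn s1 s2`: `F` is uniformly continuous on the compact set
`CAn s1 s2`, and `‖l ^ n w - l ^ n w'‖ = ‖w - w'‖`, so the averages `A_N` satisfy `‖A_N w - A_N w'‖ ≤ η` for `‖w - w'‖ < δ`, all `N`; finite `δ`-net of `CAn s1 s2`.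
-/

set_option autoImplicit false

open Filter Topology Polynomial Metric Set MeasureTheory

namespace Pool.Agent.H56.HR

open Pool.Agent.H44.Fatou Pool.Agent.H32.BT Pool.Agent.H79.Eul Pool.Agent.H79.Par Pool.Agent.H61.TT

private theorem geo_tendsto {q : ℂ} (hq : ‖q‖ = 1) (h1 : q ≠ 1) :
    Tendsto (fun N : ℕ => (N : ℂ)⁻¹ * ∑ n ∈ Finset.range N, q ^ n) atTop (𝓝 0) := by
  have hq1 : 0 < ‖q - 1‖ := norm_pos_iff.2 (sub_ne_zero.2 h1)
  have hb : ∀ N : ℕ, ‖(N : ℂ)⁻¹ * ∑ n ∈ Finset.range N, q ^ n‖ ≤ (2 / ‖q - 1‖) * (1 / (N : ℝ)) := by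
    intro N
    rw [geom_sum_eq h1, norm_mul, norm_inv, Complex.norm_natCast, norm_div]
    have h2 : ‖q ^ N - 1‖ ≤ 2 := by
      refine (norm_sub_le _ _).trans ?_
      rw [norm_pow, hq, one_pow, norm_one]
      norm_num
    rw [mul_comm, one_div]
    refine mul_le_mul_of_nonneg_right ?_ (by positivity)
    exact div_le_div_of_nonneg_right h2 hq1.le
  refine squeeze_zero_norm hb ?_
  have := (tendsto_one_div_atTop_nhds_zero_nat (𝕜 := ℝ)).const_mul (2 / ‖q - 1‖)
  rwa [mul_zero] at this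

private theorem zpow_ne {l : ℂ} (hl : Rot l) {k : ℤ} (hk : k ≠ 0) : l ^ k ≠ 1 := by
  intro h
  obtain ⟨n, rfl | rfl⟩ := k.eq_nat_or_neg
  · rw [zpow_natCast] at h
    exact hl.irr n (Nat.pos_of_ne_zero (by rintro rfl; exact hk rfl)) h
  · rw [zpow_neg, zpow_natCast, inv_eq_one] at h
    exact hl.irr n (Nat.pos_of_ne_zero (by rintro rfl; exact hk rfl)) h

/-- Weyl: averages along an irrational rotation of a continuous function on the circle -/
private theorem weyl {l : ℂ} (hl : Rot l) (a : AddCircle (2 * Real.pi))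
    (ha : ((AddCircle.toCircle a : Circle) : ℂ) = l) (g : C(AddCircle (2 * Real.pi), ℂ)) :
    Tendsto (fun N : ℕ => (N : ℂ)⁻¹ * ∑ n ∈ Finset.range N, g (n • a)) atTop
      (𝓝 ((2 * Real.pi)⁻¹ • ∫ t in (0 : ℝ)..(2 * Real.pi), g (t : AddCircle (2 * Real.pi)))) := by
  have : Fact ((0 : ℝ) < 2 * Real.pi) := ⟨Real.two_pi_pos⟩
  have hpi := Real.two_pi_pos
  have hint : ∀ g : C(AddCircle (2 * Real.pi), ℂ),
      IntervalIntegrable (fun t : ℝ => g (t : AddCircle (2 * Real.pi))) volume 0 (2 * Real.pi) := by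
    intro g
    exact (g.continuous.comp (AddCircle.continuous_mk' _)).intervalIntegrable _ _
  have hP : ∀ g ∈ Submodule.span ℂ (Set.range (@fourier (2 * Real.pi))),
      Tendsto (fun N : ℕ => (N : ℂ)⁻¹ * ∑ n ∈ Finset.range N, g (n • a)) atTop
        (𝓝 ((2 * Real.pi)⁻¹ • ∫ t in (0 : ℝ)..(2 * Real.pi), g (t : AddCircle (2 * Real.pi)))) := by
    intro g hg
    induction hg using Submodule.span_induction with
    | mem g hg =>
      obtain ⟨k, rfl⟩ := hg
      have e1 : ∀ n : ℕ, (fourier k : C(AddCircle (2 * Real.pi), ℂ)) (n • a) = (l ^ k) ^ n := by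
        intro n
        rw [fourier_apply, AddCircle.toCircle_zsmul, AddCircle.toCircle_nsmul, Circle.coe_zpow, Circle.coe_pow, ha]
        rw [← zpow_natCast, ← zpow_natCast, ← zpow_mul, ← zpow_mul, mul_comm]
      simp only [e1]
      by_cases hk : k = 0
      · subst hk
        simp only [zpow_zero, one_pow, Finset.sum_const, Finset.card_range, nsmul_eq_mul, mul_one, fourier_zero]
        rw [intervalIntegral.integral_const, smul_smul, sub_zero, inv_mul_cancel₀ hpi.ne', one_smul]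
        refine tendsto_const_nhds.congr' ?_
        filter_upwards [eventually_gt_atTop 0] with N hN
        rw [inv_mul_cancel₀ (by exact_mod_cast hN.ne')]
      · have h1 : (∫ t in (0 : ℝ)..(2 * Real.pi), (fourier k : C(AddCircle (2 * Real.pi), ℂ)) (t : AddCircle (2 * Real.pi))) = 0 := by
          have e2 : ∀ t : ℝ, (fourier k : C(AddCircle (2 * Real.pi), ℂ)) (t : AddCircle (2 * Real.pi)) =
              Complex.exp ((k * Complex.I) * t) := by
            intro t
            rw [fourier_coe_apply]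
            congr 1
            push_cast
            field_simp
          simp only [e2]
          have hk' : ((k : ℂ) * Complex.I) ≠ 0 := mul_ne_zero (by exact_mod_cast hk) Complex.I_ne_zero
          rw [integral_exp_mul_complex hk']
          have e3 : (k : ℂ) * Complex.I * ((2 * Real.pi : ℝ) : ℂ) = k * (2 * Real.pi * Complex.I) := by
            push_cast
            ring
          rw [e3, Complex.exp_int_mul_two_pi_mul_I]
          simp
        rw [h1, smul_zero]
        refine geo_tendsto ?_ (zpow_ne hl hk)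
        rw [norm_zpow, hl.nor, one_zpow]
    | zero => simp
    | add g h _ _ hg hh =>
      have h1 := hg.add hh
      rw [← smul_add, ← intervalIntegral.integral_add (hint g) (hint h)] at h1
      refine h1.congr fun N => ?_
      rw [← mul_add, ← Finset.sum_add_distrib]
      rfl
    | smul c g _ hg =>
      have h1 := hg.const_mul c
      rw [mul_smul_comm, ← intervalIntegral.integral_const_mul] at h1
      refine h1.congr fun N => ?_
      rw [mul_left_comm, Finset.mul_sum]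
      rfl
  rw [Metric.tendsto_atTop]
  intro ε hε
  have hmem : g ∈ (Submodule.span ℂ (Set.range (@fourier (2 * Real.pi)))).topologicalClosure := by
    rw [span_fourier_closure_eq_top]
    trivial
  obtain ⟨h, hh, hgh⟩ := Metric.mem_closure_iff.1 hmem (ε / 3) (by positivity)
  obtain ⟨N0, hN0⟩ := (Metric.tendsto_atTop.1 (hP h hh)) (ε / 3) (by positivity)
  have hpt : ∀ x, ‖g x - h x‖ ≤ ε / 3 := by
    intro x
    rw [← dist_eq_norm]
    exact (ContinuousMap.dist_apply_le_dist x).trans hgh.le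
  refine ⟨N0 + 1, fun N hN => ?_⟩
  have hNp : (0 : ℝ) < N := by exact_mod_cast (by omega : 0 < N)
  have h1 : ‖(N : ℂ)⁻¹ * ∑ n ∈ Finset.range N, g (n • a) - (N : ℂ)⁻¹ * ∑ n ∈ Finset.range N, h (n • a)‖ ≤ ε / 3 := by
    rw [← mul_sub, ← Finset.sum_sub_distrib, norm_mul, norm_inv, Complex.norm_natCast]
    have h2 : ‖∑ n ∈ Finset.range N, (g (n • a) - h (n • a))‖ ≤ N * (ε / 3) := by
      refine (norm_sum_le _ _).trans ?_
      refine (Finset.sum_le_card_nsmul _ _ (ε / 3) (fun n _ => hpt _)).trans ?_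
      rw [Finset.card_range, nsmul_eq_mul]
    calc (N : ℝ)⁻¹ * ‖∑ n ∈ Finset.range N, (g (n • a) - h (n • a))‖ ≤ (N : ℝ)⁻¹ * (N * (ε / 3)) :=
          mul_le_mul_of_nonneg_left h2 (by positivity)
      _ = ε / 3 := by rw [← mul_assoc, inv_mul_cancel₀ hNp.ne', one_mul]
  have h3 : ‖(2 * Real.pi)⁻¹ • (∫ t in (0 : ℝ)..(2 * Real.pi), h (t : AddCircle (2 * Real.pi))) -
      (2 * Real.pi)⁻¹ • (∫ t in (0 : ℝ)..(2 * Real.pi), g (t : AddCircle (2 * Real.pi)))‖ ≤ ε / 3 := by
    rw [← smul_sub, ← intervalIntegral.integral_sub (hint h) (hint g), norm_smul, Real.norm_of_nonneg (by positivity)]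
    have h4 : ‖∫ t in (0 : ℝ)..(2 * Real.pi), (h (t : AddCircle (2 * Real.pi)) - g (t : AddCircle (2 * Real.pi)))‖ ≤
        ε / 3 * |2 * Real.pi - 0| := by
      refine intervalIntegral.norm_integral_le_of_norm_le_const fun t _ => ?_
      rw [norm_sub_rev]
      exact hpt _
    rw [sub_zero, abs_of_pos hpi] at h4
    calc (2 * Real.pi)⁻¹ * ‖∫ t in (0 : ℝ)..(2 * Real.pi), (h (t : AddCircle (2 * Real.pi)) - g (t : AddCircle (2 * Real.pi)))‖
        ≤ (2 * Real.pi)⁻¹ * (ε / 3 * (2 * Real.pi)) := mul_le_mul_of_nonneg_left h4 (by positivity)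
      _ = ε / 3 := by
        field_simp
  have h5 := hN0 N (by omega)
  rw [dist_eq_norm] at h5 ⊢
  calc ‖(N : ℂ)⁻¹ * ∑ n ∈ Finset.range N, g (n • a) -
        (2 * Real.pi)⁻¹ • ∫ t in (0 : ℝ)..(2 * Real.pi), g (t : AddCircle (2 * Real.pi))‖
      = ‖((N : ℂ)⁻¹ * ∑ n ∈ Finset.range N, g (n • a) - (N : ℂ)⁻¹ * ∑ n ∈ Finset.range N, h (n • a)) +
        ((N : ℂ)⁻¹ * ∑ n ∈ Finset.range N, h (n • a) -
          (2 * Real.pi)⁻¹ • ∫ t in (0 : ℝ)..(2 * Real.pi), h (t : AddCircle (2 * Real.pi))) +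
        ((2 * Real.pi)⁻¹ • (∫ t in (0 : ℝ)..(2 * Real.pi), h (t : AddCircle (2 * Real.pi))) -
          (2 * Real.pi)⁻¹ • (∫ t in (0 : ℝ)..(2 * Real.pi), g (t : AddCircle (2 * Real.pi))))‖ := by
        congr 1
        abel
    _ ≤ _ := norm_add₃_le
    _ < ε := by linarith

/-- the average along the orbit of one point -/
private theorem avg_pt {l : ℂ} (hl : Rot l) {r R : ℝ} (hr : 0 ≤ r) {F : ℂ → ℂ} (hF : DifferentiableOn ℂ F (Ann r R))
    {s : ℝ} (hs : r < s) (hs' : s < R) {w : ℂ} (hw : w ∈ Ann r R) :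
    Tendsto (fun N : ℕ => (N : ℂ)⁻¹ * ∑ n ∈ Finset.range N, F (l ^ n * w)) atTop (𝓝 (Real.circleAverage F 0 s)) := by
  have hwp : 0 < ‖w‖ := hr.trans_lt hw.1
  have hw0 : w ≠ 0 := norm_pos_iff.1 hwp
  obtain ⟨a, ha⟩ : ∃ a : AddCircle (2 * Real.pi), ((AddCircle.toCircle a : Circle) : ℂ) = l := by
    refine ⟨((Complex.arg l : ℝ) : AddCircle (2 * Real.pi)), ?_⟩
    rw [AddCircle.toCircle_apply_mk, Circle.coe_exp]
    have h := Complex.norm_mul_exp_arg_mul_I l
    rw [hl.nor, Complex.ofReal_one, one_mul] at h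
    rw [div_self (Real.two_pi_pos.ne'), one_mul]
    exact h
  have hmem : ∀ x : AddCircle (2 * Real.pi), w * ((AddCircle.toCircle x : Circle) : ℂ) ∈ Ann r R := by
    intro x
    show r < ‖_‖ ∧ ‖_‖ < R
    rw [norm_mul, Circle.norm_coe, mul_one]
    exact hw
  obtain ⟨g, hg⟩ : ∃ g : C(AddCircle (2 * Real.pi), ℂ), ∀ x, g x = F (w * ((AddCircle.toCircle x : Circle) : ℂ)) := by
    refine ⟨⟨fun x => F (w * ((AddCircle.toCircle x : Circle) : ℂ)), ?_⟩, fun x => rfl⟩
    refine ContinuousOn.comp_continuous hF.continuousOn ?_ hmem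
    exact continuous_const.mul (continuous_subtype_val.comp AddCircle.continuous_toCircle)
  have h1 := weyl hl a ha g
  have h2 : (2 * Real.pi)⁻¹ • (∫ t in (0 : ℝ)..(2 * Real.pi), g (t : AddCircle (2 * Real.pi))) =
      Real.circleAverage F 0 s := by
    have h3 : Real.circleAverage (fun z => F (w * z)) 0 1 = Real.circleAverage F 0 ‖w‖ := by
      rw [Real.circleAverage_eq_circleAverage_zero_one (f := F)]
      have hu : ‖w / (‖w‖ : ℂ)‖ = 1 := by
        rw [norm_div, Complex.norm_real, norm_norm, div_self hwp.ne']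
      rw [← cav_rot hu (fun z => F ((‖w‖ : ℂ) * z + 0)) 1]
      congr 1
      funext z
      have h4 : (‖w‖ : ℂ) ≠ 0 := by exact_mod_cast hwp.ne'
      congr 1
      field_simp
      ring
    rw [cav_indep hr hF hs hs' hw.1 hw.2, ← h3, Real.circleAverage_def]
    congr 1
    refine intervalIntegral.integral_congr fun t _ => ?_
    show g (t : AddCircle (2 * Real.pi)) = F (w * circleMap 0 1 t)
    rw [hg, AddCircle.toCircle_apply_mk, Circle.coe_exp, circleMap, div_self (Real.two_pi_pos.ne'), one_mul]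
    congr 2
    simp
  rw [h2] at h1
  refine h1.congr fun N => ?_
  congr 1
  refine Finset.sum_congr rfl fun n _ => ?_
  rw [hg, AddCircle.toCircle_nsmul, Circle.coe_pow, ha, mul_comm]

theorem avg {l : ℂ} (hl : Rot l) {r R : ℝ} (hr : 0 ≤ r) {F : ℂ → ℂ}
    (hF : DifferentiableOn ℂ F (Ann r R)) {s s1 s2 : ℝ} (hs : r < s) (hs' : s < R) (h1 : r < s1)
    (h2 : s2 < R) {ε : ℝ} (hε : 0 < ε) :
    ∃ N0 : ℕ, 0 < N0 ∧ ∀ N ≥ N0, ∀ w ∈ CAn s1 s2,
      ‖(N : ℂ)⁻¹ * ∑ n ∈ Finset.range N, F (l ^ n * w) - Real.circleAverage F 0 s‖ ≤ ε := by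
  have hK := isCompact_CAn s1 s2
  have hsub := can_sub h1 h2
  have huc : UniformContinuousOn F (CAn s1 s2) := hK.uniformContinuousOn_of_continuous (hF.continuousOn.mono hsub)
  obtain ⟨δ, hδ, huc⟩ := Metric.uniformContinuousOn_iff.1 huc (ε / 2) (by positivity)
  obtain ⟨t, hts, htf, hcov⟩ := hK.finite_cover_balls hδ
  have hev : ∀ᶠ N : ℕ in atTop, ∀ c ∈ t,
      ‖(N : ℂ)⁻¹ * ∑ n ∈ Finset.range N, F (l ^ n * c) - Real.circleAverage F 0 s‖ ≤ ε / 2 := by
    rw [Filter.eventually_all_finite htf]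
    intro c hc
    have h3 := avg_pt hl hr hF hs hs' (hsub (hts hc))
    rw [Metric.tendsto_atTop] at h3
    obtain ⟨N1, hN1⟩ := h3 (ε / 2) (by positivity)
    filter_upwards [eventually_ge_atTop N1] with N hN
    have := hN1 N hN
    rw [dist_eq_norm] at this
    exact this.le
  obtain ⟨N0, hN0⟩ := eventually_atTop.1 hev
  refine ⟨N0 + 1, Nat.succ_pos _, fun N hN w hw => ?_⟩
  obtain ⟨c, hc, hwc⟩ := Set.mem_iUnion₂.1 (hcov hw)
  have hNp : (0 : ℝ) < N := by exact_mod_cast (by omega : 0 < N)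
  have h4 := hN0 N (by omega) c hc
  have hrot : ∀ n : ℕ, ∀ z ∈ CAn s1 s2, l ^ n * z ∈ CAn s1 s2 := by
    intro n z hz
    show s1 ≤ ‖_‖ ∧ ‖_‖ ≤ s2
    rw [norm_mul, norm_pow, hl.nor, one_pow, one_mul]
    exact hz
  have h5 : ‖(N : ℂ)⁻¹ * ∑ n ∈ Finset.range N, F (l ^ n * w) - (N : ℂ)⁻¹ * ∑ n ∈ Finset.range N, F (l ^ n * c)‖ ≤
      ε / 2 := by
    rw [← mul_sub, ← Finset.sum_sub_distrib, norm_mul, norm_inv, Complex.norm_natCast]
    have h6 : ‖∑ n ∈ Finset.range N, (F (l ^ n * w) - F (l ^ n * c))‖ ≤ N * (ε / 2) := by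
      refine (norm_sum_le _ _).trans ?_
      refine (Finset.sum_le_card_nsmul _ _ (ε / 2) (fun n _ => ?_)).trans ?_
      · rw [← dist_eq_norm]
        refine (huc _ (hrot n w hw) _ (hrot n c (hts hc)) ?_).le
        rw [dist_eq_norm, ← mul_sub, norm_mul, norm_pow, hl.nor, one_pow, one_mul, ← dist_eq_norm]
        exact hwc
      · rw [Finset.card_range, nsmul_eq_mul]
    calc (N : ℝ)⁻¹ * ‖∑ n ∈ Finset.range N, (F (l ^ n * w) - F (l ^ n * c))‖ ≤ (N : ℝ)⁻¹ * (N * (ε / 2)) :=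
          mul_le_mul_of_nonneg_left h6 (by positivity)
      _ = ε / 2 := by rw [← mul_assoc, inv_mul_cancel₀ hNp.ne', one_mul]
  calc ‖(N : ℂ)⁻¹ * ∑ n ∈ Finset.range N, F (l ^ n * w) - Real.circleAverage F 0 s‖
      = ‖((N : ℂ)⁻¹ * ∑ n ∈ Finset.range N, F (l ^ n * w) - (N : ℂ)⁻¹ * ∑ n ∈ Finset.range N, F (l ^ n * c)) +
        ((N : ℂ)⁻¹ * ∑ n ∈ Finset.range N, F (l ^ n * c) - Real.circleAverage F 0 s)‖ := by
        congr 1
        abel
    _ ≤ _ := norm_add_le _ _
    _ ≤ ε := by linarith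

end Pool.Agent.H56.HR
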