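import Pool.Agent.H56.HR.SDF
import Pool.Agent.H79.Par.PerDec

/-!
# Module JPT: the property of the Julia set in a chart, without poles

PROOFS. `jps_conj`: `U' = φ ⁻¹' U`, `V' = φ ⁻¹' V`, `iter_conj` (H32/BT/Top). `jpt`: `U = coe '' ball z0 ε`, `V' = coe '' V` are open (`OnePoint.isOpenEmbedding_coe`). `JPS` gives `y' ∈ U`, `n` with `f^[n] y' ∈ V'`. `W = {y : ℂ | y ∈ ball z0 ε, f^[n] y ∈ V'}` is open (`rat_continuous`, iterate) and nonempty; the set of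
the `y` with `f^[j] y = ∞` for some `j` is countable (`pre_countable`, H79/Par/PerFin; injectivity of the coercion), so its complement is dense (`Set.Countable.dense_compl ℂ`): there is `y ∈ W` with all `f^[j] y` finite. `orb_all` (H79/Par/PerDec): `ev v1.2 (it v1 j y) ≠ 0` for all `j` and `f^[n] y = it v1 n y`, in `V'`,
so `it v1 n y ∈ V` (`OnePoint.coe_injective`).
-/

set_option autoImplicit false

open Filter Topology Polynomial Metric Set MeasureTheory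

namespace Pool.Agent.H56.HR

open Pool.Agent.H44.Fatou Pool.Agent.H32.BT Pool.Agent.H79.Eul Pool.Agent.H79.Par
open Pool.Agent.H35.EX Pool.Agent.H44.RR

theorem jps_conj {φ : OnePoint ℂ ≃ₜ OnePoint ℂ} {f g : OnePoint ℂ → OnePoint ℂ}
    (hfg : ∀ x, g (φ x) = φ (f x)) {z : OnePoint ℂ} (h : JPS f z) : JPS g (φ z) := by
  intro U hU hzU V hV hVn
  obtain ⟨v, hv⟩ := hVn
  obtain ⟨y, hy, n, hn⟩ := h (φ ⁻¹' U) (hU.preimage φ.continuous) hzU (φ ⁻¹' V)
    (hV.preimage φ.continuous) ⟨φ.symm v, by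
      show φ (φ.symm v) ∈ V
      rw [φ.apply_symm_apply]
      exact hv⟩
  refine ⟨φ y, hy, n, ?_⟩
  rw [iter_conj φ hfg]
  exact hn

theorem jpt {d : ℕ} (hd : 2 ≤ d) {v1 : E d} (hcop : IsCoprime (pol v1.1) (pol v1.2))
    (hdeg : max (pol v1.1).natDegree (pol v1.2).natDegree = d) {z0 : ℂ}
    (h : JPS (Rf v1) (z0 : OnePoint ℂ)) : JP v1 z0 := by
  intro ε hε V hV hVn
  obtain ⟨v, hv⟩ := hVn
  have hemb := OnePoint.isOpenEmbedding_coe (X := ℂ)
  obtain ⟨y', hy', n, hn⟩ := h (((↑) : ℂ → OnePoint ℂ) '' ball z0 ε) (hemb.isOpenMap _ isOpen_ball)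
    ⟨z0, mem_ball_self hε, rfl⟩ (((↑) : ℂ → OnePoint ℂ) '' V) (hemb.isOpenMap _ hV) ⟨_, v, hv, rfl⟩
  obtain ⟨y1, hy1, rfl⟩ := hy'
  have hcont : Continuous (Rf v1)^[n] := (rat_continuous hcop).iterate n
  obtain ⟨W, hW⟩ : ∃ W : Set ℂ, W = ball z0 ε ∩ {y : ℂ | (Rf v1)^[n] (y : OnePoint ℂ) ∈
      ((↑) : ℂ → OnePoint ℂ) '' V} := ⟨_, rfl⟩
  have hWo : IsOpen W := by
    rw [hW]
    exact isOpen_ball.inter ((hemb.isOpenMap _ hV).preimage (hcont.comp OnePoint.continuous_coe))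
  have hWn : W.Nonempty := by
    rw [hW]
    exact ⟨y1, hy1, hn⟩
  have hcount : {y : ℂ | ∃ j : ℕ, (Rf v1)^[j] (y : OnePoint ℂ) = OnePoint.infty}.Countable := by
    have h1 := pre_countable hcop (by rw [hdeg]; omega) OnePoint.infty
    exact h1.preimage OnePoint.coe_injective
  obtain ⟨y, hyW, hyc⟩ := (hcount.dense_compl ℂ).inter_open_nonempty W hWo hWn
  rw [hW] at hyW
  obtain ⟨hyb, hyV⟩ := hyW
  have hfin : ∀ j : ℕ, (Rf v1)^[j] (y : OnePoint ℂ) ≠ OnePoint.infty := fun j hj => hyc ⟨j, hj⟩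
  obtain ⟨h1, h2⟩ := orb_all hfin
  refine ⟨y, hyb, n, fun j hj => (h1 n j hj).1, ?_⟩
  obtain ⟨x, hx, hxe⟩ := hyV
  rw [h2 n] at hxe
  rw [← OnePoint.coe_injective hxe]
  exact hx

end Pool.Agent.H56.HR
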