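import Pool.Agent.H56.HR.OUT
import Pool.Agent.H56.HR.EMN
import Pool.Agent.H56.HR.JPT

/-!
# Module CHR: a Herman ring in a good chart

PROOF. `out` gives `O`; `chart_ex` (H44/RR/CHT) with `U = O`: `s ∈ O`, `φ`, conjugacy `g (φ x) = φ (f x)`, `g = Rf (Lin s v0)`, `f = Rf v0`. `f^[j] (ψ w) ∉ O` for all `j`, so it is `≠ s`. `so_chart` gives `ψ1`. For `w ∈ Ann r R`: `g^[j] (ψ1 w) = φ (f^[j] (ψ w))` (`iter_conj`) is finite for all `j`, so by `orb_all`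
(H79/Par/PerDec) `ev (Lin s v0).2 (psi (Lin s v0) ψ1 j w) ≠ 0` and `φ (f^[j] (ψ w)) = psi (Lin s v0) ψ1 j w` (the key identity). Fields of `Ring`: `rat`: `hd`, coprimality and degree from `chart_ex`. `inj`: `sr_inj` and injectivity of `φ`. `rot`: `psi p w = φ (f^[p] (ψ w)) = φ (ψ (l w)) = ψ1 (l w)`.
`bdd`: `φ (ψ w) ∉ φ '' O`, an open neighbourhood of `∞`: bounded (as in EMN). `jin`, `jout`: if `u n ∈ Ann`, `‖u n‖ → r` (or `R`) and `ψ1 (u n) → z0`, then `ψ (u n) = φ.symm (ψ1 (u n)) → φ.symm z0`, so `φ.symm z0 ∉ FS f` (`lmt`), `JPS f (φ.symm z0)` (`emn`), `JPS g z0` (`jps_conj`), `JP (Lin s v0) z0` (`jpt`).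
-/

set_option autoImplicit false

open Filter Topology Polynomial Metric Set MeasureTheory

namespace Pool.Agent.H56.HR

open Pool.Agent.H44.Fatou Pool.Agent.H32.BT Pool.Agent.H79.Eul Pool.Agent.H79.Par
open Pool.Agent.H35.EX Pool.Agent.H44.RR Pool.Agent.H61.TT

theorem chr {d : ℕ} (hd : 2 ≤ d) {v0 : E d} (hcop : IsCoprime (pol v0.1) (pol v0.2))
    (hdeg : max (pol v0.1).natDegree (pol v0.2).natDegree = d) {A : Set (OnePoint ℂ)} {p : ℕ}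
    {l : ℂ} {ψ : ℂ → OnePoint ℂ} {r R : ℝ} (h : SRing (Rf v0) A p l ψ r R) :
    ∃ (s : ℂ) (φ : OnePoint ℂ ≃ₜ OnePoint ℂ) (ψ1 : ℂ → ℂ), φ s = OnePoint.infty ∧
      (∀ z : ℂ, z ≠ s → φ (z : OnePoint ℂ) = (((z - s)⁻¹ : ℂ) : OnePoint ℂ)) ∧
      (∀ v : E d, IsCoprime (pol v.1) (pol v.2) →
        max (pol v.1).natDegree (pol v.2).natDegree = d →
        ∀ x, Rf (Lin s v) (φ x) = φ (Rf v x)) ∧
      Ring (Lin s v0) p l ψ1 r R ∧ ∀ w ∈ Ann r R, φ (ψ w) = ((ψ1 w : ℂ) : OnePoint ℂ) := by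
  obtain ⟨O, hOo, hOn, hO⟩ := out hd hcop hdeg h
  obtain ⟨s, φ, hsO, hφs, hφ, hφi, hall, -⟩ := chart_ex hd hcop hdeg hOo hOn
  obtain ⟨hcop', hdeg', hconj⟩ := hall v0 hcop hdeg
  have hd1 : 1 ≤ max (pol v0.1).natDegree (pol v0.2).natDegree := by rw [hdeg]; omega
  have hf : Continuous (Rf v0) := rat_continuous hcop
  have ho : IsOpenMap (Rf v0) := rat_open hcop hd1
  have hns : ∀ w ∈ Ann r R, ψ w ≠ (s : OnePoint ℂ) := by
    intro w hw he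
    apply hO 0 w hw
    show ψ w ∈ O
    rw [he]
    exact hsO
  obtain ⟨ψ1, hψd, hψ⟩ := so_chart h.hol hφs hφ hφi hns
  have hit : ∀ w ∈ Ann r R, ∀ j : ℕ,
      (Rf (Lin s v0))^[j] ((ψ1 w : ℂ) : OnePoint ℂ) = φ ((Rf v0)^[j] (ψ w)) := by
    intro w hw j
    rw [← hψ w hw, iter_conj φ hconj]
  have hfin : ∀ w ∈ Ann r R, ∀ j : ℕ,
      (Rf (Lin s v0))^[j] ((ψ1 w : ℂ) : OnePoint ℂ) ≠ OnePoint.infty := by
    intro w hw j he
    rw [hit w hw j, ← hφs] at he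
    apply hO j w hw
    rw [φ.injective he]
    exact hsO
  have hkey : ∀ w ∈ Ann r R, ∀ j : ℕ,
      φ ((Rf v0)^[j] (ψ w)) = ((psi (Lin s v0) ψ1 j w : ℂ) : OnePoint ℂ) := by
    intro w hw j
    rw [← hit w hw j]
    exact (orb_all (hfin w hw)).2 j
  have hlim : ∀ ρ : ℝ, ρ = r ∨ ρ = R → ∀ (u : ℕ → ℂ) (z0 : ℂ), (∀ n, u n ∈ Ann r R) →
      Tendsto (fun n => ‖u n‖) atTop (𝓝 ρ) → Tendsto (fun n => ψ1 (u n)) atTop (𝓝 z0) →
      JP (Lin s v0) z0 := by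
    intro ρ hρ u z0 hu hn hz
    have h1 : Tendsto (fun n => ((ψ1 (u n) : ℂ) : OnePoint ℂ)) atTop (𝓝 (z0 : OnePoint ℂ)) :=
      (OnePoint.continuous_coe.tendsto z0).comp hz
    have h2 : Tendsto (fun n => φ.symm ((ψ1 (u n) : ℂ) : OnePoint ℂ)) atTop
        (𝓝 (φ.symm (z0 : OnePoint ℂ))) := (φ.symm.continuous.tendsto _).comp h1
    have h3 : Tendsto (fun n => ψ (u n)) atTop (𝓝 (φ.symm (z0 : OnePoint ℂ))) := by
      refine h2.congr fun n => ?_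
      rw [← hψ _ (hu n), φ.symm_apply_apply]
    have h4 := emn hd hcop hdeg (lmt h hu hρ hn h3)
    have h5 := jps_conj hconj h4
    rw [φ.apply_symm_apply] at h5
    exact jpt hd hcop' hdeg' h5
  refine ⟨s, φ, ψ1, hφs, hφ, fun v hv1 hv2 => (hall v hv1 hv2).2.2, ?_, hψ⟩
  refine ⟨⟨hd, hcop', hdeg'⟩, h.hp, h.rotl, h.hr, h.hrR, hψd, ?_, ?_, ?_, ?_, hlim r (Or.inl rfl),
    hlim R (Or.inr rfl)⟩
  · intro j w hw
    exact ((orb_all (hfin w hw)).1 (j + 1) j (Nat.lt_succ_self j)).1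
  · intro i hi j hj w hw w' hw' he
    apply sr_inj hf ho h hi hj hw hw'
    apply φ.injective
    rw [hkey w hw i, hkey w' hw' j, he]
  · intro w hw
    apply OnePoint.coe_injective
    rw [← hkey w hw p, h.rot w hw]
    exact hψ (l * w) (rot_ann h.rotl hw)
  · -- boundedness
    have hOc : IsCompact (φ '' Oᶜ) := (hOo.isClosed_compl.isCompact).image φ.continuous
    have hsub : φ '' Oᶜ ⊆ Set.range ((↑) : ℂ → OnePoint ℂ) := by
      rintro _ ⟨x, hx, rfl⟩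
      have hne : φ x ≠ OnePoint.infty := by
        intro he
        rw [← hφs] at he
        rw [φ.injective he] at hx
        exact hx hsO
      obtain ⟨y, hy⟩ := OnePoint.ne_infty_iff_exists.1 hne
      exact ⟨y, hy⟩
    obtain ⟨K, hK⟩ : ∃ K : Set ℂ, K = ((↑) : ℂ → OnePoint ℂ) ⁻¹' (φ '' Oᶜ) := ⟨_, rfl⟩
    have himg : ((↑) : ℂ → OnePoint ℂ) '' K = φ '' Oᶜ := by
      rw [hK, Set.image_preimage_eq_inter_range, Set.inter_eq_left]
      exact hsub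
    have hKc : IsCompact K := by
      rw [OnePoint.isOpenEmbedding_coe.isEmbedding.isCompact_iff, himg]
      exact hOc
    obtain ⟨M, hM⟩ := hKc.isBounded.exists_norm_le
    refine ⟨M, fun w hw => hM _ ?_⟩
    rw [hK]
    refine ⟨ψ w, hO 0 w hw, hψ w hw⟩

end Pool.Agent.H56.HR
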