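import Pool.Agent.H56.HR.KLN
import Pool.Agent.H56.HR.ANL
import Pool.Agent.H56.HR.AVG
import Pool.Agent.H56.HR.JMP

/-!
# Module COB: the drift is a constant plus a coboundary, up to a small error

PROOFS. `cob1` (no dynamics): `N` from `avg`, `S n w = ∑ k < n, F (l ^ k w)`, `χ w = - (1/N) ∑ n < N, S n w`. Then `F w - F (l ^ n w) = - ∑ k < n, (F (l ^ (k+1) w) - F (l ^ k w)) = - (S n (l w) - S n w)`, so `F w - (1/N) ∑ n < N, F (l ^ n w) = χ (l w) - χ w`, and by `avg`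
`‖F w - m - (χ (l w) - χ w)‖ ≤ ε`. `χ` is differentiable on `Ann r R` (`pow_ann`).
`cob`: write `u = ∑ i, a i u • e i` (`kk_lin`), `KK u = ∑ a i u * KK (e i)` (`kk_add`, `kk_smul`, induction over `Finset`), `LA (xi u) = ∑ a i u * LA (xi (e i))`, apply `cob1` to each `KK (e i)` (`kk_diff` in JMP) with `ε / (m + 1)`, `χ u = ∑ a i u * χ_i`, `anl_lip` for the `χ_i`.
-/

set_option autoImplicit false

open Filter Topology Polynomial Metric Set MeasureTheory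

namespace Pool.Agent.H56.HR

open Pool.Agent.H44.Fatou Pool.Agent.H32.BT Pool.Agent.H79.Eul Pool.Agent.H79.Par Pool.Agent.H61.TT

variable {d : ℕ} {v0 : E d} {p : ℕ} {l : ℂ} {ψ : ℂ → ℂ} {r R : ℝ}

theorem cob1 {l : ℂ} (hl : Rot l) {r R : ℝ} (hr : 0 ≤ r) {F : ℂ → ℂ}
    (hF : DifferentiableOn ℂ F (Ann r R)) {s s1 s2 : ℝ} (hs : r < s) (hs' : s < R) (h1 : r < s1)
    (h2 : s2 < R) {ε : ℝ} (hε : 0 < ε) :
    ∃ χ : ℂ → ℂ, DifferentiableOn ℂ χ (Ann r R) ∧ ∀ w ∈ CAn s1 s2,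
      ‖F w - Real.circleAverage F 0 s - (χ (l * w) - χ w)‖ ≤ ε := by
  obtain ⟨N, hN, hav⟩ := avg hl hr hF hs hs' h1 h2 hε
  have hNc : (N : ℂ) ≠ 0 := by exact_mod_cast hN.ne'
  refine ⟨fun w => -((N : ℂ)⁻¹ * ∑ n ∈ Finset.range N, ∑ k ∈ Finset.range n, F (l ^ k * w)), ?_, ?_⟩
  · refine DifferentiableOn.neg (DifferentiableOn.const_mul ?_ _)
    refine DifferentiableOn.fun_sum fun n _ => DifferentiableOn.fun_sum fun k _ => ?_
    refine hF.comp (f := fun w => l ^ k * w) (by fun_prop) ?_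
    intro w hw
    exact pow_ann hl hw k
  · intro w hw
    have h3 : ∀ n : ℕ, ∑ k ∈ Finset.range n, F (l ^ k * (l * w)) - ∑ k ∈ Finset.range n, F (l ^ k * w) =
        F (l ^ n * w) - F w := by
      intro n
      induction n with
      | zero => simp
      | succ n ih =>
        rw [Finset.sum_range_succ, Finset.sum_range_succ, add_sub_add_comm, ih, ← mul_assoc, ← pow_succ]
        ring
    have h4 : -((N : ℂ)⁻¹ * ∑ n ∈ Finset.range N, ∑ k ∈ Finset.range n, F (l ^ k * (l * w))) -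
        -((N : ℂ)⁻¹ * ∑ n ∈ Finset.range N, ∑ k ∈ Finset.range n, F (l ^ k * w)) =
        F w - (N : ℂ)⁻¹ * ∑ n ∈ Finset.range N, F (l ^ n * w) := by
      have h5 : ∑ n ∈ Finset.range N, ∑ k ∈ Finset.range n, F (l ^ k * (l * w)) =
          ∑ n ∈ Finset.range N, ∑ k ∈ Finset.range n, F (l ^ k * w) +
          (∑ n ∈ Finset.range N, F (l ^ n * w) - N * F w) := by
        rw [← sub_eq_iff_eq_add', ← Finset.sum_sub_distrib, Finset.sum_congr rfl fun n _ => h3 n,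
          Finset.sum_sub_distrib, Finset.sum_const, Finset.card_range, nsmul_eq_mul]
      rw [h5]
      field_simp
      ring_nf
    show ‖F w - Real.circleAverage F 0 s - (-((N : ℂ)⁻¹ * ∑ n ∈ Finset.range N, ∑ k ∈ Finset.range n, F (l ^ k * (l * w))) -
        -((N : ℂ)⁻¹ * ∑ n ∈ Finset.range N, ∑ k ∈ Finset.range n, F (l ^ k * w)))‖ ≤ ε
    rw [h4]
    have h6 := hav N le_rfl w hw
    have h7 : F w - Real.circleAverage F 0 s - (F w - (N : ℂ)⁻¹ * ∑ n ∈ Finset.range N, F (l ^ n * w)) =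
        (N : ℂ)⁻¹ * ∑ n ∈ Finset.range N, F (l ^ n * w) - Real.circleAverage F 0 s := by ring
    rw [h7]
    exact h6

theorem cob (h : Ring v0 p l ψ r R) {s s1 s2 : ℝ} (hs : r < s) (hs' : s < R) (h1 : r < s1)
    (h2 : s2 < R) {ε : ℝ} (hε : 0 < ε) :
    ∃ (χ : E d → ℂ → ℂ) (L : ℝ), 0 ≤ L ∧ ∀ u : E d, ∀ w ∈ CAn s1 s2,
      ‖χ u w‖ ≤ L * ‖u‖ ∧ (∀ w' ∈ CAn s1 s2, ‖χ u w - χ u w'‖ ≤ L * ‖u‖ * ‖w - w'‖) ∧
      ‖KK v0 p ψ u w - LA v0 p ψ s (xi v0 u) - (χ u (l * w) - χ u w)‖ ≤ ε * ‖u‖ := by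
  obtain ⟨m, e, a, ha, hu⟩ := kk_lin v0 p ψ
  have hε' : 0 < ε / (m + 1) := by positivity
  choose χ hχd hχ using fun i : Fin m => cob1 h.rotl h.hr.le (kk_diff h (e i)) hs hs' h1 h2 hε'
  choose L hL0 hL using fun i : Fin m => anl_lip h1 h2 (hχd i)
  have hKK : ∀ (u : E d) (w : ℂ), KK v0 p ψ u w = ∑ i, a i u * KK v0 p ψ (e i) w := by
    intro u w
    obtain ⟨T, hT⟩ : ∃ T : E d →ₗ[ℂ] ℂ, ∀ u, T u = KK v0 p ψ u w :=
      ⟨{ toFun := fun u => KK v0 p ψ u w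
         map_add' := fun u v => kk_add v0 p ψ u v w
         map_smul' := fun c u => kk_smul v0 p ψ c u w }, fun _ => rfl⟩
    conv_lhs => rw [hu u]
    rw [← hT, map_sum]
    refine Finset.sum_congr rfl fun i _ => ?_
    rw [map_smul, hT, smul_eq_mul]
  have hLA : ∀ u : E d, LA v0 p ψ s (xi v0 u) = ∑ i, a i u * LA v0 p ψ s (xi v0 (e i)) := by
    intro u
    obtain ⟨T, hT⟩ : ∃ T : E d →ₗ[ℂ] ℂ, ∀ u, T u = LA v0 p ψ s (xi v0 u) :=
      ⟨{ toFun := fun u => LA v0 p ψ s (xi v0 u)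
         map_add' := fun u v => la_xi_add h hs hs' u v
         map_smul' := fun c u => la_xi_smul h hs hs' c u }, fun _ => rfl⟩
    conv_lhs => rw [hu u]
    rw [← hT, map_sum]
    refine Finset.sum_congr rfl fun i _ => ?_
    rw [map_smul, hT, smul_eq_mul]
  refine ⟨fun u w => ∑ i, a i u * χ i w, ∑ i, L i, Finset.sum_nonneg fun i _ => hL0 i, fun u w hw => ⟨?_, ?_, ?_⟩⟩
  · refine (norm_sum_le _ _).trans ?_
    rw [Finset.sum_mul]
    refine Finset.sum_le_sum fun i _ => ?_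
    rw [norm_mul, mul_comm]
    exact mul_le_mul (hL i w hw).1 (ha i u) (norm_nonneg _) (hL0 i)
  · intro w' hw'
    show ‖∑ i, a i u * χ i w - ∑ i, a i u * χ i w'‖ ≤ _
    rw [← Finset.sum_sub_distrib]
    refine (norm_sum_le _ _).trans ?_
    rw [Finset.sum_mul, Finset.sum_mul]
    refine Finset.sum_le_sum fun i _ => ?_
    rw [← mul_sub, norm_mul]
    have h3 := (hL i w hw).2 w' hw'
    calc ‖a i u‖ * ‖χ i w - χ i w'‖ ≤ ‖u‖ * (L i * ‖w - w'‖) :=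
          mul_le_mul (ha i u) h3 (norm_nonneg _) (norm_nonneg _)
      _ = _ := by ring
  · have e1 : KK v0 p ψ u w - LA v0 p ψ s (xi v0 u) - (∑ i, a i u * χ i (l * w) - ∑ i, a i u * χ i w) =
        ∑ i, a i u * (KK v0 p ψ (e i) w - LA v0 p ψ s (xi v0 (e i)) - (χ i (l * w) - χ i w)) := by
      rw [hKK u w, hLA u, ← Finset.sum_sub_distrib, ← Finset.sum_sub_distrib, ← Finset.sum_sub_distrib]
      refine Finset.sum_congr rfl fun i _ => ?_
      ring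
    show ‖KK v0 p ψ u w - LA v0 p ψ s (xi v0 u) - (∑ i, a i u * χ i (l * w) - ∑ i, a i u * χ i w)‖ ≤ _
    rw [e1]
    refine (norm_sum_le _ _).trans ?_
    have h3 : ∀ i ∈ (Finset.univ : Finset (Fin m)),
        ‖a i u * (KK v0 p ψ (e i) w - LA v0 p ψ s (xi v0 (e i)) - (χ i (l * w) - χ i w))‖ ≤ ‖u‖ * (ε / (m + 1)) := by
      intro i _
      rw [norm_mul]
      exact mul_le_mul (ha i u) (hχ i w hw) (norm_nonneg _) (norm_nonneg _)
    refine (Finset.sum_le_card_nsmul _ _ _ h3).trans ?_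
    rw [Finset.card_univ, Fintype.card_fin, nsmul_eq_mul]
    have h4 : (m : ℝ) * (ε / (m + 1)) ≤ ε := by
      rw [mul_div_assoc', div_le_iff₀ (by positivity)]
      nlinarith
    calc (m : ℝ) * (‖u‖ * (ε / (m + 1))) = ((m : ℝ) * (ε / (m + 1))) * ‖u‖ := by ring
      _ ≤ ε * ‖u‖ := mul_le_mul_of_nonneg_right h4 (norm_nonneg _)

end Pool.Agent.H56.HR
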