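import Pool.Agent.H56.HR.SDF
import Pool.Agent.H56.HR.ANB
import Pool.Agent.H91.Fatou.Crit
import Pool.Agent.H32.BT.Mob

/-!
# Module SOP: holomorphic injective maps into the sphere

PROOFS. `so_cont`: `OnePoint.continuous_coe`, and `recip` is continuous (`recip w = rat 1 X w`, `rat_continuous`; or `H44.Fatou.pt`). `so_chart`: `ψ1 w =` the complex number with `φ (ψ w) = ψ1 w` (exists: `φ (ψ w) ≠ ∞ = φ s`). Near a point `w0`: if `ψ = some ∘ g` near `w0`: `g z ≠ s` there,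
`ψ1 z = (g z - s)⁻¹`, differentiable. If `ψ = recip ∘ g` near `w0`: for `g z ≠ 0`: `(g z)⁻¹ ≠ s`, so `1 - s * g z ≠ 0`, and `ψ1 z = ((g z)⁻¹ - s)⁻¹ = g z / (1 - s * g z)`; for `g z = 0`: `φ ∞ = 0`, the same formula: differentiable.
`so_open`: choose `s : ℂ` (any point) and work locally: for `w0 ∈ U` choose `s` with `ψ w0 ≠ s` and `φ` from `exists_mob s` (H32/BT/Mob); near `w0` (where `ψ ≠ s`, by continuity) `ψ1` is differentiable and injective, so it is open at `w0` (`not_injOn_of_deriv` gives `deriv ψ1 w0 ≠ 0`,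
`HasStrictDerivAt.map_nhds_eq`), and `ψ = φ.symm ∘ some ∘ ψ1`; `some` is an open embedding. So `ψ '' U ∈ 𝓝 (ψ w0)`.
`so_lim`: the inverse of `ψ` is continuous on the open set `ψ '' Ann`: for a neighbourhood `W ⊆ Ann r R` of `w`, `ψ '' W` is a neighbourhood of `ψ w` (`so_open`), so `ψ (u n) ∈ ψ '' W` for large `n`, `u n ∈ W` by injectivity.
-/

set_option autoImplicit false

open Filter Topology Polynomial Metric Set MeasureTheory

namespace Pool.Agent.H56.HR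

open Pool.Agent.H44.Fatou Pool.Agent.H32.BT Pool.Agent.H79.Eul Pool.Agent.H79.Par
open Pool.Agent.H35.EX Pool.Agent.H44.RR

variable {ψ : ℂ → OnePoint ℂ} {r R : ℝ}

theorem so_recip (w : ℂ) : recip w = rat 1 X (w : OnePoint ℂ) := by
  rw [rat_coe, eval_one, eval_X]
  unfold recip pt
  by_cases hw : w = 0
  · rw [if_pos hw, if_pos hw]
  · rw [if_neg hw, if_neg hw, one_div]

theorem so_recip_cont : Continuous recip := by
  have h : recip = fun w : ℂ => rat 1 X (w : OnePoint ℂ) := funext so_recip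
  rw [h]
  exact (rat_continuous isCoprime_one_left).comp OnePoint.continuous_coe

theorem so_cont {w : ℂ} (h : HoloAt ψ w) : ContinuousAt ψ w := by
  obtain ⟨g, hg, h1 | h1⟩ := h
  · have h2 : ContinuousAt (fun z => ((g z : ℂ) : OnePoint ℂ)) w :=
      OnePoint.continuous_coe.continuousAt.comp hg.continuousAt
    exact h2.congr (h1.mono fun z hz => hz.symm)
  · have h2 : ContinuousAt (fun z => recip (g z)) w :=
      so_recip_cont.continuousAt.comp hg.continuousAt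
    exact h2.congr (h1.mono fun z hz => hz.symm)

/-- the map in the chart -/
noncomputable def so_f (φ : OnePoint ℂ ≃ₜ OnePoint ℂ) (ψ : ℂ → OnePoint ℂ) (z : ℂ) : ℂ :=
  (φ (ψ z)).elim 0 id

theorem so_f_eq {φ : OnePoint ℂ ≃ₜ OnePoint ℂ} {z a : ℂ} (h : φ (ψ z) = ((a : ℂ) : OnePoint ℂ)) :
    so_f φ ψ z = a := by
  unfold so_f
  rw [h]
  rfl

theorem so_loc {w0 : ℂ} (hw : HoloAt ψ w0) {s : ℂ} {φ : OnePoint ℂ ≃ₜ OnePoint ℂ}
    (hφ : ∀ z : ℂ, z ≠ s → φ (z : OnePoint ℂ) = (((z - s)⁻¹ : ℂ) : OnePoint ℂ))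
    (hφi : φ OnePoint.infty = ((0 : ℂ) : OnePoint ℂ)) (hs : ψ w0 ≠ (s : OnePoint ℂ)) :
    AnalyticAt ℂ (so_f φ ψ) w0 ∧ ∀ᶠ z in 𝓝 w0, φ (ψ z) = ((so_f φ ψ z : ℂ) : OnePoint ℂ) := by
  obtain ⟨g, hg, h1 | h1⟩ := hw
  · have h2 : g w0 ≠ s := by
      intro h
      apply hs
      rw [h1.self_of_nhds, h]
    have h3 : ∀ᶠ z in 𝓝 w0, φ (ψ z) = (((g z - s)⁻¹ : ℂ) : OnePoint ℂ) := by
      filter_upwards [h1, hg.continuousAt.eventually_ne h2] with z hz hz2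
      rw [hz, hφ _ hz2]
    have h4 : (fun z => (g z - s)⁻¹) =ᶠ[𝓝 w0] so_f φ ψ :=
      h3.mono fun z hz => (so_f_eq hz).symm
    refine ⟨((hg.sub analyticAt_const).inv (sub_ne_zero.2 h2)).congr h4, ?_⟩
    filter_upwards [h3] with z hz
    rw [so_f_eq hz, hz]
  · have h2 : 1 - s * g w0 ≠ 0 := by
      intro h
      have h5 := h1.self_of_nhds
      have hg0 : g w0 ≠ 0 := by
        intro h6
        rw [h6, mul_zero, sub_zero] at h
        exact one_ne_zero h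
      apply hs
      rw [h5]
      unfold recip
      rw [if_neg hg0]
      have : (g w0)⁻¹ = s := by
        have h7 : s * g w0 = 1 := (sub_eq_zero.1 h).symm
        exact (eq_inv_of_mul_eq_one_left h7).symm
      rw [this]
    have hc : ContinuousAt (fun z => 1 - s * g z) w0 :=
      continuousAt_const.sub (continuousAt_const.mul hg.continuousAt)
    have h3 : ∀ᶠ z in 𝓝 w0, φ (ψ z) = ((g z / (1 - s * g z) : ℂ) : OnePoint ℂ) := by
      filter_upwards [h1, hc.eventually_ne h2] with z hz hz2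
      rw [hz]
      unfold recip
      by_cases hgz : g z = 0
      · rw [if_pos hgz, hφi, hgz, zero_div]
      · rw [if_neg hgz]
        have h6 : (g z)⁻¹ ≠ s := by
          intro h
          apply hz2
          rw [← h, inv_mul_cancel₀ hgz, sub_self]
        rw [hφ _ h6]
        congr 1
        have h7 : (g z)⁻¹ - s = (1 - s * g z) / g z := by
          field_simp
        rw [h7, inv_div]
    have h4 : (fun z => g z / (1 - s * g z)) =ᶠ[𝓝 w0] so_f φ ψ :=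
      h3.mono fun z hz => (so_f_eq hz).symm
    refine ⟨(hg.div (analyticAt_const.sub (analyticAt_const.mul hg)) h2).congr h4, ?_⟩
    filter_upwards [h3] with z hz
    rw [so_f_eq hz, hz]

theorem so_chart (hh : ∀ w ∈ Ann r R, HoloAt ψ w) {s : ℂ} {φ : OnePoint ℂ ≃ₜ OnePoint ℂ}
    (hφs : φ s = OnePoint.infty)
    (hφ : ∀ z : ℂ, z ≠ s → φ (z : OnePoint ℂ) = (((z - s)⁻¹ : ℂ) : OnePoint ℂ))
    (hφi : φ OnePoint.infty = ((0 : ℂ) : OnePoint ℂ)) (hs : ∀ w ∈ Ann r R, ψ w ≠ (s : OnePoint ℂ)) :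
    ∃ ψ1 : ℂ → ℂ, DifferentiableOn ℂ ψ1 (Ann r R) ∧
      ∀ w ∈ Ann r R, φ (ψ w) = ((ψ1 w : ℂ) : OnePoint ℂ) :=
  ⟨so_f φ ψ, fun w hw => (so_loc (hh w hw) hφ hφi (hs w hw)).1.differentiableAt.differentiableWithinAt,
    fun w hw => (so_loc (hh w hw) hφ hφi (hs w hw)).2.self_of_nhds⟩

theorem so_map (hinj : InjOn ψ (Ann r R)) (hh : ∀ w ∈ Ann r R, HoloAt ψ w) {w0 : ℂ}
    (hw0 : w0 ∈ Ann r R) : map ψ (𝓝 w0) = 𝓝 (ψ w0) := by
  obtain ⟨s, hs⟩ : ∃ s : ℂ, ψ w0 ≠ (s : OnePoint ℂ) := by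
    by_cases h : ψ w0 = ((0 : ℂ) : OnePoint ℂ)
    · refine ⟨1, ?_⟩
      rw [h]
      intro h1
      exact zero_ne_one (OnePoint.coe_injective h1)
    · exact ⟨0, h⟩
  obtain ⟨hA, hE⟩ := so_loc (φ := mobHomeo s) (hh w0 hw0)
    (fun z hz => (mobHomeo_apply s z).trans (mob_phi_coe s z hz))
    ((mobHomeo_apply s _).trans (mob_phi_infty s)) hs
  have hV : {z | mobHomeo s (ψ z) = ((so_f (mobHomeo s) ψ z : ℂ) : OnePoint ℂ)} ∩ Ann r R ∈ 𝓝 w0 :=
    inter_mem hE ((isOpen_Ann r R).mem_nhds hw0)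
  have hI : InjOn (so_f (mobHomeo s) ψ)
      ({z | mobHomeo s (ψ z) = ((so_f (mobHomeo s) ψ z : ℂ) : OnePoint ℂ)} ∩ Ann r R) := by
    rintro x ⟨hx, hx'⟩ y ⟨hy, hy'⟩ hxy
    apply hinj hx' hy'
    apply (mobHomeo s).injective
    have hx1 : mobHomeo s (ψ x) = ((so_f (mobHomeo s) ψ x : ℂ) : OnePoint ℂ) := hx
    have hy1 : mobHomeo s (ψ y) = ((so_f (mobHomeo s) ψ y : ℂ) : OnePoint ℂ) := hy
    rw [hx1, hy1, hxy]
  have hd : deriv (so_f (mobHomeo s) ψ) w0 ≠ 0 := fun h0 =>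
    Pool.Agent.H91.Fatou.not_injOn_of_deriv hA h0 hV hI
  have h1 : map (so_f (mobHomeo s) ψ) (𝓝 w0) = 𝓝 (so_f (mobHomeo s) ψ w0) :=
    hA.hasStrictDerivAt.map_nhds_eq hd
  have h2 : ψ =ᶠ[𝓝 w0] fun z => (mobHomeo s).symm ((so_f (mobHomeo s) ψ z : ℂ) : OnePoint ℂ) := by
    filter_upwards [hE] with z hz
    rw [← hz, Homeomorph.symm_apply_apply]
  have h3 : map (fun z => (mobHomeo s).symm ((so_f (mobHomeo s) ψ z : ℂ) : OnePoint ℂ)) (𝓝 w0) =
      map (mobHomeo s).symm (map ((↑) : ℂ → OnePoint ℂ) (map (so_f (mobHomeo s) ψ) (𝓝 w0))) := by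
    rw [map_map, map_map]
    rfl
  rw [Filter.map_congr h2, h3, h1, OnePoint.isOpenEmbedding_coe.map_nhds_eq,
    (mobHomeo s).symm.map_nhds_eq, h2.self_of_nhds]

theorem so_open (hinj : InjOn ψ (Ann r R)) (hh : ∀ w ∈ Ann r R, HoloAt ψ w) {U : Set ℂ}
    (hU : IsOpen U) (hs : U ⊆ Ann r R) : IsOpen (ψ '' U) := by
  rw [isOpen_iff_mem_nhds]
  rintro _ ⟨w0, hw0, rfl⟩
  rw [← so_map hinj hh (hs hw0)]
  exact image_mem_map (hU.mem_nhds hw0)

theorem so_lim (hinj : InjOn ψ (Ann r R)) (hh : ∀ w ∈ Ann r R, HoloAt ψ w) {u : ℕ → ℂ}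
    (hu : ∀ n, u n ∈ Ann r R) {w : ℂ} (hw : w ∈ Ann r R)
    (ht : Tendsto (fun n => ψ (u n)) atTop (𝓝 (ψ w))) : Tendsto u atTop (𝓝 w) := by
  intro W hW
  have h1 : ψ '' (W ∩ Ann r R) ∈ 𝓝 (ψ w) := by
    rw [← so_map hinj hh hw]
    exact image_mem_map (inter_mem hW ((isOpen_Ann r R).mem_nhds hw))
  have h5 : ∀ᶠ n in atTop, ψ (u n) ∈ ψ '' (W ∩ Ann r R) := ht h1
  refine h5.mono fun n hn => ?_
  obtain ⟨w', ⟨h2, h3⟩, h4⟩ := hn
  rw [← hinj h3 (hu n) h4]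
  exact h2

end Pool.Agent.H56.HR
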