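import Pool.Agent.H56.HR.FBS
import Pool.Agent.H56.HR.SOP

/-!
# Module DIS: the images of a Herman ring are disjoint and the map is injective on their union

PROOFS. Let `F = FS f`, `A` the component of `x ∈ F`. `f^[j] '' A ⊆ F` (`fs_map_it`; `A ⊆ F`: `connectedComponentIn_subset`), and it is preconnected (continuous image of `isPreconnected_connectedComponentIn`).
`sr_disj`: let `i < j < p` and `z ∈ f^[i] '' A ∩ f^[j] '' A`, `k = p - (j - i)`, `0 < k < p`. Then `f^[p - j] z ∈ f^[k] '' A ∩ f^[p] '' A = f^[k] '' A ∩ A`. So the preconnected set `f^[k] '' A ⊆ F` meets `A`, hence `f^[k] '' A ⊆ A` (`IsPreconnected.subset_connectedComponentIn` at that point and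
`connectedComponentIn_eq`). So `f^[k * m] '' A ⊆ f^[k] '' A ⊆ A` for `m ≥ 1`, and `f^[k * p] '' A = A` (iterate `h.per`, `k * p = p * k`), so `A ⊆ f^[k] '' A ⊆ A`, against `h.min`.
`sr_rot`: induction. `sr_inj`: `f^[i] (ψ w) = f^[j] (ψ w')`, `i, j < p`: by `sr_disj` `i = j`; apply `f^[p - i]`: `f^[p] (ψ w) = f^[p] (ψ w')`, so `ψ (l w) = ψ (l w')`, `l w = l w'` (`h.bij.injOn`, `rot_ann`), `w = w'`.
`lmt`: `z0 ∈ closure A` (`ψ (u n) ∈ A`). If `z0 ∈ FS f` then `z0 ∈ A` (`comp_cl`), `z0 = ψ w`, `w ∈ Ann r R`, `u n → w` (`so_lim`), so `‖u n‖ → ‖w‖`, which is different from `r` and `R`: contradiction with uniqueness of limits.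
-/

set_option autoImplicit false

open Filter Topology Polynomial Metric Set MeasureTheory

namespace Pool.Agent.H56.HR

open Pool.Agent.H44.Fatou Pool.Agent.H32.BT Pool.Agent.H79.Eul Pool.Agent.H79.Par
open Pool.Agent.H35.EX Pool.Agent.H44.RR

variable {f : OnePoint ℂ → OnePoint ℂ} {A : Set (OnePoint ℂ)} {p : ℕ} {l : ℂ}
  {ψ : ℂ → OnePoint ℂ} {r R : ℝ}

private theorem dis_it_add {X : Type*} (f : X → X) (A : Set X) (m n : ℕ) :
    f^[m] '' (f^[n] '' A) = f^[m + n] '' A := by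
  rw [← image_comp, ← Function.iterate_add]

private theorem dis_per {X : Type*} (f : X → X) (A : Set X) (p : ℕ) (h : f^[p] '' A = A) (n : ℕ) :
    f^[p * n] '' A = A := by
  induction n with
  | zero => rw [Nat.mul_zero, Function.iterate_zero, image_id]
  | succ n ih =>
    rw [Nat.mul_succ, ← dis_it_add, h, ih]

private theorem dis_mono {X : Type*} (f : X → X) (A : Set X) (k : ℕ) (h : f^[k] '' A ⊆ A) (m : ℕ) :
    f^[k * (m + 1)] '' A ⊆ f^[k] '' A := by
  induction m with
  | zero => rw [Nat.zero_add, Nat.mul_one]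
  | succ m ih =>
    have h1 : k * (m + 1 + 1) = k * (m + 1) + k := by ring
    rw [h1, ← dis_it_add]
    exact (image_mono h).trans ih

private theorem dis_lt (hf : Continuous f) (ho : IsOpenMap f) (h : SRing f A p l ψ r R) {i j : ℕ}
    (hj : j < p) (hij : i < j) : Disjoint (f^[i] '' A) (f^[j] '' A) := by
  rw [Set.disjoint_left]
  intro z hz1 hz2
  obtain ⟨x, hx, hA⟩ := h.comp
  obtain ⟨k, hk⟩ : ∃ k, k = p - (j - i) := ⟨_, rfl⟩
  have hk0 : 0 < k := by omega
  have hkp : k < p := by omega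
  have h1 : f^[p - j] z ∈ f^[k] '' A := by
    have h2 : f^[p - j] z ∈ f^[p - j] '' (f^[i] '' A) := mem_image_of_mem _ hz1
    rwa [dis_it_add, show p - j + i = k by omega] at h2
  have h2 : f^[p - j] z ∈ A := by
    have h3 : f^[p - j] z ∈ f^[p - j] '' (f^[j] '' A) := mem_image_of_mem _ hz2
    rwa [dis_it_add, show p - j + j = p by omega, h.per] at h3
  have hAF : A ⊆ FS f := by
    rw [hA]
    exact connectedComponentIn_subset _ _
  have hpre : IsPreconnected (f^[k] '' A) := by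
    refine IsPreconnected.image ?_ _ (hf.iterate k).continuousOn
    rw [hA]
    exact isPreconnected_connectedComponentIn
  have hsub : f^[k] '' A ⊆ FS f := by
    rintro _ ⟨y, hy, rfl⟩
    exact fs_map_it ho k (hAF hy)
  have h3 : f^[k] '' A ⊆ A := by
    have h4 := hpre.subset_connectedComponentIn h1 hsub
    have h5 : connectedComponentIn (FS f) x = connectedComponentIn (FS f) (f^[p - j] z) := by
      refine connectedComponentIn_eq ?_
      rw [← hA]
      exact h2
    rwa [← h5, ← hA] at h4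
  have h4 : f^[k * p] '' A = A := by
    rw [mul_comm]
    exact dis_per f A p h.per k
  have h5 : A ⊆ f^[k] '' A := by
    have h6 := dis_mono f A k h3 (p - 1)
    rwa [Nat.sub_add_cancel h.hp, h4] at h6
  exact h.min k hk0 hkp (Subset.antisymm h3 h5)

theorem sr_disj (hf : Continuous f) (ho : IsOpenMap f) (h : SRing f A p l ψ r R) {i j : ℕ}
    (hi : i < p) (hj : j < p) (hij : i ≠ j) : Disjoint (f^[i] '' A) (f^[j] '' A) := by
  rcases lt_or_gt_of_ne hij with h1 | h1
  · exact dis_lt hf ho h hj h1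
  · exact (dis_lt hf ho h hi h1).symm

theorem sr_rot (h : SRing f A p l ψ r R) (n : ℕ) {w : ℂ} (hw : w ∈ Ann r R) :
    f^[p * n] (ψ w) = ψ (l ^ n * w) := by
  induction n with
  | zero => rw [Nat.mul_zero, pow_zero, one_mul, Function.iterate_zero, id]
  | succ n ih =>
    rw [Nat.mul_succ, Nat.add_comm, Function.iterate_add_apply, ih, h.rot _ (pow_ann h.rotl hw n)]
    congr 1
    rw [pow_succ']
    ring

theorem sr_inj (hf : Continuous f) (ho : IsOpenMap f) (h : SRing f A p l ψ r R) {i j : ℕ}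
    (hi : i < p) (hj : j < p) {w w' : ℂ} (hw : w ∈ Ann r R) (hw' : w' ∈ Ann r R)
    (he : f^[i] (ψ w) = f^[j] (ψ w')) : i = j ∧ w = w' := by
  have hwA : ψ w ∈ A := h.bij.mapsTo hw
  have hwA' : ψ w' ∈ A := h.bij.mapsTo hw'
  have hij : i = j := by
    by_contra hne
    have h1 := Set.disjoint_left.1 (sr_disj hf ho h hi hj hne) (mem_image_of_mem (f^[i]) hwA)
    rw [he] at h1
    exact h1 (mem_image_of_mem _ hwA')
  refine ⟨hij, ?_⟩
  rw [← hij] at he
  have h2 : f^[p] (ψ w) = f^[p] (ψ w') := by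
    have h3 : p = (p - i) + i := by omega
    rw [h3, Function.iterate_add_apply, Function.iterate_add_apply, he]
  rw [h.rot w hw, h.rot w' hw'] at h2
  have h3 := h.bij.injOn (rot_ann h.rotl hw) (rot_ann h.rotl hw') h2
  exact mul_left_cancel₀ (rot_ne h.rotl) h3

theorem sr_open (h : SRing f A p l ψ r R) : IsOpen A := by
  rw [← h.bij.image_eq]
  exact so_open h.bij.injOn h.hol (isOpen_Ann r R) Subset.rfl

theorem lmt (h : SRing f A p l ψ r R) {u : ℕ → ℂ} (hu : ∀ n, u n ∈ Ann r R) {ρ : ℝ}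
    (hρ : ρ = r ∨ ρ = R) (hn : Tendsto (fun n => ‖u n‖) atTop (𝓝 ρ)) {z0 : OnePoint ℂ}
    (hz : Tendsto (fun n => ψ (u n)) atTop (𝓝 z0)) : z0 ∉ FS f := by
  intro hF
  obtain ⟨x, hx, hA⟩ := h.comp
  have h1 : z0 ∈ closure A := mem_closure_of_tendsto hz (Eventually.of_forall fun n => h.bij.mapsTo (hu n))
  have h2 : z0 ∈ A := by
    rw [hA] at h1 ⊢
    exact comp_cl hx h1 hF
  rw [← h.bij.image_eq] at h2
  obtain ⟨w, hw, rfl⟩ := h2
  have h3 := so_lim h.bij.injOn h.hol hu hw hz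
  have h4 : Tendsto (fun n => ‖u n‖) atTop (𝓝 ‖w‖) := h3.norm
  have h5 := tendsto_nhds_unique hn h4
  rcases hρ with h6 | h6
  · rw [h5] at h6
    exact (ne_of_gt hw.1) h6
  · rw [h5] at h6
    exact (ne_of_lt hw.2) h6

end Pool.Agent.H56.HR
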