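import Pool.Agent.H56.HR.ANB

/-!
# Module DNS: the powers of an irrational rotation are dense

PROOFS. `dns`: Kronecker. Write `l = exp (2 π i θ)`, `θ` irrational (`Rot.irr`); Mathlib: `AddCircle.denseRange_zsmul_coe_iff` (Mathlib/Topology/Instances/AddCircle/DenseSubgroup); forward powers: or elementary
by pigeonhole: for `ε > 0` there is `k > 0` with `0 < ‖l ^ k - 1‖ < ε` (the points `l ^ n` are distinct in a compact set), so the points `l ^ (k m)`, `m = 0, 1, 2, ..` go around the circle with steps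
`< ε`; start at `m` large to have `n ≥ N`.
-/

set_option autoImplicit false

open Filter Topology Polynomial Metric Set MeasureTheory

namespace Pool.Agent.H56.HR

open Pool.Agent.H44.Fatou Pool.Agent.H32.BT Pool.Agent.H79.Eul Pool.Agent.H79.Par Pool.Agent.H61.TT

theorem dns {l : ℂ} (hl : Rot l) {z : ℂ} (hz : ‖z‖ = 1) {ε : ℝ} (hε : 0 < ε) (N : ℕ) :
    ∃ n ≥ N, ‖l ^ n - z‖ < ε := by
  -- a small power
  have hc : ContinuousAt Complex.arg 1 := Complex.continuousAt_arg Complex.one_mem_slitPlane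
  obtain ⟨δ, hδ, harg⟩ := Metric.continuousAt_iff.1 hc ε hε
  have hK : IsCompact (sphere (0 : ℂ) 1) := isCompact_sphere 0 1
  have hnor : ∀ n : ℕ, ‖l ^ n‖ = 1 := fun n => by rw [norm_pow, hl.nor, one_pow]
  obtain ⟨z0, -, φ, hφ, hlim⟩ := hK.tendsto_subseq (x := fun n : ℕ => l ^ n) (fun n => by
    rw [mem_sphere_zero_iff_norm, hnor])
  obtain ⟨M, hM⟩ := Metric.cauchySeq_iff.1 hlim.cauchySeq δ hδ
  have h1 := hM (M + 1) (Nat.le_succ M) M le_rfl
  rw [dist_eq_norm] at h1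
  have hlt : φ M < φ (M + 1) := hφ (Nat.lt_succ_self M)
  obtain ⟨k, hk⟩ : ∃ k : ℕ, φ (M + 1) = φ M + k := ⟨φ (M + 1) - φ M, by omega⟩
  have hk0 : 0 < k := by omega
  have h2 : ‖l ^ k - 1‖ < δ := by
    have e : (fun n : ℕ => l ^ n) (φ (M + 1)) - (fun n : ℕ => l ^ n) (φ M) = l ^ φ M * (l ^ k - 1) := by
      show l ^ φ (M + 1) - l ^ φ M = l ^ φ M * (l ^ k - 1)
      rw [hk, pow_add]
      ring
    have h3 : ‖(fun n : ℕ => l ^ n) (φ (M + 1)) - (fun n : ℕ => l ^ n) (φ M)‖ < δ := h1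
    rw [e, norm_mul, hnor, one_mul] at h3
    exact h3
  obtain ⟨α, hα⟩ : ∃ α : ℝ, α = Complex.arg (l ^ k) := ⟨_, rfl⟩
  have hq : l ^ k = Complex.exp (Complex.I * (α : ℝ)) := by
    have h := Complex.norm_mul_exp_arg_mul_I (l ^ k)
    rw [hnor, Complex.ofReal_one, one_mul, ← hα] at h
    rw [mul_comm]
    exact h.symm
  have hα1 : |α| < ε := by
    have h := harg (by rw [dist_eq_norm]; exact h2)
    rwa [Complex.arg_one, Real.dist_eq, sub_zero, ← hα] at h
  have hα0 : α ≠ 0 := by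
    intro h0
    rw [h0, Complex.ofReal_zero, mul_zero, Complex.exp_zero] at hq
    exact hl.irr k hk0 hq
  obtain ⟨β, hβ⟩ : ∃ β : ℝ, β = Complex.arg z := ⟨_, rfl⟩
  have hzβ : z = Complex.exp (Complex.I * (β : ℝ)) := by
    have h := Complex.norm_mul_exp_arg_mul_I z
    rw [hz, Complex.ofReal_one, one_mul, ← hβ] at h
    rw [mul_comm]
    exact h.symm
  -- a large multiple of `2π` in the right direction
  obtain ⟨J, hJ⟩ : ∃ J : ℤ, (N : ℝ) ≤ (β + J * (2 * Real.pi)) / α := by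
    have hpi := Real.two_pi_pos
    rcases lt_or_gt_of_ne hα0 with hneg | hpos
    · obtain ⟨J, hJ⟩ := exists_int_lt ((N * α - β) / (2 * Real.pi))
      refine ⟨J, ?_⟩
      rw [lt_div_iff₀ hpi] at hJ
      rw [le_div_iff_of_neg hneg]
      linarith
    · obtain ⟨J, hJ⟩ := exists_int_gt ((N * α - β) / (2 * Real.pi))
      refine ⟨J, ?_⟩
      rw [div_lt_iff₀ hpi] at hJ
      rw [le_div_iff₀ hpos]
      linarith
  obtain ⟨m, hm⟩ : ∃ m : ℕ, m = ⌈(β + J * (2 * Real.pi)) / α⌉₊ := ⟨_, rfl⟩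
  have hm1 : (β + J * (2 * Real.pi)) / α ≤ m := by rw [hm]; exact Nat.le_ceil _
  have hm2 : (m : ℝ) < (β + J * (2 * Real.pi)) / α + 1 := by
    rw [hm]
    exact Nat.ceil_lt_add_one ((Nat.cast_nonneg N).trans hJ)
  have hNm : N ≤ m := by exact_mod_cast hJ.trans hm1
  refine ⟨k * m, hNm.trans (Nat.le_mul_of_pos_left m hk0), ?_⟩
  have h4 : |m * α - (β + J * (2 * Real.pi))| < ε := by
    have e : m * α - (β + J * (2 * Real.pi)) = (m - (β + J * (2 * Real.pi)) / α) * α := by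
      field_simp
    rw [e, abs_mul]
    have h5 : |(m : ℝ) - (β + J * (2 * Real.pi)) / α| ≤ 1 := by
      rw [abs_le]
      constructor <;> linarith
    calc |(m : ℝ) - (β + J * (2 * Real.pi)) / α| * |α| ≤ 1 * |α| := mul_le_mul_of_nonneg_right h5 (abs_nonneg _)
      _ < ε := by rw [one_mul]; exact hα1
  have h6 : l ^ (k * m) - z = z * (Complex.exp (Complex.I * ((m * α - (β + J * (2 * Real.pi)) : ℝ) : ℂ)) - 1) := by
    rw [pow_mul, hq, ← Complex.exp_nat_mul, hzβ, mul_sub, mul_one, ← Complex.exp_add]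
    congr 1
    rw [Complex.exp_eq_exp_iff_exists_int]
    refine ⟨J, ?_⟩
    push_cast
    ring
  rw [h6, norm_mul, hz, one_mul]
  exact (Real.norm_exp_I_mul_ofReal_sub_one_le (x := m * α - (β + J * (2 * Real.pi)))).trans_lt h4

end Pool.Agent.H56.HR
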