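import Pool.Agent.H56.HR.PRT
import Pool.Agent.H56.HR.COB

/-!
# Module DRF: an orbit of the perturbed map which stays in the ring forces the mean drift to be small

PROOF. If `s1 > s2` there is no such orbit; `s1 > 0`. Constants `C, η` of `prt`, `χ, L` of `cob` with `ε / 4`. Let `‖u‖ ≤ min η ..` with `C1 ‖u‖ ≤ 1/4` where `ζ n = w (n+1) / (l w n) - 1` satisfies `‖ζ n‖ ≤ C1 ‖u‖` (from `‖w (n+1) - l w n‖ ≤ C ‖u‖`, `‖l w n‖ ≥ s1`).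
`Real.log ‖w (n+1)‖ - Real.log ‖w n‖ = Real.log ‖1 + ζ n‖ = (Complex.log (1 + ζ n)).re = (ζ n).re + O(‖ζ n‖ ^ 2)` (`Complex.log_re`, `Complex.norm_log_one_add_sub_self_le`). So with `m = LA v0 p ψ s (xi v0 u)` and `H n = Real.log ‖w n‖ - (χ u (w n)).re`:
`H (n+1) - H n = m.re + error`, `|error| ≤ (ε/4) ‖u‖ + C2 ‖u‖ ^ 2` (terms: `ζ - KK`: `C ‖u‖^2`; `‖ζ‖^2`; `cob`: `(ε/4) ‖u‖`; `χ u (w (n+1)) - χ u (l w n)`: `L ‖u‖ * C ‖u‖`). For `‖u‖` small `C2 ‖u‖ ≤ ε / 4`, so `|H (n+1) - H n - m.re| ≤ (ε/2) ‖u‖`, `|H N - H 0 - N m.re| ≤ N (ε/2) ‖u‖`.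
`H` is bounded (`s1 ≤ ‖w n‖ ≤ s2`, `‖χ u‖ ≤ L ‖u‖`), divide by `N → ∞`: `|m.re| ≤ (ε/2) ‖u‖`.
-/

set_option autoImplicit false

open Filter Topology Polynomial Metric Set MeasureTheory

namespace Pool.Agent.H56.HR

open Pool.Agent.H44.Fatou Pool.Agent.H32.BT Pool.Agent.H79.Eul Pool.Agent.H79.Par Pool.Agent.H61.TT

variable {d : ℕ} {v0 : E d} {p : ℕ} {l : ℂ} {ψ : ℂ → ℂ} {r R : ℝ}

/-- one step -/
private theorem step {w w' l K m χ1 χ0 χ' : ℂ} {s1 C C1 L ε t : ℝ} (hl : ‖l‖ = 1) (hs1 : 0 < s1) (hw : s1 ≤ ‖w‖)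
    (hw' : s1 ≤ ‖w'‖) (hC1 : C1 = C / s1) (ht : 0 ≤ t) (htC : C1 * t ≤ 1 / 2)
    (h1 : ‖w' - l * w‖ ≤ C * t) (h2 : ‖w' / (l * w) - 1 - K‖ ≤ C * t ^ 2)
    (h3 : ‖K - m - (χ1 - χ0)‖ ≤ ε / 4 * t) (h4 : ‖χ1 - χ'‖ ≤ L * t * ‖l * w - w'‖) (hL : 0 ≤ L) :
    |(Real.log ‖w'‖ - χ'.re) - (Real.log ‖w‖ - χ0.re) - m.re| ≤ ε / 4 * t + (C1 ^ 2 + C + L * C) * t ^ 2 := by
  have hwp : 0 < ‖w‖ := hs1.trans_le hw
  have hw'p : 0 < ‖w'‖ := hs1.trans_le hw'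
  have hlw : ‖l * w‖ = ‖w‖ := by rw [norm_mul, hl, one_mul]
  have hlw0 : l * w ≠ 0 := by rw [← norm_pos_iff, hlw]; exact hwp
  obtain ⟨ζ, hζ⟩ : ∃ ζ : ℂ, ζ = w' / (l * w) - 1 := ⟨_, rfl⟩
  have hζ1 : ‖ζ‖ ≤ C1 * t := by
    have e : ζ = (w' - l * w) / (l * w) := by
      rw [hζ, sub_div, div_self hlw0]
    rw [e, norm_div, hlw, hC1, div_mul_eq_mul_div]
    exact div_le_div₀ ((norm_nonneg _).trans h1) h1 hs1 hw
  have hζ2 : ‖ζ‖ ≤ 1 / 2 := hζ1.trans htC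
  have hlog : Real.log ‖w'‖ - Real.log ‖w‖ = (Complex.log (1 + ζ)).re := by
    rw [Complex.log_re, hζ, add_sub_cancel, norm_div, hlw, Real.log_div hw'p.ne' hwp.ne']
  have hq : ‖Complex.log (1 + ζ) - ζ‖ ≤ C1 ^ 2 * t ^ 2 := by
    have h5 := Complex.norm_log_one_add_sub_self_le (z := ζ) (by linarith)
    have h6 : (1 - ‖ζ‖)⁻¹ ≤ 2 := by
      rw [inv_le_comm₀ (by linarith) (by norm_num)]
      linarith
    have h7 : ‖ζ‖ ^ 2 ≤ (C1 * t) ^ 2 := pow_le_pow_left₀ (norm_nonneg _) hζ1 2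
    have h8 : ‖ζ‖ ^ 2 * (1 - ‖ζ‖)⁻¹ / 2 ≤ ‖ζ‖ ^ 2 := by
      have : ‖ζ‖ ^ 2 * (1 - ‖ζ‖)⁻¹ ≤ ‖ζ‖ ^ 2 * 2 := mul_le_mul_of_nonneg_left h6 (by positivity)
      linarith
    calc ‖Complex.log (1 + ζ) - ζ‖ ≤ ‖ζ‖ ^ 2 := h5.trans h8
      _ ≤ (C1 * t) ^ 2 := h7
      _ = _ := by ring
  have h9 : (Real.log ‖w'‖ - χ'.re) - (Real.log ‖w‖ - χ0.re) - m.re =
      ((Complex.log (1 + ζ) - ζ) + (w' / (l * w) - 1 - K) + (K - m - (χ1 - χ0)) + (χ1 - χ')).re := by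
    have e : (Complex.log (1 + ζ) - ζ) + (w' / (l * w) - 1 - K) + (K - m - (χ1 - χ0)) + (χ1 - χ') =
        Complex.log (1 + ζ) - m + χ0 - χ' := by
      rw [← hζ]
      ring
    rw [e, Complex.sub_re, Complex.add_re, Complex.sub_re, ← hlog]
    ring
  rw [h9]
  refine (Complex.abs_re_le_norm _).trans ?_
  have h10 : ‖χ1 - χ'‖ ≤ L * C * t ^ 2 := by
    refine h4.trans ?_
    rw [norm_sub_rev] at h1
    calc L * t * ‖l * w - w'‖ ≤ L * t * (C * t) := mul_le_mul_of_nonneg_left h1 (by positivity)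
      _ = _ := by ring
  have n1 := norm_add_le ((Complex.log (1 + ζ) - ζ) + (w' / (l * w) - 1 - K) + (K - m - (χ1 - χ0))) (χ1 - χ')
  have n2 := norm_add_le ((Complex.log (1 + ζ) - ζ) + (w' / (l * w) - 1 - K)) (K - m - (χ1 - χ0))
  have n3 := norm_add_le (Complex.log (1 + ζ) - ζ) (w' / (l * w) - 1 - K)
  linarith

theorem drf (h : Ring v0 p l ψ r R) {s s1 s2 : ℝ} (hs : r < s) (hs' : s < R) (h1 : r < s1)
    (h2 : s2 < R) {ε : ℝ} (hε : 0 < ε) :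
    ∃ δ : ℝ, 0 < δ ∧ ∀ u : E d, ‖u‖ < δ →
      (∃ w : ℕ → ℂ, (∀ n, w n ∈ CAn s1 s2) ∧ ∀ n, it (v0 + u) p (ψ (w n)) = ψ (w (n + 1))) →
      |(LA v0 p ψ s (xi v0 u)).re| ≤ ε * ‖u‖ := by
  have hs1 : 0 < s1 := h.hr.trans h1
  obtain ⟨C, η, hC, hη, hprt⟩ := prt h h1 h2
  obtain ⟨χ, L, hL, hcob⟩ := cob h hs hs' h1 h2 (show 0 < ε / 4 by positivity)
  obtain ⟨C1, hC1⟩ : ∃ C1 : ℝ, C1 = C / s1 := ⟨_, rfl⟩
  have hC1p : 0 ≤ C1 := by rw [hC1]; positivity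
  obtain ⟨C2, hC2⟩ : ∃ C2 : ℝ, C2 = C1 ^ 2 + C + L * C := ⟨_, rfl⟩
  have hC2p : 0 ≤ C2 := by rw [hC2]; positivity
  refine ⟨min η (min (1 / (2 * (C1 + 1))) (ε / (4 * (C2 + 1)))), by positivity, ?_⟩
  rintro u hu ⟨w, hw, hwit⟩
  have hu1 : ‖u‖ ≤ η := hu.le.trans (min_le_left _ _)
  have hu2 : ‖u‖ ≤ 1 / (2 * (C1 + 1)) := hu.le.trans ((min_le_right _ _).trans (min_le_left _ _))
  have hu3 : ‖u‖ ≤ ε / (4 * (C2 + 1)) := hu.le.trans ((min_le_right _ _).trans (min_le_right _ _))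
  have hu0 := norm_nonneg u
  have hC1u : C1 * ‖u‖ ≤ 1 / 2 := by
    rw [le_div_iff₀ (by positivity)] at hu2
    nlinarith
  have hC2u : C2 * ‖u‖ ≤ ε / 4 := by
    rw [le_div_iff₀ (by positivity)] at hu3
    nlinarith
  obtain ⟨m, hm⟩ : ∃ m : ℂ, m = LA v0 p ψ s (xi v0 u) := ⟨_, rfl⟩
  rw [← hm]
  obtain ⟨H, hH⟩ : ∃ H : ℕ → ℝ, H = fun n => Real.log ‖w n‖ - (χ u (w n)).re := ⟨_, rfl⟩
  have hrot : ∀ z ∈ CAn s1 s2, l * z ∈ CAn s1 s2 := by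
    intro z hz
    show s1 ≤ ‖_‖ ∧ ‖_‖ ≤ s2
    rw [rot_norm h.rotl]
    exact hz
  have hstep : ∀ n, |H (n + 1) - H n - m.re| ≤ ε / 2 * ‖u‖ := by
    intro n
    obtain ⟨p1, p2⟩ := hprt u hu1 (w n) (hw n) (w (n + 1)) (hw (n + 1)) (hwit n)
    obtain ⟨-, -, q3⟩ := hcob u (w n) (hw n)
    obtain ⟨-, q2, -⟩ := hcob u (l * w n) (hrot _ (hw n))
    have h3 := step h.rotl.nor hs1 (hw n).1 (hw (n + 1)).1 hC1 hu0 hC1u p1 p2 (by rw [← hm] at q3; exact q3)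
      (q2 (w (n + 1)) (hw (n + 1))) hL
    rw [hH]
    refine h3.trans ?_
    rw [← hC2]
    have : C2 * ‖u‖ ^ 2 ≤ ε / 4 * ‖u‖ := by
      rw [pow_two, ← mul_assoc]
      exact mul_le_mul_of_nonneg_right hC2u hu0
    linarith
  have htel : ∀ N : ℕ, |H N - H 0 - N * m.re| ≤ N * (ε / 2 * ‖u‖) := by
    intro N
    induction N with
    | zero => simp
    | succ N ih =>
      have e : H (N + 1) - H 0 - ((N + 1 : ℕ) : ℝ) * m.re = (H (N + 1) - H N - m.re) + (H N - H 0 - N * m.re) := by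
        push_cast
        ring
      rw [e]
      refine (abs_add_le _ _).trans ?_
      push_cast
      linarith [hstep N]
  have hHb : ∀ N : ℕ, |H N - H 0| ≤ (Real.log s2 - Real.log s1) + 2 * (L * ‖u‖) := by
    intro N
    have b1 : ∀ n, Real.log s1 ≤ Real.log ‖w n‖ ∧ Real.log ‖w n‖ ≤ Real.log s2 := fun n =>
      ⟨Real.log_le_log hs1 (hw n).1, Real.log_le_log (hs1.trans_le (hw n).1) (hw n).2⟩
    have b2 : ∀ n, |(χ u (w n)).re| ≤ L * ‖u‖ := fun n =>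
      (Complex.abs_re_le_norm _).trans (hcob u (w n) (hw n)).1
    have b3 := b1 N
    have b4 := b1 0
    have b5 := abs_le.1 (b2 N)
    have b6 := abs_le.1 (b2 0)
    rw [hH]
    show |(Real.log ‖w N‖ - (χ u (w N)).re) - (Real.log ‖w 0‖ - (χ u (w 0)).re)| ≤ _
    rw [abs_le]
    constructor <;> linarith
  by_contra hcon
  rw [not_le] at hcon
  have hε2 : ε / 2 * ‖u‖ ≤ ε * ‖u‖ := by nlinarith
  obtain ⟨N, hN⟩ := exists_nat_gt (((Real.log s2 - Real.log s1) + 2 * (L * ‖u‖)) / (|m.re| - ε / 2 * ‖u‖))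
  have hpos : 0 < |m.re| - ε / 2 * ‖u‖ := by linarith
  rw [div_lt_iff₀ hpos] at hN
  have h3 := htel N
  have h4 := hHb N
  have h5 : |(N : ℝ) * m.re| ≤ |H N - H 0 - N * m.re| + |H N - H 0| := by
    have e : (N : ℝ) * m.re = -(H N - H 0 - N * m.re) + (H N - H 0) := by ring
    calc |(N : ℝ) * m.re| = |-(H N - H 0 - N * m.re) + (H N - H 0)| := by rw [← e]
      _ ≤ |-(H N - H 0 - N * m.re)| + |H N - H 0| := abs_add_le _ _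
      _ = _ := by rw [abs_neg]
  rw [abs_mul, abs_of_nonneg (Nat.cast_nonneg N)] at h5
  nlinarith

end Pool.Agent.H56.HR
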