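import Pool.Agent.H61.TT.Defs

/-!
# THEOREM H (almost no rational map has a Herman ring): definitions in a chart

`Ann r R` open annulus, `CAn s t` closed annulus around `0`. `Rot l`: `l` is an irrational rotation. `psi v0 ψ j w = f^j (ψ w)`
(`f` the map with coefficient vector `v0`, `it v0 j` its iterate in the finite chart). `JP v0 z0`: every neighbourhood of `z0`
contains points with orbits through every nonempty open set. `Ring v0 p l ψ r R`: `ψ` is injective and holomorphic on `Ann r R`,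
its images `f^j (ψ (Ann r R))`, `j < p`, are disjoint, finite and without poles, `f^p (ψ w) = ψ (l w)`, and the limit points of `ψ` at
both ends of the annulus have the property `JP`.
`MM`, `LA`: circle averages (`Real.circleAverage _ 0 s`) over the curves `psi j (|w| = s)`; `QQ` the potential; `KK` the drift; `hh` the
quadratic differential in the coordinate `log w`.
-/

set_option autoImplicit false

open Filter Topology Polynomial Metric Set MeasureTheory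

namespace Pool.Agent.H56.HR

open Pool.Agent.H44.Fatou Pool.Agent.H32.BT Pool.Agent.H79.Eul Pool.Agent.H79.Par Pool.Agent.H61.TT

/-- the open annulus -/
def Ann (r R : ℝ) : Set ℂ := {w | r < ‖w‖ ∧ ‖w‖ < R}

/-- the closed annulus -/
def CAn (s t : ℝ) : Set ℂ := {w | s ≤ ‖w‖ ∧ ‖w‖ ≤ t}

/-- `l` is an irrational rotation -/
structure Rot (l : ℂ) : Prop where
  nor : ‖l‖ = 1
  irr : ∀ n : ℕ, 0 < n → l ^ n ≠ 1

/-- `f^j (ψ w)` -/
noncomputable def psi {d : ℕ} (v0 : E d) (ψ : ℂ → ℂ) (j : ℕ) (w : ℂ) : ℂ := it v0 j (ψ w)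

/-- near `z0` there are points whose orbits pass through any given open set -/
def JP {d : ℕ} (v0 : E d) (z0 : ℂ) : Prop :=
  ∀ ε : ℝ, 0 < ε → ∀ V : Set ℂ, IsOpen V → V.Nonempty →
    ∃ y ∈ ball z0 ε, ∃ n : ℕ, (∀ j < n, ev v0.2 (it v0 j y) ≠ 0) ∧ it v0 n y ∈ V

/-- a Herman ring, in a chart -/
structure Ring {d : ℕ} (v0 : E d) (p : ℕ) (l : ℂ) (ψ : ℂ → ℂ) (r R : ℝ) : Prop where
  rat : RatD d (pol v0.1) (pol v0.2)
  hp : 0 < p
  rotl : Rot l
  hr : 0 < r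
  hrR : r < R
  diff : DifferentiableOn ℂ ψ (Ann r R)
  fin : ∀ j : ℕ, ∀ w ∈ Ann r R, ev v0.2 (psi v0 ψ j w) ≠ 0
  inj : ∀ i < p, ∀ j < p, ∀ w ∈ Ann r R, ∀ w' ∈ Ann r R, psi v0 ψ i w = psi v0 ψ j w' → i = j ∧ w = w'
  rot : ∀ w ∈ Ann r R, psi v0 ψ p w = ψ (l * w)
  bdd : ∃ M : ℝ, ∀ w ∈ Ann r R, ‖ψ w‖ ≤ M
  jin : ∀ (u : ℕ → ℂ) (z0 : ℂ), (∀ n, u n ∈ Ann r R) → Tendsto (fun n => ‖u n‖) atTop (𝓝 r) →
    Tendsto (fun n => ψ (u n)) atTop (𝓝 z0) → JP v0 z0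
  jout : ∀ (u : ℕ → ℂ) (z0 : ℂ), (∀ n, u n ∈ Ann r R) → Tendsto (fun n => ‖u n‖) atTop (𝓝 R) →
    Tendsto (fun n => ψ (u n)) atTop (𝓝 z0) → JP v0 z0

/-- the functional on quadratic differentials -/
noncomputable def MM {d : ℕ} (v0 : E d) (p : ℕ) (ψ : ℂ → ℂ) (s : ℝ) (g : ℂ → ℂ) : ℂ :=
  Real.circleAverage (fun w => ∑ j ∈ Finset.range p, g (psi v0 ψ j w) / (w * deriv (psi v0 ψ j) w)) 0 s

/-- the functional on vector fields along `f` -/
noncomputable def LA {d : ℕ} (v0 : E d) (p : ℕ) (ψ : ℂ → ℂ) (s : ℝ) (V : ℂ → ℂ) : ℂ :=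
  Real.circleAverage
    (fun w => ∑ j ∈ Finset.range p, V (psi v0 ψ j w) / (w * deriv (psi v0 ψ (j + 1)) w)) 0 s

/-- the potential of the functional -/
noncomputable def QQ {d : ℕ} (v0 : E d) (p : ℕ) (ψ : ℂ → ℂ) (s : ℝ) (x : ℂ) : ℂ :=
  MM v0 p ψ s (fun y => 1 / (x - y))

/-- the drift in the direction `u` -/
noncomputable def KK {d : ℕ} (v0 : E d) (p : ℕ) (ψ : ℂ → ℂ) (u : E d) (w : ℂ) : ℂ :=
  ∑ j ∈ Finset.range p, xi v0 u (psi v0 ψ j w) / (w * deriv (psi v0 ψ (j + 1)) w)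

/-- the curves carrying the functional -/
def Gam {d : ℕ} (v0 : E d) (p : ℕ) (ψ : ℂ → ℂ) (s : ℝ) : Set ℂ :=
  {z | ∃ j < p, ∃ w : ℂ, ‖w‖ = s ∧ z = psi v0 ψ j w}

/-- the potential as a quadratic differential in the coordinate `log w` on the `i`-th ring -/
noncomputable def hh {d : ℕ} (v0 : E d) (p : ℕ) (ψ : ℂ → ℂ) (s : ℝ) (i : ℕ) (w : ℂ) : ℂ :=
  QQ v0 p ψ s (psi v0 ψ i w) * (w * deriv (psi v0 ψ i) w) ^ 2

end Pool.Agent.H56.HR
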