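import Pool.Agent.H79.Par.XX
import Pool.Agent.H79.Par.It
import Pool.Agent.H61.TT.Defs

/-!
# Module EXP: first order expansion of the iterates, uniform on compact sets

PROOF. Step `n = 1`: for `K'` compact with `ev v0.2 ≠ 0` on `K'` there are `η > 0`, `C` such that for `‖u‖ ≤ η`, `‖e‖ ≤ η`, `y ∈ K'`: `ev (v0 + u).2 (y + e) ≠ 0` and
`‖ev (v0+u).1 (y+e) / ev (v0+u).2 (y+e) - ev v0.1 y / ev v0.2 y - xi v0 u y - (wv v0 y / ev v0.2 y ^ 2) * e‖ ≤ C (‖u‖ + ‖e‖)^2`. (`ev (v0 + u) z = ev v0 z + ev u z`; `|ev u z| ≤ C ‖u‖` on bounded sets, `‖ev v0 (y+e) - ev v0 y - dev v0 y e‖ ≤ C ‖e‖^2`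
(polynomials, bounded sets); `A'/B' - A/B - (a B - A b) / B^2 = ` an explicit fraction with numerator `O((|a| + |b|)^2)` for `A' = A + a`, `B' = B + b`, `|B| ≥ 2 β`, `|b| ≤ β`: `(A+a)/(B+b) - A/B - (a B - A b)/B^2 = - b (a B - A b) / (B^2 (B + b))`.)
Induction on `n` with `K' = it v0 n '' K` (compact: `it v0 n` is continuous on `K`, `tr_hasDerivAt` of H32/BT/Trap): `it (v0+u) n z = it v0 n z + e`, `e = XX v0 u n z + O(‖u‖^2)`, `‖XX v0 u n z‖ ≤ C ‖u‖` on `K` (by induction from its recursion: `xi v0 u y` is bounded by `C ‖u‖` on compact sets),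
so `‖e‖ ≤ C ‖u‖`; `XX v0 u (n+1) z = xi v0 u (it v0 n z) + wv / ev^2 * XX v0 u n z`.
-/

set_option autoImplicit false

open Filter Topology Polynomial Metric Set MeasureTheory

namespace Pool.Agent.H56.HR

open Pool.Agent.H44.Fatou Pool.Agent.H32.BT Pool.Agent.H79.Eul Pool.Agent.H79.Par Pool.Agent.H61.TT

private theorem exp_pow {L : ℝ} (hL : 1 ≤ L) {y e : ℂ} (hy : ‖y‖ ≤ L) (hye : ‖y + e‖ ≤ L) (n : ℕ) :
    ‖y ^ n‖ ≤ L ^ n ∧ ‖(y + e) ^ n - y ^ n‖ ≤ n * L ^ n * ‖e‖ ∧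
      ‖(y + e) ^ n - y ^ n - (n : ℂ) * y ^ (n - 1) * e‖ ≤ (n : ℝ) ^ 2 * L ^ n * ‖e‖ ^ 2 ∧
      ‖(n : ℂ) * y ^ (n - 1)‖ ≤ n * L ^ n := by
  have hL0 : (0 : ℝ) ≤ L := by linarith
  have hpow : ∀ m : ℕ, ‖y ^ m‖ ≤ L ^ m := fun m => by
    rw [norm_pow]
    exact pow_le_pow_left₀ (norm_nonneg _) hy m
  have hder : ∀ m : ℕ, ‖(m : ℂ) * y ^ (m - 1)‖ ≤ m * L ^ m := by
    intro m
    rw [norm_mul, Complex.norm_natCast]
    refine mul_le_mul_of_nonneg_left ((hpow _).trans ?_) (Nat.cast_nonneg m)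
    exact pow_le_pow_right₀ hL (Nat.sub_le m 1)
  refine ⟨hpow n, ?_, ?_, hder n⟩
  · induction n with
    | zero => simp
    | succ n ih =>
      have h1 : (y + e) ^ (n + 1) - y ^ (n + 1) = (y + e) * ((y + e) ^ n - y ^ n) + e * y ^ n := by
        ring
      rw [h1]
      refine (norm_add_le _ _).trans ?_
      rw [norm_mul, norm_mul]
      have h2 := mul_le_mul hye ih (norm_nonneg _) hL0
      have h3 := mul_le_mul_of_nonneg_left (hpow n) (norm_nonneg e)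
      have h4 : L ^ n ≤ L ^ (n + 1) := pow_le_pow_right₀ hL (Nat.le_succ n)
      have h5 := mul_le_mul_of_nonneg_left h4 (norm_nonneg e)
      push_cast
      calc ‖y + e‖ * ‖(y + e) ^ n - y ^ n‖ + ‖e‖ * ‖y ^ n‖ ≤
          L * (n * L ^ n * ‖e‖) + ‖e‖ * L ^ (n + 1) := by linarith
        _ = (n + 1) * L ^ (n + 1) * ‖e‖ := by ring
  · induction n with
    | zero => simp
    | succ n ih =>
      have h1 : (y + e) ^ (n + 1) - y ^ (n + 1) - ((n + 1 : ℕ) : ℂ) * y ^ (n + 1 - 1) * e =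
          (y + e) * ((y + e) ^ n - y ^ n - (n : ℂ) * y ^ (n - 1) * e) +
            ((n : ℂ) * y ^ (n - 1)) * e ^ 2 := by
        rcases Nat.eq_zero_or_pos n with h0 | h0
        · subst h0
          simp
        · obtain ⟨m, rfl⟩ : ∃ m, n = m + 1 := ⟨n - 1, by omega⟩
          rw [Nat.add_sub_cancel, Nat.add_sub_cancel]
          push_cast
          ring
      rw [h1]
      refine (norm_add_le _ _).trans ?_
      rw [norm_mul, norm_mul ((n : ℂ) * y ^ (n - 1)), norm_pow e 2]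
      have h2 := mul_le_mul hye ih (norm_nonneg _) hL0
      have h3 := mul_le_mul_of_nonneg_right (hder n) (sq_nonneg ‖e‖)
      have h4 : L ^ n ≤ L ^ (n + 1) := pow_le_pow_right₀ hL (Nat.le_succ n)
      have h5 : (n : ℝ) * L ^ n * ‖e‖ ^ 2 ≤ n * L ^ (n + 1) * ‖e‖ ^ 2 :=
        mul_le_mul_of_nonneg_right (mul_le_mul_of_nonneg_left h4 (Nat.cast_nonneg n))
          (sq_nonneg _)
      have h6 : 0 ≤ ((n : ℝ) + 1) * L ^ (n + 1) * ‖e‖ ^ 2 := by positivity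
      push_cast
      calc ‖y + e‖ * ‖(y + e) ^ n - y ^ n - (n : ℂ) * y ^ (n - 1) * e‖ +
            ‖(n : ℂ) * y ^ (n - 1)‖ * ‖e‖ ^ 2 ≤
          L * ((n : ℝ) ^ 2 * L ^ n * ‖e‖ ^ 2) + n * L ^ (n + 1) * ‖e‖ ^ 2 := by linarith
        _ = ((n : ℝ) + 1) ^ 2 * L ^ (n + 1) * ‖e‖ ^ 2 - (n + 1) * L ^ (n + 1) * ‖e‖ ^ 2 := by ring
        _ ≤ ((n : ℝ) + 1) ^ 2 * L ^ (n + 1) * ‖e‖ ^ 2 := by linarith

/-- bounds for coefficient vectors on bounded sets -/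
private theorem exp_ev (d : ℕ) (L : ℝ) (hL : 1 ≤ L) : ∃ C : ℝ, 0 ≤ C ∧
    ∀ (p : Fin (d + 1) → ℂ) (y e : ℂ), ‖y‖ ≤ L → ‖y + e‖ ≤ L →
      ‖ev p y‖ ≤ C * ‖p‖ ∧ ‖ev p (y + e) - ev p y‖ ≤ C * ‖p‖ * ‖e‖ ∧
      ‖ev p (y + e) - ev p y - dev p y * e‖ ≤ C * ‖p‖ * ‖e‖ ^ 2 ∧ ‖dev p y‖ ≤ C * ‖p‖ := by
  have hL0 : (0 : ℝ) ≤ L := by linarith
  refine ⟨∑ i : Fin (d + 1), ((i : ℕ) + 1 : ℝ) ^ 2 * L ^ (i : ℕ), by positivity, ?_⟩
  intro p y e hy hye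
  have hp : ∀ i, ‖p i‖ ≤ ‖p‖ := fun i => norm_le_pi_norm p i
  have key : ∀ (f : Fin (d + 1) → ℂ) (x : ℝ), 0 ≤ x →
      (∀ i, ‖f i‖ ≤ ((i : ℕ) + 1 : ℝ) ^ 2 * L ^ (i : ℕ) * x) →
      ‖∑ i, p i * f i‖ ≤ (∑ i : Fin (d + 1), ((i : ℕ) + 1 : ℝ) ^ 2 * L ^ (i : ℕ)) * ‖p‖ * x := by
    intro f x hx hf
    refine (norm_sum_le _ _).trans ?_
    rw [mul_assoc, Finset.sum_mul]
    refine Finset.sum_le_sum fun i _ => ?_
    rw [norm_mul]
    calc ‖p i‖ * ‖f i‖ ≤ ‖p‖ * (((i : ℕ) + 1 : ℝ) ^ 2 * L ^ (i : ℕ) * x) :=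
          mul_le_mul (hp i) (hf i) (norm_nonneg _) (norm_nonneg _)
      _ = _ := by ring
  have hi : ∀ i : Fin (d + 1), (0 : ℝ) ≤ (i : ℕ) := fun i => Nat.cast_nonneg _
  have hc1 : ∀ i : Fin (d + 1), L ^ (i : ℕ) ≤ ((i : ℕ) + 1 : ℝ) ^ 2 * L ^ (i : ℕ) := by
    intro i
    have : (1 : ℝ) ≤ ((i : ℕ) + 1 : ℝ) ^ 2 := by nlinarith [hi i]
    nlinarith [pow_nonneg hL0 (i : ℕ)]
  have hc2 : ∀ i : Fin (d + 1), ((i : ℕ) : ℝ) * L ^ (i : ℕ) ≤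
      ((i : ℕ) + 1 : ℝ) ^ 2 * L ^ (i : ℕ) := by
    intro i
    refine mul_le_mul_of_nonneg_right ?_ (pow_nonneg hL0 _)
    nlinarith [hi i]
  have hc3 : ∀ i : Fin (d + 1), ((i : ℕ) : ℝ) ^ 2 * L ^ (i : ℕ) ≤
      ((i : ℕ) + 1 : ℝ) ^ 2 * L ^ (i : ℕ) := by
    intro i
    refine mul_le_mul_of_nonneg_right ?_ (pow_nonneg hL0 _)
    nlinarith [hi i]
  refine ⟨?_, ?_, ?_, ?_⟩
  · have h1 := key (fun i => y ^ (i : ℕ)) 1 zero_le_one (fun i => by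
      rw [mul_one]
      exact ((exp_pow hL hy hye i).1).trans (hc1 i))
    rw [mul_one] at h1
    exact h1
  · have h1 := key (fun i => (y + e) ^ (i : ℕ) - y ^ (i : ℕ)) ‖e‖ (norm_nonneg _) (fun i =>
      ((exp_pow hL hy hye i).2.1).trans (mul_le_mul_of_nonneg_right (hc2 i) (norm_nonneg _)))
    have h2 : ev p (y + e) - ev p y = ∑ i, p i * ((y + e) ^ (i : ℕ) - y ^ (i : ℕ)) := by
      unfold ev
      rw [← Finset.sum_sub_distrib]
      exact Finset.sum_congr rfl fun i _ => by ring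
    rw [h2]
    exact h1
  · have h1 := key (fun i => (y + e) ^ (i : ℕ) - y ^ (i : ℕ) -
        ((i : ℕ) : ℂ) * y ^ ((i : ℕ) - 1) * e) (‖e‖ ^ 2) (sq_nonneg _) (fun i =>
      ((exp_pow hL hy hye i).2.2.1).trans (mul_le_mul_of_nonneg_right (hc3 i) (sq_nonneg _)))
    have h2 : ev p (y + e) - ev p y - dev p y * e = ∑ i, p i * ((y + e) ^ (i : ℕ) - y ^ (i : ℕ) -
        ((i : ℕ) : ℂ) * y ^ ((i : ℕ) - 1) * e) := by
      unfold ev dev
      rw [Finset.sum_mul, ← Finset.sum_sub_distrib, ← Finset.sum_sub_distrib]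
      exact Finset.sum_congr rfl fun i _ => by ring
    rw [h2]
    exact h1
  · have h1 := key (fun i => ((i : ℕ) : ℂ) * y ^ ((i : ℕ) - 1)) 1 zero_le_one (fun i => by
      rw [mul_one]
      exact ((exp_pow hL hy hye i).2.2.2).trans (hc2 i))
    rw [mul_one] at h1
    exact h1

private theorem exp_ev_add {d : ℕ} (p q : Fin (d + 1) → ℂ) (z : ℂ) :
    ev (p + q) z = ev p z + ev q z := by
  unfold ev
  rw [← Finset.sum_add_distrib]
  refine Finset.sum_congr rfl fun i _ => ?_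
  rw [Pi.add_apply]
  ring

private theorem exp_frac {A B a b a' b' : ℂ} {M β x R : ℝ} (hβ : 0 < β) (hM : 0 ≤ M) (hR : 0 ≤ R)
    (hA : ‖A‖ ≤ M) (hB : ‖B‖ ≤ M) (hBβ : 2 * β ≤ ‖B‖) (hb : ‖b‖ ≤ β)
    (ha' : ‖a‖ ≤ M * x) (hb' : ‖b‖ ≤ M * x)
    (h1 : ‖a - a'‖ ≤ R) (h2 : ‖b - b'‖ ≤ R) :
    B + b ≠ 0 ∧ ‖(A + a) / (B + b) - A / B - (B * a' - A * b') / B ^ 2‖ ≤
      (2 * M ^ 3 * x ^ 2) / (4 * β ^ 3) + 2 * M * R / (4 * β ^ 2) := by
  have hB0 : 0 < ‖B‖ := by linarith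
  have hBne : B ≠ 0 := norm_pos_iff.1 hB0
  have hBb : β ≤ ‖B + b‖ := by
    have h3 := norm_sub_norm_le B (-b)
    rw [sub_neg_eq_add, norm_neg] at h3
    linarith
  have hBbne : B + b ≠ 0 := norm_pos_iff.1 (by linarith)
  refine ⟨hBbne, ?_⟩
  have e1 : (A + a) / (B + b) - A / B - (B * a' - A * b') / B ^ 2 =
      -(b * (B * a - A * b)) / (B ^ 2 * (B + b)) + (B * (a - a') - A * (b - b')) / B ^ 2 := by
    field_simp
    ring
  rw [e1]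
  refine (norm_add_le _ _).trans (add_le_add ?_ ?_)
  · rw [norm_div, norm_neg, norm_mul, norm_mul, norm_pow]
    have hx : 0 ≤ M * x := (norm_nonneg a).trans ha'
    have h3 : ‖B * a - A * b‖ ≤ 2 * M * (M * x) := by
      refine (norm_sub_le _ _).trans ?_
      rw [norm_mul, norm_mul]
      have h4 := mul_le_mul hB ha' (norm_nonneg _) hM
      have h5 := mul_le_mul hA hb' (norm_nonneg _) hM
      linarith
    have h4 : ‖b‖ * ‖B * a - A * b‖ ≤ 2 * M ^ 3 * x ^ 2 := by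
      have h5 := mul_le_mul hb' h3 (norm_nonneg _) hx
      calc _ ≤ _ := h5
        _ = _ := by ring
    have h5 : 4 * β ^ 3 ≤ ‖B‖ ^ 2 * ‖B + b‖ := by
      have h6 : (2 * β) ^ 2 ≤ ‖B‖ ^ 2 := pow_le_pow_left₀ (by positivity) hBβ 2
      have h7 := mul_le_mul h6 hBb hβ.le (sq_nonneg _)
      calc 4 * β ^ 3 = (2 * β) ^ 2 * β := by ring
        _ ≤ _ := h7
    exact div_le_div₀ (le_trans (by positivity) h4) h4 (by positivity) h5
  · rw [norm_div, norm_pow]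
    have h3 : ‖B * (a - a') - A * (b - b')‖ ≤ 2 * M * R := by
      refine (norm_sub_le _ _).trans ?_
      rw [norm_mul, norm_mul]
      have h4 := mul_le_mul hB h1 (norm_nonneg _) hM
      have h5 := mul_le_mul hA h2 (norm_nonneg _) hM
      linarith
    have h5 : 4 * β ^ 2 ≤ ‖B‖ ^ 2 := by
      have h6 : (2 * β) ^ 2 ≤ ‖B‖ ^ 2 := pow_le_pow_left₀ (by positivity) hBβ 2
      calc 4 * β ^ 2 = (2 * β) ^ 2 := by ring
        _ ≤ _ := h6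
    exact div_le_div₀ (by positivity) h3 (by positivity) h5

private theorem exp_step {d : ℕ} {v0 : E d} {K : Set ℂ} (hK : IsCompact K)
    (hb : ∀ z ∈ K, ev v0.2 z ≠ 0) :
    ∃ C η : ℝ, 0 ≤ C ∧ 0 < η ∧ ∀ u : E d, ‖u‖ ≤ η → ∀ e : ℂ, ‖e‖ ≤ η → ∀ y ∈ K,
      ev (v0 + u).2 (y + e) ≠ 0 ∧ ‖xi v0 u y‖ ≤ C * ‖u‖ ∧ ‖wv v0 y / ev v0.2 y ^ 2‖ ≤ C ∧
      ‖ev (v0 + u).1 (y + e) / ev (v0 + u).2 (y + e) - ev v0.1 y / ev v0.2 y - xi v0 u y -
        wv v0 y / ev v0.2 y ^ 2 * e‖ ≤ C * (‖u‖ + ‖e‖) ^ 2 := by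
  -- bounds
  obtain ⟨L0, hL0⟩ := hK.isBounded.exists_norm_le
  obtain ⟨L, hL⟩ : ∃ L, L = max L0 0 + 1 := ⟨_, rfl⟩
  have hL1 : 1 ≤ L := by
    rw [hL]
    linarith [le_max_right L0 0]
  have hKL : ∀ y ∈ K, ‖y‖ ≤ L - 1 := by
    intro y hy
    rw [hL]
    linarith [hL0 y hy, le_max_left L0 0]
  obtain ⟨β, hβ, hβK⟩ : ∃ β : ℝ, 0 < β ∧ ∀ y ∈ K, 2 * β ≤ ‖ev v0.2 y‖ := by
    rcases K.eq_empty_or_nonempty with h0 | h0
    · exact ⟨1, one_pos, by rw [h0]; simp⟩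
    · have hc : ContinuousOn (fun y : ℂ => ‖ev v0.2 y‖) K :=
        ((ev2_cont.comp (continuous_const.prodMk continuous_id)).norm).continuousOn
      obtain ⟨y0, hy0, hmin⟩ := hK.exists_isMinOn h0 hc
      refine ⟨‖ev v0.2 y0‖ / 2, half_pos (norm_pos_iff.2 (hb y0 hy0)), fun y hy => ?_⟩
      have := hmin hy
      have h2 : ‖ev v0.2 y0‖ ≤ ‖ev v0.2 y‖ := this
      linarith
  obtain ⟨C0, hC0, hC⟩ := exp_ev d L hL1
  obtain ⟨V, hV⟩ : ∃ V, V = ‖v0‖ + 1 := ⟨_, rfl⟩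
  have hV1 : 1 ≤ V := by
    rw [hV]
    linarith [norm_nonneg v0]
  have hv1 : ‖v0.1‖ ≤ V := (norm_fst_le v0).trans (by rw [hV]; linarith)
  have hv2 : ‖v0.2‖ ≤ V := (norm_snd_le v0).trans (by rw [hV]; linarith)
  obtain ⟨M, hM⟩ : ∃ M, M = (2 * C0 + 1) * V := ⟨_, rfl⟩
  have hM0 : 0 ≤ M := by rw [hM]; positivity
  have hC0V : C0 * V ≤ M := by
    rw [hM]
    nlinarith
  have hM1 : 0 < M := by rw [hM]; positivity
  obtain ⟨η, hη, hη1, hηM⟩ : ∃ η : ℝ, 0 < η ∧ η ≤ 1 ∧ M * (η + η) ≤ β := by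
    refine ⟨min 1 (β / (2 * M)), lt_min one_pos (by positivity), min_le_left _ _, ?_⟩
    have h1 : min 1 (β / (2 * M)) ≤ β / (2 * M) := min_le_right _ _
    rw [le_div_iff₀ (by positivity)] at h1
    linarith
  refine ⟨(2 * M ^ 3) / (4 * β ^ 3) + 2 * M * (2 * M) / (4 * β ^ 2) + (2 * M * M) / (4 * β ^ 2) , η,
    by positivity, hη, ?_⟩
  intro u hu e he y hy
  have hyL : ‖y‖ ≤ L := (hKL y hy).trans (by linarith)
  have hyeL : ‖y + e‖ ≤ L := (norm_add_le _ _).trans (by linarith [hKL y hy])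
  have hu1 : ‖u.1‖ ≤ ‖u‖ := norm_fst_le u
  have hu2 : ‖u.2‖ ≤ ‖u‖ := norm_snd_le u
  have hu0 := norm_nonneg u
  have he0 := norm_nonneg e
  have hβB := hβK y hy
  have hB0 : 0 < ‖ev v0.2 y‖ := by linarith
  -- general bounds for a vector w and a vector q
  have gen : ∀ (w q : Fin (d + 1) → ℂ), ‖w‖ ≤ V → ‖q‖ ≤ ‖u‖ →
      ‖ev w y‖ ≤ M ∧ ‖dev w y‖ ≤ M ∧ ‖ev q y‖ ≤ M * ‖u‖ ∧
      ‖ev (w + q) (y + e) - ev w y‖ ≤ M * (‖u‖ + ‖e‖) ∧
      ‖(ev (w + q) (y + e) - ev w y) - (ev q y + dev w y * e)‖ ≤ (2 * M) * (‖u‖ + ‖e‖) ^ 2 := by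
    intro w q hw hq
    obtain ⟨w1, w2, w3, w4⟩ := hC w y e hyL hyeL
    obtain ⟨q1, q2, q3, q4⟩ := hC q y e hyL hyeL
    have hCw : C0 * ‖w‖ ≤ M := (mul_le_mul_of_nonneg_left hw hC0).trans hC0V
    have hCq : C0 * ‖q‖ ≤ C0 * ‖u‖ := mul_le_mul_of_nonneg_left hq hC0
    have hC0M : 2 * C0 ≤ M := by
      rw [hM]
      nlinarith
    have hq1 : ‖ev q y‖ ≤ C0 * ‖u‖ := q1.trans hCq
    have hw2 : ‖ev w (y + e) - ev w y‖ ≤ M * ‖e‖ :=
      w2.trans (mul_le_mul_of_nonneg_right hCw he0)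
    have hw3 : ‖ev w (y + e) - ev w y - dev w y * e‖ ≤ M * ‖e‖ ^ 2 :=
      w3.trans (mul_le_mul_of_nonneg_right hCw (sq_nonneg _))
    have hq2 : ‖ev q (y + e) - ev q y‖ ≤ C0 * ‖u‖ * ‖e‖ :=
      q2.trans (mul_le_mul_of_nonneg_right hCq he0)
    have hq2' : ‖ev q (y + e) - ev q y‖ ≤ C0 * ‖u‖ := by
      refine hq2.trans ?_
      have : C0 * ‖u‖ * ‖e‖ ≤ C0 * ‖u‖ * 1 :=
        mul_le_mul_of_nonneg_left (he.trans hη1) (mul_nonneg hC0 hu0)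
      linarith
    refine ⟨w1.trans hCw, w4.trans hCw, hq1.trans ?_, ?_, ?_⟩
    · exact mul_le_mul_of_nonneg_right (by linarith) hu0
    · have e1 : ev (w + q) (y + e) - ev w y =
          (ev w (y + e) - ev w y) + ((ev q (y + e) - ev q y) + ev q y) := by
        rw [exp_ev_add]
        ring
      rw [e1]
      refine (norm_add_le _ _).trans ?_
      have h3 := norm_add_le (ev q (y + e) - ev q y) (ev q y)
      have h4 : 2 * C0 * ‖u‖ ≤ M * ‖u‖ := mul_le_mul_of_nonneg_right hC0M hu0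
      linarith
    · have e1 : (ev (w + q) (y + e) - ev w y) - (ev q y + dev w y * e) =
          (ev w (y + e) - ev w y - dev w y * e) + (ev q (y + e) - ev q y) := by
        rw [exp_ev_add]
        ring
      rw [e1]
      refine (norm_add_le _ _).trans ?_
      have h5 : C0 * ‖u‖ * ‖e‖ ≤ M * (‖u‖ * ‖e‖) := by
        have h6 : C0 ≤ M := by linarith
        have h7 := mul_le_mul_of_nonneg_right h6 (mul_nonneg hu0 he0)
        linarith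
      nlinarith [mul_nonneg hu0 he0, mul_nonneg hM0 (mul_nonneg hu0 he0),
        mul_nonneg hM0 (sq_nonneg ‖u‖), mul_nonneg hM0 (sq_nonneg ‖e‖)]
  obtain ⟨a1, a2, a3, a4, a5⟩ := gen v0.1 u.1 hv1 hu1
  obtain ⟨b1, b2, b3, b4, b5⟩ := gen v0.2 u.2 hv2 hu2
  have hx0 : 0 ≤ ‖u‖ + ‖e‖ := by linarith
  have hbβ : ‖ev (v0.2 + u.2) (y + e) - ev v0.2 y‖ ≤ β := by
    refine b4.trans (le_trans ?_ hηM)
    exact mul_le_mul_of_nonneg_left (by linarith) hM0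
  have hR0 : 0 ≤ (2 * M) * (‖u‖ + ‖e‖) ^ 2 := by positivity
  obtain ⟨f1, f2⟩ := exp_frac hβ hM0 hR0 a1 b1 hβB hbβ a4 b4 a5 b5
  rw [add_sub_cancel, add_sub_cancel] at f2
  rw [add_sub_cancel] at f1
  have hsqB : 4 * β ^ 2 ≤ ‖ev v0.2 y‖ ^ 2 := by
    have h6 : (2 * β) ^ 2 ≤ ‖ev v0.2 y‖ ^ 2 := pow_le_pow_left₀ (by positivity) hβB 2
    calc 4 * β ^ 2 = (2 * β) ^ 2 := by ring
      _ ≤ _ := h6
  have hp1 : 0 ≤ (2 * M ^ 3) / (4 * β ^ 3) := by positivity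
  have hp2 : 0 ≤ 2 * M * (2 * M) / (4 * β ^ 2) := by positivity
  have hp3 : 0 ≤ (2 * M * M) / (4 * β ^ 2) := by positivity
  refine ⟨f1, ?_, ?_, ?_⟩
  · have h1 : ‖xi v0 u y‖ ≤ (2 * M * M) / (4 * β ^ 2) * ‖u‖ := by
      unfold xi
      rw [norm_div, norm_pow, div_mul_eq_mul_div]
      refine div_le_div₀ (by positivity) ?_ (by positivity) hsqB
      refine (norm_sub_le _ _).trans ?_
      rw [norm_mul, norm_mul]
      have h4 := mul_le_mul a3 b1 (norm_nonneg _) (mul_nonneg hM0 hu0)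
      have h5 := mul_le_mul a1 b3 (norm_nonneg _) hM0
      linarith
    refine h1.trans (mul_le_mul_of_nonneg_right ?_ hu0)
    linarith
  · have h1 : ‖wv v0 y / ev v0.2 y ^ 2‖ ≤ (2 * M * M) / (4 * β ^ 2) := by
      rw [norm_div, norm_pow]
      refine div_le_div₀ (by positivity) ?_ (by positivity) hsqB
      unfold wv
      refine (norm_sub_le _ _).trans ?_
      rw [norm_mul, norm_mul]
      have h4 := mul_le_mul a2 b1 (norm_nonneg _) hM0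
      have h5 := mul_le_mul a1 b2 (norm_nonneg _) hM0
      linarith
    linarith
  · have e1 : ev (v0 + u).1 (y + e) / ev (v0 + u).2 (y + e) - ev v0.1 y / ev v0.2 y - xi v0 u y -
        wv v0 y / ev v0.2 y ^ 2 * e =
        ev (v0.1 + u.1) (y + e) / ev (v0.2 + u.2) (y + e) - ev v0.1 y / ev v0.2 y -
          (ev v0.2 y * (ev u.1 y + dev v0.1 y * e) - ev v0.1 y * (ev u.2 y + dev v0.2 y * e)) /
            ev v0.2 y ^ 2 := by
      unfold xi wv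
      rw [Prod.fst_add, Prod.snd_add]
      ring
    rw [e1]
    refine f2.trans ?_
    have h3 : 2 * M ^ 3 * (‖u‖ + ‖e‖) ^ 2 / (4 * β ^ 3) =
        2 * M ^ 3 / (4 * β ^ 3) * (‖u‖ + ‖e‖) ^ 2 := by ring
    have h4 : 2 * M * (2 * M * (‖u‖ + ‖e‖) ^ 2) / (4 * β ^ 2) =
        2 * M * (2 * M) / (4 * β ^ 2) * (‖u‖ + ‖e‖) ^ 2 := by ring
    rw [h3, h4, ← add_mul]
    refine mul_le_mul_of_nonneg_right ?_ (sq_nonneg _)
    linarith

theorem exp1 {d : ℕ} {v0 : E d} {K : Set ℂ} (hK : IsCompact K) (n : ℕ)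
    (hb : ∀ j < n, ∀ z ∈ K, ev v0.2 (it v0 j z) ≠ 0) :
    ∃ C η : ℝ, 0 ≤ C ∧ 0 < η ∧ ∀ u : E d, ‖u‖ ≤ η → ∀ z ∈ K,
      (∀ j < n, ev (v0 + u).2 (it (v0 + u) j z) ≠ 0) ∧ ‖XX v0 u n z‖ ≤ C * ‖u‖ ∧
      ‖it (v0 + u) n z - it v0 n z - XX v0 u n z‖ ≤ C * ‖u‖ ^ 2 := by
  induction n with
  | zero =>
    refine ⟨0, 1, le_rfl, one_pos, fun u _ z _ => ⟨fun j hj => absurd hj (Nat.not_lt_zero j),
      ?_, ?_⟩⟩
    · show ‖(0 : ℂ)‖ ≤ _
      simp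
    · show ‖z - z - 0‖ ≤ _
      simp
  | succ n ih =>
    obtain ⟨C1, η1, hC1, hη1, h1⟩ := ih (fun j hj => hb j (by omega))
    have hcont : ContinuousOn (it v0 n) K := fun z hz =>
      (tr_hasDerivAt v0 z n (fun i hi => hb i (by omega) z hz)).continuousAt.continuousWithinAt
    obtain ⟨C2, η2, hC2, hη2, h2⟩ := exp_step (v0 := v0) (hK.image_of_continuousOn hcont) (by
      rintro _ ⟨z, hz, rfl⟩
      exact hb n (by omega) z hz)
    refine ⟨C2 + C2 * C1 + C2 * (1 + 2 * C1) ^ 2, min (min η1 1) (min η2 (η2 / (2 * C1 + 1))),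
      by positivity, lt_min (lt_min hη1 one_pos) (lt_min hη2 (by positivity)), ?_⟩
    intro u hu z hz
    have hu1 : ‖u‖ ≤ η1 := hu.trans ((min_le_left _ _).trans (min_le_left _ _))
    have hu2 : ‖u‖ ≤ 1 := hu.trans ((min_le_left _ _).trans (min_le_right _ _))
    have hu3 : ‖u‖ ≤ η2 := hu.trans ((min_le_right _ _).trans (min_le_left _ _))
    have hu4 : ‖u‖ * (2 * C1 + 1) ≤ η2 := by
      have := hu.trans ((min_le_right _ _).trans (min_le_right _ _))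
      rwa [le_div_iff₀ (by positivity)] at this
    have hu0 := norm_nonneg u
    obtain ⟨g1, g2, g3⟩ := h1 u hu1 z hz
    obtain ⟨e, he⟩ : ∃ e, e = it (v0 + u) n z - it v0 n z := ⟨_, rfl⟩
    have hen : ‖e‖ ≤ 2 * C1 * ‖u‖ := by
      have h3 : e = (e - XX v0 u n z) + XX v0 u n z := by ring
      rw [h3]
      refine (norm_add_le _ _).trans ?_
      have h4 : ‖e - XX v0 u n z‖ ≤ C1 * ‖u‖ ^ 2 := by
        rw [he]
        exact g3
      have h5 : C1 * ‖u‖ ^ 2 ≤ C1 * ‖u‖ := by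
        refine mul_le_mul_of_nonneg_left ?_ hC1
        nlinarith
      linarith
    have hen2 : ‖e‖ ≤ η2 := hen.trans (by nlinarith)
    obtain ⟨k1, k2, k3, k4⟩ := h2 u hu3 e hen2 _ ⟨z, hz, rfl⟩
    have hye : it v0 n z + e = it (v0 + u) n z := by
      rw [he]
      ring
    rw [hye] at k1 k4
    refine ⟨?_, ?_, ?_⟩
    · intro j hj
      rcases Nat.lt_succ_iff_lt_or_eq.1 hj with h3 | h3
      · exact g1 j h3
      · rw [h3]
        exact k1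
    · show ‖xi v0 u (it v0 n z) + wv v0 (it v0 n z) / ev v0.2 (it v0 n z) ^ 2 * XX v0 u n z‖ ≤ _
      refine (norm_add_le _ _).trans ?_
      rw [norm_mul]
      have h3 := mul_le_mul k3 g2 (norm_nonneg _) hC2
      have h4 : 0 ≤ C2 * (1 + 2 * C1) ^ 2 * ‖u‖ := by positivity
      nlinarith
    · have e1 : it (v0 + u) (n + 1) z - it v0 (n + 1) z - XX v0 u (n + 1) z =
          (ev (v0 + u).1 (it (v0 + u) n z) / ev (v0 + u).2 (it (v0 + u) n z) -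
            ev v0.1 (it v0 n z) / ev v0.2 (it v0 n z) - xi v0 u (it v0 n z) -
            wv v0 (it v0 n z) / ev v0.2 (it v0 n z) ^ 2 * e) +
          wv v0 (it v0 n z) / ev v0.2 (it v0 n z) ^ 2 *
            (it (v0 + u) n z - it v0 n z - XX v0 u n z) := by
        show ev (v0 + u).1 (it (v0 + u) n z) / ev (v0 + u).2 (it (v0 + u) n z) -
          ev v0.1 (it v0 n z) / ev v0.2 (it v0 n z) -
          (xi v0 u (it v0 n z) + wv v0 (it v0 n z) / ev v0.2 (it v0 n z) ^ 2 * XX v0 u n z) = _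
        rw [he]
        ring
      rw [e1]
      refine (norm_add_le _ _).trans ?_
      rw [norm_mul]
      have h3 := mul_le_mul k3 g3 (norm_nonneg _) hC2
      have h5 : (‖u‖ + ‖e‖) ^ 2 ≤ ((1 + 2 * C1) * ‖u‖) ^ 2 := by
        refine pow_le_pow_left₀ (by positivity) ?_ 2
        linarith
      have h6 := mul_le_mul_of_nonneg_left h5 hC2
      have h7 : 0 ≤ C2 * ‖u‖ ^ 2 := by positivity
      calc _ ≤ C2 * (‖u‖ + ‖e‖) ^ 2 + C2 * (C1 * ‖u‖ ^ 2) := add_le_add k4 h3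
        _ ≤ C2 * ((1 + 2 * C1) * ‖u‖) ^ 2 + C2 * (C1 * ‖u‖ ^ 2) := by linarith
        _ ≤ (C2 + C2 * C1 + C2 * (1 + 2 * C1) ^ 2) * ‖u‖ ^ 2 := by
            have : (C2 + C2 * C1 + C2 * (1 + 2 * C1) ^ 2) * ‖u‖ ^ 2 =
              C2 * ((1 + 2 * C1) * ‖u‖) ^ 2 + C2 * (C1 * ‖u‖ ^ 2) + C2 * ‖u‖ ^ 2 := by ring
            linarith

end Pool.Agent.H56.HR
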