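import Pool.Agent.H56.HR.SDF

/-!
# Module FBS: the Fatou set is open and forward invariant, its components are relatively closed

PROOFS. `eq_map`: `f` continuous and open; for `y'` near `f x` there is `y` near `x` with `f y = y'` (`IsOpenMap.nhds_le`: `𝓝 (f x) ≤ map f (𝓝 x)`), and `chord (f^[n] (f x)) (f^[n] (f y)) = chord (f^[n+1] x) (f^[n+1] y) < ε`. `fs_map`: `f '' FS f` is open and consists of points with `EqAt`.
`comp_cl` (any topological space): `A ∪ {y}` is preconnected (`IsPreconnected.subset_closure` with `isPreconnected_connectedComponentIn`), contained in `F`, contains `x`: `IsPreconnected.subset_connectedComponentIn`.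
-/

set_option autoImplicit false

open Filter Topology Polynomial Metric Set MeasureTheory

namespace Pool.Agent.H56.HR

open Pool.Agent.H44.Fatou Pool.Agent.H32.BT Pool.Agent.H79.Eul Pool.Agent.H79.Par
open Pool.Agent.H35.EX Pool.Agent.H44.RR

theorem fs_open (f : OnePoint ℂ → OnePoint ℂ) : IsOpen (FS f) := isOpen_interior

theorem eq_map {f : OnePoint ℂ → OnePoint ℂ} (ho : IsOpenMap f) {x : OnePoint ℂ}
    (hx : EqAt f x) : EqAt f (f x) := by
  intro ε hε
  have h1 := ho.image_mem_nhds (hx ε hε)
  filter_upwards [h1] with y' hy' n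
  obtain ⟨y, hy, rfl⟩ := hy'
  exact hy (n + 1)

theorem fs_map {f : OnePoint ℂ → OnePoint ℂ} (ho : IsOpenMap f) {x : OnePoint ℂ}
    (hx : x ∈ FS f) : f x ∈ FS f := by
  have h1 : IsOpen (f '' FS f) := ho _ (fs_open f)
  have h2 : f '' FS f ⊆ {x | EqAt f x} := by
    rintro _ ⟨y, hy, rfl⟩
    exact eq_map ho (interior_subset hy)
  exact interior_maximal h2 h1 ⟨x, hx, rfl⟩

theorem fs_map_it {f : OnePoint ℂ → OnePoint ℂ} (ho : IsOpenMap f) (n : ℕ) {x : OnePoint ℂ}
    (hx : x ∈ FS f) : f^[n] x ∈ FS f := by
  induction n with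
  | zero => exact hx
  | succ n ih =>
    rw [Function.iterate_succ_apply']
    exact fs_map ho ih

theorem comp_cl {X : Type*} [TopologicalSpace X] {F : Set X} {x y : X} (hx : x ∈ F)
    (hy : y ∈ closure (connectedComponentIn F x)) (hyF : y ∈ F) : y ∈ connectedComponentIn F x := by
  have h1 : IsPreconnected (insert y (connectedComponentIn F x)) :=
    isPreconnected_connectedComponentIn.subset_closure (subset_insert _ _)
      (insert_subset hy subset_closure)
  have h2 : insert y (connectedComponentIn F x) ⊆ F :=
    insert_subset hyF (connectedComponentIn_subset F x)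
  exact h1.subset_connectedComponentIn (mem_insert_of_mem _ (mem_connectedComponentIn hx)) h2
    (mem_insert _ _)

end Pool.Agent.H56.HR
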