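import Pool.Agent.H56.HR.PSI
import Pool.Agent.H56.HR.CAV

/-!
# Module FUN: the two functionals

PROOFS. `ci_la`, `ci_mm`: on the sphere `‖w‖ = s` the summands are continuous (`psi_hd`, `psi_an` for the derivative, `psi_dn` for `j + 1 ≤ p`, `w ≠ 0`), `ContinuousOn.circleIntegrable`.
`la_dg`: the integrands agree on the sphere: `dg (psi j w) / deriv (psi (j+1)) w = 1 / deriv (psi j) w` (`psi_ds`, `psi_dg`); `Real.circleAverage_congr_sphere`.
`la_gg`: with `G j w = g (psi j w) / (w * deriv (psi j) w)` the left integrand is `∑ j ∈ range p, G (j+1) w` (`psi_gg`), which is `∑ j ∈ range p, G j w + G p w - G 0 w` (`Finset.sum_range_succ'`), and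
`G p w = G 0 (l w)` (`h.rot`, `psi_dp`: `w * deriv (psi p) w = (l w) * deriv ψ (l w)`); `cav_rot`. All functions are circle integrable.
`la_van`: `xi_surj` (H61/TT/Surj).
-/

set_option autoImplicit false

open Filter Topology Polynomial Metric Set MeasureTheory

namespace Pool.Agent.H56.HR

open Pool.Agent.H44.Fatou Pool.Agent.H32.BT Pool.Agent.H79.Eul Pool.Agent.H79.Par Pool.Agent.H61.TT

variable {d : ℕ} {v0 : E d} {p : ℕ} {l : ℂ} {ψ : ℂ → ℂ} {r R : ℝ}

theorem fun_sph (h : Ring v0 p l ψ r R) {s : ℝ} (hs : r < s) (hs' : s < R) {w : ℂ}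
    (hw : w ∈ sphere (0 : ℂ) s) : w ∈ Ann r R ∧ w ≠ 0 ∧ ‖w‖ = s := by
  rw [mem_sphere_zero_iff_norm] at hw
  refine ⟨⟨by rw [hw]; exact hs, by rw [hw]; exact hs'⟩, ?_, hw⟩
  rintro rfl
  rw [norm_zero] at hw
  have := h.hr
  linarith

theorem fun_cont (h : Ring v0 p l ψ r R) {s : ℝ} (hs : r < s) (hs' : s < R) {V : ℂ → ℂ}
    (hV : ContinuousOn V (Gam v0 p ψ s)) {j k : ℕ} (hj : j < p) (hk : k ≤ p) :
    ContinuousOn (fun w => V (psi v0 ψ j w) / (w * deriv (psi v0 ψ k) w)) (sphere 0 s) := by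
  have h1 : ContinuousOn (psi v0 ψ j) (sphere 0 s) := fun w hw =>
    (psi_hd h j (fun_sph h hs hs' hw).1).continuousAt.continuousWithinAt
  have h2 : ContinuousOn (deriv (psi v0 ψ k)) (sphere 0 s) := fun w hw =>
    (psi_an h k (fun_sph h hs hs' hw).1).deriv.continuousAt.continuousWithinAt
  refine ContinuousOn.div (hV.comp h1 ?_) (continuousOn_id.mul h2) ?_
  · intro w hw
    exact ⟨j, hj, w, (fun_sph h hs hs' hw).2.2, rfl⟩
  · intro w hw
    exact mul_ne_zero (fun_sph h hs hs' hw).2.1 (psi_dn h hk (fun_sph h hs hs' hw).1)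

theorem fun_s0 (h : Ring v0 p l ψ r R) {s : ℝ} (hs : r < s) : 0 < s := h.hr.trans hs

theorem ci_la (h : Ring v0 p l ψ r R) {s : ℝ} (hs : r < s) (hs' : s < R) {V : ℂ → ℂ}
    (hV : ContinuousOn V (Gam v0 p ψ s)) :
    CircleIntegrable (fun w => ∑ j ∈ Finset.range p, V (psi v0 ψ j w) /
      (w * deriv (psi v0 ψ (j + 1)) w)) 0 s := by
  refine ContinuousOn.circleIntegrable (fun_s0 h hs).le ?_
  refine continuousOn_finsetSum _ fun j hj => ?_
  have := Finset.mem_range.1 hj
  exact fun_cont h hs hs' hV this (by omega)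

theorem ci_mm (h : Ring v0 p l ψ r R) {s : ℝ} (hs : r < s) (hs' : s < R) {g : ℂ → ℂ}
    (hg : ContinuousOn g (Gam v0 p ψ s)) :
    CircleIntegrable (fun w => ∑ j ∈ Finset.range p, g (psi v0 ψ j w) /
      (w * deriv (psi v0 ψ j) w)) 0 s := by
  refine ContinuousOn.circleIntegrable (fun_s0 h hs).le ?_
  refine continuousOn_finsetSum _ fun j hj => ?_
  have := Finset.mem_range.1 hj
  exact fun_cont h hs hs' hg this (by omega)

theorem la_add (h : Ring v0 p l ψ r R) {s : ℝ} (hs : r < s) (hs' : s < R) {V W : ℂ → ℂ}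
    (hV : ContinuousOn V (Gam v0 p ψ s)) (hW : ContinuousOn W (Gam v0 p ψ s)) :
    LA v0 p ψ s (fun z => V z + W z) = LA v0 p ψ s V + LA v0 p ψ s W := by
  unfold LA
  rw [← Real.circleAverage_fun_add (ci_la h hs hs' hV) (ci_la h hs hs' hW)]
  congr 1
  funext w
  rw [← Finset.sum_add_distrib]
  exact Finset.sum_congr rfl fun j _ => add_div _ _ _

theorem la_congr (h : Ring v0 p l ψ r R) {s : ℝ} (hs : r < s) (hs' : s < R) {V W : ℂ → ℂ}
    (hVW : ∀ z ∈ Gam v0 p ψ s, V z = W z) : LA v0 p ψ s V = LA v0 p ψ s W := by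
  unfold LA
  refine Real.circleAverage_congr_sphere fun w hw => ?_
  rw [abs_of_pos (fun_s0 h hs)] at hw
  refine Finset.sum_congr rfl fun j hj => ?_
  rw [hVW _ ⟨j, Finset.mem_range.1 hj, w, (fun_sph h hs hs' hw).2.2, rfl⟩]

theorem mm_sum (h : Ring v0 p l ψ r R) {s : ℝ} (hs : r < s) (hs' : s < R) (T : Finset ℂ)
    (c : ℂ → ℂ) {g : ℂ → ℂ → ℂ} (hg : ∀ y ∈ T, ContinuousOn (g y) (Gam v0 p ψ s)) :
    MM v0 p ψ s (fun z => ∑ y ∈ T, c y * g y z) = ∑ y ∈ T, c y * MM v0 p ψ s (g y) := by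
  classical
  induction T using Finset.induction_on with
  | empty =>
    unfold MM
    simp only [Finset.sum_empty, zero_div, Finset.sum_const_zero]
    exact Real.circleAverage_const 0 0 s
  | insert y T hy ih =>
    rw [Finset.sum_insert hy, ← ih fun z hz => hg z (Finset.mem_insert_of_mem hz)]
    have h1 : ContinuousOn (fun z => ∑ y ∈ T, c y * g y z) (Gam v0 p ψ s) :=
      continuousOn_finsetSum _ fun z hz =>
        continuousOn_const.mul (hg z (Finset.mem_insert_of_mem hz))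
    have h2 := hg y (Finset.mem_insert_self y T)
    have h3 : c y * MM v0 p ψ s (g y) = MM v0 p ψ s (fun z => c y * g y z) := by
      unfold MM
      rw [← smul_eq_mul, ← Real.circleAverage_fun_smul]
      congr 1
      funext w
      rw [smul_eq_mul, Finset.mul_sum]
      exact Finset.sum_congr rfl fun j _ => by rw [mul_div_assoc]
    rw [h3]
    have h4 : ContinuousOn (fun z => c y * g y z) (Gam v0 p ψ s) := continuousOn_const.mul h2
    unfold MM
    rw [← Real.circleAverage_fun_add (ci_mm h hs hs' h4) (ci_mm h hs hs' h1)]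
    congr 1
    funext w
    rw [← Finset.sum_add_distrib]
    refine Finset.sum_congr rfl fun j _ => ?_
    dsimp only
    rw [Finset.sum_insert hy, add_div]

theorem la_dg (h : Ring v0 p l ψ r R) {s : ℝ} (hs : r < s) (hs' : s < R) (g : ℂ → ℂ) :
    LA v0 p ψ s (fun z => dg (pol v0.1) (pol v0.2) z * g z) = MM v0 p ψ s g := by
  unfold LA MM
  refine Real.circleAverage_congr_sphere fun w hw => ?_
  rw [abs_of_pos (fun_s0 h hs)] at hw
  obtain ⟨k1, k2, k3⟩ := fun_sph h hs hs' hw
  refine Finset.sum_congr rfl fun j hj => ?_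
  have hjp := Finset.mem_range.1 hj
  have h1 := psi_dg h hjp k1
  have h2 := psi_dn h hjp.le k1
  rw [psi_ds h j k1]
  field_simp

theorem la_gg (h : Ring v0 p l ψ r R) {s : ℝ} (hs : r < s) (hs' : s < R) {g : ℂ → ℂ}
    (hg : ContinuousOn g (Gam v0 p ψ s)) :
    LA v0 p ψ s (fun z => g (gg (pol v0.1) (pol v0.2) z)) = MM v0 p ψ s g := by
  obtain ⟨G, hG⟩ : ∃ G : ℕ → ℂ → ℂ, G = fun j w => g (psi v0 ψ j w) / (w * deriv (psi v0 ψ j) w) :=
    ⟨_, rfl⟩
  have hGs : ∀ j w, G j w = g (psi v0 ψ j w) / (w * deriv (psi v0 ψ j) w) := fun j w => by rw [hG]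
  have hl := h.rotl.nor
  have hl0 : l ≠ 0 := by
    rintro rfl
    rw [norm_zero] at hl
    norm_num at hl
  have hp := h.hp
  have c0 : ∀ w ∈ sphere (0 : ℂ) s, G p w = G 0 (l * w) := by
    intro w hw
    obtain ⟨k1, k2, k3⟩ := fun_sph h hs hs' hw
    rw [hGs, hGs, h.rot w k1, psi_dp h k1, psi_zero]
    congr 1
    have : deriv (psi v0 ψ 0) (l * w) = deriv ψ (l * w) := rfl
    rw [this]
    ring
  have i0 : CircleIntegrable (G 0) 0 s := by
    rw [hG]
    exact (fun_cont h hs hs' hg hp (Nat.zero_le p)).circleIntegrable (fun_s0 h hs).le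
  have cG0 : ContinuousOn (G 0) (sphere 0 s) := by
    rw [hG]
    exact fun_cont h hs hs' hg hp (Nat.zero_le p)
  have cGp : ContinuousOn (G p) (sphere 0 s) := by
    refine ContinuousOn.congr (f := fun w => G 0 (l * w)) ?_ c0
    refine cG0.comp (by fun_prop) ?_
    intro w hw
    rw [mem_sphere_zero_iff_norm] at hw ⊢
    rw [norm_mul, hl, one_mul, hw]
  have e0 : Real.circleAverage (G p) 0 s = Real.circleAverage (G 0) 0 s := by
    rw [← cav_rot hl (G 0) s]
    refine Real.circleAverage_congr_sphere fun w hw => ?_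
    rw [abs_of_pos (fun_s0 h hs)] at hw
    exact c0 w hw
  have iS : CircleIntegrable (fun w => ∑ j ∈ Finset.range p, G j w) 0 s := by
    have := ci_mm h hs hs' hg
    rw [hG]
    exact this
  have iD : CircleIntegrable (fun w => G p w + -G 0 w) 0 s :=
    (cGp.add cG0.neg).circleIntegrable (fun_s0 h hs).le
  have e1 : LA v0 p ψ s (fun z => g (gg (pol v0.1) (pol v0.2) z)) =
      Real.circleAverage (fun w => (∑ j ∈ Finset.range p, G j w) + (G p w + -G 0 w)) 0 s := by
    unfold LA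
    refine Real.circleAverage_congr_sphere fun w _ => ?_
    dsimp only
    have e2 : ∀ j, g (gg (pol v0.1) (pol v0.2) (psi v0 ψ j w)) /
        (w * deriv (psi v0 ψ (j + 1)) w) = G (j + 1) w := by
      intro j
      rw [hGs, psi_gg]
    rw [Finset.sum_congr rfl fun j _ => e2 j]
    have e3 := Finset.sum_range_succ' (fun j => G j w) p
    have e4 := Finset.sum_range_succ (fun j => G j w) p
    rw [e3] at e4
    linear_combination e4
  rw [e1, Real.circleAverage_fun_add iS iD]
  have e5 : Real.circleAverage (fun w => G p w + -G 0 w) 0 s = 0 := by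
    have i0' : CircleIntegrable (fun w => -G 0 w) 0 s := cG0.neg.circleIntegrable (fun_s0 h hs).le
    rw [Real.circleAverage_fun_add (cGp.circleIntegrable (fun_s0 h hs).le) i0', e0]
    have e6 : Real.circleAverage (fun w => -G 0 w) 0 s = -Real.circleAverage (G 0) 0 s := by
      have := Real.circleAverage_fun_smul (a := (-1 : ℂ)) (f := G 0) (c := 0) (R := s)
      simpa only [smul_eq_mul, neg_mul, one_mul] using this
    rw [e6, add_neg_cancel]
  rw [e5, add_zero]
  unfold MM
  rw [hG]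

theorem la_van (h : Ring v0 p l ψ r R) {s : ℝ} (hv : ∀ u : E d, LA v0 p ψ s (xi v0 u) = 0)
    {η : Polynomial ℂ} (hη : η.natDegree ≤ 2 * d) :
    LA v0 p ψ s (fun z => η.eval z / (pol v0.2).eval z ^ 2) = 0 := by
  obtain ⟨v, hv'⟩ := xi_surj h.rat hη
  have : (fun z => η.eval z / (pol v0.2).eval z ^ 2) = xi v0 v := by
    funext z
    exact (hv' z).symm
  rw [this]
  exact hv v

end Pool.Agent.H56.HR
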