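import Mathlib
import Pool.Agent.H35.EX.KerB

/-!
# Module GPO: the Cauchy potential of a finite family of curves

PROOFS. `gpo_meas`: for every `j` the integral is a measurable function of `x` (`(x, t) ↦ c j t / (x - φ j t)` is measurable, `StronglyMeasurable.integral_prod_right` with the restricted measure).
`gpo_an`: the compact set `φ j '' Icc 0 (2π)` has positive distance `2 ρ` from `x`; on `ball x ρ` differentiate under the integral (`hasDerivAt_integral_of_dominated_loc_of_deriv_le`, or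
`intervalIntegral.hasDerivAt_integral_of_dominated_loc_of_deriv_le`), derivative of the integrand `- c j t / (x - φ j t) ^ 2`, bounded by `C / ρ ^ 2`; `DifferentiableOn.analyticAt` on the open ball.
`gpo_fin`: `‖c j t‖ ≤ C`, `‖φ j t‖ ≤ M` for `t ∈ Icc 0 (2π)`, `j < p`. On `ball 0 (2 M + 2)`: `‖gpo x‖ₑ ≤ ∑ j, ∫⁻ t in Ioc 0 (2π), ofReal (C * ‖x - φ j t‖⁻¹)`, Tonelli (`lintegral_lintegral_swap`) and `ker_bound`
(H35/EX/KerB). For `‖x‖ ≥ 2 M + 1`: `c / (x - φ) = c / x + c φ / x ^ 2 + c φ ^ 2 / (x ^ 2 (x - φ))`; the first two terms have sum of integrals zero (`h0`, `h1`), so `‖gpo x‖ ≤ K / ‖x‖ ^ 3`, which is integrable at infinity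
(see the proof of `cut_fin` in H61/TT/CutFin for `∫⁻` of `1 / ‖x‖ ^ 3` outside a ball).
-/

set_option autoImplicit false

open Filter Topology Metric Set MeasureTheory

namespace Pool.Agent.H56.HR

/-- the Cauchy potential of the curves `φ j`, `j < p`, with weights `c j` -/
noncomputable def gpo (p : ℕ) (c φ : ℕ → ℝ → ℂ) (x : ℂ) : ℂ :=
  ∑ j ∈ Finset.range p, ∫ t in (0 : ℝ)..(2 * Real.pi), c j t / (x - φ j t)

variable {p : ℕ} {c φ : ℕ → ℝ → ℂ}

private theorem gpo_tp : (0 : ℝ) ≤ 2 * Real.pi := by positivity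

theorem gpo_meas (hc : ∀ j < p, Continuous (c j)) (hφ : ∀ j < p, Continuous (φ j)) :
    Measurable (gpo p c φ) := by
  have h : gpo p c φ = fun x => ∑ j ∈ Finset.range p,
      ∫ t in Ioc (0 : ℝ) (2 * Real.pi), c j t / (x - φ j t) := by
    funext x
    unfold gpo
    refine Finset.sum_congr rfl fun j _ => ?_
    rw [intervalIntegral.integral_of_le gpo_tp]
  rw [h]
  refine Finset.measurable_sum _ fun j hj => ?_
  have hj' := Finset.mem_range.1 hj
  have hm : Measurable (fun q : ℂ × ℝ => c j q.2 / (q.1 - φ j q.2)) :=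
    ((hc j hj').measurable.comp measurable_snd).div
      (measurable_fst.sub ((hφ j hj').measurable.comp measurable_snd))
  have h1 : StronglyMeasurable (fun x : ℂ => ∫ t, c j t / (x - φ j t)
      ∂(volume.restrict (Ioc (0 : ℝ) (2 * Real.pi)))) :=
    StronglyMeasurable.integral_prod_right' (f := fun q : ℂ × ℝ => c j q.2 / (q.1 - φ j q.2))
      hm.stronglyMeasurable
  exact h1.measurable

/-- one curve: differentiability -/
private theorem gpo_one {c φ : ℝ → ℂ} (hc : Continuous c) (hφ : Continuous φ) {x : ℂ}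
    {δ : ℝ} (hδ : 0 < δ) (h : ∀ t ∈ Icc (0 : ℝ) (2 * Real.pi), 2 * δ ≤ ‖x - φ t‖) :
    ∀ y ∈ ball x δ, DifferentiableAt ℂ
      (fun y => ∫ t in (0 : ℝ)..(2 * Real.pi), c t / (y - φ t)) y := by
  intro y hy
  have hlow : ∀ y ∈ ball x δ, ∀ t ∈ Icc (0 : ℝ) (2 * Real.pi), δ ≤ ‖y - φ t‖ := by
    intro y hy t ht
    have h1 := h t ht
    have h2 : ‖x - φ t‖ ≤ ‖x - y‖ + ‖y - φ t‖ := by
      have : x - φ t = (x - y) + (y - φ t) := by ring
      rw [this]
      exact norm_add_le _ _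
    have h3 : ‖x - y‖ < δ := by
      rw [mem_ball, dist_comm, dist_eq_norm] at hy
      exact hy
    linarith
  have hne : ∀ y ∈ ball x δ, ∀ t ∈ Icc (0 : ℝ) (2 * Real.pi), y - φ t ≠ 0 := by
    intro y hy t ht h0
    have h1 := hlow y hy t ht
    rw [h0, norm_zero] at h1
    linarith
  obtain ⟨C, hC⟩ := isCompact_Icc.exists_bound_of_continuousOn (s := Icc (0 : ℝ) (2 * Real.pi))
    hc.continuousOn
  have hIoc : ∀ t, t ∈ Set.uIoc (0 : ℝ) (2 * Real.pi) → t ∈ Icc (0 : ℝ) (2 * Real.pi) := by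
    intro t ht
    rw [Set.uIoc_of_le gpo_tp] at ht
    exact ⟨ht.1.le, ht.2⟩
  have hs : ball x δ ∈ 𝓝 y := isOpen_ball.mem_nhds hy
  have hmeas : ∀ y : ℂ, Measurable (fun t => c t / (y - φ t)) := fun y =>
    hc.measurable.div (measurable_const.sub hφ.measurable)
  refine (intervalIntegral.hasDerivAt_integral_of_dominated_loc_of_deriv_le
    (μ := volume) (F := fun y t => c t / (y - φ t)) (F' := fun y t => -c t / (y - φ t) ^ 2)
    (bound := fun _ => C / δ ^ 2) hs (Filter.Eventually.of_forall fun y =>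
      (hmeas y).aestronglyMeasurable) ?_ ?_ ?_ ?_ ?_).2.differentiableAt
  · refine ContinuousOn.intervalIntegrable_of_Icc gpo_tp ?_
    exact ContinuousOn.div hc.continuousOn (continuousOn_const.sub hφ.continuousOn) (hne y hy)
  · exact (hc.measurable.neg.div ((measurable_const.sub hφ.measurable).pow_const 2)).aestronglyMeasurable
  · refine Filter.Eventually.of_forall fun t ht z hz => ?_
    have ht' := hIoc t ht
    have h1 := hlow z hz t ht'
    rw [norm_div, norm_neg, norm_pow]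
    have hC0 : 0 ≤ C := (norm_nonneg _).trans (hC t ht')
    exact div_le_div₀ hC0 (hC t ht') (by positivity) (pow_le_pow_left₀ hδ.le h1 2)
  · exact intervalIntegrable_const
  · refine Filter.Eventually.of_forall fun t ht z hz => ?_
    have h0 := hne z hz t (hIoc t ht)
    have h1 : HasDerivAt (fun z : ℂ => z - φ t) 1 z := (hasDerivAt_id z).sub_const _
    have h2 := (hasDerivAt_const z (c t)).div h1 h0
    have h3 : (0 * (z - φ t) - c t * 1) / (z - φ t) ^ 2 = -c t / (z - φ t) ^ 2 := by ring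
    rw [h3] at h2
    exact h2

theorem gpo_an (hc : ∀ j < p, Continuous (c j)) (hφ : ∀ j < p, Continuous (φ j)) {x : ℂ}
    (hx : ∀ j < p, ∀ t : ℝ, x ≠ φ j t) : AnalyticAt ℂ (gpo p c φ) x := by
  have h1 : ∀ j ∈ Finset.range p, AnalyticAt ℂ
      (fun x => ∫ t in (0 : ℝ)..(2 * Real.pi), c j t / (x - φ j t)) x := by
    intro j hj
    have hj' := Finset.mem_range.1 hj
    have hcont : ContinuousOn (fun t => ‖x - φ j t‖) (Icc (0 : ℝ) (2 * Real.pi)) :=
      (continuous_const.sub (hφ j hj')).norm.continuousOn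
    obtain ⟨t0, ht0, hmin⟩ := isCompact_Icc.exists_isMinOn (nonempty_Icc.2 gpo_tp) hcont
    have hpos : 0 < ‖x - φ j t0‖ := norm_pos_iff.2 (sub_ne_zero.2 (hx j hj' t0))
    have h2 := gpo_one (hc j hj') (hφ j hj') (x := x) (δ := ‖x - φ j t0‖ / 2) (by positivity)
      (fun t ht => by
        have h3 : ‖x - φ j t0‖ ≤ ‖x - φ j t‖ := hmin ht
        linarith)
    have h3 : DifferentiableOn ℂ (fun x => ∫ t in (0 : ℝ)..(2 * Real.pi), c j t / (x - φ j t))
        (ball x (‖x - φ j t0‖ / 2)) := fun y hy => (h2 y hy).differentiableWithinAt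
    exact h3.analyticAt (isOpen_ball.mem_nhds (mem_ball_self (by positivity)))
  have h2 := Finset.analyticAt_fun_sum (Finset.range p) h1
  exact h2

private theorem gpo_finite_bound {c : ℕ → ℝ → ℂ} : ∀ {p : ℕ}, (∀ j < p, Continuous (c j)) →
    ∃ C : ℝ, 0 ≤ C ∧ ∀ j < p, ∀ t ∈ Icc (0 : ℝ) (2 * Real.pi), ‖c j t‖ ≤ C := by
  intro p
  induction p with
  | zero =>
    intro _
    exact ⟨0, le_refl 0, fun j hj => absurd hj (Nat.not_lt_zero j)⟩
  | succ p ih =>
    intro hc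
    obtain ⟨C, hC0, hC⟩ := ih (fun j hj => hc j (Nat.lt_succ_of_lt hj))
    obtain ⟨D, hD⟩ := isCompact_Icc.exists_bound_of_continuousOn
      (s := Icc (0 : ℝ) (2 * Real.pi)) (hc p (Nat.lt_succ_self p)).continuousOn
    refine ⟨max C D, hC0.trans (le_max_left _ _), fun j hj t ht => ?_⟩
    rcases Nat.lt_succ_iff_lt_or_eq.1 hj with h | h
    · exact (hC j h t ht).trans (le_max_left _ _)
    · rw [h]
      exact (hD t ht).trans (le_max_right _ _)

private theorem gpo_near (hc : ∀ j < p, Continuous (c j)) (hφ : ∀ j < p, Continuous (φ j))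
    (r : ℝ) : ∫⁻ x in ball (0 : ℂ) r, ‖gpo p c φ x‖ₑ ≠ ⊤ := by
  obtain ⟨C, hC0, hC⟩ := gpo_finite_bound hc
  obtain ⟨K, hK, hK'⟩ := Pool.Agent.H35.EX.ker_bound 0 r
  have h1 : ∀ x, ‖gpo p c φ x‖ₑ ≤ ∑ j ∈ Finset.range p,
      ∫⁻ t in Ioc (0 : ℝ) (2 * Real.pi), ‖c j t / (x - φ j t)‖ₑ := by
    intro x
    unfold gpo
    refine (enorm_sum_le _ _).trans (Finset.sum_le_sum fun j _ => ?_)
    rw [intervalIntegral.integral_of_le gpo_tp]
    exact enorm_integral_le_lintegral_enorm _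
  have hmeas : ∀ j < p, Measurable (fun q : ℂ × ℝ => ‖c j q.2 / (q.1 - φ j q.2)‖ₑ) := by
    intro j hj
    exact (((hc j hj).measurable.comp measurable_snd).div
      (measurable_fst.sub ((hφ j hj).measurable.comp measurable_snd))).enorm
  have h2 : ∫⁻ x in ball (0 : ℂ) r, ‖gpo p c φ x‖ₑ ≤ ∑ j ∈ Finset.range p,
      ∫⁻ x in ball (0 : ℂ) r, ∫⁻ t in Ioc (0 : ℝ) (2 * Real.pi), ‖c j t / (x - φ j t)‖ₑ := by
    refine (lintegral_mono fun x => h1 x).trans ?_
    rw [lintegral_finsetSum]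
    intro j hj
    exact (hmeas j (Finset.mem_range.1 hj)).lintegral_prod_right'
  refine ne_top_of_le_ne_top ?_ h2
  refine (ENNReal.sum_lt_top.2 fun j hj => ?_).ne
  have hj' := Finset.mem_range.1 hj
  rw [lintegral_lintegral_swap (hmeas j hj').aemeasurable]
  have h3 : ∫⁻ t in Ioc (0 : ℝ) (2 * Real.pi), ∫⁻ x in ball (0 : ℂ) r,
      ‖c j t / (x - φ j t)‖ₑ ≤ ∫⁻ _ in Ioc (0 : ℝ) (2 * Real.pi), ENNReal.ofReal C * K := by
    refine setLIntegral_mono' measurableSet_Ioc fun t ht => ?_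
    have h4 : ∀ x, ‖c j t / (x - φ j t)‖ₑ ≤ ENNReal.ofReal C * ENNReal.ofReal (‖x - φ j t‖⁻¹) := by
      intro x
      rw [← ofReal_norm, ← ENNReal.ofReal_mul hC0, norm_div, div_eq_mul_inv]
      exact ENNReal.ofReal_le_ofReal (mul_le_mul_of_nonneg_right
        (hC j hj' t ⟨ht.1.le, ht.2⟩) (inv_nonneg.2 (norm_nonneg _)))
    refine (lintegral_mono fun x => h4 x).trans ?_
    rw [lintegral_const_mul' _ _ ENNReal.ofReal_ne_top]
    exact mul_le_mul_right (hK' _) _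
  refine lt_of_le_of_lt h3 ?_
  rw [setLIntegral_const]
  exact ENNReal.mul_lt_top (ENNReal.mul_lt_top ENNReal.ofReal_lt_top hK.lt_top)
    (by rw [Real.volume_Ioc]; exact ENNReal.ofReal_lt_top)

private theorem gpo_split {c φ : ℝ → ℂ} (hc : Continuous c) (hφ : Continuous φ) {C M : ℝ}
    (hM0 : 0 ≤ M) (hC : ∀ t ∈ Icc (0 : ℝ) (2 * Real.pi), ‖c t‖ ≤ C)
    (hM : ∀ t ∈ Icc (0 : ℝ) (2 * Real.pi), ‖φ t‖ ≤ M) {x : ℂ} (hx : 2 * M + 2 ≤ ‖x‖) :
    ‖(∫ t in (0 : ℝ)..(2 * Real.pi), c t / (x - φ t)) -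
      ((∫ t in (0 : ℝ)..(2 * Real.pi), c t) / x +
        (∫ t in (0 : ℝ)..(2 * Real.pi), c t * φ t) / x ^ 2)‖ ≤
      2 * C * M ^ 2 * (2 * Real.pi) / ‖x‖ ^ 3 := by
  have hx0 : 0 < ‖x‖ := by linarith
  have hxn : x ≠ 0 := norm_pos_iff.1 hx0
  have hlow : ∀ t ∈ Icc (0 : ℝ) (2 * Real.pi), ‖x‖ / 2 ≤ ‖x - φ t‖ := by
    intro t ht
    have h1 := norm_sub_norm_le x (φ t)
    have h2 := hM t ht
    linarith
  have hne : ∀ t ∈ Icc (0 : ℝ) (2 * Real.pi), x - φ t ≠ 0 := by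
    intro t ht h0
    have h1 := hlow t ht
    rw [h0, norm_zero] at h1
    linarith
  have i0 : IntervalIntegrable (fun t => c t / (x - φ t)) volume 0 (2 * Real.pi) :=
    ContinuousOn.intervalIntegrable_of_Icc gpo_tp
      (ContinuousOn.div hc.continuousOn (continuousOn_const.sub hφ.continuousOn) hne)
  have i1 : IntervalIntegrable (fun t => c t / x + c t * φ t / x ^ 2) volume 0 (2 * Real.pi) :=
    ((hc.div_const x).add ((hc.mul hφ).div_const (x ^ 2))).intervalIntegrable _ _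
  have e1 : (∫ t in (0 : ℝ)..(2 * Real.pi), c t) / x +
      (∫ t in (0 : ℝ)..(2 * Real.pi), c t * φ t) / x ^ 2 =
      ∫ t in (0 : ℝ)..(2 * Real.pi), (c t / x + c t * φ t / x ^ 2) := by
    have j0 : IntervalIntegrable (fun t => c t / x) volume 0 (2 * Real.pi) :=
      (hc.div_const x).intervalIntegrable _ _
    have j1 : IntervalIntegrable (fun t => c t * φ t / x ^ 2) volume 0 (2 * Real.pi) :=
      ((hc.mul hφ).div_const (x ^ 2)).intervalIntegrable _ _
    rw [intervalIntegral.integral_add j0 j1, intervalIntegral.integral_div,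
      intervalIntegral.integral_div]
  rw [e1, ← intervalIntegral.integral_sub i0 i1]
  have h2 : ∀ t ∈ Set.uIoc (0 : ℝ) (2 * Real.pi),
      ‖c t / (x - φ t) - (c t / x + c t * φ t / x ^ 2)‖ ≤ 2 * C * M ^ 2 / ‖x‖ ^ 3 := by
    intro t ht
    rw [Set.uIoc_of_le gpo_tp] at ht
    have ht' : t ∈ Icc (0 : ℝ) (2 * Real.pi) := ⟨ht.1.le, ht.2⟩
    have h3 : c t / (x - φ t) - (c t / x + c t * φ t / x ^ 2) =
        c t * φ t ^ 2 / (x ^ 2 * (x - φ t)) := by
      have h4 := hne t ht'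
      field_simp
      ring
    rw [h3, norm_div, norm_mul, norm_mul, norm_pow, norm_pow]
    have h5 := hlow t ht'
    have hC0 : 0 ≤ C := (norm_nonneg _).trans (hC t ht')
    have h6 : ‖c t‖ * ‖φ t‖ ^ 2 ≤ C * M ^ 2 := mul_le_mul (hC t ht')
      (pow_le_pow_left₀ (norm_nonneg _) (hM t ht') 2) (by positivity) hC0
    have h7 : ‖x‖ ^ 2 * (‖x‖ / 2) ≤ ‖x‖ ^ 2 * ‖x - φ t‖ :=
      mul_le_mul_of_nonneg_left h5 (by positivity)
    refine (div_le_div₀ (by positivity) h6 (by positivity) h7).trans (le_of_eq ?_)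
    field_simp
  refine (intervalIntegral.norm_integral_le_of_norm_le_const h2).trans (le_of_eq ?_)
  rw [sub_zero, abs_of_nonneg gpo_tp]
  ring

theorem gpo_fin (hc : ∀ j < p, Continuous (c j)) (hφ : ∀ j < p, Continuous (φ j))
    (h0 : ∑ j ∈ Finset.range p, ∫ t in (0 : ℝ)..(2 * Real.pi), c j t = 0)
    (h1 : ∑ j ∈ Finset.range p, ∫ t in (0 : ℝ)..(2 * Real.pi), c j t * φ j t = 0) :
    ∫⁻ x, ‖gpo p c φ x‖ₑ ≠ ⊤ := by
  obtain ⟨C, hC0, hC⟩ := gpo_finite_bound hc
  obtain ⟨M, hM0, hM⟩ := gpo_finite_bound hφ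
  have hdec : ∀ x : ℂ, 2 * M + 2 ≤ ‖x‖ → ‖gpo p c φ x‖ ≤
      p * (2 * C * M ^ 2 * (2 * Real.pi)) * (1 / ‖x‖ ^ 3) := by
    intro x hx
    have e1 : gpo p c φ x = ∑ j ∈ Finset.range p,
        ((∫ t in (0 : ℝ)..(2 * Real.pi), c j t / (x - φ j t)) -
          ((∫ t in (0 : ℝ)..(2 * Real.pi), c j t) / x +
            (∫ t in (0 : ℝ)..(2 * Real.pi), c j t * φ j t) / x ^ 2)) := by
      rw [Finset.sum_sub_distrib, Finset.sum_add_distrib, ← Finset.sum_div, ← Finset.sum_div,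
        h0, h1, zero_div, zero_div, add_zero, sub_zero]
      rfl
    rw [e1]
    refine (norm_sum_le _ _).trans ?_
    have h2 : ∀ j ∈ Finset.range p, ‖(∫ t in (0 : ℝ)..(2 * Real.pi), c j t / (x - φ j t)) -
          ((∫ t in (0 : ℝ)..(2 * Real.pi), c j t) / x +
            (∫ t in (0 : ℝ)..(2 * Real.pi), c j t * φ j t) / x ^ 2)‖ ≤
        2 * C * M ^ 2 * (2 * Real.pi) / ‖x‖ ^ 3 := fun j hj =>
      gpo_split (hc j (Finset.mem_range.1 hj)) (hφ j (Finset.mem_range.1 hj)) hM0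
        (hC j (Finset.mem_range.1 hj)) (hM j (Finset.mem_range.1 hj)) hx
    refine (Finset.sum_le_sum h2).trans (le_of_eq ?_)
    rw [Finset.sum_const, Finset.card_range, nsmul_eq_mul]
    ring
  have hsplit := lintegral_add_compl (μ := volume) (fun x => ‖gpo p c φ x‖ₑ)
    (measurableSet_ball (x := (0 : ℂ)) (ε := 2 * M + 2))
  rw [← hsplit]
  refine ENNReal.add_ne_top.2 ⟨gpo_near hc hφ _, ?_⟩
  have hset : (ball (0 : ℂ) (2 * M + 2))ᶜ = {x : ℂ | 2 * M + 2 ≤ ‖x‖} := by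
    ext x
    rw [mem_compl_iff, mem_ball_zero_iff, not_lt, mem_ofPred_eq]
  rw [hset]
  have hout := Pool.Agent.H35.EX.out_bound (R := 2 * M + 2) (by linarith)
  have hms : MeasurableSet {x : ℂ | 2 * M + 2 ≤ ‖x‖} :=
    measurableSet_le measurable_const measurable_norm
  refine ne_top_of_le_ne_top (ENNReal.mul_ne_top (ENNReal.ofReal_ne_top
    (r := p * (2 * C * M ^ 2 * (2 * Real.pi)))) hout) ?_
  rw [← lintegral_const_mul' _ _ ENNReal.ofReal_ne_top]
  refine setLIntegral_mono' hms fun x hx => ?_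
  rw [← ofReal_norm, ← ENNReal.ofReal_mul (by positivity)]
  exact ENNReal.ofReal_le_ofReal (hdec x hx)

end Pool.Agent.H56.HR
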