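import Pool.Agent.H56.HR.QFN
import Pool.Agent.H56.HR.ALF

/-!
# Module HHI: monotonicity of the quadratic differential along the rings

PROOFS. `hh_hd`: `psi i w ∉ Gam` for `w ∈ Ann r R`, `‖w‖ ≠ s`, `i < p` (`h.inj`), and for `i = p` (`psi p w = psi 0 (l w)`); `qq_an`, `psi_an` (the derivative of an analytic function is analytic).
`al_y`: `alf` applied to the function `q` of `qq_ver`; by `null_pre` (H61/TT/Area) for almost every `y` with `b y ≠ 0` the point `x = gg y` is good for `alf`, `y ∈ fs a b x` (`mem_fs`); `dg y ≠ 0` for almost every `y` (`ae_ww`, `dg_ne`);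
`y, gg y ∉ Gam` for almost every `y` (`gam_null`, `null_pre`), so `q` may be replaced by `QQ`.
`hh_al`: let `q = QQ`. For almost every point `y` of the open set `psi i '' U` (`U` any neighbourhood of `w` in `Ann`; `psi_open`) `al_y` holds; such points are dense (`Measure.IsOpenPosMeasure`: a null set has empty interior), so there is a
sequence `w_n → w` with `y = psi i w_n` good: `QQ (psi i w_n) = ρ_n dg^2 QQ (psi (i+1) w_n)` (`psi_gg`), so `hh i w_n = ρ_n hh (i+1) w_n` (`psi_ds`). Subsequence `ρ_n → ρ ∈ [0, 1]` (`isCompact_Icc.tendsto_subseq`), continuity of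
`hh i`, `hh (i+1)` at `w`. `hh_p`: definition, `h.rot`, `psi_dp`.
-/

set_option autoImplicit false

open Filter Topology Polynomial Metric Set MeasureTheory

namespace Pool.Agent.H56.HR

open Pool.Agent.H44.Fatou Pool.Agent.H32.BT Pool.Agent.H79.Eul Pool.Agent.H79.Par Pool.Agent.H61.TT

variable {d : ℕ} {v0 : E d} {p : ℕ} {l : ℂ} {ψ : ℂ → ℂ} {r R : ℝ}

theorem psi_ngam (h : Ring v0 p l ψ r R) {s : ℝ} (hs : r < s) (hs' : s < R) {i : ℕ} (hi : i ≤ p)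
    {w : ℂ} (hw : w ∈ Ann r R) (hws : ‖w‖ ≠ s) : psi v0 ψ i w ∉ Gam v0 p ψ s := by
  rintro ⟨j, hj, w', hw', he⟩
  have hw'A : w' ∈ Ann r R := ⟨by rw [hw']; exact hs, by rw [hw']; exact hs'⟩
  rcases Nat.lt_or_ge i p with hip | hip
  · obtain ⟨-, h2⟩ := h.inj i hip j hj w hw w' hw'A he
    exact hws (by rw [h2, hw'])
  · have hip' : i = p := le_antisymm hi hip
    rw [hip', h.rot w hw] at he
    obtain ⟨-, h2⟩ := h.inj 0 h.hp j hj (l * w) (rot_ann h.rotl hw) w' hw'A he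
    apply hws
    rw [← rot_norm h.rotl w, h2, hw']

theorem hh_an (h : Ring v0 p l ψ r R) {s : ℝ} (hs : r < s) (hs' : s < R) {i : ℕ} (hi : i ≤ p)
    {w : ℂ} (hw : w ∈ Ann r R) (hws : ‖w‖ ≠ s) : AnalyticAt ℂ (hh v0 p ψ s i) w := by
  have h1 : AnalyticAt ℂ (QQ v0 p ψ s) (psi v0 ψ i w) := qq_an h hs hs' (psi_ngam h hs hs' hi hw hws)
  have h2 : AnalyticAt ℂ (psi v0 ψ i) w := psi_an h i hw
  have h3 : AnalyticAt ℂ (fun w => QQ v0 p ψ s (psi v0 ψ i w)) w := h1.comp h2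
  have h4 : AnalyticAt ℂ (fun w => (w * deriv (psi v0 ψ i) w) ^ 2) w :=
    (analyticAt_id.mul h2.deriv).pow 2
  exact h3.mul h4

theorem al_y (h : Ring v0 p l ψ r R) {s : ℝ} (hs : r < s) (hs' : s < R)
    (hv : ∀ u : E d, LA v0 p ψ s (xi v0 u) = 0) :
    ∀ᵐ y : ℂ, (pol v0.2).eval y ≠ 0 → ∃ ρ : ℝ, 0 ≤ ρ ∧ ρ ≤ 1 ∧
      QQ v0 p ψ s y = (ρ : ℂ) * (dg (pol v0.1) (pol v0.2) y ^ 2 *
        QQ v0 p ψ s (gg (pol v0.1) (pol v0.2) y)) := by
  obtain ⟨q, hqm, hqe, hqf, hqp⟩ := qq_ver h hs hs' hv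
  have hal := alf h.rat hqm hqf hqp
  have h1 := null_pre h.rat (ae_iff.1 hal)
  have h2 := gam_null h hs hs'
  have h3 := null_pre h.rat h2
  filter_upwards [measure_eq_zero_iff_ae_notMem.1 h1, measure_eq_zero_iff_ae_notMem.1 h2,
    measure_eq_zero_iff_ae_notMem.1 h3, ae_ww h.rat] with y hy1 hy2 hy3 hyw hb
  have hy1' : ¬ ¬ _ := fun hn => hy1 ⟨hb, hn⟩
  obtain ⟨-, hfib⟩ := not_not.1 hy1'
  obtain ⟨ρ, hρ0, hρ1, hρ⟩ := hfib y ((mem_fs h.rat _ _).2 ⟨hb, rfl⟩)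
  refine ⟨ρ, hρ0, hρ1, ?_⟩
  have hdg : dg (pol v0.1) (pol v0.2) y ≠ 0 := (dg_ne hb).2 hyw
  have hg : gg (pol v0.1) (pol v0.2) y ∉ Gam v0 p ψ s := fun hg => hy3 ⟨hb, hg⟩
  rw [← hqe y hy2, ← hqe _ hg]
  rw [div_eq_iff (pow_ne_zero 2 hdg)] at hρ
  rw [hρ]
  ring

theorem al_sum (h : Ring v0 p l ψ r R) {s : ℝ} (hs : r < s) (hs' : s < R)
    (hv : ∀ u : E d, LA v0 p ψ s (xi v0 u) = 0) :
    ∀ᵐ x : ℂ, ∑ y ∈ fs (pol v0.1) (pol v0.2) x,
      ‖QQ v0 p ψ s y / dg (pol v0.1) (pol v0.2) y ^ 2‖ = ‖QQ v0 p ψ s x‖ := by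
  obtain ⟨q, hqm, hqe, hqf, hqp⟩ := qq_ver h hs hs' hv
  have hal := alf h.rat hqm hqf hqp
  have h2 := gam_null h hs hs'
  filter_upwards [hal, measure_eq_zero_iff_ae_notMem.1 h2] with x hx1 hx2
  rw [← hqe x hx2, ← hx1.1]
  refine Finset.sum_congr rfl fun y hy => ?_
  rw [hqe y]
  intro hyG
  obtain ⟨hyb, hyx⟩ := (mem_fs h.rat _ _).1 hy
  have := (gam_it h hs hs' hyG).2
  rw [hyx] at this
  exact hx2 this

theorem hh_al (h : Ring v0 p l ψ r R) {s : ℝ} (hs : r < s) (hs' : s < R)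
    (hv : ∀ u : E d, LA v0 p ψ s (xi v0 u) = 0) {i : ℕ} (hi : i < p) {w : ℂ} (hw : w ∈ Ann r R)
    (hws : ‖w‖ ≠ s) :
    ∃ ρ : ℝ, 0 ≤ ρ ∧ ρ ≤ 1 ∧ hh v0 p ψ s i w = (ρ : ℂ) * hh v0 p ψ s (i + 1) w := by
  have hal := al_y h hs hs' hv
  have hopen : IsOpen {w : ℂ | ‖w‖ ≠ s} := isOpen_ne_fun continuous_norm continuous_const
  have key : ∀ n : ℕ, ∃ u ∈ ball w (1 / ((n : ℝ) + 1)), ∃ ρ ∈ Icc (0 : ℝ) 1,
      hh v0 p ψ s i u = (ρ : ℂ) * hh v0 p ψ s (i + 1) u := by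
    intro n
    obtain ⟨W, hW⟩ : ∃ W : Set ℂ, W = ball w (1 / ((n : ℝ) + 1)) ∩ Ann r R := ⟨_, rfl⟩
    have hWo : IsOpen W := by
      rw [hW]
      exact isOpen_ball.inter (isOpen_Ann r R)
    have hWA : W ⊆ Ann r R := by
      rw [hW]
      exact inter_subset_right
    have hwW : w ∈ W := by
      rw [hW]
      exact ⟨mem_ball_self (by positivity), hw⟩
    have himo := psi_open h hi.le hWo hWA
    have hne : (psi v0 ψ i '' W).Nonempty := ⟨_, w, hwW, rfl⟩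
    obtain ⟨y, hyW, hy⟩ : ∃ y ∈ psi v0 ψ i '' W, ((pol v0.2).eval y ≠ 0 → ∃ ρ : ℝ, 0 ≤ ρ ∧ ρ ≤ 1 ∧
        QQ v0 p ψ s y = (ρ : ℂ) * (dg (pol v0.1) (pol v0.2) y ^ 2 *
        QQ v0 p ψ s (gg (pol v0.1) (pol v0.2) y))) := by
      by_contra hcon
      push Not at hcon
      have h0 : volume (psi v0 ψ i '' W) = 0 := by
        refine measure_mono_null ?_ (ae_iff.1 hal)
        intro y hy
        have := hcon y hy
        intro hc
        obtain ⟨ρ, h1, h2, h3⟩ := hc this.1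
        exact this.2 ρ h1 h2 h3
      exact (himo.measure_pos volume hne).ne' h0
    obtain ⟨u, hu, rfl⟩ := hyW
    have huA := hWA hu
    obtain ⟨ρ, hρ0, hρ1, hρ⟩ := hy (psi_b h i huA)
    refine ⟨u, ?_, ρ, ⟨hρ0, hρ1⟩, ?_⟩
    · rw [hW] at hu
      exact hu.1
    · unfold hh
      rw [hρ, psi_gg, psi_ds h i huA]
      ring
  choose u hu ρ hρ he using key
  have hut : Tendsto u atTop (𝓝 w) := by
    rw [Metric.tendsto_atTop]
    intro ε hε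
    obtain ⟨N, hN⟩ := exists_nat_one_div_lt hε
    refine ⟨N, fun n hn => ?_⟩
    have h1 := hu n
    rw [mem_ball] at h1
    refine h1.trans (lt_of_le_of_lt ?_ hN)
    apply one_div_le_one_div_of_le (by positivity)
    have : (N : ℝ) ≤ n := by exact_mod_cast hn
    linarith
  obtain ⟨ρ0, hρ0, φ, hφ, hlim⟩ := isCompact_Icc.tendsto_subseq hρ
  refine ⟨ρ0, hρ0.1, hρ0.2, ?_⟩
  have h1 : Tendsto (fun n => hh v0 p ψ s i (u (φ n))) atTop (𝓝 (hh v0 p ψ s i w)) :=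
    ((hh_an h hs hs' hi.le hw hws).continuousAt.tendsto.comp hut).comp hφ.tendsto_atTop
  have h2 : Tendsto (fun n => hh v0 p ψ s (i + 1) (u (φ n))) atTop (𝓝 (hh v0 p ψ s (i + 1) w)) :=
    ((hh_an h hs hs' hi hw hws).continuousAt.tendsto.comp hut).comp hφ.tendsto_atTop
  have h3 : Tendsto (fun n => ((ρ (φ n) : ℝ) : ℂ)) atTop (𝓝 ((ρ0 : ℝ) : ℂ)) :=
    (Complex.continuous_ofReal.tendsto ρ0).comp hlim
  have h4 := h3.mul h2
  refine tendsto_nhds_unique h1 (h4.congr fun n => ?_)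
  exact (he (φ n)).symm

theorem hh_p (h : Ring v0 p l ψ r R) {s : ℝ} {w : ℂ} (hw : w ∈ Ann r R) :
    hh v0 p ψ s p w = hh v0 p ψ s 0 (l * w) := by
  unfold hh
  have e1 : psi v0 ψ 0 = ψ := funext fun w => psi_zero v0 ψ w
  rw [h.rot w hw, psi_dp h hw, e1]
  ring

end Pool.Agent.H56.HR
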