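import Pool.Agent.H56.HR.FUN
import Pool.Agent.H79.Par.XXLin

/-!
# Module KLN: the drift is linear in the direction, and is the first order variation of `f^p` in the coordinate `log w`

PROOFS. `xi v0 u z` is additive and complex homogeneous in `u` (see the private lemmas `xl_xi_add`, `xl_xi_smul` in H79/Par/XXLin). `kk_add`, `kk_smul`: termwise. `la_xi_add`, `la_xi_smul`: `LA v0 p ψ s (xi v0 u) = Real.circleAverage (KK v0 p ψ u) 0 s` (definition); `la_add` (FUN;
`xi v0 u` is continuous on `Gam` because `ev v0.2 ≠ 0` there, `gam_it`), `Real.circleAverage_fun_smul` (or unfold). `kk_xx`: prove by induction on `n ≤ p`: `XX v0 u n (ψ w) = ∑ j ∈ range n, xi v0 u (psi j w) * deriv (psi n) w / deriv (psi (j+1)) w`: step: `XX (n+1) = xi v0 u (psi n w) + dg (psi n w) * XX n`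
(`wv v0 z / ev v0.2 z ^ 2 = dg z` by `wv_pol`, `ev_pol` of H61/TT/Surj), `deriv (psi (n+1)) w = dg (psi n w) * deriv (psi n) w` (`psi_ds`), derivatives nonzero (`psi_dn`). Take `n = p` and divide by `w * deriv (psi p) w`.
`kk_lin`: with the basis vectors `e` of `E d = (Fin (d+1) → ℂ) × (Fin (d+1) → ℂ)`: `u = ∑ i, u.1 i • (Pi.single i 1, 0) + ∑ i, u.2 i • (0, Pi.single i 1)`; `‖u.1 i‖ ≤ ‖u‖`.
-/

set_option autoImplicit false

open Filter Topology Polynomial Metric Set MeasureTheory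

namespace Pool.Agent.H56.HR

open Pool.Agent.H44.Fatou Pool.Agent.H32.BT Pool.Agent.H79.Eul Pool.Agent.H79.Par Pool.Agent.H61.TT

variable {d : ℕ} {v0 : E d} {p : ℕ} {l : ℂ} {ψ : ℂ → ℂ} {r R : ℝ}

private theorem kl_ev_add {d : ℕ} (p q : Fin (d + 1) → ℂ) (z : ℂ) :
    ev (p + q) z = ev p z + ev q z := by
  unfold ev
  rw [← Finset.sum_add_distrib]
  refine Finset.sum_congr rfl fun i _ => ?_
  rw [Pi.add_apply]
  ring

private theorem kl_ev_smul {d : ℕ} (c : ℂ) (p : Fin (d + 1) → ℂ) (z : ℂ) :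
    ev (c • p) z = c * ev p z := by
  unfold ev
  rw [Finset.mul_sum]
  refine Finset.sum_congr rfl fun i _ => ?_
  rw [Pi.smul_apply, smul_eq_mul]
  ring

private theorem kl_xi_add {d : ℕ} (v0 v w : E d) (z : ℂ) :
    xi v0 (v + w) z = xi v0 v z + xi v0 w z := by
  unfold xi
  rw [Prod.fst_add, Prod.snd_add, kl_ev_add, kl_ev_add]
  ring

private theorem kl_xi_smul {d : ℕ} (v0 v : E d) (c : ℂ) (z : ℂ) :
    xi v0 (c • v) z = c * xi v0 v z := by
  unfold xi
  rw [Prod.smul_fst, Prod.smul_snd, kl_ev_smul, kl_ev_smul]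
  ring

private theorem kl_xi_cont {d : ℕ} (v0 v : E d) {z : ℂ} (hz : ev v0.2 z ≠ 0) :
    ContinuousAt (xi v0 v) z := by
  have hev : ∀ q : Fin (d + 1) → ℂ, ContinuousAt (fun z => ev q z) z := by
    intro q
    unfold ev
    fun_prop
  unfold xi
  exact (((hev v.1).mul (hev v0.2)).sub ((hev v0.1).mul (hev v.2))).div ((hev v0.2).pow 2)
    (pow_ne_zero 2 hz)

private theorem kl_xi_gam (h : Ring v0 p l ψ r R) {s : ℝ} (hs : r < s) (hs' : s < R) (u : E d) :
    ContinuousOn (xi v0 u) (Gam v0 p ψ s) := by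
  intro z hz
  refine (kl_xi_cont v0 u ?_).continuousWithinAt
  rw [ev_pol]
  exact (gam_it h hs hs' hz).1

theorem kk_add (v0 : E d) (p : ℕ) (ψ : ℂ → ℂ) (u v : E d) (w : ℂ) :
    KK v0 p ψ (u + v) w = KK v0 p ψ u w + KK v0 p ψ v w := by
  unfold KK
  rw [← Finset.sum_add_distrib]
  refine Finset.sum_congr rfl fun j _ => ?_
  rw [kl_xi_add, add_div]

theorem kk_smul (v0 : E d) (p : ℕ) (ψ : ℂ → ℂ) (c : ℂ) (u : E d) (w : ℂ) :
    KK v0 p ψ (c • u) w = c * KK v0 p ψ u w := by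
  unfold KK
  rw [Finset.mul_sum]
  refine Finset.sum_congr rfl fun j _ => ?_
  rw [kl_xi_smul, mul_div_assoc]

theorem la_xi_add (h : Ring v0 p l ψ r R) {s : ℝ} (hs : r < s) (hs' : s < R) (u v : E d) :
    LA v0 p ψ s (xi v0 (u + v)) = LA v0 p ψ s (xi v0 u) + LA v0 p ψ s (xi v0 v) := by
  have e : xi v0 (u + v) = fun z => xi v0 u z + xi v0 v z := funext fun z => kl_xi_add v0 u v z
  rw [e]
  exact la_add h hs hs' (kl_xi_gam h hs hs' u) (kl_xi_gam h hs hs' v)

theorem la_xi_smul (h : Ring v0 p l ψ r R) {s : ℝ} (hs : r < s) (hs' : s < R) (c : ℂ) (u : E d) :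
    LA v0 p ψ s (xi v0 (c • u)) = c * LA v0 p ψ s (xi v0 u) := by
  unfold LA
  have e : (fun w => ∑ j ∈ Finset.range p, xi v0 (c • u) (psi v0 ψ j w) /
      (w * deriv (psi v0 ψ (j + 1)) w)) = fun w => c • ∑ j ∈ Finset.range p,
        xi v0 u (psi v0 ψ j w) / (w * deriv (psi v0 ψ (j + 1)) w) := by
    funext w
    rw [smul_eq_mul, Finset.mul_sum]
    refine Finset.sum_congr rfl fun j _ => ?_
    rw [kl_xi_smul, mul_div_assoc]
  rw [e, Real.circleAverage_fun_smul, smul_eq_mul]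

private theorem kl_xx (h : Ring v0 p l ψ r R) (u : E d) {w : ℂ} (hw : w ∈ Ann r R) :
    ∀ n : ℕ, n ≤ p → XX v0 u n (ψ w) = ∑ j ∈ Finset.range n,
      xi v0 u (psi v0 ψ j w) * deriv (psi v0 ψ n) w / deriv (psi v0 ψ (j + 1)) w
  | 0, _ => by
    rw [Finset.range_zero, Finset.sum_empty]
    rfl
  | n + 1, hn => by
    have ih := kl_xx h u hw n (by omega)
    have h1 : XX v0 u (n + 1) (ψ w) = xi v0 u (psi v0 ψ n w) +
        wv v0 (psi v0 ψ n w) / ev v0.2 (psi v0 ψ n w) ^ 2 * XX v0 u n (ψ w) := rfl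
    have h2 : wv v0 (psi v0 ψ n w) / ev v0.2 (psi v0 ψ n w) ^ 2 =
        dg (pol v0.1) (pol v0.2) (psi v0 ψ n w) := by
      rw [wv_pol, ev_pol]
      rfl
    have h3 := psi_dn h hn hw
    rw [h1, h2, ih, Finset.sum_range_succ, Finset.mul_sum, mul_div_assoc, div_self h3, mul_one, add_comm]
    congr 1
    refine Finset.sum_congr rfl fun j _ => ?_
    rw [psi_ds h n hw]
    ring

theorem kk_xx (h : Ring v0 p l ψ r R) (u : E d) {w : ℂ} (hw : w ∈ Ann r R) :
    KK v0 p ψ u w = XX v0 u p (ψ w) / (w * deriv (psi v0 ψ p) w) := by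
  rw [kl_xx h u hw p le_rfl]
  unfold KK
  rw [Finset.sum_div]
  refine Finset.sum_congr rfl fun j hj => ?_
  have h1 := psi_dn h (Finset.mem_range.1 hj : j < p) hw
  have h2 := psi_dn h (le_refl p) hw
  have h3 : w ≠ 0 := by
    intro h0
    have h4 := hw.1
    rw [h0, norm_zero] at h4
    linarith [h.hr]
  field_simp

/-- the drifts of all directions are combinations of finitely many drifts -/
theorem kk_lin (v0 : E d) (p : ℕ) (ψ : ℂ → ℂ) : ∃ (m : ℕ) (e : Fin m → E d) (a : Fin m → E d → ℂ),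
    (∀ i u, ‖a i u‖ ≤ ‖u‖) ∧ ∀ u : E d, u = ∑ i, a i u • e i := by
  refine ⟨(d + 1) + (d + 1), Fin.addCases (fun k => (Pi.single k 1, 0)) (fun k => (0, Pi.single k 1)),
    Fin.addCases (fun k u => u.1 k) (fun k u => u.2 k), ?_, ?_⟩
  · intro i u
    refine Fin.addCases (fun k => ?_) (fun k => ?_) i
    · simp only [Fin.addCases_left]
      exact (norm_le_pi_norm u.1 k).trans (norm_fst_le u)
    · simp only [Fin.addCases_right]
      exact (norm_le_pi_norm u.2 k).trans (norm_snd_le u)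
  · intro u
    rw [Fin.sum_univ_add]
    simp only [Fin.addCases_left, Fin.addCases_right]
    ext k
    · simp [Prod.fst_sum, Finset.sum_apply, Pi.single_apply]
    · simp [Prod.snd_sum, Finset.sum_apply, Pi.single_apply]

end Pool.Agent.H56.HR
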