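import Pool.Agent.H56.HR.MAI

/-!
# Module LPC: the pieces of the set of maps with a Herman ring have a tangent hyperplane at each point

`ss_cone`: for every `v0` in `SS d p t k` there is a real linear functional `l ≠ 0` with `|l (v - v0)| ≤ ε ‖v - v0‖` for all `v` in `SS d p t k` near `v0`, for every `ε > 0`.
-/

set_option autoImplicit false

open Filter Topology Polynomial Metric Set MeasureTheory

namespace Pool.Agent.H56.HR

open Pool.Agent.H44.Fatou Pool.Agent.H32.BT Pool.Agent.H79.Eul Pool.Agent.H79.Par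
open Pool.Agent.H35.EX Pool.Agent.H44.RR Pool.Agent.H44.RG Pool.Agent.H61.TT

theorem ss_cone {d : ℕ} (hd : 2 ≤ d) (p : ℕ) (t : Finset ℕ) (k : ℕ) {v0 : E d}
    (h0 : v0 ∈ SS d p t k) :
    ∃ L : E d →L[ℝ] ℝ, L ≠ 0 ∧ ∀ ε : ℝ, 0 < ε → ∃ ρ : ℝ, 0 < ρ ∧ ∀ v ∈ SS d p t k,
      ‖v - v0‖ < ρ → |L (v - v0)| ≤ ε * ‖v - v0‖ := by
  obtain ⟨hcop, hdeg, A, l, ψ, r, R, hR, hRA, -⟩ := h0
  obtain ⟨s, φ, ψ1, hφs, hφ, hconj, hring, hψ⟩ := chr hd hcop hdeg hR
  obtain ⟨K, hK⟩ : ∃ K : Set ℂ, K = ((↑) : ℂ → OnePoint ℂ) ⁻¹' (φ '' R0 t k) := ⟨_, rfl⟩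
  have hsub : φ '' R0 t k ⊆ ((↑) : ℂ → OnePoint ℂ) '' (ψ1 '' Ann r R) := by
    rintro _ ⟨x, hx, rfl⟩
    have hxA := hRA hx
    rw [← hR.bij.image_eq] at hxA
    obtain ⟨w, hw, rfl⟩ := hxA
    exact ⟨ψ1 w, ⟨w, hw, rfl⟩, (hψ w hw).symm⟩
  have himg : ((↑) : ℂ → OnePoint ℂ) '' K = φ '' R0 t k := by
    rw [hK, Set.image_preimage_eq_inter_range, Set.inter_eq_left]
    intro x hx
    obtain ⟨y, -, hy⟩ := hsub hx
    exact ⟨y, hy⟩
  have hKc : IsCompact K := by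
    rw [OnePoint.isOpenEmbedding_coe.isEmbedding.isCompact_iff, himg]
    exact ((r0_closed t k).isCompact).image φ.continuous
  have hKs : K ⊆ ψ1 '' Ann r R := by
    intro x hx
    rw [hK] at hx
    obtain ⟨y, hy, hxy⟩ := hsub hx
    rw [← OnePoint.coe_injective hxy]
    exact hy
  obtain ⟨s1, s2, h1, -, h2, hK12⟩ := hol_cpt hring hKc hKs
  obtain ⟨σ, hσ, hσ'⟩ := exists_between hring.hrR
  have hsub' : CAn s1 s2 ⊆ Ann r R := can_sub h1 h2
  have hKc' : IsCompact (ψ1 '' CAn s1 s2) := (isCompact_CAn s1 s2).image_of_continuousOn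
    fun w hw => (psi_hd hring 0 (hsub' hw)).continuousAt.continuousWithinAt
  obtain ⟨C0, η0, hC0, hη0, hexp⟩ := exp1 (v0 := Lin s v0) hKc' p (by
    rintro j - _ ⟨w, hw, rfl⟩
    exact hring.fin j w (hsub' hw))
  -- the functional
  let m : E d →ₗ[ℂ] ℂ :=
    { toFun := fun u => LA (Lin s v0) p ψ1 σ (xi (Lin s v0) u)
      map_add' := fun u v => la_xi_add hring hσ hσ' u v
      map_smul' := fun c u => by
        rw [la_xi_smul hring hσ hσ', RingHom.id_apply, smul_eq_mul] }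
  have hm : ∀ u, m u = LA (Lin s v0) p ψ1 σ (xi (Lin s v0) u) := fun u => rfl
  let g : E d →ₗ[ℂ] E d :=
    { toFun := Lin s
      map_add' := lin_add s
      map_smul' := fun c v => by rw [lin_smul, RingHom.id_apply] }
  have hg : ∀ v, g v = Lin s v := fun v => rfl
  have hginj : Function.Injective g := lin_inj s
  have hgsurj : Function.Surjective g := LinearMap.injective_iff_surjective.1 hginj
  let G : E d →L[ℝ] E d := LinearMap.toContinuousLinearMap (g.restrictScalars ℝ)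
  have hG : ∀ v, G v = Lin s v := fun v => rfl
  let f : E d →ₗ[ℝ] ℝ := Complex.reLm ∘ₗ ((m ∘ₗ g).restrictScalars ℝ)
  have hf : ∀ v, f v = (m (g v)).re := fun v => rfl
  let L : E d →L[ℝ] ℝ := LinearMap.toContinuousLinearMap f
  have hL : ∀ v, L v = (m (g v)).re := fun v => rfl
  refine ⟨L, ?_, ?_⟩
  · intro hL0
    obtain ⟨u0, hu0⟩ := trv hring hσ hσ'
    rw [← hm] at hu0
    obtain ⟨w0, rfl⟩ := hgsurj u0
    have h3 : (m (g w0)).re = 0 := by
      rw [← hL, hL0]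
      rfl
    have h4 : (m (g (Complex.I • w0))).re = 0 := by
      rw [← hL, hL0]
      rfl
    rw [map_smul, map_smul, smul_eq_mul, Complex.I_mul_re] at h4
    exact hu0 (Complex.ext h3 (by rw [Complex.zero_im]; linarith))
  · intro ε hε
    obtain ⟨δ, hδ, hdrf⟩ := drf hring hσ hσ' h1 h2 (ε := ε / (‖G‖ + 1)) (by positivity)
    have hG0 : 0 < ‖G‖ + 1 := by positivity
    refine ⟨min δ η0 / (‖G‖ + 1), div_pos (lt_min hδ hη0) hG0, ?_⟩
    rintro v ⟨hvc, hvd, -, -, -, -, -, -, -, z, hz⟩ hvr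
    obtain ⟨u, hu⟩ : ∃ u : E d, u = g (v - v0) := ⟨_, rfl⟩
    have hun : ‖u‖ ≤ ‖G‖ * ‖v - v0‖ := by
      rw [hu]
      exact G.le_opNorm (v - v0)
    have hun2 : ‖u‖ ≤ (‖G‖ + 1) * ‖v - v0‖ :=
      hun.trans (mul_le_mul_of_nonneg_right (by linarith) (norm_nonneg _))
    have hun3 : ‖u‖ < min δ η0 := by
      refine hun2.trans_lt ?_
      rw [lt_div_iff₀ hG0] at hvr
      linarith
    have huv : Lin s v0 + u = Lin s v := by
      rw [hu, map_sub, hg, hg]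
      abel
    have hu1 : ‖u‖ < δ := hun3.trans_le (min_le_left _ _)
    have hu2 : ‖u‖ ≤ η0 := (hun3.trans_le (min_le_right _ _)).le
    have hch : ∀ n : ℕ, ∃ x ∈ CAn s1 s2,
        (Rf (Lin s v0 + u))^[p * n] (φ z) = ((ψ1 x : ℂ) : OnePoint ℂ) := by
      intro n
      have h3 : (Rf (Lin s v0 + u))^[p * n] (φ z) ∈ ((↑) : ℂ → OnePoint ℂ) '' K := by
        rw [huv, iter_conj φ (hconj v hvc hvd), himg]
        exact ⟨_, hz n, rfl⟩
      obtain ⟨y, hy, hye⟩ := h3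
      obtain ⟨x, hx, rfl⟩ := hK12 hy
      exact ⟨x, hx, hye.symm⟩
    choose x hx hxe using hch
    have hstep : ∀ n, it (Lin s v0 + u) p (ψ1 (x n)) = ψ1 (x (n + 1)) := by
      intro n
      obtain ⟨hpole, -, -⟩ := hexp u hu2 (ψ1 (x n)) ⟨x n, hx n, rfl⟩
      have h3 := hxe (n + 1)
      have e : p * (n + 1) = p + p * n := by ring
      rw [e, Function.iterate_add_apply, hxe n, rat_it hpole] at h3
      exact OnePoint.coe_injective h3
    have h4 := hdrf u hu1 ⟨x, hx, hstep⟩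
    rw [← hm, hu] at h4
    have h5 : |L (v - v0)| ≤ ε / (‖G‖ + 1) * ‖g (v - v0)‖ := h4
    refine h5.trans ?_
    rw [← hu]
    calc ε / (‖G‖ + 1) * ‖u‖ ≤ ε / (‖G‖ + 1) * ((‖G‖ + 1) * ‖v - v0‖) :=
          mul_le_mul_of_nonneg_left hun2 (by positivity)
      _ = ε * ‖v - v0‖ := by field_simp

end Pool.Agent.H56.HR
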