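import Pool.Agent.H56.HR.DIS
import Pool.Agent.H61.TT.Fib

/-!
# Module OUT: there is an open set disjoint from the cycle of rings

PROOF. `f = Rf v0` is continuous (`rat_continuous`) and open (`rat_open`, H32/BT/Crit). `A` is open (`sr_open`) and nonempty, so its trace on `ℂ` is open and nonempty, infinite; `reg_finite` (H61/TT/Fib): there is a complex number `x` in `A` with `RegV d (pol v0.1) (pol v0.2) x`; `x = ψ wx`, `wx ∈ Ann`. The fibre
`fs` has `d ≥ 2` points `y`, with `f y = x` (`mem_fs`, `rat_coe_of_ne`). If `y = f^[j] (ψ w)` with `j < p`, then `f^[j+1] (ψ w) = ψ wx`: `j + 1 < p` is impossible (`sr_inj`: `j + 1 = 0`), so `j = p - 1`, `ψ (l w) = ψ wx`, `w = w1 := l⁻¹ * wx` (`w1 ∈ Ann`). So at most one point of the fibre,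
`y0 = f^[p-1] (ψ w1)`, is in the rings; let `y` be another one. `y ≠ y0`: disjoint open sets `O1 ∋ y`, `O2 ∋ y0` (`t2_separation`; `OnePoint ℂ` is Hausdorff). By continuity (`so_cont`) there is an open `U ⊆ Ann`, `w1 ∈ U`, with `f^[p-1] (ψ u) ∈ O2` for `u ∈ U`. `l U` is open in `Ann`, `ψ '' (l U)` is
open (`so_open`) and contains `x = f y`. `O = O1 ∩ f ⁻¹' (ψ '' (l U))` is open, contains `y`. If `f^[j] (ψ w) ∈ O` with `j < p`: `f^[j+1] (ψ w) = ψ (l u)`, `u ∈ U`, so as before `j = p - 1`, `w = u`, `f^[p-1] (ψ u) ∈ O2`, but it is in `O1`: contradiction. General `j`: `j = p * n + i`, `i < p`: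
`f^[j] (ψ w) = f^[i] (f^[p * n] (ψ w)) = f^[i] (ψ (l ^ n * w))` (`sr_rot`, `pow_ann`).
-/

set_option autoImplicit false

open Filter Topology Polynomial Metric Set MeasureTheory

namespace Pool.Agent.H56.HR

open Pool.Agent.H44.Fatou Pool.Agent.H32.BT Pool.Agent.H79.Eul Pool.Agent.H79.Par
open Pool.Agent.H35.EX Pool.Agent.H44.RR Pool.Agent.H61.TT

theorem out {d : ℕ} (hd : 2 ≤ d) {v0 : E d} (hcop : IsCoprime (pol v0.1) (pol v0.2))
    (hdeg : max (pol v0.1).natDegree (pol v0.2).natDegree = d) {A : Set (OnePoint ℂ)} {p : ℕ}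
    {l : ℂ} {ψ : ℂ → OnePoint ℂ} {r R : ℝ} (h : SRing (Rf v0) A p l ψ r R) :
    ∃ O : Set (OnePoint ℂ), IsOpen O ∧ O.Nonempty ∧ ∀ j : ℕ, ∀ w ∈ Ann r R,
      (Rf v0)^[j] (ψ w) ∉ O := by
  obtain ⟨f, hfd⟩ : ∃ f, f = Rf v0 := ⟨_, rfl⟩
  have hf : Continuous f := by
    rw [hfd]
    exact rat_continuous hcop
  have ho : IsOpenMap f := by
    rw [hfd]
    exact rat_open hcop (by rw [hdeg]; omega)
  rw [← hfd] at h ⊢
  have hRat : RatD d (pol v0.1) (pol v0.2) := ⟨hd, hcop, hdeg⟩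
  have hl0 : l ≠ 0 := rot_ne h.rotl
  have hAo := sr_open h
  -- a regular value in `A`
  have hne : A.Nonempty := by
    have h1 : (((r + R) / 2 : ℝ) : ℂ) ∈ Ann r R := by
      have h2 := h.hr
      have h3 := h.hrR
      unfold Ann
      rw [mem_ofPred_eq, Complex.norm_real, Real.norm_eq_abs, abs_of_pos (by linarith)]
      constructor <;> linarith
    exact ⟨_, h.bij.mapsTo h1⟩
  obtain ⟨x, hxA, hxr⟩ : ∃ x : ℂ, (x : OnePoint ℂ) ∈ A ∧ RegV d (pol v0.1) (pol v0.2) x := by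
    have h1 : IsOpen ((fun z : ℂ => (z : OnePoint ℂ)) ⁻¹' A) :=
      hAo.preimage OnePoint.continuous_coe
    obtain ⟨_, h2, z, rfl⟩ := OnePoint.denseRange_coe.inter_open_nonempty A hAo hne
    have h3 : Set.Infinite ((fun z : ℂ => (z : OnePoint ℂ)) ⁻¹' A) :=
      infinite_of_mem_nhds z (h1.mem_nhds h2)
    obtain ⟨x, hx1, hx2⟩ := (h3.diff (reg_finite hRat)).nonempty
    exact ⟨x, hx1, not_not.1 hx2⟩
  obtain ⟨wx, hwx, hψx⟩ := h.bij.surjOn hxA
  obtain ⟨w1, hw1d⟩ : ∃ w1, w1 = l⁻¹ * wx := ⟨_, rfl⟩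
  have hlw : l * w1 = wx := by rw [hw1d, mul_inv_cancel_left₀ hl0]
  have hw1 : w1 ∈ Ann r R := by
    have h1 := rot_norm h.rotl w1
    rw [hlw] at h1
    unfold Ann at hwx ⊢
    rw [mem_ofPred_eq] at hwx ⊢
    rw [← h1]
    exact hwx
  obtain ⟨y0, hy0⟩ : ∃ y0, y0 = f^[p - 1] (ψ w1) := ⟨_, rfl⟩
  -- another point of the fibre
  obtain ⟨y, hyf, hyne⟩ : ∃ y : ℂ, f (y : OnePoint ℂ) = (x : OnePoint ℂ) ∧ (y : OnePoint ℂ) ≠ y0 := by
    have h1 : ∀ y ∈ fs (pol v0.1) (pol v0.2) x, f (y : OnePoint ℂ) = (x : OnePoint ℂ) := by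
      intro y hy
      obtain ⟨h2, h3⟩ := (mem_fs hRat x y).1 hy
      rw [hfd]
      have h4 : Rf v0 (y : OnePoint ℂ) = rat (pol v0.1) (pol v0.2) (OnePoint.some y) := rfl
      rw [h4, rat_coe_of_ne h2]
      unfold gg at h3
      rw [h3]
    have h2 : 1 < (fs (pol v0.1) (pol v0.2) x).card := by
      rw [hxr.card]
      omega
    obtain ⟨a, ha, b, hb, hab⟩ := Finset.one_lt_card.1 h2
    by_cases h3 : (a : OnePoint ℂ) = y0
    · refine ⟨b, h1 b hb, fun h4 => hab ?_⟩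
      rw [← h3] at h4
      exact (OnePoint.coe_injective h4).symm
    · exact ⟨a, h1 a ha, h3⟩
  obtain ⟨O1, O2, hO1, hO2, hyO, hy0O, hdis⟩ := t2_separation hyne
  -- a small neighbourhood
  have hcont : ContinuousAt (fun u => f^[p - 1] (ψ u)) w1 :=
    (hf.iterate (p - 1)).continuousAt.comp (so_cont (h.hol w1 hw1))
  have hnh : ((fun u => f^[p - 1] (ψ u)) ⁻¹' O2) ∩ Ann r R ∈ 𝓝 w1 := by
    refine Filter.inter_mem (hcont.preimage_mem_nhds (hO2.mem_nhds ?_))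
      ((isOpen_Ann r R).mem_nhds hw1)
    rw [← hy0]
    exact hy0O
  obtain ⟨U, hUs, hUo, hw1U⟩ := _root_.mem_nhds_iff.1 hnh
  have hlU : IsOpen ((fun u => l * u) '' U) := (Homeomorph.mulLeft₀ l hl0).isOpenMap U hUo
  have hV : IsOpen (ψ '' ((fun u => l * u) '' U)) := by
    refine so_open h.bij.injOn h.hol hlU ?_
    rintro _ ⟨u, hu, rfl⟩
    exact rot_ann h.rotl (hUs hu).2
  refine ⟨O1 ∩ f ⁻¹' (ψ '' ((fun u => l * u) '' U)), hO1.inter (hV.preimage hf),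
    ⟨(y : OnePoint ℂ), hyO, ?_⟩, ?_⟩
  · rw [mem_preimage, hyf, ← hψx, ← hlw]
    exact ⟨_, ⟨w1, hw1U, rfl⟩, rfl⟩
  · intro j w hw hj
    have hp := h.hp
    obtain ⟨n, i, hi, rfl⟩ : ∃ n i, i < p ∧ j = p * n + i :=
      ⟨j / p, j % p, Nat.mod_lt _ hp, (Nat.div_add_mod j p).symm⟩
    have h1 : f^[p * n + i] (ψ w) = f^[i] (ψ (l ^ n * w)) := by
      rw [add_comm, Function.iterate_add_apply, sr_rot h n hw]
    rw [h1] at hj
    have hw' := pow_ann h.rotl hw n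
    obtain ⟨hj1, _, ⟨u, hu, rfl⟩, hj2⟩ := hj
    have h2 : f^[i + 1] (ψ (l ^ n * w)) = ψ (l * u) := by
      rw [Function.iterate_succ_apply']
      exact hj2.symm
    have hlu : l * u ∈ Ann r R := rot_ann h.rotl (hUs hu).2
    rcases Nat.lt_or_ge (i + 1) p with h3 | h3
    · have h4 := (sr_inj hf ho h h3 hp hw' hlu (h2.trans rfl)).1
      omega
    · have h4 : i + 1 = p := by omega
      rw [h4, h.rot _ hw'] at h2
      have h5 := h.bij.injOn (rot_ann h.rotl hw') hlu h2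
      have h6 := mul_left_cancel₀ hl0 h5
      have h7 : f^[i] (ψ (l ^ n * w)) ∈ O2 := by
        have h8 := (hUs hu).1
        rw [mem_preimage] at h8
        have h9 : i = p - 1 := by omega
        rw [h6, h9]
        exact h8
      exact Set.disjoint_left.1 hdis hj1 h7

end Pool.Agent.H56.HR
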