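import Pool.Agent.H56.HR.KLN
import Pool.Agent.H56.HR.EXP
import Pool.Agent.H56.HR.ANL

/-!
# Module PRT: one step of the perturbed map in the coordinate of the ring

PROOF. Let `K = ψ '' CAn s1 s2` (compact), `exp1` with `n = p` (`h.fin`): `ψ w' - ψ (l w) = it (v0+u) p (ψ w) - it v0 p (ψ w) = XX v0 u p (ψ w) + O(‖u‖^2)`, so `‖ψ w' - ψ (l w)‖ ≤ 2 C ‖u‖` for `‖u‖ ≤ min η 1`. `anl_inv` for `ψ` (injective: `h.inj 0 0`) on `CAn s1 s2`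
(`l w ∈ CAn s1 s2`): `‖w' - l w‖ ≤ C' ‖u‖`. `anl_tay`: `ψ w' - ψ (l w) = deriv ψ (l w) (w' - l w) + O(‖u‖^2)`. Hence `deriv ψ (l w) (w' - l w) = XX v0 u p (ψ w) + O(‖u‖^2)`; divide by `(l w) deriv ψ (l w) = w deriv (psi p) w` (`psi_dp`; bounded away from zero on the compact annulus:
continuous and nonzero, `psi_dn`): `w' / (l w) - 1 = KK u w + O(‖u‖^2)` (`kk_xx`).
-/

set_option autoImplicit false

open Filter Topology Polynomial Metric Set MeasureTheory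

namespace Pool.Agent.H56.HR

open Pool.Agent.H44.Fatou Pool.Agent.H32.BT Pool.Agent.H79.Eul Pool.Agent.H79.Par Pool.Agent.H61.TT

variable {d : ℕ} {v0 : E d} {p : ℕ} {l : ℂ} {ψ : ℂ → ℂ} {r R : ℝ}

theorem prt (h : Ring v0 p l ψ r R) {s1 s2 : ℝ} (h1 : r < s1) (h2 : s2 < R) :
    ∃ C η : ℝ, 0 ≤ C ∧ 0 < η ∧ ∀ u : E d, ‖u‖ ≤ η → ∀ w ∈ CAn s1 s2, ∀ w' ∈ CAn s1 s2,
      it (v0 + u) p (ψ w) = ψ w' →
      ‖w' - l * w‖ ≤ C * ‖u‖ ∧ ‖w' / (l * w) - 1 - KK v0 p ψ u w‖ ≤ C * ‖u‖ ^ 2 := by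
  have hsub : CAn s1 s2 ⊆ Ann r R := can_sub h1 h2
  have hKc : IsCompact (ψ '' CAn s1 s2) := (isCompact_CAn s1 s2).image_of_continuousOn
    fun w hw => (psi_hd h 0 (hsub hw)).continuousAt.continuousWithinAt
  obtain ⟨C0, η0, hC0, hη0, hexp⟩ := exp1 (v0 := v0) hKc p (by
    rintro j - _ ⟨w, hw, rfl⟩
    exact h.fin j w (hsub hw))
  have hinj : InjOn ψ (Ann r R) := fun w hw w' hw' he => (h.inj 0 h.hp 0 h.hp w hw w' hw' he).2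
  obtain ⟨c1, hc1, hinv⟩ := anl_inv h1 h2 h.diff hinj
  obtain ⟨C2, hC2, htay⟩ := anl_tay h1 h2 h.diff
  have hD0 : ∀ w ∈ CAn s1 s2, w * deriv (psi v0 ψ p) w ≠ 0 := by
    intro w hw
    refine mul_ne_zero ?_ (psi_dn h le_rfl (hsub hw))
    intro h0
    have h3 := (hsub hw).1
    rw [h0, norm_zero] at h3
    linarith [h.hr]
  obtain ⟨B, hB⟩ := (isCompact_CAn s1 s2).exists_bound_of_continuousOn
    (f := fun w => (w * deriv (psi v0 ψ p) w)⁻¹) (by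
      refine ContinuousOn.inv₀ ?_ hD0
      refine continuousOn_id.mul ?_
      intro w hw
      exact (psi_an h p (hsub hw)).deriv.continuousAt.continuousWithinAt)
  obtain ⟨C3, hC3⟩ : ∃ C3 : ℝ, C3 = 2 * C0 / c1 := ⟨_, rfl⟩
  have hC30 : 0 ≤ C3 := by rw [hC3]; positivity
  obtain ⟨C4, hC4⟩ : ∃ C4 : ℝ, C4 = max B 0 * (C2 * C3 ^ 2 + C0) := ⟨_, rfl⟩
  have hC40 : 0 ≤ C4 := by
    rw [hC4]
    exact mul_nonneg (le_max_right _ _) (by positivity)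
  refine ⟨max C3 C4, min η0 1, le_max_of_le_left hC30, lt_min hη0 one_pos, ?_⟩
  intro u hu w hw w' hw' he
  have hu0 := norm_nonneg u
  have hu1 : ‖u‖ ≤ 1 := hu.trans (min_le_right _ _)
  have hlw : l * w ∈ CAn s1 s2 := by
    refine ⟨?_, ?_⟩
    · rw [rot_norm h.rotl]; exact hw.1
    · rw [rot_norm h.rotl]; exact hw.2
  obtain ⟨-, hX, hE⟩ := hexp u (hu.trans (min_le_left _ _)) (ψ w) ⟨w, hw, rfl⟩
  have hpw : it v0 p (ψ w) = ψ (l * w) := h.rot w (hsub hw)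
  rw [he, hpw] at hE
  have hsq : ‖u‖ ^ 2 ≤ ‖u‖ := by nlinarith
  have hdiff : ‖ψ w' - ψ (l * w)‖ ≤ 2 * C0 * ‖u‖ := by
    calc ‖ψ w' - ψ (l * w)‖ = ‖(ψ w' - ψ (l * w) - XX v0 u p (ψ w)) + XX v0 u p (ψ w)‖ := by
          congr 1; ring
      _ ≤ C0 * ‖u‖ ^ 2 + C0 * ‖u‖ := (norm_add_le _ _).trans (add_le_add hE hX)
      _ ≤ C0 * ‖u‖ + C0 * ‖u‖ := by gcongr
      _ = 2 * C0 * ‖u‖ := by ring
  have hw1 : ‖w' - l * w‖ ≤ C3 * ‖u‖ := by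
    have h3 := (hinv w' hw' (l * w) hlw).trans hdiff
    rw [hC3, div_mul_eq_mul_div, le_div_iff₀ hc1, mul_comm]
    exact h3
  refine ⟨hw1.trans (mul_le_mul_of_nonneg_right (le_max_left _ _) hu0), ?_⟩
  have ht := htay (l * w) hlw w' hw'
  have ht2 : ‖ψ w' - ψ (l * w) - deriv ψ (l * w) * (w' - l * w)‖ ≤ C2 * C3 ^ 2 * ‖u‖ ^ 2 := by
    refine ht.trans ?_
    have h3 : ‖w' - l * w‖ ^ 2 ≤ (C3 * ‖u‖) ^ 2 := pow_le_pow_left₀ (norm_nonneg _) hw1 2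
    calc C2 * ‖w' - l * w‖ ^ 2 ≤ C2 * (C3 * ‖u‖) ^ 2 := by gcongr
      _ = C2 * C3 ^ 2 * ‖u‖ ^ 2 := by ring
  have hmain : ‖deriv ψ (l * w) * (w' - l * w) - XX v0 u p (ψ w)‖ ≤
      (C2 * C3 ^ 2 + C0) * ‖u‖ ^ 2 := by
    calc ‖deriv ψ (l * w) * (w' - l * w) - XX v0 u p (ψ w)‖
        = ‖(ψ w' - ψ (l * w) - XX v0 u p (ψ w)) -
          (ψ w' - ψ (l * w) - deriv ψ (l * w) * (w' - l * w))‖ := by congr 1; ring
      _ ≤ C0 * ‖u‖ ^ 2 + C2 * C3 ^ 2 * ‖u‖ ^ 2 := (norm_sub_le _ _).trans (add_le_add hE ht2)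
      _ = (C2 * C3 ^ 2 + C0) * ‖u‖ ^ 2 := by ring
  have hw0 : w ≠ 0 := by
    intro h0
    have h3 := (hsub hw).1
    rw [h0, norm_zero] at h3
    linarith [h.hr]
  have hl0 := rot_ne h.rotl
  have hlw0 : l * w ≠ 0 := mul_ne_zero hl0 hw0
  have hdp := psi_dp h (hsub hw)
  have hD := hD0 w hw
  have hψ' : deriv ψ (l * w) ≠ 0 := by
    intro h0
    apply hD
    rw [hdp, h0, mul_zero, mul_zero]
  have hkey : w' / (l * w) - 1 - KK v0 p ψ u w =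
      (w * deriv (psi v0 ψ p) w)⁻¹ * (deriv ψ (l * w) * (w' - l * w) - XX v0 u p (ψ w)) := by
    rw [kk_xx h u (hsub hw), hdp]
    field_simp
  rw [hkey, norm_mul]
  calc ‖(w * deriv (psi v0 ψ p) w)⁻¹‖ * ‖deriv ψ (l * w) * (w' - l * w) - XX v0 u p (ψ w)‖
      ≤ max B 0 * ((C2 * C3 ^ 2 + C0) * ‖u‖ ^ 2) :=
        mul_le_mul ((hB w hw).trans (le_max_left _ _)) hmain (norm_nonneg _) (le_max_right _ _)
    _ = C4 * ‖u‖ ^ 2 := by rw [hC4]; ring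
    _ ≤ max C3 C4 * ‖u‖ ^ 2 := by gcongr; exact le_max_right _ _

end Pool.Agent.H56.HR
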