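import Pool.Agent.H56.HR.FUN
import Pool.Agent.H61.TT.Lagr

/-!
# Module PSH: two moments vanish and the potential is invariant

PROOFS. `mom0`: `MM 1 = LA (dg) ` (`la_dg`), `dg = ww / b ^ 2`, degree of `ww` at most `2 d`: `la_van`. `mom1`: `MM id = LA (dg z * z)`, `dg z * z = (ww * X).eval z / b z ^ 2`, degree at most `2 d` (the degree of `ww a b` is at
most `2 d - 1`: `natDegree_derivative_le`, see the private lemma in H61/TT/Lagr).
`psh`: `lagr` (H61/TT/Lagr) gives `η`; for `z ∈ Gam`: `b.eval z ≠ 0` and `gg z ≠ x` (`gam_it`, `x ∉ Gam`), so the identity of `lagr` holds on `Gam`. Every `y ∈ fs a b x` is not in `Gam` (`mem_fs`, `gam_it`). Apply `LA`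
(`la_congr`, `la_add`): the left side `∑ y ∈ fs, dg z / ((y - z) dg y ^ 2) = dg z * ∑ y, (1 / dg y ^ 2) * (1 / (y - z))` gives `MM (..) = ∑ y, (1 / dg y ^ 2) * QQ y` (`la_dg`, `mm_sum`); the right side gives
`LA (fun z => 1 / (x - gg z)) + 0 = MM (fun y => 1 / (x - y)) = QQ x` (`la_gg`, `la_van`).
-/

set_option autoImplicit false

open Filter Topology Polynomial Metric Set MeasureTheory

namespace Pool.Agent.H56.HR

open Pool.Agent.H44.Fatou Pool.Agent.H32.BT Pool.Agent.H79.Eul Pool.Agent.H79.Par Pool.Agent.H61.TT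

variable {d : ℕ} {v0 : E d} {p : ℕ} {l : ℂ} {ψ : ℂ → ℂ} {r R : ℝ}

private theorem psh_deg {a b : Polynomial ℂ} (h : RatD d a b) : (ww a b).natDegree + 1 ≤ 2 * d := by
  have hd := h.hd
  have ha : a.natDegree ≤ d := by rw [← h.deg]; exact le_max_left _ _
  have hb : b.natDegree ≤ d := by rw [← h.deg]; exact le_max_right _ _
  have ha' := natDegree_derivative_le a
  have hb' := natDegree_derivative_le b
  have h1 : (ww a b).natDegree ≤ 2 * d - 1 := by
    unfold ww
    refine (natDegree_sub_le _ _).trans (max_le ?_ ?_)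
    · refine natDegree_mul_le.trans ?_
      omega
    · refine natDegree_mul_le.trans ?_
      omega
  omega

theorem mom0 (h : Ring v0 p l ψ r R) {s : ℝ} (hs : r < s) (hs' : s < R)
    (hv : ∀ u : E d, LA v0 p ψ s (xi v0 u) = 0) : MM v0 p ψ s (fun _ => 1) = 0 := by
  rw [← la_dg h hs hs' (fun _ => 1)]
  have h1 := la_van h hv (η := ww (pol v0.1) (pol v0.2)) (by have := psh_deg h.rat; omega)
  rw [← h1]
  congr 1
  funext z
  rw [mul_one]
  rfl

theorem mom1 (h : Ring v0 p l ψ r R) {s : ℝ} (hs : r < s) (hs' : s < R)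
    (hv : ∀ u : E d, LA v0 p ψ s (xi v0 u) = 0) : MM v0 p ψ s (fun z => z) = 0 := by
  rw [← la_dg h hs hs' (fun z => z)]
  have h1 := la_van h hv (η := ww (pol v0.1) (pol v0.2) * X) (by
    refine natDegree_mul_le.trans ?_
    rw [natDegree_X]
    exact psh_deg h.rat)
  rw [← h1]
  congr 1
  funext z
  rw [eval_mul, eval_X]
  unfold Pool.Agent.H61.TT.dg
  ring

theorem psh (h : Ring v0 p l ψ r R) {s : ℝ} (hs : r < s) (hs' : s < R)
    (hv : ∀ u : E d, LA v0 p ψ s (xi v0 u) = 0) {x : ℂ} (hx : RegV d (pol v0.1) (pol v0.2) x)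
    (hxG : x ∉ Gam v0 p ψ s) :
    QQ v0 p ψ s x = ∑ y ∈ fs (pol v0.1) (pol v0.2) x, QQ v0 p ψ s y / dg (pol v0.1) (pol v0.2) y ^ 2 := by
  obtain ⟨η, hη, hl⟩ := lagr h.rat hx
  have hgx : ∀ z ∈ Gam v0 p ψ s, gg (pol v0.1) (pol v0.2) z ≠ x := fun z hz he =>
    hxG (he ▸ (gam_it h hs hs' hz).2)
  have hyG : ∀ y ∈ fs (pol v0.1) (pol v0.2) x, y ∉ Gam v0 p ψ s := by
    intro y hy hG
    obtain ⟨-, hyx⟩ := (mem_fs h.rat _ _).1 hy
    exact hgx y hG hyx
  have hcy : ∀ y : ℂ, y ∉ Gam v0 p ψ s →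
      ContinuousOn (fun z : ℂ => 1 / (y - z)) (Gam v0 p ψ s) := by
    intro y hy
    refine continuousOn_const.div (continuousOn_const.sub continuousOn_id) ?_
    intro z hz h0
    exact hy ((sub_eq_zero.1 h0) ▸ hz)
  have hggc : ContinuousOn (gg (pol v0.1) (pol v0.2)) (Gam v0 p ψ s) := fun z hz =>
    (hasDerivAt_gg (gam_it h hs hs' hz).1).continuousAt.continuousWithinAt
  have hc1 : ContinuousOn (fun z => 1 / (x - gg (pol v0.1) (pol v0.2) z)) (Gam v0 p ψ s) := by
    refine continuousOn_const.div (continuousOn_const.sub hggc) ?_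
    intro z hz h0
    exact hgx z hz (sub_eq_zero.1 h0).symm
  have hc2 : ContinuousOn (fun z => η.eval z / (pol v0.2).eval z ^ 2) (Gam v0 p ψ s) := by
    refine η.continuous.continuousOn.div ((pol v0.2).continuous.continuousOn.pow 2) ?_
    intro z hz
    exact pow_ne_zero 2 (gam_it h hs hs' hz).1
  have e1 : LA v0 p ψ s (fun z => dg (pol v0.1) (pol v0.2) z *
      ∑ y ∈ fs (pol v0.1) (pol v0.2) x, (1 / dg (pol v0.1) (pol v0.2) y ^ 2) * (1 / (y - z))) =
      LA v0 p ψ s (fun z => 1 / (x - gg (pol v0.1) (pol v0.2) z) +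
        η.eval z / (pol v0.2).eval z ^ 2) := by
    refine la_congr h hs hs' fun z hz => ?_
    rw [← hl z (gam_it h hs hs' hz).1 (hgx z hz), Finset.mul_sum]
    refine Finset.sum_congr rfl fun y _ => ?_
    simp only [div_eq_mul_inv, mul_inv]
    ring
  rw [la_dg h hs hs', la_add h hs hs' hc1 hc2, la_van h hv hη, add_zero,
    la_gg h hs hs' (g := fun z => 1 / (x - z)) (hcy x hxG)] at e1
  rw [mm_sum h hs hs' _ (fun y => 1 / dg (pol v0.1) (pol v0.2) y ^ 2)
    (g := fun y z => 1 / (y - z)) (fun y hy => hcy y (hyG y hy))] at e1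
  have e2 : QQ v0 p ψ s x = MM v0 p ψ s (fun z => 1 / (x - z)) := rfl
  rw [e2, ← e1]
  refine Finset.sum_congr rfl fun y _ => ?_
  have e3 : QQ v0 p ψ s y = MM v0 p ψ s (fun z => 1 / (y - z)) := rfl
  rw [e3]
  ring

end Pool.Agent.H56.HR
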