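import Pool.Agent.H56.HR.ANB
import Pool.Agent.H61.TT.Fib
import Pool.Agent.H61.TT.Surj
import Pool.Agent.H91.Fatou.Crit
import Pool.Agent.H79.Par.It

/-!
# Module PSI: the rings and their parametrizations

PROOFS. `ev_pol` (H61/TT/Surj): `ev v z = (pol v).eval z`. `psi_gg`: definition of `it`. `psi_hd`: `tr_hasDerivAt` (H32/BT/Trap) and the chain rule, `h.fin`, `h.diff` on the open set `Ann r R`.
`psi_ds`: `psi (j+1) = gg ∘ psi j`, `hasDerivAt_gg` (H61/TT/Fib). `psi_p`, `psi_dp`: `h.rot` on the open set `Ann r R`. `psi_dn`: `deriv ψ w ≠ 0` on `Ann r R` because `ψ` is injective there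
(`h.inj 0 0`, `Pool.Agent.H91.Fatou.not_injOn_of_deriv`); `deriv (psi p) w = l * deriv ψ (l w) ≠ 0` and `deriv (psi p) w` is a multiple of `deriv (psi j) w` for `j ≤ p` (`psi_ds`).
`psi_dg`: from `psi_ds` and `psi_dn (j + 1)`. `psi_open`: open mapping (`AnalyticOnNhd.eventually_constant_or_nhds_le_map_nhds` or `HasStrictDerivAt.map_nhds_eq` with the nonzero derivative).
`psi_loc`: if `psi i w` is close to `psi j w'` .. : `psi j (ball w' ε ∩ Ann)` is an open set containing `psi j w'`, so `z ∈ 𝓝 (psi j w')` has the form `psi j w''` with `w''` near `w'`; injectivity of the family (`h.inj`).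
`gam_it`: `gg` maps `Gam` into itself (`psi_gg`; for `j = p - 1` use `psi_p` and `‖l w‖ = ‖w‖`). `gam_compact`: continuous image of the compact circle, finite union over `j < p`.
-/

set_option autoImplicit false

open Filter Topology Polynomial Metric Set MeasureTheory

namespace Pool.Agent.H56.HR

open Pool.Agent.H44.Fatou Pool.Agent.H32.BT Pool.Agent.H79.Eul Pool.Agent.H79.Par Pool.Agent.H61.TT

variable {d : ℕ} {v0 : E d} {p : ℕ} {l : ℂ} {ψ : ℂ → ℂ} {r R : ℝ}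

theorem psi_zero (v0 : E d) (ψ : ℂ → ℂ) (w : ℂ) : psi v0 ψ 0 w = ψ w := rfl

theorem psi_gg (v0 : E d) (ψ : ℂ → ℂ) (j : ℕ) (w : ℂ) :
    psi v0 ψ (j + 1) w = gg (pol v0.1) (pol v0.2) (psi v0 ψ j w) := by
  show ev v0.1 (it v0 j (ψ w)) / ev v0.2 (it v0 j (ψ w)) = _
  rw [ev_pol, ev_pol]
  rfl

theorem psi_b (h : Ring v0 p l ψ r R) (j : ℕ) {w : ℂ} (hw : w ∈ Ann r R) :
    (pol v0.2).eval (psi v0 ψ j w) ≠ 0 := by
  rw [← ev_pol]
  exact h.fin j w hw

theorem psi_hd (h : Ring v0 p l ψ r R) (j : ℕ) {w : ℂ} (hw : w ∈ Ann r R) :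
    DifferentiableAt ℂ (psi v0 ψ j) w := by
  have h1 : DifferentiableAt ℂ ψ w := h.diff.differentiableAt ((isOpen_Ann r R).mem_nhds hw)
  have h2 : DifferentiableAt ℂ (it v0 j) (ψ w) :=
    (tr_hasDerivAt v0 (ψ w) j fun i _ => h.fin i w hw).differentiableAt
  exact h2.comp w h1

theorem psi_an (h : Ring v0 p l ψ r R) (j : ℕ) {w : ℂ} (hw : w ∈ Ann r R) :
    AnalyticAt ℂ (psi v0 ψ j) w := by
  have h1 : DifferentiableOn ℂ (psi v0 ψ j) (Ann r R) := fun w hw =>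
    (psi_hd h j hw).differentiableWithinAt
  exact h1.analyticAt ((isOpen_Ann r R).mem_nhds hw)

theorem psi_ds (h : Ring v0 p l ψ r R) (j : ℕ) {w : ℂ} (hw : w ∈ Ann r R) :
    deriv (psi v0 ψ (j + 1)) w =
      dg (pol v0.1) (pol v0.2) (psi v0 ψ j w) * deriv (psi v0 ψ j) w := by
  have e : psi v0 ψ (j + 1) = fun w => gg (pol v0.1) (pol v0.2) (psi v0 ψ j w) :=
    funext fun w => psi_gg v0 ψ j w
  rw [e]
  exact ((hasDerivAt_gg (psi_b h j hw)).comp w (psi_hd h j hw).hasDerivAt).deriv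

theorem psi_dp (h : Ring v0 p l ψ r R) {w : ℂ} (hw : w ∈ Ann r R) :
    deriv (psi v0 ψ p) w = l * deriv ψ (l * w) := by
  have e : psi v0 ψ p =ᶠ[𝓝 w] fun w => ψ (l * w) := by
    filter_upwards [(isOpen_Ann r R).mem_nhds hw] with w hw
    exact h.rot w hw
  rw [e.deriv_eq]
  have h1 : HasDerivAt ψ (deriv ψ (l * w)) (l * w) :=
    (h.diff.differentiableAt ((isOpen_Ann r R).mem_nhds (rot_ann h.rotl hw))).hasDerivAt
  have h2 : HasDerivAt (fun w : ℂ => l * w) l w := by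
    have := (hasDerivAt_id w).const_mul l
    rwa [mul_one] at this
  have h3 := (h1.comp w h2).deriv
  have h4 : deriv (fun w => ψ (l * w)) w = deriv ψ (l * w) * l := h3
  rw [h4, mul_comm]

private theorem psi_inj0 (h : Ring v0 p l ψ r R) : InjOn ψ (Ann r R) := fun w hw w' hw' he =>
  (h.inj 0 h.hp 0 h.hp w hw w' hw' he).2

private theorem psi_dn0 (h : Ring v0 p l ψ r R) {w : ℂ} (hw : w ∈ Ann r R) : deriv ψ w ≠ 0 := by
  intro h0
  have h1 : AnalyticAt ℂ ψ w := psi_an h 0 hw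
  exact Pool.Agent.H91.Fatou.not_injOn_of_deriv h1 h0 ((isOpen_Ann r R).mem_nhds hw) (psi_inj0 h)

theorem psi_dn (h : Ring v0 p l ψ r R) {j : ℕ} (hj : j ≤ p) {w : ℂ} (hw : w ∈ Ann r R) :
    deriv (psi v0 ψ j) w ≠ 0 := by
  have hp : deriv (psi v0 ψ p) w ≠ 0 := by
    rw [psi_dp h hw]
    exact mul_ne_zero (rot_ne h.rotl) (psi_dn0 h (rot_ann h.rotl hw))
  have key : ∀ m ≤ p, deriv (psi v0 ψ (p - m)) w ≠ 0 := by
    intro m
    induction m with
    | zero => intro _; exact hp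
    | succ m ih =>
      intro hm h0
      have e : p - m = p - (m + 1) + 1 := by omega
      have h1 := ih (by omega)
      rw [e, psi_ds h _ hw, h0, mul_zero] at h1
      exact h1 rfl
  have h1 := key (p - j) (by omega)
  have e : p - (p - j) = j := by omega
  rwa [e] at h1

theorem psi_dg (h : Ring v0 p l ψ r R) {j : ℕ} (hj : j < p) {w : ℂ} (hw : w ∈ Ann r R) :
    dg (pol v0.1) (pol v0.2) (psi v0 ψ j w) ≠ 0 := by
  have h1 := psi_dn h (j := j + 1) hj hw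
  rw [psi_ds h j hw] at h1
  exact left_ne_zero_of_mul h1

theorem psi_open (h : Ring v0 p l ψ r R) {j : ℕ} (hj : j ≤ p) {U : Set ℂ} (hU : IsOpen U)
    (hs : U ⊆ Ann r R) : IsOpen (psi v0 ψ j '' U) := by
  rw [isOpen_iff_mem_nhds]
  rintro _ ⟨w, hw, rfl⟩
  have h1 : HasStrictDerivAt (psi v0 ψ j) (deriv (psi v0 ψ j) w) w :=
    (psi_an h j (hs hw)).hasStrictDerivAt
  rw [← h1.map_nhds_eq (psi_dn h hj (hs hw))]
  exact image_mem_map (hU.mem_nhds hw)

/-- a sequence in the ring which converges to a point of some ring converges inside -/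
theorem psi_loc (h : Ring v0 p l ψ r R) {j : ℕ} (hj : j < p) {u : ℕ → ℂ} (hu : ∀ n, u n ∈ Ann r R)
    {w : ℂ} (hw : w ∈ Ann r R) (ht : Tendsto (fun n => ψ (u n)) atTop (𝓝 (psi v0 ψ j w))) :
    Tendsto u atTop (𝓝 w) := by
  rw [tendsto_def]
  intro W hW
  obtain ⟨W', hW'W, hW'o, hwW'⟩ := _root_.mem_nhds_iff.1 (inter_mem hW ((isOpen_Ann r R).mem_nhds hw))
  have h1 : psi v0 ψ j '' W' ∈ 𝓝 (psi v0 ψ j w) :=
    (psi_open h hj.le hW'o fun x hx => (hW'W hx).2).mem_nhds ⟨w, hwW', rfl⟩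
  filter_upwards [ht h1] with n hn
  obtain ⟨w', hw', he⟩ := hn
  obtain ⟨-, h3⟩ := h.inj j hj 0 h.hp w' (hW'W hw').2 (u n) (hu n) he
  show u n ∈ W
  rw [← h3]
  exact (hW'W hw').1

theorem gam_it (h : Ring v0 p l ψ r R) {s : ℝ} (hs : r < s) (hs' : s < R) {z : ℂ}
    (hz : z ∈ Gam v0 p ψ s) : (pol v0.2).eval z ≠ 0 ∧ gg (pol v0.1) (pol v0.2) z ∈ Gam v0 p ψ s := by
  obtain ⟨j, hj, w, hw, rfl⟩ := hz
  have hwA : w ∈ Ann r R := ⟨by rw [hw]; exact hs, by rw [hw]; exact hs'⟩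
  refine ⟨psi_b h j hwA, ?_⟩
  rw [← psi_gg]
  rcases Nat.lt_or_ge (j + 1) p with hjp | hjp
  · exact ⟨j + 1, hjp, w, hw, rfl⟩
  · have hjp' : j + 1 = p := by omega
    rw [hjp', h.rot w hwA]
    exact ⟨0, h.hp, l * w, by rw [rot_norm h.rotl, hw], rfl⟩

theorem gam_compact (h : Ring v0 p l ψ r R) {s : ℝ} (hs : r < s) (hs' : s < R) :
    IsCompact (Gam v0 p ψ s) := by
  have he : Gam v0 p ψ s = ⋃ j ∈ Finset.range p, psi v0 ψ j '' sphere 0 s := by
    ext z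
    simp only [Set.mem_iUnion]
    constructor
    · rintro ⟨j, hj, w, hw, rfl⟩
      exact ⟨j, Finset.mem_range.2 hj, w, mem_sphere_zero_iff_norm.2 hw, rfl⟩
    · rintro ⟨j, hj, w, hw, rfl⟩
      exact ⟨j, Finset.mem_range.1 hj, w, mem_sphere_zero_iff_norm.1 hw, rfl⟩
  rw [he]
  refine (Finset.range p).isCompact_biUnion fun j _ => ?_
  refine (isCompact_sphere (0 : ℂ) s).image_of_continuousOn ?_
  intro w hw
  have hw' := mem_sphere_zero_iff_norm.1 hw
  exact (psi_hd h j ⟨by rw [hw']; exact hs, by rw [hw']; exact hs'⟩).continuousAt.continuousWithinAt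

end Pool.Agent.H56.HR
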