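import Pool.Agent.H56.HR.PSH
import Pool.Agent.H56.HR.GPO

/-!
# Module QFN: the potential `QQ` is measurable, integrable and holomorphic outside the curves

PROOF. `qq_gpo`: unfold `QQ`, `MM`, `Real.circleAverage` (`Real.circleAverage_def`: `(2π)⁻¹ • ∫ t in 0..2π, F (circleMap 0 s t)`), with
`c j t = (2π)⁻¹ / (circleMap 0 s t * deriv (psi j) (circleMap 0 s t))`, `φ j t = psi j (circleMap 0 s t)`. If `x ∉ Gam` all integrals of the summands exist (continuous) and the integral of the sum is the sum of the integrals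
(`intervalIntegral.integral_finset_sum`). `Gam` is a null set (`gam_null`: it is a finite union of images of the real line under smooth maps; or: it is contained in the union of `psi j '' (sphere 0 s)`, `sphere 0 s` is null
(`Measure.addHaar_sphere`) and differentiable maps send null sets to null sets (`MeasureTheory.addHaar_image_eq_zero_of_differentiableOn_of_addHaar_eq_zero`)). `qq_aem`: `AEMeasurable` since it agrees with `gpo` outside
`Gam`. `qq_an`: `Gam` is closed (`gam_compact`), so `QQ` agrees with `gpo` near `x`, `gpo_an` (`x ≠ φ j t` for all real `t`). `qq_fin`: `gpo_fin` with `mom0`, `mom1`.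
-/

set_option autoImplicit false

open Filter Topology Polynomial Metric Set MeasureTheory

namespace Pool.Agent.H56.HR

open Pool.Agent.H44.Fatou Pool.Agent.H32.BT Pool.Agent.H79.Eul Pool.Agent.H79.Par Pool.Agent.H61.TT

variable {d : ℕ} {v0 : E d} {p : ℕ} {l : ℂ} {ψ : ℂ → ℂ} {r R : ℝ}

private theorem qfn_ann (h : Ring v0 p l ψ r R) {s : ℝ} (hs : r < s) (hs' : s < R) (t : ℝ) :
    circleMap 0 s t ∈ Ann r R := circ_ann (h.hr.trans hs).le hs hs' t

private theorem qfn_gam (h : Ring v0 p l ψ r R) {s : ℝ} (hs : r < s) {j : ℕ} (hj : j < p)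
    (t : ℝ) : psi v0 ψ j (circleMap 0 s t) ∈ Gam v0 p ψ s :=
  ⟨j, hj, circleMap 0 s t, circ_norm (h.hr.trans hs).le t, rfl⟩

private theorem qfn_phi (h : Ring v0 p l ψ r R) {s : ℝ} (hs : r < s) (hs' : s < R) (j : ℕ) :
    Continuous (fun t => psi v0 ψ j (circleMap 0 s t)) := by
  rw [continuous_iff_continuousAt]
  intro t
  exact ContinuousAt.comp (f := fun t => circleMap 0 s t) (g := psi v0 ψ j)
    (psi_hd h j (qfn_ann h hs hs' t)).continuousAt (continuous_circleMap 0 s).continuousAt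

private theorem qfn_c (h : Ring v0 p l ψ r R) {s : ℝ} (hs : r < s) (hs' : s < R) {j : ℕ}
    (hj : j < p) : Continuous (fun t => ((2 * Real.pi : ℝ) : ℂ)⁻¹ /
      (circleMap 0 s t * deriv (psi v0 ψ j) (circleMap 0 s t))) := by
  rw [continuous_iff_continuousAt]
  intro t
  have hw := qfn_ann h hs hs' t
  have h1 : ContinuousAt (fun t => circleMap 0 s t) t := (continuous_circleMap 0 s).continuousAt
  have h2 : ContinuousAt (fun t => deriv (psi v0 ψ j) (circleMap 0 s t)) t :=
    ContinuousAt.comp (f := fun t => circleMap 0 s t) (g := deriv (psi v0 ψ j))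
      (psi_an h j hw).deriv.continuousAt h1
  refine continuousAt_const.div (h1.mul h2) (mul_ne_zero ?_ (psi_dn h hj.le hw))
  exact circleMap_ne_center (h.hr.trans hs).ne'

/-- the functional as an integral over the parameter -/
private theorem qfn_mm (h : Ring v0 p l ψ r R) {s : ℝ} (hs : r < s) (hs' : s < R) {g : ℂ → ℂ}
    (hg : ContinuousOn g (Gam v0 p ψ s)) : MM v0 p ψ s g =
      ∑ j ∈ Finset.range p, ∫ t in (0 : ℝ)..(2 * Real.pi), ((2 * Real.pi : ℝ) : ℂ)⁻¹ /
        (circleMap 0 s t * deriv (psi v0 ψ j) (circleMap 0 s t)) *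
          g (psi v0 ψ j (circleMap 0 s t)) := by
  unfold MM
  rw [Real.circleAverage_def, ← intervalIntegral.integral_smul,
    ← intervalIntegral.integral_finsetSum]
  · refine intervalIntegral.integral_congr fun t _ => ?_
    show (2 * Real.pi)⁻¹ • (∑ j ∈ Finset.range p, g (psi v0 ψ j (circleMap 0 s t)) /
      (circleMap 0 s t * deriv (psi v0 ψ j) (circleMap 0 s t))) = _
    rw [Finset.smul_sum]
    refine Finset.sum_congr rfl fun j _ => ?_
    rw [Complex.real_smul, Complex.ofReal_inv]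
    ring
  · intro j hj
    have hj' := Finset.mem_range.1 hj
    refine Continuous.intervalIntegrable ((qfn_c h hs hs' hj').mul ?_) _ _
    exact hg.comp_continuous (qfn_phi h hs hs' j) (fun t => qfn_gam h hs hj' t)

theorem gam_null (h : Ring v0 p l ψ r R) {s : ℝ} (hs : r < s) (hs' : s < R) :
    volume (Gam v0 p ψ s) = 0 := by
  have h1 : Gam v0 p ψ s ⊆ ⋃ j ∈ Finset.range p, psi v0 ψ j '' (sphere (0 : ℂ) s) := by
    rintro z ⟨j, hj, w, hw, rfl⟩
    rw [mem_iUnion₂]
    exact ⟨j, Finset.mem_range.2 hj, w, by rw [mem_sphere_zero_iff_norm]; exact hw, rfl⟩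
  refine measure_mono_null h1 ?_
  refine (measure_biUnion_null_iff (Finset.countable_toSet (Finset.range p))).2 ?_
  intro j _
  refine addHaar_image_eq_zero_of_differentiableOn_of_addHaar_eq_zero volume ?_
    (Measure.addHaar_sphere volume 0 s)
  intro w hw
  have hw' : w ∈ Ann r R := by
    rw [mem_sphere_zero_iff_norm] at hw
    unfold Ann
    rw [mem_ofPred_eq, hw]
    exact ⟨hs, hs'⟩
  exact ((psi_hd h j hw').restrictScalars ℝ).differentiableWithinAt

/-- a measurable version of the potential -/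
theorem qq_gpo (h : Ring v0 p l ψ r R) {s : ℝ} (hs : r < s) (hs' : s < R) :
    ∃ c φ : ℕ → ℝ → ℂ, (∀ j < p, Continuous (c j)) ∧ (∀ j < p, Continuous (φ j)) ∧
      (∀ j < p, ∀ t, φ j t ∈ Gam v0 p ψ s) ∧
      (∀ x ∉ Gam v0 p ψ s, QQ v0 p ψ s x = gpo p c φ x) ∧
      (∑ j ∈ Finset.range p, ∫ t in (0 : ℝ)..(2 * Real.pi), c j t = MM v0 p ψ s (fun _ => 1)) ∧
      (∑ j ∈ Finset.range p, ∫ t in (0 : ℝ)..(2 * Real.pi), c j t * φ j t =
        MM v0 p ψ s (fun z => z)) := by
  refine ⟨fun j t => ((2 * Real.pi : ℝ) : ℂ)⁻¹ /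
      (circleMap 0 s t * deriv (psi v0 ψ j) (circleMap 0 s t)),
    fun j t => psi v0 ψ j (circleMap 0 s t), fun j hj => qfn_c h hs hs' hj,
    fun j _ => qfn_phi h hs hs' j, fun j hj t => qfn_gam h hs hj t, ?_, ?_, ?_⟩
  · intro x hx
    unfold QQ gpo
    rw [qfn_mm h hs hs']
    · refine Finset.sum_congr rfl fun j _ => intervalIntegral.integral_congr fun t _ => ?_
      show _ * (1 / (x - psi v0 ψ j (circleMap 0 s t))) = _ / (x - psi v0 ψ j (circleMap 0 s t))
      rw [mul_one_div]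
    · refine continuousOn_const.div (continuousOn_const.sub continuousOn_id) ?_
      intro y hy h0
      rw [sub_eq_zero] at h0
      exact hx (by rw [h0]; exact hy)
  · rw [qfn_mm h hs hs' continuousOn_const]
    refine Finset.sum_congr rfl fun j _ => intervalIntegral.integral_congr fun t _ => ?_
    exact (mul_one _).symm
  · exact (qfn_mm h hs hs' (g := fun z => z) continuousOn_id).symm

theorem qq_an (h : Ring v0 p l ψ r R) {s : ℝ} (hs : r < s) (hs' : s < R) {x : ℂ}
    (hx : x ∉ Gam v0 p ψ s) : AnalyticAt ℂ (QQ v0 p ψ s) x := by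
  obtain ⟨c, φ, hc, hφ, hG, hq, _, _⟩ := qq_gpo h hs hs'
  have h1 : AnalyticAt ℂ (gpo p c φ) x := gpo_an hc hφ fun j hj t h0 => hx (by
    rw [h0]
    exact hG j hj t)
  refine h1.congr ?_
  have h2 : (Gam v0 p ψ s)ᶜ ∈ 𝓝 x := (gam_compact h hs hs').isClosed.isOpen_compl.mem_nhds hx
  filter_upwards [h2] with y hy
  exact (hq y hy).symm

/-- there is a measurable function which agrees with the potential outside the curves, is integrable and invariant -/
theorem qq_ver (h : Ring v0 p l ψ r R) {s : ℝ} (hs : r < s) (hs' : s < R)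
    (hv : ∀ u : E d, LA v0 p ψ s (xi v0 u) = 0) :
    ∃ q : ℂ → ℂ, Measurable q ∧ (∀ x ∉ Gam v0 p ψ s, q x = QQ v0 p ψ s x) ∧
      ∫⁻ x, ‖q x‖ₑ ≠ ⊤ ∧
      ∀ᵐ x : ℂ, q x = ∑ y ∈ fs (pol v0.1) (pol v0.2) x, q y / dg (pol v0.1) (pol v0.2) y ^ 2 := by
  obtain ⟨c, φ, hc, hφ, hG, hq, h0, h1⟩ := qq_gpo h hs hs'
  refine ⟨gpo p c φ, gpo_meas hc hφ, fun x hx => (hq x hx).symm, gpo_fin hc hφ ?_ ?_, ?_⟩
  · rw [h0]
    exact mom0 h hs hs' hv
  · rw [h1]
    exact mom1 h hs hs' hv
  · have h2 : ∀ᵐ x : ℂ, RegV d (pol v0.1) (pol v0.2) x := (reg_finite h.rat).measure_zero volume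
    have h3 : ∀ᵐ x : ℂ, x ∉ Gam v0 p ψ s := by
      rw [ae_iff]
      have h4 : {x : ℂ | ¬ x ∉ Gam v0 p ψ s} = Gam v0 p ψ s := by
        ext x
        rw [mem_ofPred_eq, not_not]
      rw [h4]
      exact gam_null h hs hs'
    filter_upwards [h2, h3] with x hx hxG
    rw [← hq x hxG, psh h hs hs' hv hx hxG]
    refine Finset.sum_congr rfl fun y hy => ?_
    rw [hq y]
    intro hyG
    have h4 := (mem_fs h.rat x y).1 hy
    have h5 := (gam_it h hs hs' hyG).2
    rw [h4.2] at h5
    exact hxG h5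

end Pool.Agent.H56.HR
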