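import Pool.Agent.H56.HR.ZRB

/-!
# Module ZER: the constants vanish

PROOF. Choose `r' < s1 < s2 < R'`; `hκ` holds on `Ann s1 s2 ⊆ Ann r' R'`. `zrb` gives `ε`, `N`, `n`; by `zra2` `QQ = 0` at almost every point of `N`; `QQ` is analytic on `ball z0 ε` (`qq_an`, no point of the ball is in `Gam`), so it vanishes on `N` (a continuous function which vanishes
almost everywhere on an open set vanishes on it: `Continuous.ae_eq_iff_eq`-type lemma on the open set, `MeasureTheory.Measure.eqOn_open_of_ae_eq`), and on the whole ball by the identity theorem (`AnalyticOnNhd.eqOn_zero_of_preconnected_of_eventuallyEq_zero`). For `n` large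
`ψ (u n) ∈ ball z0 ε`, so `κ = hh 0 (u n) = QQ (ψ (u n)) * (..)^2 = 0`.
-/

set_option autoImplicit false

open Filter Topology Polynomial Metric Set MeasureTheory

namespace Pool.Agent.H56.HR

open Pool.Agent.H44.Fatou Pool.Agent.H32.BT Pool.Agent.H79.Eul Pool.Agent.H79.Par Pool.Agent.H61.TT

variable {d : ℕ} {v0 : E d} {p : ℕ} {l : ℂ} {ψ : ℂ → ℂ} {r R : ℝ}

theorem zer (h : Ring v0 p l ψ r R) {s : ℝ} (hs : r < s) (hs' : s < R)
    (hv : ∀ u : E d, LA v0 p ψ s (xi v0 u) = 0) {r' R' : ℝ} (h1 : r ≤ r') (h2 : R' ≤ R) (h3 : r' < R')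
    {κ : ℂ} (hκ : ∀ i ≤ p, ∀ w ∈ Ann r' R', hh v0 p ψ s i w = κ) {u : ℕ → ℂ}
    (hu : ∀ n, u n ∈ Ann r' R') {z0 : ℂ} (hz0 : Tendsto (fun n => ψ (u n)) atTop (𝓝 z0))
    (hnot : ∀ j < p, ∀ w ∈ Ann r R, psi v0 ψ j w ≠ z0) (hJ : JP v0 z0) : κ = 0 := by
  obtain ⟨s1, hs1, hs1'⟩ := exists_between h3
  obtain ⟨s2, hs2, hs2'⟩ := exists_between hs1'
  have hκ' : ∀ i ≤ p, ∀ w ∈ Ann s1 s2, hh v0 p ψ s i w = κ := fun i hi w hw =>
    hκ i hi w ⟨hs1.trans hw.1, hw.2.trans hs2'⟩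
  obtain ⟨ε, hε, hG, N, hNo, hNn, hNs, n, hN⟩ := zrb h hs hs' (s1 := s1) (s2 := s2)
    (by linarith) hs2 (by linarith) hnot hJ
  have hae := zra2 h hs hs' hv (s1 := s1) (s2 := s2) (by linarith) (by linarith) hκ'
  have han : AnalyticOnNhd ℂ (QQ v0 p ψ s) (ball z0 ε) := fun z hz => qq_an h hs hs' (hG z hz)
  obtain ⟨y0, hy0⟩ := hNn
  -- the potential vanishes on `N`
  have hzero : ∀ y ∈ N, QQ v0 p ψ s y = 0 := by
    intro y hy
    by_contra hne
    have hc : ContinuousAt (QQ v0 p ψ s) y := (han y (hNs hy)).continuousAt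
    have h4 : ∀ᶠ z in 𝓝 y, QQ v0 p ψ s z ≠ 0 := hc.eventually_ne hne
    obtain ⟨W, hW1, hW2, hW3⟩ := _root_.eventually_nhds_iff.1 (h4.and (hNo.mem_nhds hy))
    have h5 : volume W = 0 := by
      refine measure_mono_null ?_ (ae_iff.1 hae)
      intro z hz hcon
      obtain ⟨h6, h7⟩ := hW1 z hz
      obtain ⟨h8, h9, h10⟩ := hN z h7
      exact h6 (hcon n h8 h9 h10)
    exact (hW2.measure_pos volume ⟨y, hW3⟩).ne' h5
  have hev : QQ v0 p ψ s =ᶠ[𝓝 y0] 0 := by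
    filter_upwards [hNo.mem_nhds hy0] with y hy
    exact hzero y hy
  have hall := han.eqOn_zero_of_preconnected_of_eventuallyEq_zero
    (convex_ball z0 ε).isPreconnected (hNs hy0) hev
  obtain ⟨n1, hn1⟩ := (hz0.eventually (ball_mem_nhds z0 hε)).exists
  have h4 : QQ v0 p ψ s (ψ (u n1)) = 0 := hall hn1
  have h5 := hκ 0 (Nat.zero_le _) (u n1) (hu n1)
  unfold hh at h5
  rw [psi_zero, h4, zero_mul] at h5
  exact h5.symm

end Pool.Agent.H56.HR
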