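import Pool.Agent.H56.HR.HHI

/-!
# Module ZRA: the potential vanishes on the other preimages of the rings

PROOFS. Let `a = pol v0.1`, `b = pol v0.2`, `q = QQ`, `V = VV` the union of the images `psi i '' Ann s1 s2`, `i < p`. `vv_pre`: every `x ∈ V` has a preimage `y0 ∈ V`, `b y0 ≠ 0`, `gg y0 = x`, with `q y0 / dg y0 ^ 2 = q x`: if `x = psi (i+1) w` take `y0 = psi i w`,
if `x = psi 0 w` take `w' = l⁻¹ w` (`‖w'‖ = ‖w‖`), `x = psi p w'`, `y0 = psi (p-1) w'`. `q (psi i w) (w psi_i')^2 = κ = q (psi (i+1) w) (w psi_(i+1)')^2` (`hκ`) and `psi_(i+1)' = dg psi_i'` (`psi_ds`, `psi_dn`).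
`zra1`: for almost every `x` `al_sum` holds: if `x ∈ V`, `∑ y ∈ fs, ‖q y / dg y^2‖ = ‖q x‖ = ‖q y0 / dg y0 ^ 2‖`, so the other terms vanish: for `y ∈ fs a b x`, `y ≠ y0`: `q y / dg y ^ 2 = 0`. For almost every `y`, `b y ≠ 0`: `x = gg y` is
good (`null_pre`), `dg y ≠ 0` (`ae_ww`, `dg_ne`), so `gg y ∈ V`, `y ∉ V` imply `y ≠ y0` and `q y = 0`.
`zra2`: for almost every `y`, for all `n`: if `b (it v0 j y) ≠ 0` for `j < n` then `it v0 n y` is a good point for `al_y` and `zra1` (induction on `n` with `null_pre`; compare `al_it` in H44/RR/AL2). Then `q (it v0 n y) = 0` by `zra1`, and by `al_y`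
`q (it v0 (j+1) y) = 0` implies `q (it v0 j y) = 0`; descend to `j = 0`.
-/

set_option autoImplicit false

open Filter Topology Polynomial Metric Set MeasureTheory

namespace Pool.Agent.H56.HR

open Pool.Agent.H44.Fatou Pool.Agent.H32.BT Pool.Agent.H79.Eul Pool.Agent.H79.Par Pool.Agent.H61.TT

variable {d : ℕ} {v0 : E d} {p : ℕ} {l : ℂ} {ψ : ℂ → ℂ} {r R : ℝ}

/-- the union of the images of a smaller annulus -/
def VV {d : ℕ} (v0 : E d) (p : ℕ) (ψ : ℂ → ℂ) (s1 s2 : ℝ) : Set ℂ :=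
  {z | ∃ j < p, ∃ w ∈ Ann s1 s2, z = psi v0 ψ j w}

private theorem zra_step (h : Ring v0 p l ψ r R) {s s1 s2 : ℝ} (h1 : r ≤ s1) (h2 : s2 ≤ R) {κ : ℂ}
    (hκ : ∀ i ≤ p, ∀ w ∈ Ann s1 s2, hh v0 p ψ s i w = κ) {i : ℕ} (hi : i < p) {w : ℂ}
    (hw : w ∈ Ann s1 s2) :
    psi v0 ψ i w ∈ fs (pol v0.1) (pol v0.2) (psi v0 ψ (i + 1) w) ∧
      QQ v0 p ψ s (psi v0 ψ i w) / dg (pol v0.1) (pol v0.2) (psi v0 ψ i w) ^ 2 =
        QQ v0 p ψ s (psi v0 ψ (i + 1) w) := by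
  have hwA : w ∈ Ann r R := ⟨h1.trans_lt hw.1, hw.2.trans_le h2⟩
  refine ⟨(mem_fs h.rat _ _).2 ⟨psi_b h i hwA, (psi_gg v0 ψ i w).symm⟩, ?_⟩
  have e1 := hκ i hi.le w hw
  have e2 := hκ (i + 1) hi w hw
  unfold hh at e1 e2
  rw [psi_ds h i hwA] at e2
  have hdg := psi_dg h hi hwA
  have hdn := psi_dn h hi.le hwA
  have hw0 : w ≠ 0 := by
    intro h0
    have h3 := hwA.1
    rw [h0, norm_zero] at h3
    linarith [h.hr]
  have hne : (w * deriv (psi v0 ψ i) w) ^ 2 ≠ 0 := pow_ne_zero 2 (mul_ne_zero hw0 hdn)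
  rw [div_eq_iff (pow_ne_zero 2 hdg)]
  apply mul_right_cancel₀ hne
  rw [e1, ← e2]
  ring

theorem vv_pre (h : Ring v0 p l ψ r R) {s s1 s2 : ℝ} (h1 : r ≤ s1) (h2 : s2 ≤ R) {κ : ℂ}
    (hκ : ∀ i ≤ p, ∀ w ∈ Ann s1 s2, hh v0 p ψ s i w = κ) {x : ℂ} (hx : x ∈ VV v0 p ψ s1 s2) :
    ∃ y ∈ VV v0 p ψ s1 s2, y ∈ fs (pol v0.1) (pol v0.2) x ∧
      QQ v0 p ψ s y / dg (pol v0.1) (pol v0.2) y ^ 2 = QQ v0 p ψ s x := by
  obtain ⟨j, hj, w, hw, rfl⟩ := hx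
  cases j with
  | zero =>
    obtain ⟨w', hw'⟩ : ∃ w' : ℂ, w' = l⁻¹ * w := ⟨_, rfl⟩
    have hl0 := rot_ne h.rotl
    have hlw : l * w' = w := by
      rw [hw', mul_inv_cancel_left₀ hl0]
    have hn : ‖w'‖ = ‖w‖ := by
      rw [← rot_norm h.rotl w', hlw]
    have hw'A : w' ∈ Ann s1 s2 := by
      refine ⟨?_, ?_⟩
      · rw [hn]; exact hw.1
      · rw [hn]; exact hw.2
    have hw'R : w' ∈ Ann r R := ⟨h1.trans_lt hw'A.1, hw'A.2.trans_le h2⟩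
    have hp := h.hp
    obtain ⟨e1, e2⟩ := zra_step h h1 h2 hκ (i := p - 1) (by omega) hw'A
    have hpp : p - 1 + 1 = p := by omega
    rw [hpp, h.rot w' hw'R, hlw] at e1 e2
    exact ⟨_, ⟨p - 1, by omega, w', hw'A, rfl⟩, e1, e2⟩
  | succ j =>
    obtain ⟨e1, e2⟩ := zra_step h h1 h2 hκ (i := j) (by omega) hw
    exact ⟨_, ⟨j, by omega, w, hw, rfl⟩, e1, e2⟩

theorem zra1 (h : Ring v0 p l ψ r R) {s : ℝ} (hs : r < s) (hs' : s < R)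
    (hv : ∀ u : E d, LA v0 p ψ s (xi v0 u) = 0) {s1 s2 : ℝ} (h1 : r ≤ s1) (h2 : s2 ≤ R) {κ : ℂ}
    (hκ : ∀ i ≤ p, ∀ w ∈ Ann s1 s2, hh v0 p ψ s i w = κ) :
    ∀ᵐ y : ℂ, (pol v0.2).eval y ≠ 0 → gg (pol v0.1) (pol v0.2) y ∈ VV v0 p ψ s1 s2 →
      y ∉ VV v0 p ψ s1 s2 → QQ v0 p ψ s y = 0 := by
  have hal := al_sum h hs hs' hv
  have h3 := null_pre h.rat (ae_iff.1 hal)
  filter_upwards [measure_eq_zero_iff_ae_notMem.1 h3, ae_ww h.rat] with y hy1 hyw hb hg hyV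
  have hy1' : ¬ ¬ _ := fun hn => hy1 ⟨hb, hn⟩
  have hsum := not_not.1 hy1'
  obtain ⟨y0, hy0V, hy0f, hy0⟩ := vv_pre h (s := s) h1 h2 hκ hg
  have hne : y ≠ y0 := fun he => hyV (he ▸ hy0V)
  have hyf : y ∈ fs (pol v0.1) (pol v0.2) (gg (pol v0.1) (pol v0.2) y) :=
    (mem_fs h.rat _ _).2 ⟨hb, rfl⟩
  rw [← Finset.add_sum_erase _ _ hy0f, hy0] at hsum
  have hz : ∑ y ∈ (fs (pol v0.1) (pol v0.2) (gg (pol v0.1) (pol v0.2) y)).erase y0,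
      ‖QQ v0 p ψ s y / dg (pol v0.1) (pol v0.2) y ^ 2‖ = 0 := by linarith
  have h4 := (Finset.sum_eq_zero_iff_of_nonneg (fun _ _ => norm_nonneg _)).1 hz y
    (Finset.mem_erase.2 ⟨hne, hyf⟩)
  have hdg : dg (pol v0.1) (pol v0.2) y ≠ 0 := (dg_ne hb).2 hyw
  rw [norm_eq_zero, div_eq_zero_iff] at h4
  rcases h4 with h4 | h4
  · exact h4
  · exact absurd h4 (pow_ne_zero 2 hdg)

theorem zra2 (h : Ring v0 p l ψ r R) {s : ℝ} (hs : r < s) (hs' : s < R)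
    (hv : ∀ u : E d, LA v0 p ψ s (xi v0 u) = 0) {s1 s2 : ℝ} (h1 : r ≤ s1) (h2 : s2 ≤ R) {κ : ℂ}
    (hκ : ∀ i ≤ p, ∀ w ∈ Ann s1 s2, hh v0 p ψ s i w = κ) :
    ∀ᵐ y : ℂ, ∀ n : ℕ, (∀ j ≤ n, ev v0.2 (it v0 j y) ≠ 0) → it v0 (n + 1) y ∈ VV v0 p ψ s1 s2 →
      it v0 n y ∉ VV v0 p ψ s1 s2 → QQ v0 p ψ s y = 0 := by
  have hboth := (al_y h hs hs' hv).and (zra1 h hs hs' hv h1 h2 hκ)
  obtain ⟨G, hG⟩ : ∃ G : Set ℂ, G = {y | ¬ (((pol v0.2).eval y ≠ 0 → ∃ ρ : ℝ, 0 ≤ ρ ∧ ρ ≤ 1 ∧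
      QQ v0 p ψ s y = (ρ : ℂ) * (dg (pol v0.1) (pol v0.2) y ^ 2 *
        QQ v0 p ψ s (gg (pol v0.1) (pol v0.2) y))) ∧ ((pol v0.2).eval y ≠ 0 →
      gg (pol v0.1) (pol v0.2) y ∈ VV v0 p ψ s1 s2 → y ∉ VV v0 p ψ s1 s2 → QQ v0 p ψ s y = 0))} :=
    ⟨_, rfl⟩
  have hG0 : volume G = 0 := by
    rw [hG]
    exact hboth
  have hgg : ∀ z : ℂ, it v0 1 z = gg (pol v0.1) (pol v0.2) z := by
    intro z
    show ev v0.1 z / ev v0.2 z = _
    rw [ev_pol, ev_pol]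
    rfl
  have hT : ∀ n : ℕ, volume {y : ℂ | (∀ j < n, ev v0.2 (it v0 j y) ≠ 0) ∧ it v0 n y ∈ G} = 0 := by
    intro n
    induction n with
    | zero =>
      refine measure_mono_null ?_ hG0
      rintro y ⟨-, hy⟩
      exact hy
    | succ n ih =>
      refine measure_mono_null ?_ (null_pre h.rat ih)
      rintro y ⟨hy1, hy2⟩
      have e : ∀ j, it v0 j (gg (pol v0.1) (pol v0.2) y) = it v0 (j + 1) y := by
        intro j
        rw [it_add, hgg]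
      refine ⟨?_, ?_, ?_⟩
      · have h3 := hy1 0 (Nat.succ_pos n)
        rw [ev_pol] at h3
        exact h3
      · intro j hj
        rw [e]
        exact hy1 (j + 1) (by omega)
      · rw [e]
        exact hy2
  have hall : ∀ᵐ y : ℂ, ∀ n : ℕ, y ∉ {y : ℂ | (∀ j < n, ev v0.2 (it v0 j y) ≠ 0) ∧ it v0 n y ∈ G} := by
    rw [ae_all_iff]
    intro n
    exact measure_eq_zero_iff_ae_notMem.1 (hT n)
  filter_upwards [hall] with y hy n hpole hin hout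
  have hgood : ∀ k ≤ n, it v0 k y ∉ G := fun k hk hkG =>
    hy k ⟨fun j hj => hpole j (by omega), hkG⟩
  have hgg2 : ∀ k, gg (pol v0.1) (pol v0.2) (it v0 k y) = it v0 (k + 1) y := by
    intro k
    rw [← hgg, ← it_add, Nat.add_comm]
  have hbk : ∀ k ≤ n, (pol v0.2).eval (it v0 k y) ≠ 0 := by
    intro k hk
    rw [← ev_pol]
    exact hpole k hk
  have hstart : QQ v0 p ψ s (it v0 n y) = 0 := by
    have h3 := hgood n le_rfl
    rw [hG] at h3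
    have h4 := (not_not.1 h3).2 (hbk n le_rfl)
    rw [hgg2] at h4
    exact h4 hin hout
  have hdesc : ∀ m ≤ n, QQ v0 p ψ s (it v0 (n - m) y) = 0 := by
    intro m
    induction m with
    | zero => intro _; exact hstart
    | succ m ih =>
      intro hm
      have h3 := hgood (n - (m + 1)) (by omega)
      rw [hG] at h3
      obtain ⟨ρ, -, -, h4⟩ := (not_not.1 h3).1 (hbk _ (by omega))
      have e : n - (m + 1) + 1 = n - m := by omega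
      rw [h4, hgg2, e, ih (by omega), mul_zero, mul_zero]
  have h5 := hdesc n le_rfl
  rw [Nat.sub_self] at h5
  exact h5

end Pool.Agent.H56.HR
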