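import Pool.Agent.H56.HR.ZRA

/-!
# Module ZRB: near a limit point outside the rings the first entrance is stable

PROOFS. `vv_open`: `psi_open`. `vv_cl`: the closure of `VV s1 s2` is contained in the compact set `{psi j w | j < p, w ∈ CAn s1 s2}`, and the points of this set outside `VV` are the `psi j w` with `‖w‖ = s1` or `‖w‖ = s2`, which are mapped by `gg` to points of the
same kind (`psi_gg`, `h.rot`), which are not in `VV` (`h.inj`). `zrb`: choose `ε` small: `ball z0 ε` does not meet this compact set nor `Gam v0 p ψ s` (`z0` is not in the rings). By `JP` with `V = VV s1 s2` (open, nonempty) there are `y ∈ ball z0 ε` and `m` with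
no poles before `m` and `it v0 m y ∈ VV`; take the smallest such `m` for this `y`: `m ≠ 0` (`y ∉ VV`), `m = n + 1`, `it v0 n y ∉ VV`. By `vv_cl` `it v0 n y` is not in the compact set (otherwise its image `it v0 (n+1) y` would not be in `VV`). So for `y'` near `y` by
continuity of `it v0 j` (`tr_hasDerivAt`; also `ev v0.2 (it v0 n y) ≠ 0`: choose `y` with no poles before `n + 1`): no poles for `j ≤ n`, `it v0 (n+1) y' ∈ VV`, `it v0 n y' ∉ VV`.
-/

set_option autoImplicit false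

open Filter Topology Polynomial Metric Set MeasureTheory

namespace Pool.Agent.H56.HR

open Pool.Agent.H44.Fatou Pool.Agent.H32.BT Pool.Agent.H79.Eul Pool.Agent.H79.Par Pool.Agent.H61.TT

variable {d : ℕ} {v0 : E d} {p : ℕ} {l : ℂ} {ψ : ℂ → ℂ} {r R : ℝ}

theorem vv_open (h : Ring v0 p l ψ r R) {s1 s2 : ℝ} (h1 : r ≤ s1) (h2 : s2 ≤ R) :
    IsOpen (VV v0 p ψ s1 s2) := by
  have he : VV v0 p ψ s1 s2 = ⋃ j ∈ Finset.range p, psi v0 ψ j '' Ann s1 s2 := by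
    ext z
    simp only [Set.mem_iUnion]
    constructor
    · rintro ⟨j, hj, w, hw, rfl⟩
      exact ⟨j, Finset.mem_range.2 hj, w, hw, rfl⟩
    · rintro ⟨j, hj, w, hw, rfl⟩
      exact ⟨j, Finset.mem_range.1 hj, w, hw, rfl⟩
  rw [he]
  refine isOpen_biUnion fun j hj => ?_
  refine psi_open h (Finset.mem_range.1 hj).le (isOpen_Ann s1 s2) ?_
  intro w hw
  exact ⟨h1.trans_lt hw.1, hw.2.trans_le h2⟩

private theorem zrb_cont (v0 : E d) {y : ℂ} {n : ℕ} (hy : ∀ j < n, ev v0.2 (it v0 j y) ≠ 0) {j : ℕ}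
    (hj : j ≤ n) : ContinuousAt (it v0 j) y :=
  (tr_hasDerivAt v0 y j fun i hi => hy i (by omega)).continuousAt

theorem zrb (h : Ring v0 p l ψ r R) {s : ℝ} (hs : r < s) (hs' : s < R) {s1 s2 : ℝ} (h1 : r < s1)
    (h12 : s1 < s2) (h2 : s2 < R) {z0 : ℂ} (hnot : ∀ j < p, ∀ w ∈ Ann r R, psi v0 ψ j w ≠ z0)
    (hJ : JP v0 z0) : ∃ ε : ℝ, 0 < ε ∧ (∀ z ∈ ball z0 ε, z ∉ Gam v0 p ψ s) ∧
      ∃ N : Set ℂ, IsOpen N ∧ N.Nonempty ∧ N ⊆ ball z0 ε ∧ ∃ n : ℕ, ∀ y ∈ N,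
        (∀ j ≤ n, ev v0.2 (it v0 j y) ≠ 0) ∧ it v0 (n + 1) y ∈ VV v0 p ψ s1 s2 ∧
          it v0 n y ∉ VV v0 p ψ s1 s2 := by
  obtain ⟨K, hK⟩ : ∃ K : Set ℂ, K = ⋃ j ∈ Finset.range p, psi v0 ψ j '' CAn s1 s2 := ⟨_, rfl⟩
  have hsub : CAn s1 s2 ⊆ Ann r R := can_sub h1 h2
  have hKc : IsCompact K := by
    rw [hK]
    refine (Finset.range p).isCompact_biUnion fun j _ => ?_
    refine (isCompact_CAn s1 s2).image_of_continuousOn ?_
    intro w hw
    exact (psi_hd h j (hsub hw)).continuousAt.continuousWithinAt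
  have hmem : ∀ z, z ∈ K ↔ ∃ j < p, ∃ w ∈ CAn s1 s2, z = psi v0 ψ j w := by
    intro z
    rw [hK]
    simp only [Set.mem_iUnion]
    constructor
    · rintro ⟨j, hj, w, hw, rfl⟩
      exact ⟨j, Finset.mem_range.1 hj, w, hw, rfl⟩
    · rintro ⟨j, hj, w, hw, rfl⟩
      exact ⟨j, Finset.mem_range.2 hj, w, hw, rfl⟩
  have hVK : VV v0 p ψ s1 s2 ⊆ K := by
    rintro z ⟨j, hj, w, hw, rfl⟩
    exact (hmem _).2 ⟨j, hj, w, ⟨hw.1.le, hw.2.le⟩, rfl⟩
  have hz0K : z0 ∉ K := by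
    intro hz
    obtain ⟨j, hj, w, hw, he⟩ := (hmem _).1 hz
    exact hnot j hj w (hsub hw) he.symm
  have hz0G : z0 ∉ Gam v0 p ψ s := by
    rintro ⟨j, hj, w, hw, he⟩
    exact hnot j hj w ⟨by rw [hw]; exact hs, by rw [hw]; exact hs'⟩ he.symm
  have hopen : IsOpen (K ∪ Gam v0 p ψ s)ᶜ :=
    (hKc.isClosed.union (gam_compact h hs hs').isClosed).isOpen_compl
  obtain ⟨ε, hε, hball⟩ := Metric.isOpen_iff.1 hopen z0 (by
    rintro (h3 | h3)
    · exact hz0K h3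
    · exact hz0G h3)
  refine ⟨ε, hε, fun z hz hzG => hball hz (Or.inr hzG), ?_⟩
  have hVo := vv_open h (s1 := s1) (s2 := s2) h1.le h2.le
  have hVn : (VV v0 p ψ s1 s2).Nonempty := by
    refine ⟨_, 0, h.hp, (((s1 + s2) / 2 : ℝ) : ℂ), ?_, rfl⟩
    have hr := h.hr
    have e : ‖(((s1 + s2) / 2 : ℝ) : ℂ)‖ = (s1 + s2) / 2 := by
      rw [Complex.norm_real, Real.norm_of_nonneg (by linarith)]
    refine ⟨?_, ?_⟩
    · rw [e]; linarith
    · rw [e]; linarith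
  obtain ⟨y, hy, m, hm1, hm2⟩ := hJ ε hε _ hVo hVn
  classical
  have hex : ∃ m, it v0 m y ∈ VV v0 p ψ s1 s2 := ⟨m, hm2⟩
  have hfm : Nat.find hex ≤ m := Nat.find_min' hex hm2
  have hf1 := Nat.find_spec hex
  have hf2 : ∀ k < Nat.find hex, it v0 k y ∉ VV v0 p ψ s1 s2 := fun k hk => Nat.find_min hex hk
  have hf0 : Nat.find hex ≠ 0 := by
    intro h0
    rw [h0] at hf1
    exact hball hy (Or.inl (hVK hf1))
  obtain ⟨n, hn⟩ : ∃ n, Nat.find hex = n + 1 := ⟨Nat.find hex - 1, by omega⟩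
  rw [hn] at hf1 hf2 hfm
  have hout := hf2 n (by omega)
  have hpole : ∀ j ≤ n, ev v0.2 (it v0 j y) ≠ 0 := fun j hj => hm1 j (by omega)
  have hoff : it v0 n y ∉ K := by
    intro hk
    obtain ⟨j, hj, w, hw, he⟩ := (hmem _).1 hk
    have hwA := hsub hw
    have hnotV : ∀ w', w' ∈ Ann s1 s2 → ‖w'‖ = ‖w‖ → False := by
      intro w' hw' hn'
      apply hout
      rw [he]
      exact ⟨j, hj, w, ⟨by rw [← hn']; exact hw'.1, by rw [← hn']; exact hw'.2⟩, rfl⟩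
    have e1 : it v0 (n + 1) y = psi v0 ψ (j + 1) w := by
      show ev v0.1 (it v0 n y) / ev v0.2 (it v0 n y) = _
      rw [he]
      rfl
    rw [e1] at hf1
    obtain ⟨j', hj', w', hw', he'⟩ := hf1
    have hw'A : w' ∈ Ann r R := ⟨h1.trans hw'.1, hw'.2.trans h2⟩
    rcases Nat.lt_or_ge (j + 1) p with hjp | hjp
    · obtain ⟨-, h4⟩ := h.inj (j + 1) hjp j' hj' w hwA w' hw'A he'
      exact hnotV w' hw' (by rw [h4])
    · have hjp' : j + 1 = p := by omega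
      rw [hjp', h.rot w hwA] at he'
      obtain ⟨-, h4⟩ := h.inj 0 h.hp j' hj' (l * w) (rot_ann h.rotl hwA) w' hw'A he'
      exact hnotV w' hw' (by rw [← h4, rot_norm h.rotl])
  -- the conditions are open
  have hpole' : ∀ j < n + 1, ev v0.2 (it v0 j y) ≠ 0 := fun j hj => hpole j (by omega)
  have hevc : Continuous (ev v0.2) := by
    have h4 := ev_cont (d := d)
    exact h4.comp (continuous_const.prodMk continuous_id)
  have c1 : ∀ᶠ y' in 𝓝 y, ∀ j ∈ Finset.range (n + 1), ev v0.2 (it v0 j y') ≠ 0 := by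
    rw [Filter.eventually_all_finset]
    intro j hj
    have hj' := Finset.mem_range.1 hj
    have h4 : ContinuousAt (fun y' => ev v0.2 (it v0 j y')) y :=
      hevc.continuousAt.comp (zrb_cont v0 hpole' hj'.le)
    exact h4.eventually_ne (hpole' j hj')
  have c2 : ∀ᶠ y' in 𝓝 y, it v0 (n + 1) y' ∈ VV v0 p ψ s1 s2 :=
    (zrb_cont v0 hpole' le_rfl).eventually_mem (hVo.mem_nhds hf1)
  have c3 : ∀ᶠ y' in 𝓝 y, it v0 n y' ∈ Kᶜ :=
    (zrb_cont v0 hpole' (Nat.le_succ n)).eventually_mem (hKc.isClosed.isOpen_compl.mem_nhds hoff)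
  have c4 : ∀ᶠ y' in 𝓝 y, y' ∈ ball z0 ε := isOpen_ball.mem_nhds hy
  obtain ⟨N, hN1, hN2, hN3⟩ := _root_.eventually_nhds_iff.1 ((c1.and c2).and (c3.and c4))
  refine ⟨N, hN2, ⟨y, hN3⟩, fun y' hy' => (hN1 y' hy').2.2, n, fun y' hy' => ?_⟩
  obtain ⟨⟨d1, d2⟩, d3, -⟩ := hN1 y' hy'
  exact ⟨fun j hj => d1 j (Finset.mem_range.2 (by omega)), d2, fun hV => d3 (hVK hV)⟩

end Pool.Agent.H56.HR
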